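import Pool.Agent.ALQ.Defs
import Pool.Agent.CorA.P_NC4

/-!
# BAD: the tops with small charge
-/

set_option autoImplicit false

namespace Pool.Agent.ALQ

open Complex Metric Set Filter Topology MeasureTheory
open Pool.Corona91698f Pool.Agent.CorE Pool.Agent.CorA
open scoped Real BoundedContinuousFunction

namespace BAD_

/-- Geometric sums. -/
noncomputable def Gs (B : ℕ → ℝ) : ℕ → ℝ
  | 0 => 0
  | (k + 1) => B (k + 1) + 1 / 4 * Gs B k

theorem Gs_sum {ι : Type} (s : Finset ι) (B : ι → ℕ → ℝ) (k : ℕ) :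
    ∑ u ∈ s, Gs (B u) k = Gs (fun m => ∑ u ∈ s, B u m) k := by
  induction k with
  | zero => simp [Gs]
  | succ k ih =>
    simp only [Gs]
    rw [Finset.sum_add_distrib, ← Finset.mul_sum, ih]

theorem Gs_le (B : ℕ → ℝ) (E : ℝ) (k : ℕ) (hB : ∀ m, m ≤ k → B m ≤ E) (hE : 0 ≤ E) :
    Gs B k ≤ 4 / 3 * E := by
  induction k with
  | zero =>
    simp only [Gs]
    positivity
  | succ k ih =>
    simp only [Gs]
    have h1 := ih fun m hm => hB m (by omega)
    have h2 := hB (k + 1) (le_refl _)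
    linarith

theorem Gs_nonneg (B : ℕ → ℝ) (k : ℕ) (hB : ∀ m, 0 ≤ B m) : 0 ≤ Gs B k := by
  induction k with
  | zero => simp [Gs]
  | succ k ih =>
    simp only [Gs]
    have := hB (k + 1)
    linarith

theorem Y_le {a mu bb : List D → ℝ} {K A : ℝ} (hK : 16 ≤ K) (hA : 0 ≤ A) (ha : ∀ u, 0 ≤ a u)
    (hmu : ∀ u, 0 ≤ mu u) (hbb : ∀ u, 0 ≤ bb u)
    (h1 : ∀ v, Top K a v → a v ≤ A * mu v + bb v) (u : List D) (S : ℝ) (J : ℕ)
    (hS : ∀ m, m ≤ J → ∑ y ∈ lv m, mu (u ++ y) ≤ S) (k : ℕ) (hk : k ≤ J) :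
    ∑ x ∈ lv k, a (u ++ x) ≤
      a u + 4 / 3 * (A * S) + Gs (fun m => ∑ y ∈ lv m, bb (u ++ y)) k := by
  have hS0 : 0 ≤ S := (Finset.sum_nonneg fun y _ => hmu _).trans (hS 0 (by omega))
  have hAS : 0 ≤ A * S := mul_nonneg hA hS0
  induction k with
  | zero =>
    simp only [lv, Finset.sum_singleton, List.append_nil, Gs]
    linarith
  | succ k ih =>
    have hi := ih (by omega)
    rw [NC4_.sum_lv_snoc k (fun x => a (u ++ x))]
    have hpt : ∀ x ∈ lv k, ∀ d : D, a (u ++ (x ++ [d])) ≤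
        A * mu (u ++ (x ++ [d])) + bb (u ++ (x ++ [d])) + 1 / 16 * a (u ++ x) := by
      intro x _ d
      have b1 := ha (u ++ x)
      have b2 := mul_nonneg hA (hmu (u ++ (x ++ [d])))
      have b3 := hbb (u ++ (x ++ [d]))
      by_cases hT : Top K a (u ++ (x ++ [d]))
      · have := h1 _ hT
        linarith
      · unfold Top at hT
        push Not at hT
        have e : (u ++ (x ++ [d])).dropLast = u ++ x := by
          rw [← List.append_assoc, List.dropLast_concat]
        have h2 := hT.2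
        rw [e] at h2
        have h3 : 16 * a (u ++ (x ++ [d])) ≤ K * a (u ++ (x ++ [d])) :=
          mul_le_mul_of_nonneg_right hK (ha _)
        linarith
    have hsum : ∑ p ∈ lv k, ∑ d : D, a (u ++ (p ++ [d])) ≤
        A * ∑ y ∈ lv (k + 1), mu (u ++ y) + ∑ y ∈ lv (k + 1), bb (u ++ y) +
          1 / 4 * ∑ x ∈ lv k, a (u ++ x) := by
      calc ∑ p ∈ lv k, ∑ d : D, a (u ++ (p ++ [d])) ≤ ∑ p ∈ lv k, ∑ d : D,
            (A * mu (u ++ (p ++ [d])) + bb (u ++ (p ++ [d])) + 1 / 16 * a (u ++ p)) :=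
            Finset.sum_le_sum fun p hp => Finset.sum_le_sum fun d _ => hpt p hp d
        _ = A * ∑ p ∈ lv k, ∑ d : D, mu (u ++ (p ++ [d])) +
            ∑ p ∈ lv k, ∑ d : D, bb (u ++ (p ++ [d])) +
            1 / 16 * ∑ p ∈ lv k, ∑ d : D, a (u ++ p) := by
            simp only [Finset.sum_add_distrib, ← Finset.mul_sum]
        _ = _ := by
            rw [NC4_.sum_lv_snoc k (fun x => mu (u ++ x)),
              NC4_.sum_lv_snoc k (fun x => bb (u ++ x))]
            have e1 : ∑ p ∈ lv k, ∑ d : D, a (u ++ p) = 4 * ∑ x ∈ lv k, a (u ++ x) := by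
              simp only [Finset.sum_const, Finset.card_univ, nsmul_eq_mul]
              rw [Finset.mul_sum]
              refine Finset.sum_congr rfl fun p _ => ?_
              norm_num
            rw [e1]
            ring
    have h4 := mul_le_mul_of_nonneg_left (hS (k + 1) hk) hA
    simp only [Gs]
    have h5 := ha u
    linarith

theorem cm_le_mm {n : ℕ} (f : Fin n → ℂ → ℂ) (h : Fin n → Fin n → ℂ → ℂ) (v : List D)
    (i j : Fin n) : ‖cm v (h i j)‖ ≤ ‖mm f h v‖ := by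
  have h1 := PiLp.norm_apply_le (mm f h v) (i, j, none)
  have e : (mm f h v) (i, j, none) = cm v (h i j) := by
    simp [mm]
  rw [e] at h1
  exact h1

end BAD_

open BAD_ in
theorem p_BAD (hGLL : T_GLL) (hMAS : T_MAS) : T_BAD := by
  classical
  intro n C₀ K hC₀ hK
  obtain ⟨Cg, hCg, HG⟩ := hGLL
  obtain ⟨C2, hC2, H2⟩ := hMAS n
  set K' : ℝ := max K 16 with hK'
  have hK16 : 16 ≤ K' := le_max_right _ _
  have hKK : K ≤ K' := le_max_left _ _
  have hK1 : 1 ≤ K' := by linarith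
  set C₁ : ℝ := Cg * K' ^ Cg with hC₁
  have hp1 : 1 ≤ K' ^ Cg := Real.one_le_rpow hK1 (by linarith)
  have hC₁1 : 1 ≤ C₁ := by
    rw [hC₁]
    nlinarith
  obtain ⟨j₀, hj₀⟩ := exists_pow_lt_of_lt_one (show (0 : ℝ) < 1 / (64 * C₁) by positivity)
    (show (3 / 4 : ℝ) < 1 by norm_num)
  set j : ℕ := j₀ + 1 with hj
  have hj1 : 1 ≤ j := by omega
  set q : ℝ := (3 / 4 : ℝ) ^ j with hq
  have hq0 : 0 < q := by positivity
  have hCq : C₁ * q ≤ 1 / 64 := by
    have h1 : q ≤ (3 / 4 : ℝ) ^ j₀ := pow_le_pow_of_le_one (by norm_num) (by norm_num) (by omega)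
    have h2 : q ≤ 1 / (64 * C₁) := h1.trans hj₀.le
    calc C₁ * q ≤ C₁ * (1 / (64 * C₁)) := mul_le_mul_of_nonneg_left h2 (by linarith)
      _ = 1 / 64 := by field_simp
  set A : ℝ := 16 * C₁ with hA
  have hA1 : 1 ≤ A := by linarith
  have hC20 : 0 < C2 * C₀ := by positivity
  refine ⟨A, 1 + 2 * ((2 * j + 1) * C₀) + 2 * (A * (2 * j * (C2 * C₀))), hA1, ?_, ?_⟩
  · have : 0 ≤ 2 * ((2 * j + 1) * C₀) + 2 * (A * (2 * j * (C2 * C₀))) := by positivity
    linarith
  intro N δ f h a hN hD hH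
  have ha := hH.nn
  obtain ⟨hm1, -, hm3⟩ := H2 N δ C₀ f h a hD hH
  set bb : List D → ℝ := fun u => if Top K' a u ∧ A * ‖mm f h u‖ < a u then a u else 0 with hbb
  have hbb0 : ∀ u, 0 ≤ bb u := by
    intro u
    simp only [hbb]
    split_ifs
    · exact ha u
    · exact le_refl _
  have hbba : ∀ u, bb u ≤ a u := by
    intro u
    simp only [hbb]
    split_ifs
    · exact le_refl _
    · exact ha u
  have htop : ∀ v, Top K' a v → a v ≤ A * ‖mm f h v‖ + bb v := by
    intro v hv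
    simp only [hbb]
    split_ifs with hc
    · have : 0 ≤ A * ‖mm f h v‖ := by positivity
      linarith
    · push Not at hc
      have := hc hv
      linarith
  -- the levels
  set X : ℕ → ℝ := fun l => ∑ u ∈ lv l, bb u with hX
  set M : ℕ → ℝ := fun l => ∑ u ∈ lv l, ‖mm f h u‖ with hM
  have hX0 : ∀ l, 0 ≤ X l := fun l => Finset.sum_nonneg fun u _ => hbb0 u
  have hM0 : ∀ l, 0 ≤ M l := fun l => Finset.sum_nonneg fun u _ => norm_nonneg _
  have hXC : ∀ l, l < N → X l ≤ C₀ := fun l hl =>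
    (Finset.sum_le_sum fun u _ => hbba u).trans (hH.lev l hl)
  have hMC : ∀ l, l < N → M l ≤ C2 * C₀ := by
    intro l hl
    calc M l ≤ ∑ u ∈ lv l, C2 * a u := Finset.sum_le_sum fun u hu => hm1 u (by
            rw [mem_lv.1 hu]
            exact hl)
      _ = C2 * ∑ u ∈ lv l, a u := by rw [← Finset.mul_sum]
      _ ≤ C2 * C₀ := mul_le_mul_of_nonneg_left (hH.lev l hl) (by linarith)
  set P : ℕ := N - (2 * j + 1) with hP
  -- pointwise
  have hpt : ∀ m, m < P → ∀ p ∈ lv m, ∀ d : D, bb (p ++ [d]) ≤ 1 / 4 * bb (p ++ [d]) +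
      1 / 64 * (Gs (fun m => ∑ y ∈ lv m, bb (p ++ [d] ++ y)) j +
        Gs (fun m => ∑ y ∈ lv m, bb (p ++ [d] ++ y)) (2 * j)) +
      A * (∑ x ∈ lv (2 * j), ‖mm f h (p ++ [d] ++ x)‖ - ‖mm f h (p ++ [d])‖) := by
    intro m hm p hp d
    have hpl : p.length = m := mem_lv.1 hp
    have hlen : (p ++ [d]).length + 2 * j < N := by
      simp only [List.length_append, List.length_cons, List.length_nil]
      omega
    have g0 : ∀ k, 0 ≤ Gs (fun m => ∑ y ∈ lv m, bb (p ++ [d] ++ y)) k := fun k =>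
      Gs_nonneg _ k fun m => Finset.sum_nonneg fun y _ => hbb0 _
    have hmm : ∀ i, i ≤ 2 * j → ∑ y ∈ lv i, ‖mm f h (p ++ [d] ++ y)‖ ≤
        ∑ x ∈ lv (2 * j), ‖mm f h (p ++ [d] ++ x)‖ := by
      intro i hi
      obtain ⟨r, hr⟩ := Nat.exists_eq_add_of_le hi
      rw [hr, sum_lv_add]
      refine Finset.sum_le_sum fun y hy => ?_
      have hyl : y.length = i := mem_lv.1 hy
      rw [hm3 (p ++ [d] ++ y) r (by
        rw [List.length_append, hyl]
        omega)]
      refine (norm_sum_le _ _).trans (le_of_eq ?_)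
      refine Finset.sum_congr rfl fun x _ => ?_
      rw [List.append_assoc (p ++ [d])]
    have hI0 : 0 ≤ ∑ x ∈ lv (2 * j), ‖mm f h (p ++ [d] ++ x)‖ - ‖mm f h (p ++ [d])‖ := by
      have b1 := hmm 0 (by omega)
      simp only [lv, Finset.sum_singleton, List.append_nil] at b1
      linarith
    by_cases hb : Top K' a (p ++ [d]) ∧ A * ‖mm f h (p ++ [d])‖ < a (p ++ [d])
    · have e0 : bb (p ++ [d]) = a (p ++ [d]) := by
        simp only [hbb]
        rw [if_pos hb]
      rw [e0]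
      set S : ℝ := ∑ x ∈ lv (2 * j), ‖mm f h (p ++ [d] ++ x)‖ with hS
      have hapos : 0 < a (p ++ [d]) := by
        have : 0 ≤ A * ‖mm f h (p ++ [d])‖ := by positivity
        linarith [hb.2]
      have hpar : a p ≤ K' * a (p ++ [d]) := by
        rcases hb.1 with h1 | h1
        · simp at h1
        · rwa [List.dropLast_concat] at h1
      obtain ⟨i1, i2, y₀, hy1, hy2⟩ := hH.att (p ++ [d]) (by omega)
      have hg := HG N j p d (h i1 i2) a (a (p ++ [d])) K' y₀ hj1 (by omega) (hH.diff i1 i2)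
        (fun v hv z hz => hH.up v hv i1 i2 z hz) hapos hK1 hy1
        (by
          simpa only [List.length_append, List.length_cons, List.length_nil, zero_add]
            using hy2) hpar
      have hcm : ∑ x ∈ lv (2 * j), ‖cm (p ++ [d] ++ x) (h i1 i2)‖ ≤ S :=
        Finset.sum_le_sum fun x _ => cm_le_mm f h _ i1 i2
      have hY : ∀ k, k ≤ 2 * j → ∑ x ∈ lv k, a (p ++ [d] ++ x) ≤
          a (p ++ [d]) + 4 / 3 * (A * S) +
            Gs (fun m => ∑ y ∈ lv m, bb (p ++ [d] ++ y)) k := by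
        intro k hk
        exact Y_le (mu := fun v => ‖mm f h v‖) hK16 (by linarith) ha (fun v => norm_nonneg _)
          hbb0 htop (p ++ [d]) S (2 * j) hmm k hk
      have y1 := hY j (by omega)
      have y2 := hY (2 * j) (le_refl _)
      have hAS : A * S ≤ a (p ++ [d]) + A * (S - ‖mm f h (p ++ [d])‖) := by
        have := hb.2
        linarith
      set I : ℝ := S - ‖mm f h (p ++ [d])‖ with hI
      have hCS : C₁ * S ≤ 1 / 16 * a (p ++ [d]) + A / 16 * I := by
        have : C₁ * S = 1 / 16 * (A * S) := by rw [hA]; ring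
        rw [this]
        linarith
      have g1 := g0 j
      have g2 := g0 (2 * j)
      have hAI : 0 ≤ A * I := mul_nonneg (by linarith) hI0
      have hsum2 : ∑ x ∈ lv j, a (p ++ [d] ++ x) + ∑ x ∈ lv (2 * j), a (p ++ [d] ++ x) ≤
          14 / 3 * a (p ++ [d]) + 8 / 3 * (A * I) +
            (Gs (fun m => ∑ y ∈ lv m, bb (p ++ [d] ++ y)) j +
              Gs (fun m => ∑ y ∈ lv m, bb (p ++ [d] ++ y)) (2 * j)) := by
        linarith
      have hs0 : 0 ≤ ∑ x ∈ lv j, a (p ++ [d] ++ x) + ∑ x ∈ lv (2 * j), a (p ++ [d] ++ x) :=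
        add_nonneg (Finset.sum_nonneg fun x _ => ha _) (Finset.sum_nonneg fun x _ => ha _)
      have hmain : a (p ++ [d]) ≤ (C₁ * q) * (∑ x ∈ lv j, a (p ++ [d] ++ x) +
          ∑ x ∈ lv (2 * j), a (p ++ [d] ++ x)) + C₁ * S := by
        calc a (p ++ [d]) ≤ C₁ * (q * (∑ x ∈ lv j, a (p ++ [d] ++ x) +
              ∑ x ∈ lv (2 * j), a (p ++ [d] ++ x)) +
              ∑ x ∈ lv (2 * j), ‖cm (p ++ [d] ++ x) (h i1 i2)‖) := hg
          _ ≤ C₁ * (q * (∑ x ∈ lv j, a (p ++ [d] ++ x) +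
              ∑ x ∈ lv (2 * j), a (p ++ [d] ++ x)) + S) :=
              mul_le_mul_of_nonneg_left (by linarith) (by linarith)
          _ = _ := by ring
      have hmul := mul_le_mul_of_nonneg_right hCq hs0
      linarith
    · have e0 : bb (p ++ [d]) = 0 := by
        simp only [hbb]
        rw [if_neg hb]
      rw [e0]
      have g1 := g0 j
      have g2 := g0 (2 * j)
      have : 0 ≤ A * (∑ x ∈ lv (2 * j), ‖mm f h (p ++ [d] ++ x)‖ - ‖mm f h (p ++ [d])‖) :=
        mul_nonneg (by linarith) hI0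
      linarith
  -- level sums
  have hlev : ∀ m, m < P → X (m + 1) ≤ 1 / 4 * X (m + 1) +
      1 / 64 * (Gs (fun i => X (m + 1 + i)) j + Gs (fun i => X (m + 1 + i)) (2 * j)) +
      A * (M (m + 1 + 2 * j) - M (m + 1)) := by
    intro m hm
    have hGs : ∀ k, ∑ p ∈ lv m, ∑ d : D, Gs (fun i => ∑ y ∈ lv i, bb (p ++ [d] ++ y)) k =
        Gs (fun i => X (m + 1 + i)) k := by
      intro k
      have e1 : ∀ p, ∑ d : D, Gs (fun i => ∑ y ∈ lv i, bb (p ++ [d] ++ y)) k =
          Gs (fun i => ∑ d : D, ∑ y ∈ lv i, bb (p ++ [d] ++ y)) k := fun p =>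
        Gs_sum Finset.univ (fun (d : D) i => ∑ y ∈ lv i, bb (p ++ [d] ++ y)) k
      simp only [e1]
      rw [Gs_sum (lv m) (fun p i => ∑ d : D, ∑ y ∈ lv i, bb (p ++ [d] ++ y)) k]
      congr 1
      funext i
      rw [NC4_.sum_lv_snoc_add m i bb]
    have e2 : X (m + 1) = ∑ p ∈ lv m, ∑ d : D, bb (p ++ [d]) := by
      simp only [hX]
      rw [NC4_.sum_lv_snoc]
    calc X (m + 1) = ∑ p ∈ lv m, ∑ d : D, bb (p ++ [d]) := e2
      _ ≤ ∑ p ∈ lv m, ∑ d : D, (1 / 4 * bb (p ++ [d]) +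
          1 / 64 * (Gs (fun m => ∑ y ∈ lv m, bb (p ++ [d] ++ y)) j +
            Gs (fun m => ∑ y ∈ lv m, bb (p ++ [d] ++ y)) (2 * j)) +
          A * (∑ x ∈ lv (2 * j), ‖mm f h (p ++ [d] ++ x)‖ - ‖mm f h (p ++ [d])‖)) :=
          Finset.sum_le_sum fun p hp => Finset.sum_le_sum fun d _ => hpt m hm p hp d
      _ = 1 / 4 * ∑ p ∈ lv m, ∑ d : D, bb (p ++ [d]) +
          1 / 64 * (∑ p ∈ lv m, ∑ d : D, Gs (fun m => ∑ y ∈ lv m, bb (p ++ [d] ++ y)) j +
            ∑ p ∈ lv m, ∑ d : D, Gs (fun m => ∑ y ∈ lv m, bb (p ++ [d] ++ y)) (2 * j)) +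
          A * (∑ p ∈ lv m, ∑ d : D, ∑ x ∈ lv (2 * j), ‖mm f h (p ++ [d] ++ x)‖ -
            ∑ p ∈ lv m, ∑ d : D, ‖mm f h (p ++ [d])‖) := by
          simp only [Finset.sum_add_distrib, ← Finset.mul_sum, Finset.sum_sub_distrib]
      _ = _ := by
          rw [hGs, hGs, ← e2, NC4_.sum_lv_snoc_add m (2 * j) (fun u => ‖mm f h u‖),
            ← NC4_.sum_lv_snoc m (fun u => ‖mm f h u‖)]
  set E : ℝ := ∑ l ∈ Finset.range N, X l with hE
  have hE0 : 0 ≤ E := Finset.sum_nonneg fun l _ => hX0 l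
  have hsh : ∀ i, i ≤ 2 * j → ∑ m ∈ Finset.range P, X (m + 1 + i) ≤ E := by
    intro i hi
    have e1 : ∑ m ∈ Finset.range P, X (m + 1 + i) =
        ∑ l ∈ Finset.Ico (1 + i) (P + (1 + i)), X l := by
      rw [Finset.sum_Ico_eq_sum_range]
      simp only [Nat.add_sub_cancel]
      exact Finset.sum_congr rfl fun m _ => by
        congr 1
        omega
    rw [e1]
    by_cases hP0 : P = 0
    · rw [hP0]
      simpa using hE0
    · refine Finset.sum_le_sum_of_subset_of_nonneg ?_ fun l _ _ => hX0 l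
      intro l hl'
      rw [Finset.mem_Ico] at hl'
      rw [Finset.mem_range]
      omega
  have hGE : ∀ k, k ≤ 2 * j → ∑ m ∈ Finset.range P, Gs (fun i => X (m + 1 + i)) k ≤
      4 / 3 * E := by
    intro k hk
    rw [Gs_sum (Finset.range P) (fun m i => X (m + 1 + i)) k]
    exact Gs_le _ E k (fun i hi => hsh i (by omega)) hE0
  have ht : ∑ m ∈ Finset.range P, (M (m + 1 + 2 * j) - M (m + 1)) ≤ 2 * j * (C2 * C₀) := by
    by_cases hP0 : P = 0
    · rw [hP0]
      simp only [Finset.range_zero, Finset.sum_empty]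
      positivity
    · have := NC4_.tele M (C2 * C₀) P (2 * j) hM0 (fun l hl => hMC l (by omega))
      push_cast at this
      exact this
  set S : ℝ := ∑ m ∈ Finset.range P, X (m + 1) with hS
  have hS0 : 0 ≤ S := Finset.sum_nonneg fun m _ => hX0 _
  have hSle : S ≤ 1 / 4 * S + 1 / 64 * (4 / 3 * E + 4 / 3 * E) +
      A * (2 * j * (C2 * C₀)) := by
    calc S ≤ ∑ m ∈ Finset.range P, (1 / 4 * X (m + 1) +
          1 / 64 * (Gs (fun i => X (m + 1 + i)) j + Gs (fun i => X (m + 1 + i)) (2 * j)) +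
          A * (M (m + 1 + 2 * j) - M (m + 1))) :=
          Finset.sum_le_sum fun m hm => hlev m (Finset.mem_range.1 hm)
      _ = 1 / 4 * S + 1 / 64 * (∑ m ∈ Finset.range P, Gs (fun i => X (m + 1 + i)) j +
          ∑ m ∈ Finset.range P, Gs (fun i => X (m + 1 + i)) (2 * j)) +
          A * ∑ m ∈ Finset.range P, (M (m + 1 + 2 * j) - M (m + 1)) := by
          simp only [Finset.sum_add_distrib, ← Finset.mul_sum]
          rfl
      _ ≤ _ := by
          have b1 := hGE j (by omega)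
          have b2 := hGE (2 * j) (le_refl _)
          have b3 := mul_le_mul_of_nonneg_left ht (show (0 : ℝ) ≤ A by linarith)
          linarith
  have hc := NC4_.card_le X C₀ N P (2 * j) hN hP hXC hC₀.le
  have hEle : E ≤ (2 * j + 1) * C₀ + S := by
    have := hc
    push_cast at this
    exact this
  have hfin : E ≤ 1 + 2 * ((2 * j + 1) * C₀) + 2 * (A * (2 * j * (C2 * C₀))) := by
    have b1 : 0 ≤ (2 * (j : ℝ) + 1) * C₀ := by positivity
    have b2 : 0 ≤ A * (2 * (j : ℝ) * (C2 * C₀)) := by positivity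
    linarith
  refine le_trans ?_ hfin
  rw [hE, ← NC4_.sum_wd_lv N hN]
  calc ∑ u ∈ (Tp N K a).filter (fun u => A * ‖mm f h u‖ < a u), a u ≤
        ∑ u ∈ (Tp N K a).filter (fun u => A * ‖mm f h u‖ < a u), bb u := by
        refine Finset.sum_le_sum fun u hu => ?_
        rw [Finset.mem_filter] at hu
        have h1 : Top K a u := by
          have := hu.1
          unfold Tp at this
          exact (Finset.mem_filter.1 this).2
        have h2 : Top K' a u := by
          rcases h1 with h1 | h1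
          · exact Or.inl h1
          · exact Or.inr (h1.trans (mul_le_mul_of_nonneg_right hKK (ha _)))
        simp only [hbb]
        rw [if_pos ⟨h2, hu.2⟩]
    _ ≤ ∑ u ∈ wd (N - 1), bb u := by
        refine Finset.sum_le_sum_of_subset_of_nonneg ?_ fun u _ _ => hbb0 u
        intro u hu
        have h1 := (Finset.mem_filter.1 hu).1
        unfold Tp at h1
        exact (Finset.mem_filter.1 h1).1

end Pool.Agent.ALQ
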