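import Pool.Agent.ALQ.TargetsG

/-!
# CIR: the size of the product against the product of the sizes
-/

set_option autoImplicit false

namespace Pool.Agent.ALQ

open Complex Metric Set Filter Topology MeasureTheory
open Pool.Corona91698f Pool.Agent.CorE Pool.Agent.CorA
open scoped Real

namespace CIR_

/-! ### geometry -/

theorem keepgt {t : ℝ} (ht : 7073 / 10000 ≤ t) (x : List D) {z : ℂ} (hz : t < dist z ctr) :
    t < dist (Psi x z) ctr := by
  induction x generalizing z with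
  | nil => simpa using hz
  | cons d x ih =>
    rw [Psi_cons]
    have h1 := dist_psi_ge d z
    exact ih (by linarith)

theorem keep (x : List D) {z : ℂ} (hz : 1 ≤ dist z ctr) : 1 ≤ dist (Psi x z) ctr := by
  induction x generalizing z with
  | nil => simpa using hz
  | cons d x ih =>
    rw [Psi_cons]
    have h1 := dist_psi_ge d z
    exact ih (by linarith)

theorem farq (v : List D) : ∀ (q : List D) (z : ℂ), v.length ≤ q.length → ¬ v <+: q →
    dist (Psi v z) ctr < 1 → 1 ≤ dist (Psi q z) ctr := by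
  induction v with
  | nil =>
    intro q z _ h
    exact absurd (List.nil_prefix) h
  | cons d v ih =>
    intro q z hl h hz
    cases q with
    | nil => simp at hl
    | cons d' q =>
      rw [Psi_cons] at hz ⊢
      by_cases hd : d = d'
      · subst hd
        refine ih q _ (by simpa using hl) (fun h' => h ?_) hz
        exact (List.cons_prefix_cons).2 ⟨rfl, h'⟩
      · refine keep q ?_
        by_contra hlt
        push Not at hlt
        refine hd (psi_disj (z := z) ?_ hlt)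
        by_contra h2
        push Not at h2
        have := keep v h2
        linarith

theorem memOm {N : ℕ} {v : List D} {z : ℂ} (hv : v.length < N) (h1 : dist (Psi v z) ctr < 1)
    (h2 : ∀ e : D, 73 / 100 < dist (psi e (Psi v z)) ctr) : z ∈ OmR (73 / 100) N := by
  intro q hq
  have hq' := mem_lv.1 hq
  by_cases hp : v <+: q
  · obtain ⟨x, rfl⟩ := hp
    cases x with
    | nil =>
      rw [List.append_nil] at hq'
      omega
    | cons e x =>
      rw [Psi_append, Psi_cons]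
      exact keepgt (by norm_num) x (h2 e)
  · have := farq v q z (by omega) hp h1
    linarith

theorem VV_Om {N : ℕ} {u : List D} (hu : u.length < N) {y : ℂ} (hy : y ∈ VV) :
    Phi u y ∈ OmR (73 / 100) N := by
  refine memOm hu ?_ ?_
  · rw [Psi_Phi]
    linarith [hy.1]
  · intro e
    rw [Psi_Phi]
    exact hy.2 e

theorem VV_notMem {z : ℂ} (hz : z ∈ VV) : z ∉ squareCantor := by
  intro h
  obtain ⟨d, hd⟩ := exists_psi_mem h
  have h1 := squareCantor_dist' hd
  have h2 := hz.2 d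
  linarith

theorem Phi_VV {u : List D} {z : ℂ} (hz : z ∈ VV) : Phi u z ∈ squareCantorᶜ := by
  intro h
  refine VV_notMem hz (mem_of_Phi_mem ?_ h)
  have := hz.1
  linarith

theorem ball_VV {x : ℂ} (hx : x ∈ nodeX) : closedBall x (4 / 10000) ⊆ VV := by
  intro z hz
  have h1 := mem_closedBall.1 hz
  refine ⟨?_, fun e => ?_⟩
  · have h2 := dist_triangle z x ctr
    have h3 := hx.1
    linarith
  · have h2 := dist_triangle (psi e x) (psi e z) ctr
    have h3 := hx.2 e
    have h4 := dist_psi e x z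
    rw [dist_comm x z] at h4
    linarith

/-- the size of `H` near the node of `u = p ++ [d]` -/
theorem bound2 {N : ℕ} {H : ℂ → ℂ} {A : List D → ℝ} {L : ℝ}
    (hS : ∀ v : List D, v.length < N → ∀ z, Psi v z ∈ nodeX → ‖H z‖ ≤ 3 ^ v.length * A v)
    {p : List D} {d : D} (ha : 0 ≤ A (p ++ [d]))
    (hl : p.length + 2 < N) (hL : 1 ≤ L) (hp : A p ≤ L * A (p ++ [d]))
    (hc : ∀ e : D, A (p ++ [d, e]) ≤ L * A (p ++ [d])) {y : ℂ} (hy : y ∈ VV) :
    ‖H (Phi (p ++ [d]) y)‖ ≤ 3 * L * (3 ^ (p.length + 1) * A (p ++ [d])) := by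
  have h3 : (0 : ℝ) < 3 ^ p.length := by positivity
  have hpos : 0 ≤ 3 ^ (p.length + 1) * A (p ++ [d]) := by positivity
  by_cases c1 : dist y ctr ≤ 80 / 100
  · by_cases c2 : ∀ e : D, 74 / 100 ≤ dist (psi e y) ctr
    · have h4 := hS (p ++ [d]) (by simp; omega) (Phi (p ++ [d]) y)
        (by rw [Psi_Phi]; exact ⟨c1, c2⟩)
      rw [List.length_append, List.length_singleton] at h4
      refine h4.trans ?_
      have : 1 * (3 ^ (p.length + 1) * A (p ++ [d])) ≤
          3 * L * (3 ^ (p.length + 1) * A (p ++ [d])) :=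
        mul_le_mul_of_nonneg_right (by linarith) hpos
      linarith
    · push Not at c2
      obtain ⟨e, he⟩ := c2
      have h5 : Psi (p ++ [d, e]) (Phi (p ++ [d]) y) = psi e y := by
        have e1 : p ++ [d, e] = (p ++ [d]) ++ [e] := by simp
        rw [e1, Psi_snoc, Psi_Phi]
      have h4 := hS (p ++ [d, e]) (by simp; omega) (Phi (p ++ [d]) y) (by
        rw [h5]
        refine ⟨by linarith, fun e' => ?_⟩
        have h6 := dist_psi_ge e' (psi e y)
        have h7 := hy.2 e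
        linarith)
      have h8 : (p ++ [d, e]).length = p.length + 1 + 1 := by simp
      rw [h8] at h4
      refine h4.trans ?_
      calc (3 : ℝ) ^ (p.length + 1 + 1) * A (p ++ [d, e])
          ≤ 3 ^ (p.length + 1 + 1) * (L * A (p ++ [d])) :=
            mul_le_mul_of_nonneg_left (hc e) (by positivity)
        _ = 3 * L * (3 ^ (p.length + 1) * A (p ++ [d])) := by ring
  · push Not at c1
    have h5 : Psi p (Phi (p ++ [d]) y) = phi d y := by
      rw [Phi_snoc, Psi_Phi]
    have h4 := hS p (by omega) (Phi (p ++ [d]) y) (by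
      rw [h5]
      refine ⟨?_, fun e => ?_⟩
      · have h6 := dist_triangle (phi d y) (phi d ctr) ctr
        have h7 := dist_phi' d y ctr
        have h8 := dist_phi_ctr d
        have h9 := hy.1
        linarith
      · by_cases hed : e = d
        · rw [hed, psi_phi]
          linarith
        · by_contra hlt
          push Not at hlt
          refine hed (psi_disj (z := phi d y) (by linarith) ?_)
          rw [psi_phi]
          linarith [hy.1])
    refine h4.trans ?_
    calc (3 : ℝ) ^ p.length * A p ≤ 3 ^ p.length * (L * A (p ++ [d])) :=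
          mul_le_mul_of_nonneg_left hp h3.le
      _ ≤ 3 ^ p.length * (L * A (p ++ [d])) * 9 := by
          have : 0 ≤ 3 ^ p.length * (L * A (p ++ [d])) := by positivity
          linarith
      _ = 3 * L * (3 ^ (p.length + 1) * A (p ++ [d])) := by ring

/-- the arithmetic of the lower bound -/
theorem core {C₀ θ t P f g g₀ : ℝ} {m k : ℕ} (hC₀ : 1 ≤ C₀) (hθ : θ = 4 / 10000 / C₀)
    (hθ0 : 0 < θ) (hlog : Real.log θ ≤ 0) (ht : 0 < t)
    (hm : (m : ℝ) ≤ C₀ * Real.log (2 / t)) (hP : 0 ≤ P) (hg : 0 ≤ g) (hg₀ : 0 ≤ g₀)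
    (h1 : 2 * (t / 2) ^ C₀ * (P / C₀ ^ m) ≤ f)
    (h2 : (4 / 10000) ^ (m * k) * g₀ ≤ P ^ k * g) :
    (t / 2) ^ ((C₀ + C₀ * -Real.log θ) * k) * g₀ ≤ f ^ k * g := by
  have hC0 : 0 < C₀ := by linarith
  have hq : 0 < t / 2 := by positivity
  have hqC : 0 < (t / 2) ^ C₀ := Real.rpow_pos_of_pos hq _
  have e1 : Real.log (2 / t) = - Real.log (t / 2) := by
    rw [← Real.log_inv, inv_div]
  have h4 : (t / 2) ^ (C₀ * -Real.log θ) ≤ θ ^ m := by
    rw [Real.rpow_def_of_pos hq, ← Real.rpow_natCast θ m, Real.rpow_def_of_pos hθ0]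
    refine Real.exp_le_exp.2 ?_
    rw [e1] at hm
    nlinarith
  have h5 : (t / 2) ^ ((C₀ + C₀ * -Real.log θ) * k) =
      ((t / 2) ^ C₀ * (t / 2) ^ (C₀ * -Real.log θ)) ^ k := by
    rw [Real.rpow_mul hq.le, Real.rpow_add hq, Real.rpow_natCast]
  have h6 : 0 ≤ (t / 2) ^ (C₀ * -Real.log θ) := Real.rpow_nonneg hq.le _
  have h7 : θ ^ m = (4 / 10000) ^ m / C₀ ^ m := by rw [hθ, div_pow]
  rw [h5]
  calc ((t / 2) ^ C₀ * (t / 2) ^ (C₀ * -Real.log θ)) ^ k * g₀
      ≤ ((t / 2) ^ C₀ * θ ^ m) ^ k * g₀ := by gcongr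
    _ = ((t / 2) ^ C₀ / C₀ ^ m) ^ k * ((4 / 10000) ^ (m * k) * g₀) := by
        rw [h7, pow_mul, mul_pow, div_pow, div_pow]
        ring
    _ ≤ ((t / 2) ^ C₀ / C₀ ^ m) ^ k * (P ^ k * g) :=
        mul_le_mul_of_nonneg_left h2 (by positivity)
    _ = ((t / 2) ^ C₀ * (P / C₀ ^ m)) ^ k * g := by
        rw [← mul_assoc, ← mul_pow]
        congr 2
        ring
    _ ≤ (2 * (t / 2) ^ C₀ * (P / C₀ ^ m)) ^ k * g := by
        have h8 : 0 ≤ (t / 2) ^ C₀ * (P / C₀ ^ m) := by positivity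
        refine mul_le_mul_of_nonneg_right (pow_le_pow_left₀ h8 (by linarith) k) hg
    _ ≤ f ^ k * g := by
        have h8 : 0 ≤ 2 * (t / 2) ^ C₀ * (P / C₀ ^ m) := by positivity
        exact mul_le_mul_of_nonneg_right (pow_le_pow_left₀ h8 h1 k) hg

end CIR_

open CIR_ in
/-- The size of the product against the product of the sizes. -/
theorem p_CIR (h1 : T_UNI) (h2 : T_PRH) : T_CIR := by
  obtain ⟨C₀, hC₀, hU⟩ := h1
  intro k
  have hC0 : 0 < C₀ := by linarith
  obtain ⟨θ, hθ⟩ : ∃ θ : ℝ, θ = 4 / 10000 / C₀ := ⟨_, rfl⟩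
  have hθ0 : 0 < θ := by
    rw [hθ]
    positivity
  have hθ1 : θ ≤ 1 := by
    rw [hθ, div_le_one hC0]
    linarith
  have hlog : Real.log θ ≤ 0 := Real.log_nonpos hθ0.le hθ1
  refine ⟨max 3 ((C₀ + C₀ * -Real.log θ) * k), le_trans (by norm_num) (le_max_left _ _), ?_⟩
  intro N φ h A p d L t a₀ x hφ hφ2 hh hA' hl hL ht ht2 hy hx hxa hp hc
  obtain ⟨y, hy, hyt⟩ := hy
  have hul : (p ++ [d]).length = p.length + 1 := by simp
  have hlt : (p ++ [d]).length < N := by omega
  have h3 : (0 : ℝ) < 3 ^ (p.length + 1) := by positivity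
  have hA : 0 ≤ A (p ++ [d]) := by
    have h4 := (norm_nonneg _).trans (hA' (p ++ [d]) hlt x hx)
    rw [hul] at h4
    exact nonneg_of_mul_nonneg_right h4 h3
  have hF : DifferentiableOn ℂ (fun z => φ (Phi (p ++ [d]) z)) VV :=
    hφ.comp (differentiable_Phi _).differentiableOn fun z hz => Phi_VV hz
  obtain ⟨m, b, hm, hb⟩ := hU (fun z => φ (Phi (p ++ [d]) z)) 2 t (Psi (p ++ [d]) y)
    (Psi (p ++ [d]) x) hF (fun z hz => hφ2 _ (Phi_VV hz)) ht hy
    (by simpa only [Phi_Psi] using hyt) hx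
  have hG : DiffContOnCl ℂ (fun z => h (Phi (p ++ [d]) z))
      (ball (Psi (p ++ [d]) x) (4 / 10000)) := by
    refine DifferentiableOn.diffContOnCl_ball (U := VV) ?_ (ball_VV hx)
    exact hh.comp (differentiable_Phi _).differentiableOn fun z hz => VV_Om hlt hz
  obtain ⟨w, hw, hwG⟩ := h2 m k b (Psi (p ++ [d]) x) (4 / 10000)
    (fun z => h (Phi (p ++ [d]) z)) (by norm_num) hG
  simp only [Phi_Psi] at hwG
  have hwb := mem_closedBall.2 hw.le
  have hwV : w ∈ VV := ball_VV hx hwb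
  have hφw := hb w hwb
  have e3 : ∏ i, (dist w (b i) / C₀) = (∏ i, dist w (b i)) / C₀ ^ m := by
    rw [Finset.prod_div_distrib]
    simp
  rw [e3] at hφw
  have hP : 0 ≤ ∏ i, dist w (b i) := Finset.prod_nonneg fun i _ => dist_nonneg
  have hlow := core (k := k) hC₀ hθ hθ0 hlog ht hm hP (norm_nonneg (h (Phi (p ++ [d]) w)))
    (norm_nonneg (h x)) hφw hwG
  have hup : ‖φ (Phi (p ++ [d]) w) ^ k * h (Phi (p ++ [d]) w)‖ ≤
      3 * L * (3 ^ (p.length + 1) * A (p ++ [d])) :=
    bound2 (H := fun z => φ z ^ k * h z) hA' hA hl hL hp hc hwV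
  rw [norm_mul, norm_pow] at hup
  have hq : 0 < t / 2 := by positivity
  have hq1 : t / 2 ≤ 1 := by linarith
  have hpw : (t / 2) ^ (max 3 ((C₀ + C₀ * -Real.log θ) * k)) ≤
      (t / 2) ^ ((C₀ + C₀ * -Real.log θ) * k) :=
    Real.rpow_le_rpow_of_exponent_ge hq hq1 (le_max_right _ _)
  have hpw0 : 0 ≤ (t / 2) ^ (max 3 ((C₀ + C₀ * -Real.log θ) * k)) := Real.rpow_nonneg hq.le _
  have hfin : 3 ^ (p.length + 1) * ((t / 2) ^ (max 3 ((C₀ + C₀ * -Real.log θ) * k)) * a₀) ≤
      3 ^ (p.length + 1) * (3 * L * A (p ++ [d])) := by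
    calc 3 ^ (p.length + 1) * ((t / 2) ^ (max 3 ((C₀ + C₀ * -Real.log θ) * k)) * a₀)
        = (t / 2) ^ (max 3 ((C₀ + C₀ * -Real.log θ) * k)) * (3 ^ (p.length + 1) * a₀) := by ring
      _ ≤ (t / 2) ^ (max 3 ((C₀ + C₀ * -Real.log θ) * k)) * ‖h x‖ :=
          mul_le_mul_of_nonneg_left hxa hpw0
      _ ≤ (t / 2) ^ ((C₀ + C₀ * -Real.log θ) * k) * ‖h x‖ :=
          mul_le_mul_of_nonneg_right hpw (norm_nonneg _)
      _ ≤ 3 * L * (3 ^ (p.length + 1) * A (p ++ [d])) := hlow.trans hup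
      _ = 3 ^ (p.length + 1) * (3 * L * A (p ++ [d])) := by ring
  refine (le_of_mul_le_mul_left hfin h3).trans ?_
  have h5 : 3 * L ≤ max 3 ((C₀ + C₀ * -Real.log θ) * k) * L :=
    mul_le_mul_of_nonneg_right (le_max_left _ _) (by linarith)
  exact mul_le_mul_of_nonneg_right h5 hA

end Pool.Agent.ALQ
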