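import Pool.Agent.ALQ.TargetsC
import Pool.Agent.CorA.P_MAI

/-!
# COS: local solutions with bounded pairing
-/

set_option autoImplicit false

namespace Pool.Agent.ALQ

open Complex Metric Set Filter Topology MeasureTheory
open Pool.Corona91698f Pool.Agent.CorE Pool.Agent.CorA
open scoped Real BoundedContinuousFunction

namespace COS_

theorem AM_nonneg {n : ℕ} (φ : ℂ → ℂ) (M : ℕ) (h : Fin n → Fin n → ℂ → ℂ) (v : List D) :
    0 ≤ AM φ M h v := by
  unfold AM
  refine Real.iSup_nonneg fun x => ?_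
  unfold sz sp
  refine mul_nonneg (by positivity) (Real.sSup_nonneg ?_)
  rintro _ ⟨z, _, rfl⟩
  exact norm_nonneg _

theorem wt_nonneg (φ : ℂ → ℂ) (v : List D) : 0 ≤ wt φ v := by
  unfold wt
  positivity

open Classical in
/-- every word has four children -/
theorem drop_sum (m : ℕ) (H : List D → ℝ) (hH : ∀ p, 0 ≤ H p) :
    ∑ u ∈ wd m, (if u = [] then 0 else H u.dropLast) ≤ 4 * ∑ p ∈ wd m, H p := by
  set X : List D → ℝ := fun u => if u = [] then 0 else H u.dropLast with hX
  have hX0 : ∀ u, 0 ≤ X u := by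
    intro u
    rw [hX]
    dsimp only
    split_ifs
    · exact le_rfl
    · exact hH _
  have hinj : Set.InjOn (fun x : List D × D => x.1 ++ [x.2])
      (((wd m) ×ˢ (Finset.univ : Finset D) : Finset (List D × D)) : Set (List D × D)) := by
    rintro ⟨p, d⟩ _ ⟨p', d'⟩ _ hpd
    have h1 : p ++ [d] = p' ++ [d'] := hpd
    have h2 := List.append_inj' h1 rfl
    have h3 : d = d' := by simpa using h2.2
    rw [h2.1, h3]
  have hsub : wd m ⊆ insert [] (((wd m) ×ˢ (Finset.univ : Finset D)).image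
      (fun x : List D × D => x.1 ++ [x.2])) := by
    intro u hu
    rcases List.eq_nil_or_concat u with h0 | ⟨p, d, h0⟩
    · rw [h0]
      exact Finset.mem_insert_self _ _
    · rw [List.concat_eq_append] at h0
      refine Finset.mem_insert_of_mem (Finset.mem_image.2 ⟨(p, d), ?_, h0.symm⟩)
      refine Finset.mem_product.2 ⟨mem_wd.2 ?_, Finset.mem_univ _⟩
      have h1 := mem_wd.1 hu
      rw [h0, List.length_append] at h1
      simp only [List.length_cons, List.length_nil] at h1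
      show p.length ≤ m
      omega
  have hnot : ([] : List D) ∉ ((wd m) ×ˢ (Finset.univ : Finset D)).image
      (fun x : List D × D => x.1 ++ [x.2]) := by
    intro h
    obtain ⟨x, _, hx⟩ := Finset.mem_image.1 h
    exact absurd hx (by simp)
  calc ∑ u ∈ wd m, X u ≤ ∑ u ∈ insert [] (((wd m) ×ˢ (Finset.univ : Finset D)).image
        (fun x : List D × D => x.1 ++ [x.2])), X u :=
        Finset.sum_le_sum_of_subset_of_nonneg hsub fun u _ _ => hX0 u
    _ = ∑ x ∈ (wd m) ×ˢ (Finset.univ : Finset D), X (x.1 ++ [x.2]) := by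
        rw [Finset.sum_insert hnot, Finset.sum_image hinj]
        have : X [] = 0 := if_pos rfl
        rw [this, zero_add]
    _ = ∑ x ∈ (wd m) ×ˢ (Finset.univ : Finset D), H x.1 := by
        refine Finset.sum_congr rfl fun x _ => ?_
        rw [hX]
        dsimp only
        rw [if_neg (by simp), List.dropLast_concat]
    _ = 4 * ∑ p ∈ wd m, H p := by
        rw [Finset.sum_product, Finset.mul_sum]
        refine Finset.sum_congr rfl fun p _ => ?_
        simp only [Finset.sum_const, Finset.card_univ, nsmul_eq_mul]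
        norm_num [Fintype.card_prod]

/-- the functions of FAR -/
theorem phs_props {n : ℕ} {δ : ℝ} {f : Fin n → ℂ → ℂ} (hdat : Dat n δ f) (hn : 1 ≤ n)
    (c : Fin n → ℂ) (hc : ∀ k, ‖c k‖ ≤ 1) (s : List D) (hs : cc s ∈ squareCantorᶜ) :
    DifferentiableOn ℂ (phs f c s) squareCantorᶜ ∧
    ∀ z ∈ squareCantorᶜ, ‖phs f c s z‖ ≤ 1 ∧ ‖phs f c s z‖ ≤ ∑ k, ‖f k z - f k (cc s)‖ := by
  have hn0 : (1 : ℝ) ≤ n := by exact_mod_cast hn
  constructor
  · unfold phs Fn
    refine DifferentiableOn.div_const ?_ _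
    refine DifferentiableOn.sub_const ?_ _
    exact DifferentiableOn.fun_sum fun k _ => (hdat.diff k).mul_const _
  · intro z hz
    have h1 : ‖phs f c s z‖ ≤ (∑ k, ‖f k z - f k (cc s)‖) / (2 * n) := by
      unfold phs Fn
      rw [norm_div, ← Finset.sum_sub_distrib]
      have h2 : ‖(2 * (n : ℂ))‖ = 2 * (n : ℝ) := by
        rw [norm_mul, Complex.norm_natCast]
        norm_num
      rw [h2]
      refine div_le_div_of_nonneg_right ?_ (by positivity)
      refine (norm_sum_le _ _).trans (Finset.sum_le_sum fun k _ => ?_)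
      rw [← sub_mul, norm_mul, RCLike.norm_conj]
      exact mul_le_of_le_one_right (norm_nonneg _) (hc k)
    have h3 : 0 ≤ ∑ k, ‖f k z - f k (cc s)‖ := Finset.sum_nonneg fun k _ => norm_nonneg _
    have h4 : ∑ k, ‖f k z - f k (cc s)‖ ≤ 2 * n := by
      calc ∑ k, ‖f k z - f k (cc s)‖ ≤ ∑ _k : Fin n, (2 : ℝ) := by
            refine Finset.sum_le_sum fun k _ => ?_
            refine (norm_sub_le _ _).trans ?_
            have := hdat.le k z hz
            have := hdat.le k (cc s) hs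
            linarith
        _ = 2 * n := by
            simp only [Finset.sum_const, Finset.card_univ, Fintype.card_fin, nsmul_eq_mul]
            ring
    refine ⟨h1.trans ?_, h1.trans ?_⟩
    · rw [div_le_one (by positivity)]
      exact h4
    · refine div_le_self h3 ?_
      linarith

open Classical in
/-- the fourth sum -/
theorem far_sum {N : ℕ} (hN : 1 ≤ N) (K : ℝ) (a : List D → ℝ) (G : List D → List D → ℝ)
    (hG : ∀ s y, 0 ≤ G s y) (hLST : T_LST) :
    ∑ y ∈ wd (N - 1), (if Top K a y then 0 else G (lst K a y) y) ≤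
      ∑ s ∈ Tp N K a, ∑ y ∈ Rg N K a s, G s y := by
  obtain ⟨l1, _, _, _, l5, _, _, _⟩ := hLST K a
  have hsub : ∀ s, Rg N K a s ⊆ wd (N - 1) := fun s => Finset.filter_subset _ _
  calc ∑ y ∈ wd (N - 1), (if Top K a y then 0 else G (lst K a y) y)
      ≤ ∑ y ∈ wd (N - 1), ∑ s ∈ Tp N K a, (if y ∈ Rg N K a s then G s y else 0) := by
        refine Finset.sum_le_sum fun y hy => ?_
        have h0 : ∀ s ∈ Tp N K a, 0 ≤ (if y ∈ Rg N K a s then G s y else 0) := by
          intro s _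
          split_ifs
          · exact hG s y
          · exact le_rfl
        by_cases ht : Top K a y
        · rw [if_pos ht]
          exact Finset.sum_nonneg h0
        · rw [if_neg ht]
          have hyl : y.length < N := by
            have := mem_wd.1 hy
            omega
          have hmem : lst K a y ∈ Tp N K a := by
            unfold Tp
            refine Finset.mem_filter.2 ⟨mem_wd.2 ?_, (l1 y).2.1⟩
            have := (l1 y).1.length_le
            omega
          have hR := l5 N y hyl ht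
          refine le_trans (le_of_eq ?_) (Finset.single_le_sum h0 hmem)
          rw [if_pos hR]
    _ = ∑ s ∈ Tp N K a, ∑ y ∈ wd (N - 1), (if y ∈ Rg N K a s then G s y else 0) :=
        Finset.sum_comm
    _ = ∑ s ∈ Tp N K a, ∑ y ∈ Rg N K a s, G s y := by
        refine Finset.sum_congr rfl fun s _ => ?_
        rw [Finset.sum_ite_mem, Finset.inter_eq_right.2 (hsub s)]

end COS_

open COS_

open Classical in
theorem p_COS (hFAR : T_FAR) (hNCR : T_NCR) (hRST : T_RST) (hEDG : T_EDG) (hLST : T_LST)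
    (hSZF : T_SZF) (hCSF : T_CSF) : T_COS := by
  intro n δ C₀ hδ hC₀
  by_cases hex : ∃ f : Fin n → ℂ → ℂ, Dat n δ f
  swap
  · exact ⟨1, 1, le_rfl, one_pos, fun N f h a _ hdat _ => absurd ⟨f, hdat⟩ hex⟩
  obtain ⟨_, _, hszc, _⟩ := hSZF
  have hccS : ∀ s : List D, cc s ∈ squareCantorᶜ := fun s => (hszc s).1 (hszc s).2
  obtain ⟨hn, hδ1⟩ : 1 ≤ n ∧ δ ≤ 1 := by
    obtain ⟨f, hf⟩ := hex
    obtain ⟨j, hj⟩ := hf.ge (cc []) (hccS [])
    refine ⟨?_, hj.trans (hf.le j _ (hccS []))⟩
    have := j.pos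
    omega
  obtain ⟨K, hK, hF⟩ := hFAR
  obtain ⟨M₀, hF⟩ := hF n C₀ K hC₀ le_rfl
  set M : ℕ := max 1 M₀ with hM
  obtain ⟨Cf, hCf, hF⟩ := hF M (le_max_right _ _)
  obtain ⟨A, hA, hNC⟩ := hNCR n C₀ K hC₀ hK
  have he0 : 0 < δ ^ 2 / (4 * (n : ℝ) + 4) := by positivity
  have he4 : δ ^ 2 / (4 * (n : ℝ) + 4) ≤ 4 := by
    rw [div_le_iff₀ (by positivity)]
    have hn0 : (0 : ℝ) ≤ n := Nat.cast_nonneg n
    nlinarith
  obtain ⟨Cr, ε₁, hCr, hε₁, hRS⟩ := hRST n C₀ K A _ hC₀ hA he0 he4
  obtain ⟨B, Ce, ε₂, hB, hCe, hε₂, hED⟩ := hEDG n M δ C₀ hδ (le_max_left _ _) hC₀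
  set ε : ℝ := min ε₁ ε₂ with hε
  have hε0 : 0 < ε := lt_min hε₁ hε₂
  obtain ⟨Cn, hCn, hNC⟩ := hNC ε hε0
  refine ⟨B, 2 * ((n : ℝ) ^ 2 * B ^ 2 * C₀) + Ce * (2 * Cn + Cr * (1 + Cn) + 5 * Cf) + 1, hB,
    by positivity, ?_⟩
  intro N f h a hN hdat hD
  obtain ⟨Cs, hR⟩ := (a_CST n (FF f) (ncc f h a K A ε) (tl f h a K A ε
    (δ ^ 2 / (4 * (n : ℝ) + 4)))).1
  obtain ⟨g, hg, hED⟩ := hED N K A ε f h a Cs hN hdat hD hε0 (min_le_right _ _) hR
  refine ⟨g, hg, ?_⟩
  have hCs1 := (hCSF n δ f h a K A ε _ Cs hdat he0 he4 hR).1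
  obtain ⟨hN1, hN2⟩ := hNC N δ f h a hN hdat hD
  have hN3 := hRS N δ ε Cn f h a Cs hN hdat hD hε0 (min_le_left _ _) hR hN2
  have hN4 := hF N δ f h a (fun s => phs f (Cs s) s) hN hdat hD
    (fun s => (phs_props hdat hn (Cs s) (hCs1 s) s (hccS s)).1)
    (fun s => (phs_props hdat hn (Cs s) (hCs1 s) s (hccS s)).2)
  set G : List D → List D → ℝ := fun s y =>
    wt (phs f (Cs s) s) y * AM (phs f (Cs s) s) M h y with hGdef
  have hG0 : ∀ s y, 0 ≤ G s y := fun s y => mul_nonneg (wt_nonneg _ _) (AM_nonneg _ _ _ _)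
  set T4 : List D → ℝ := fun y => if Top K a y then 0 else G (lst K a y) y with hT4
  have hT40 : ∀ y, 0 ≤ T4 y := by
    intro y
    rw [hT4]
    dsimp only
    split_ifs
    · exact le_rfl
    · exact hG0 _ _
  have hS4 : ∑ y ∈ wd (N - 1), T4 y ≤ Cf := (far_sum hN K a G hG0 hLST).trans hN4
  have hS5 := drop_sum (N - 1) T4 hT40
  rw [Finset.sum_filter] at hN2 hN3
  unfold Tp at hN1
  rw [Finset.filter_filter, Finset.sum_filter] at hN1
  have hpt : ∀ u ∈ wd (N - 1), ‖cm u (BB g h u)‖ ≤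
      (if u = [] then (n : ℝ) ^ 2 * B ^ 2 * a u else 0) + Ce * (
        (if u ≠ [] ∧ ncc f h a K A ε u.dropLast then a u else 0) +
        (if Top K a u ∧ ¬ GC f h a A ε u then a u else 0) +
        (if Reset (FF f) (ncc f h a K A ε) (tl f h a K A ε (δ ^ 2 / (4 * n + 4))) Cs u
          then a u else 0) + T4 u + (if u = [] then 0 else T4 u.dropLast)) := by
    intro u hu
    have hnn := hD.nn u
    have hl : u.length < N := by
      have := mem_wd.1 hu
      omega
    have e1 : 0 ≤ (if u ≠ [] ∧ ncc f h a K A ε u.dropLast then a u else 0) := by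
      split_ifs <;> linarith
    have e2 : 0 ≤ (if Top K a u ∧ ¬ GC f h a A ε u then a u else 0) := by
      split_ifs <;> linarith
    have e3 : 0 ≤ (if Reset (FF f) (ncc f h a K A ε) (tl f h a K A ε
        (δ ^ 2 / (4 * n + 4))) Cs u then a u else 0) := by
      split_ifs <;> linarith
    have e4 := hT40 u
    by_cases hnil : u = []
    · rw [if_pos hnil, if_pos hnil, add_zero]
      have h0 := MAI_.cm_in hg (by linarith) hD hl
      have h1 : 0 ≤ Ce * (
        (if u ≠ [] ∧ ncc f h a K A ε u.dropLast then a u else 0) +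
        (if Top K a u ∧ ¬ GC f h a A ε u then a u else 0) +
        (if Reset (FF f) (ncc f h a K A ε) (tl f h a K A ε (δ ^ 2 / (4 * n + 4))) Cs u
          then a u else 0) + T4 u) := mul_nonneg (by linarith) (by linarith)
      linarith
    · rw [if_neg hnil, if_neg hnil, zero_add]
      refine (hED u hu hnil).trans (mul_le_mul_of_nonneg_left (le_of_eq ?_) (by linarith))
      have q1 : (if ncc f h a K A ε u.dropLast then a u else 0) =
          (if u ≠ [] ∧ ncc f h a K A ε u.dropLast then a u else 0) := by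
        by_cases hc : ncc f h a K A ε u.dropLast
        · rw [if_pos hc, if_pos ⟨hnil, hc⟩]
        · rw [if_neg hc, if_neg (fun hh => hc hh.2)]
      rw [q1]
  have hsum := Finset.sum_le_sum hpt
  rw [Finset.sum_add_distrib, ← Finset.mul_sum, Finset.sum_add_distrib, Finset.sum_add_distrib,
    Finset.sum_add_distrib, Finset.sum_add_distrib] at hsum
  have hnil : ∑ u ∈ wd (N - 1), (if u = [] then (n : ℝ) ^ 2 * B ^ 2 * a u else 0) ≤
      (n : ℝ) ^ 2 * B ^ 2 * C₀ := by
    rw [Finset.sum_ite_eq' (wd (N - 1)) [] (fun u => (n : ℝ) ^ 2 * B ^ 2 * a u)]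
    rw [if_pos (mem_wd.2 (Nat.zero_le _))]
    exact mul_le_mul_of_nonneg_left (MAI_.a_nil hN hD) (by positivity)
  have hlast := MAI_.cm_last hg (by linarith) hD
  have hall : ∑ u ∈ wd (N - 1), ‖cm u (BB g h u)‖ ≤ (n : ℝ) ^ 2 * B ^ 2 * C₀ +
      Ce * (2 * Cn + Cr * (1 + Cn) + 5 * Cf) := by
    refine hsum.trans (add_le_add hnil (mul_le_mul_of_nonneg_left ?_ (by linarith)))
    linarith
  unfold TB
  calc ‖∑ u ∈ wd N, cm u (BB g h u)‖ ≤ ∑ u ∈ wd N, ‖cm u (BB g h u)‖ := norm_sum_le _ _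
    _ = ∑ u ∈ wd (N - 1), ‖cm u (BB g h u)‖ + ∑ u ∈ lv N, ‖cm u (BB g h u)‖ :=
        MAI_.split_last hN _
    _ ≤ _ := by linarith

end Pool.Agent.ALQ
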