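import Pool.Agent.ALQ.TargetsC

/-!
# ALQ, CSF: consequences of the rule of the directions
-/

set_option autoImplicit false

namespace Pool.Agent.ALQ

open Complex Metric Set Filter Topology MeasureTheory
open Pool.Corona91698f Pool.Agent.CorE Pool.Agent.CorA
open scoped Real BoundedContinuousFunction

namespace CSF_

theorem ff_le {n : ℕ} {δ : ℝ} {f : Fin n → ℂ → ℂ} (hf : Dat n δ f) (v : List D) (k : Fin n) :
    ‖FF f v k‖ ≤ 1 := hf.le k (cc v) (Pool.Agent.CorA.SRB_.cc_notMem v)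

theorem cs_le {n : ℕ} {δ : ℝ} {f : Fin n → ℂ → ℂ} (hf : Dat n δ f) {nc : List D → Prop}
    {tol : List D → ℝ} {Cs : List D → Fin n → ℂ} (hR : Rule (FF f) nc tol Cs) (u : List D)
    (k : Fin n) : ‖Cs u k‖ ≤ 1 := by
  obtain ⟨x, -, -, hx, -, -⟩ := (a_CST n (FF f) nc tol).2 Cs hR u
  rw [hx]
  exact ff_le hf x k

theorem dist_le {n : ℕ} {δ : ℝ} {f : Fin n → ℂ → ℂ} (hf : Dat n δ f) {nc : List D → Prop}
    {tol : List D → ℝ} {Cs : List D → Fin n → ℂ} (hR : Rule (FF f) nc tol Cs) (u p : List D) :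
    dist (FF f u) (Cs p) ≤ 2 := by
  refine (dist_pi_le_iff (by norm_num)).2 fun k => ?_
  rw [dist_eq_norm]
  calc ‖FF f u k - Cs p k‖ ≤ ‖FF f u k‖ + ‖Cs p k‖ := norm_sub_le _ _
    _ ≤ 2 := by linarith [ff_le hf u k, cs_le hf hR p k]

theorem exists_snoc {u : List D} (h : u ≠ []) : ∃ p d, u = p ++ [d] ∧ u.dropLast = p :=
  ⟨u.dropLast, u.getLast h, (List.dropLast_append_getLast h).symm, rfl⟩

end CSF_

open CSF_ in
theorem p_CSF (hLST : T_LST) : T_CSF := by
  intro n δ f h a K A ε e Cs hf he he4 hR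
  obtain ⟨-, hL2, hL3, -, -, -, -, -⟩ := hLST K a
  have hd : ∀ u p, dist (FF f u) (Cs p) ≤ 2 := fun u p => dist_le hf hR u p
  have htl1 : ∀ u, Top K a u → GC f h a A ε u → tl f h a K A ε e u = e / 4 := by
    intro u h1 h2
    unfold tl
    rw [if_pos ⟨h1, h2⟩]
  have htl2 : ∀ u, ¬ (Top K a u ∧ GC f h a A ε u) → tl f h a K A ε e u = 3 := by
    intro u h1
    unfold tl
    rw [if_neg h1]
  have h3 : ∀ u, ¬ Top K a u → ¬ ncc f h a K A ε u →
      ¬ ncc f h a K A ε u.dropLast ∧ Cs u = Cs u.dropLast ∧ lst K a u = lst K a u.dropLast := by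
    intro u hu1 hu2
    have hne : u ≠ [] := fun h0 => hu1 (Or.inl h0)
    obtain ⟨p, d, hpd, hdl⟩ := exists_snoc hne
    have hl : lst K a u = lst K a p := by
      rw [hpd] at hu1 ⊢
      exact hL3 p d hu1
    rw [hdl]
    have hnp : ¬ ncc f h a K A ε p := by
      unfold ncc at hu2 ⊢
      rw [← hl]
      exact hu2
    refine ⟨hnp, ?_, hl⟩
    have ht : tl f h a K A ε e u = 3 := htl2 u fun h0 => hu1 h0.1
    have := (hR.2 p d).2.1 hnp
    rw [← hpd] at this
    exact this (by rw [ht]; linarith [hd u p])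
  refine ⟨cs_le hf hR, ?_, fun u h1 h2 => ⟨(h3 u h1 h2).1, (h3 u h1 h2).2.1⟩, ?_, ?_, ?_⟩
  · intro u hu1 hu2
    by_cases hne : u = []
    · rw [hne, hR.1, dist_self]
      positivity
    · obtain ⟨p, d, hpd, -⟩ := exists_snoc hne
      have ht := htl1 u hu1 hu2
      obtain ⟨r1, r2, r3⟩ := hR.2 p d
      rw [← hpd] at r1 r2 r3
      by_cases hn : ncc f h a K A ε p
      · rw [r1 hn, dist_self]
        positivity
      · rcases le_or_gt (dist (FF f u) (Cs p)) (tl f h a K A ε e u) with hc | hc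
        · rw [r2 hn hc, ← ht]
          exact hc
        · rw [r3 hn hc, dist_self]
          positivity
  · intro u hne hu1 hu2 hn hres
    obtain ⟨p, d, hpd, hdl⟩ := exists_snoc hne
    rw [hdl] at hn ⊢
    obtain ⟨-, r2, -⟩ := hR.2 p d
    rw [← hpd] at r2
    refine r2 hn ?_
    by_contra hc
    refine hres ⟨hne, ?_, ?_⟩
    · rw [hdl]
      exact hn
    · rw [hdl]
      exact not_le.1 hc
  · intro u
    induction u using List.reverseRecOn with
    | nil =>
      intro _
      rw [hL2 [] (Or.inl rfl)]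
    | append_singleton p d ih =>
      intro hn
      by_cases ht : Top K a (p ++ [d])
      · rw [hL2 _ ht]
      · obtain ⟨g1, g2, g3⟩ := h3 _ ht hn
        have hdl : (p ++ [d]).dropLast = p := List.dropLast_concat
        rw [hdl] at g1 g2 g3
        rw [g2, g3]
        exact ih g1
  · intro u hu
    by_contra hc
    have ht := htl2 u hc
    have := hu.2.2
    rw [ht] at this
    linarith [hd u u.dropLast]

end Pool.Agent.ALQ
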