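import Pool.Agent.ALQ.TargetsC
import Pool.Agent.CorA.P_MAI

/-!
# EDG: the cost of one word
-/

set_option autoImplicit false

namespace Pool.Agent.ALQ

open Complex Metric Set Filter Topology MeasureTheory
open Pool.Corona91698f Pool.Agent.CorE Pool.Agent.CorA
open scoped Real BoundedContinuousFunction

namespace EDG_

open Pool.Agent.CorE.SLF_ (rad rad_pos rad_mul circ circ_NR circ_par cm_eq)
open Pool.Agent.CorA.MAI_ (circ_Om circ_par' circ_X cc_X cm_le BB_le cm_in rule_keep)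

theorem Fn_sub_le {n : ℕ} {f : Fin n → ℂ → ℂ} {c : Fin n → ℂ} (hc : ∀ k, ‖c k‖ ≤ 1) {z w : ℂ}
    {b : ℝ} (h : ∀ k, ‖f k z - f k w‖ ≤ b) : ‖Fn f c z - Fn f c w‖ ≤ n * b := by
  unfold Fn
  rw [← Finset.sum_sub_distrib]
  calc ‖∑ k, (f k z * (starRingEnd ℂ) (c k) - f k w * (starRingEnd ℂ) (c k))‖
      ≤ ∑ _k : Fin n, b := by
        refine (norm_sum_le _ _).trans (Finset.sum_le_sum fun k _ => ?_)
        rw [← sub_mul, norm_mul, RCLike.norm_conj]
        calc ‖f k z - f k w‖ * ‖c k‖ ≤ b * 1 :=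
              mul_le_mul (h k) (hc k) (norm_nonneg _) ((norm_nonneg _).trans (h k))
          _ = b := mul_one b
    _ = n * b := by simp

theorem Fn_le {n : ℕ} {δ : ℝ} {f : Fin n → ℂ → ℂ} (hd : Dat n δ f) {c : Fin n → ℂ}
    (hc : ∀ k, ‖c k‖ ≤ 1) {z : ℂ} (hz : z ∈ squareCantorᶜ) : ‖Fn f c z‖ ≤ n := by
  unfold Fn
  calc ‖∑ k, f k z * (starRingEnd ℂ) (c k)‖ ≤ ∑ _k : Fin n, (1 : ℝ) := by
        refine (norm_sum_le _ _).trans (Finset.sum_le_sum fun k _ => ?_)
        rw [norm_mul, RCLike.norm_conj]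
        exact mul_le_one₀ (hd.le k z hz) (norm_nonneg _) (hc k)
    _ = n := by simp

theorem tau_ge {n : ℕ} {δ : ℝ} (hδ : 0 < δ) {f : Fin n → ℂ → ℂ} (hd : Dat n δ f) {c : Fin n → ℂ}
    {z : ℂ} (hz : z ∈ squareCantorᶜ) {e : ℝ} (he : ∀ k, ‖f k z - c k‖ ≤ e)
    (hne : n * e ≤ δ ^ 2 / 2) : δ ^ 2 / 2 ≤ ‖Fn f c z‖ := by
  have h1 : Fn f c z = ∑ k, f k z * (starRingEnd ℂ) (f k z) -
      ∑ k, f k z * (starRingEnd ℂ) (f k z - c k) := by
    unfold Fn
    rw [← Finset.sum_sub_distrib]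
    refine Finset.sum_congr rfl fun k _ => ?_
    rw [map_sub]
    ring
  have h2 : ‖∑ k, f k z * (starRingEnd ℂ) (f k z - c k)‖ ≤ n * e := by
    calc ‖∑ k, f k z * (starRingEnd ℂ) (f k z - c k)‖ ≤ ∑ _k : Fin n, e := by
          refine (norm_sum_le _ _).trans (Finset.sum_le_sum fun k _ => ?_)
          rw [norm_mul, RCLike.norm_conj]
          calc ‖f k z‖ * ‖f k z - c k‖ ≤ 1 * e :=
                mul_le_mul (hd.le k z hz) (he k) (norm_nonneg _) zero_le_one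
            _ = e := one_mul e
      _ = n * e := by simp
  have h3 : δ ^ 2 ≤ ‖∑ k, f k z * (starRingEnd ℂ) (f k z)‖ := by
    have h4 : ∑ k, f k z * (starRingEnd ℂ) (f k z) = ((∑ k, ‖f k z‖ ^ 2 : ℝ) : ℂ) := by
      push_cast
      refine Finset.sum_congr rfl fun k _ => ?_
      rw [Complex.mul_conj, Complex.normSq_eq_norm_sq]
      push_cast
      rfl
    rw [h4, Complex.norm_real, Real.norm_of_nonneg (by positivity)]
    obtain ⟨j, hj⟩ := hd.ge z hz
    calc δ ^ 2 ≤ ‖f j z‖ ^ 2 := pow_le_pow_left₀ hδ.le hj 2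
      _ ≤ ∑ k, ‖f k z‖ ^ 2 := Finset.single_le_sum (f := fun k => ‖f k z‖ ^ 2)
          (fun k _ => by positivity) (Finset.mem_univ j)
  rw [h1]
  have h5 := norm_sub_norm_le (∑ k, f k z * (starRingEnd ℂ) (f k z))
    (∑ k, f k z * (starRingEnd ℂ) (f k z - c k))
  linarith

theorem phs_eq {n : ℕ} (hn : 0 < n) (f : Fin n → ℂ → ℂ) (c : Fin n → ℂ) (s : List D) (z : ℂ) :
    ‖Fn f c z - Fn f c (cc s)‖ = 2 * n * ‖phs f c s z‖ := by
  unfold phs
  have h0 : (0 : ℝ) < n := by exact_mod_cast hn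
  rw [norm_div, norm_mul, Complex.norm_ofNat, Complex.norm_natCast]
  field_simp

theorem phs_diff {n : ℕ} {δ : ℝ} {f : Fin n → ℂ → ℂ} (hd : Dat n δ f) (c : Fin n → ℂ)
    (s : List D) : DifferentiableOn ℂ (phs f c s) squareCantorᶜ := by
  unfold phs Fn
  refine DifferentiableOn.div_const (DifferentiableOn.sub ?_ (differentiableOn_const _)) _
  exact DifferentiableOn.fun_sum fun k _ => (hd.diff k).mul_const _

theorem phs_le {n : ℕ} (hn : 0 < n) {δ : ℝ} {f : Fin n → ℂ → ℂ} (hd : Dat n δ f)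
    {c : Fin n → ℂ} (hc : ∀ k, ‖c k‖ ≤ 1) {s : List D} (hs : cc s ∈ squareCantorᶜ) {z : ℂ}
    (hz : z ∈ squareCantorᶜ) : ‖phs f c s z‖ ≤ 1 := by
  have h0 : (0 : ℝ) < n := by exact_mod_cast hn
  have h1 := phs_eq hn f c s z
  have h2 : ‖Fn f c z - Fn f c (cc s)‖ ≤ 2 * n := by
    calc ‖Fn f c z - Fn f c (cc s)‖ ≤ ‖Fn f c z‖ + ‖Fn f c (cc s)‖ := norm_sub_le _ _
      _ ≤ 2 * n := by linarith [Fn_le hd hc hz, Fn_le hd hc hs]
  rw [h1] at h2
  nlinarith

/-- the weight is not small -/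
theorem wt_ge {φ : ℂ → ℂ} {y : List D} {w : ℝ} (hw : 0 < w) (h1 : w ≤ sp φ y)
    (h2 : sp φ y ≤ 1) : 1 ≤ (2 - Real.log w) ^ 2 * wt φ y := by
  unfold wt
  have h3 : Real.log w ≤ Real.log (sp φ y) := Real.log_le_log hw h1
  have h4 : Real.log (sp φ y) ≤ 0 := Real.log_nonpos (by linarith) h2
  have h5 : 0 < (2 - Real.log (sp φ y)) ^ 2 := by nlinarith
  rw [← div_eq_mul_inv, le_div_iff₀ h5, one_mul]
  exact pow_le_pow_left₀ (by linarith) (by linarith) 2

end EDG_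

open EDG_
open Pool.Agent.CorE.SLF_ (rad rad_pos rad_mul circ circ_NR circ_par cm_eq)
open Pool.Agent.CorA.MAI_ (circ_Om circ_par' circ_X cc_X cm_le BB_le cm_in rule_keep)

open Classical in
theorem p_EDG (hLST : T_LST) (hSZF : T_SZF) (hCSF : T_CSF) (hSOF : T_SOF) : T_EDG := by
  intro n M δ C₀ hδ hM hC₀
  obtain ⟨B, C, hB, hC, hS⟩ := hSOF n M δ hδ hM
  set L : ℝ := (2 - Real.log (δ ^ 2 / (8 * n))) ^ 2 with hL
  have hL0 : 0 ≤ L := by positivity
  have hQ0 : 0 ≤ C * ((2 * (n : ℝ)) ^ M * ((n : ℝ) ^ 2 * L)) := by positivity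
  refine ⟨B, C * ((2 * (n : ℝ)) ^ M * ((n : ℝ) ^ 2 * L)) + (n : ℝ) ^ 2 * B ^ 2 + 1,
    δ ^ 2 / (4 * n + 4), hB, ?_, by positivity, ?_⟩
  · have : 0 ≤ (n : ℝ) ^ 2 * B ^ 2 := by positivity
    linarith
  intro N K A ε f h a Cs hN hd hD hε hε2 hR
  obtain ⟨z1, z2, z3, z4, z5⟩ := hSZF
  have hcc : ∀ v : List D, cc v ∈ squareCantorᶜ := fun v => (z3 v).1 (z3 v).2
  obtain ⟨j0, hj0⟩ := hd.ge (cc []) (hcc [])
  have hn : 0 < n := Fin.pos j0
  have hn0 : (0 : ℝ) < n := by exact_mod_cast hn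
  have hn1 : (1 : ℝ) ≤ n := by exact_mod_cast hn
  have hδ1 : δ ≤ 1 := hj0.trans (hd.le j0 _ (hcc []))
  have hδ2 : δ ^ 2 ≤ 1 := by nlinarith
  have he0 : 0 < δ ^ 2 / (4 * (n : ℝ) + 4) := by positivity
  have hen : (n : ℝ) * (δ ^ 2 / (4 * (n : ℝ) + 4)) ≤ δ ^ 2 / 4 := by
    rw [mul_div_assoc', div_le_div_iff₀ (by positivity) (by norm_num)]
    nlinarith [sq_nonneg δ]
  have he4 : δ ^ 2 / (4 * (n : ℝ) + 4) ≤ 4 := by
    rw [div_le_iff₀ (by positivity)]
    nlinarith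
  obtain ⟨c1, c2, c3, c4, c5, c6⟩ := hCSF n δ f h a K A ε _ Cs hd he0 he4 hR
  obtain ⟨l1, l2, l3, -⟩ := hLST K a
  have hgc : ∀ u, ¬ ncc f h a K A ε u → GC f h a A ε (lst K a u) := fun u hu => not_not.1 hu
  have hτ : ∀ u, ¬ ncc f h a K A ε u → (∀ k, ‖Cs u k‖ ≤ 1) ∧
      δ ^ 2 / 2 ≤ ‖Fn f (Cs u) (cc (lst K a u))‖ ∧ ‖Fn f (Cs u) (cc (lst K a u))‖ ≤ n := by
    intro u hu
    refine ⟨c1 u, ?_, Fn_le hd (c1 u) (hcc _)⟩
    refine tau_ge hδ hd (hcc _) (e := δ ^ 2 / (4 * (n : ℝ) + 4) / 4) (fun k => ?_) ?_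
    · have h2 := c2 _ (l1 u).2.1 (hgc u hu)
      rw [← c5 u hu] at h2
      have h3 := (dist_le_pi_dist _ _ k).trans h2
      rw [dist_eq_norm] at h3
      exact h3
    · nlinarith [sq_nonneg δ]
  obtain ⟨g, hg, -, hg2⟩ := hS f (fun u => ¬ ncc f h a K A ε u) Cs
    (fun u => Fn f (Cs u) (cc (lst K a u))) hd hτ
  refine ⟨g, hg, fun u hu hne => ?_⟩
  have hul : u.length < N := by
    have := mem_wd.1 hu
    omega
  have hpl : u.dropLast.length < N := by
    rw [List.length_dropLast]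
    omega
  have hB0 : (0 : ℝ) ≤ B := by linarith
  have hin := cm_in hg hB0 hD hul
  have hnn := hD.nn u
  have hAM0 : ∀ (c : Fin n → ℂ) (s v : List D), v.length < N →
      0 ≤ wt (phs f c s) v * AM (phs f c s) M h v := fun c s v hv =>
    mul_nonneg (by unfold wt; positivity)
      (z4 n N M C₀ (phs f c s) h a v hD (phs_diff hd c s) hv).1
  -- the five terms
  set E1 : ℝ := if ncc f h a K A ε u.dropLast then a u else 0 with hE1
  set E2 : ℝ := if Top K a u ∧ ¬ GC f h a A ε u then a u else 0 with hE2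
  set E3 : ℝ := if Reset (Pool.Agent.CorA.FF f) (ncc f h a K A ε)
    (tl f h a K A ε (δ ^ 2 / (4 * n + 4))) Cs u then a u else 0 with hE3
  set E4 : ℝ := if Top K a u then 0 else
    wt (phs f (Cs (lst K a u)) (lst K a u)) u * AM (phs f (Cs (lst K a u)) (lst K a u)) M h u
    with hE4
  set E5 : ℝ := if Top K a u.dropLast then 0 else
    wt (phs f (Cs (lst K a u.dropLast)) (lst K a u.dropLast)) u.dropLast *
      AM (phs f (Cs (lst K a u.dropLast)) (lst K a u.dropLast)) M h u.dropLast with hE5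
  have e1 : 0 ≤ E1 := by rw [hE1]; split_ifs <;> linarith
  have e2 : 0 ≤ E2 := by rw [hE2]; split_ifs <;> linarith
  have e3 : 0 ≤ E3 := by rw [hE3]; split_ifs <;> linarith
  have e4 : 0 ≤ E4 := by
    rw [hE4]
    split_ifs
    · exact le_rfl
    · exact hAM0 _ _ _ hul
  have e5 : 0 ≤ E5 := by
    rw [hE5]
    split_ifs
    · exact le_rfl
    · exact hAM0 _ _ _ hpl
  have hsmall : ∀ x : ℝ, 0 ≤ x → ‖cm u (BB g h u)‖ ≤ (n : ℝ) ^ 2 * B ^ 2 * x →
      x ≤ E1 + E2 + E3 + E4 + E5 → ‖cm u (BB g h u)‖ ≤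
        (C * ((2 * (n : ℝ)) ^ M * ((n : ℝ) ^ 2 * L)) + (n : ℝ) ^ 2 * B ^ 2 + 1) *
          (E1 + E2 + E3 + E4 + E5) := by
    intro x hx h1 h2
    refine h1.trans ?_
    have h3 : 0 ≤ (n : ℝ) ^ 2 * B ^ 2 := by positivity
    calc (n : ℝ) ^ 2 * B ^ 2 * x ≤ (n : ℝ) ^ 2 * B ^ 2 * (E1 + E2 + E3 + E4 + E5) :=
          mul_le_mul_of_nonneg_left h2 h3
      _ ≤ _ := mul_le_mul_of_nonneg_right (by linarith) (by linarith)
  by_cases d1 : ncc f h a K A ε u.dropLast
  · exact hsmall (a u) hnn hin (by rw [hE1, if_pos d1] at *; linarith)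
  by_cases d2 : Top K a u ∧ ¬ GC f h a A ε u
  · exact hsmall (a u) hnn hin (by rw [hE2, if_pos d2] at *; linarith)
  by_cases d3 : Reset (Pool.Agent.CorA.FF f) (ncc f h a K A ε)
      (tl f h a K A ε (δ ^ 2 / (4 * n + 4))) Cs u
  · exact hsmall (a u) hnn hin (by rw [hE3, if_pos d3] at *; linarith)
  -- the remaining case
  have hkeep : Cs u = Cs u.dropLast := rule_keep hR hne d1 d3
  have hncu : ¬ ncc f h a K A ε u := by
    by_cases ht : Top K a u
    · intro hc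
      refine hc ?_
      rw [l2 u ht]
      by_contra hG
      exact d2 ⟨ht, hG⟩
    · intro hc
      refine hc ?_
      rcases List.eq_nil_or_concat u with h0 | ⟨p, d, h0⟩
      · exact absurd h0 hne
      · rw [List.concat_eq_append] at h0
        subst h0
        rw [l3 p d ht]
        rw [List.dropLast_concat] at d1
        exact hgc p d1
  -- the cost of a word which is not near
  have hnear : ∀ y : List D, ¬ ncc f h a K A ε y → Top K a y →
      Near f (Cs y) (Fn f (Cs y) (cc (lst K a y))) y := by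
    intro y hy ht z hz
    have hG := hgc y hy
    have hτy := (hτ y hy).2.1
    rw [l2 y ht] at hG hτy ⊢
    have h1 : ‖Fn f (Cs y) z - Fn f (Cs y) (cc y)‖ ≤ n * ε :=
      Fn_sub_le (c1 y) fun k => ((z5 n δ f y hd).2.2.1 k z hz).trans hG.2
    have h2 : (n : ℝ) * ε ≤ n * (δ ^ 2 / (4 * n + 4)) := mul_le_mul_of_nonneg_left hε2 hn0.le
    linarith
  have hcost : ∀ y : List D, ¬ ncc f h a K A ε y → y.length < N → y.length ≤ u.length →
      ∀ z, Psi y z ∈ nodeX →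
      (if Near f (Cs y) (Fn f (Cs y) (cc (lst K a y))) y then 0 else
        ‖Fn f (Cs y) z - Fn f (Cs y) (cc (lst K a y))‖ ^ M) * ∑ i, ∑ j, ‖h i j z‖ ≤
      (2 * (n : ℝ)) ^ M * ((n : ℝ) ^ 2 * L) * (3 ^ u.length * (if Top K a y then 0 else
        wt (phs f (Cs (lst K a y)) (lst K a y)) y *
          AM (phs f (Cs (lst K a y)) (lst K a y)) M h y)) := by
    intro y hy hyl hyu z hz
    by_cases hN : Near f (Cs y) (Fn f (Cs y) (cc (lst K a y))) y
    · rw [if_pos hN, zero_mul]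
      have : 0 ≤ (if Top K a y then 0 else
        wt (phs f (Cs (lst K a y)) (lst K a y)) y *
          AM (phs f (Cs (lst K a y)) (lst K a y)) M h y) := by
        split_ifs
        · exact le_rfl
        · exact hAM0 _ _ _ hyl
      positivity
    · have ht : ¬ Top K a y := fun ht => hN (hnear y hy ht)
      rw [if_neg hN, if_neg ht]
      have hτy := (hτ y hy).2.1
      rw [c5 y hy] at hN hτy ⊢
      set s := lst K a y with hs
      set φ := phs f (Cs s) s with hφ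
      obtain ⟨a1, a2, a3, a4⟩ := z4 n N M C₀ φ h a y hD (phs_diff hd _ _) hyl
      obtain ⟨b1, b2, b3, b4⟩ := z1 φ y ((phs_diff hd _ _).continuousOn.mono (z3 y).1)
      have hsp1 : sp φ y ≤ 1 := b4 1 fun w hw =>
        phs_le hn hd (c1 s) (hcc s) ((z3 y).1 hw)
      have hsp2 : δ ^ 2 / (8 * n) ≤ sp φ y := by
        unfold Near at hN
        push Not at hN
        obtain ⟨w, hw, hw2⟩ := hN
        rw [phs_eq hn] at hw2
        have hw3 := b2 w hw
        rw [div_le_iff₀ (by positivity)]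
        nlinarith
      have hwt := wt_ge (by positivity) hsp2 hsp1
      have hwt0 : 0 ≤ wt φ y := by unfold wt; positivity
      rw [phs_eq hn, mul_pow]
      calc (2 * (n : ℝ)) ^ M * ‖phs f (Cs s) s z‖ ^ M * ∑ i, ∑ j, ‖h i j z‖
          = (2 * (n : ℝ)) ^ M * ∑ i, ∑ j, ‖φ z ^ M * h i j z‖ := by
            rw [mul_assoc, Finset.mul_sum]
            congr 1
            refine Finset.sum_congr rfl fun i _ => ?_
            rw [Finset.mul_sum]
            refine Finset.sum_congr rfl fun j _ => ?_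
            rw [norm_mul, norm_pow]
        _ ≤ (2 * (n : ℝ)) ^ M * ((n : ℝ) ^ 2 * (3 ^ y.length * AM φ M h y)) := by
            refine mul_le_mul_of_nonneg_left ?_ (by positivity)
            calc ∑ i, ∑ j, ‖φ z ^ M * h i j z‖
                ≤ ∑ _i : Fin n, ∑ _j : Fin n, 3 ^ y.length * AM φ M h y :=
                  Finset.sum_le_sum fun i _ => Finset.sum_le_sum fun j _ => a2 i j z hz
              _ = (n : ℝ) ^ 2 * (3 ^ y.length * AM φ M h y) := by
                  simp only [Finset.sum_const, Finset.card_univ, Fintype.card_fin,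
                    nsmul_eq_mul]
                  ring
        _ ≤ (2 * (n : ℝ)) ^ M * ((n : ℝ) ^ 2 * (3 ^ u.length * (L * wt φ y * AM φ M h y))) := by
            refine mul_le_mul_of_nonneg_left ?_ (by positivity)
            refine mul_le_mul_of_nonneg_left ?_ (by positivity)
            refine mul_le_mul (pow_le_pow_right₀ (by norm_num) hyu) ?_ a1 (by positivity)
            exact le_mul_of_one_le_left a1 hwt
        _ = (2 * (n : ℝ)) ^ M * ((n : ℝ) ^ 2 * L) * (3 ^ u.length *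
              (wt φ y * AM φ M h y)) := by ring
  have hmain : ∀ z, dist (Psi u z) ctr = 77 / 100 → ‖BB g h u z‖ ≤
      C * ((2 * (n : ℝ)) ^ M * ((n : ℝ) ^ 2 * L)) * (3 ^ u.length * (E4 + E5)) := by
    intro z hz
    have hpar : z ∈ NR (some u.dropLast) := by
      have := circ_par' hz
      unfold par at this
      rwa [if_neg hne] at this
    have hpX : Psi u.dropLast z ∈ nodeX := by
      rcases List.eq_nil_or_concat u with h0 | ⟨p, d, h0⟩
      · exact absurd h0 hne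
      · rw [List.concat_eq_append] at h0
        subst h0
        rw [List.dropLast_concat]
        exact nodeV_subset (circ_par hz)
    have h1 := hg2 h u z hne hncu d1 hkeep (circ_NR hz) hpar
      (fun i j => hD.anti i j z (circ_Om hul.le hz))
    have h2 := hcost u hncu hul le_rfl z (circ_X hz)
    have h3 := hcost u.dropLast d1 hpl (by rw [List.length_dropLast]; omega) z hpX
    rw [← hE4] at h2
    rw [← hE5, ← hkeep] at h3
    refine h1.trans ?_
    have h4 : C * (((if Near f (Cs u) (Fn f (Cs u) (cc (lst K a u))) u then 0 else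
        ‖Fn f (Cs u) z - Fn f (Cs u) (cc (lst K a u))‖ ^ M) +
        (if Near f (Cs u) (Fn f (Cs u) (cc (lst K a u.dropLast))) u.dropLast then 0 else
          ‖Fn f (Cs u) z - Fn f (Cs u) (cc (lst K a u.dropLast))‖ ^ M)) *
        ∑ i, ∑ j, ‖h i j z‖) ≤
        C * ((2 * (n : ℝ)) ^ M * ((n : ℝ) ^ 2 * L) * (3 ^ u.length * E4) +
          (2 * (n : ℝ)) ^ M * ((n : ℝ) ^ 2 * L) * (3 ^ u.length * E5)) := by
      refine mul_le_mul_of_nonneg_left ?_ (by linarith)
      rw [add_mul]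
      exact add_le_add h2 h3
    refine (le_of_eq ?_).trans (h4.trans (le_of_eq ?_))
    · rw [← hkeep]
    · ring
  have h5 := cm_le u _ hmain
  have h6 := rad_mul u
  have h7 : rad u * (C * ((2 * (n : ℝ)) ^ M * ((n : ℝ) ^ 2 * L)) *
      (3 ^ u.length * (E4 + E5))) =
      77 / 100 * (C * ((2 * (n : ℝ)) ^ M * ((n : ℝ) ^ 2 * L)) * (E4 + E5)) := by
    rw [← h6]
    ring
  rw [h7] at h5
  have h8 : 0 ≤ C * ((2 * (n : ℝ)) ^ M * ((n : ℝ) ^ 2 * L)) * (E4 + E5) :=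
    mul_nonneg hQ0 (by linarith)
  have h9 : 0 ≤ (n : ℝ) ^ 2 * B ^ 2 := by positivity
  calc ‖cm u (BB g h u)‖ ≤ C * ((2 * (n : ℝ)) ^ M * ((n : ℝ) ^ 2 * L)) * (E4 + E5) := by
        linarith
    _ ≤ C * ((2 * (n : ℝ)) ^ M * ((n : ℝ) ^ 2 * L)) * (E1 + E2 + E3 + E4 + E5) :=
        mul_le_mul_of_nonneg_left (by linarith) hQ0
    _ ≤ _ := mul_le_mul_of_nonneg_right (by linarith) (by linarith)

end Pool.Agent.ALQ
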