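import Pool.Agent.CorA.P_SRB
import Pool.Agent.CorA.P_MAS

/-!
# ENE: the energy of the changes of the values, with the power `M`

The vector `mm x` of a node `x` and the vectors of a family `s` of nodes: the sum over the good nodes
`u` of a part `t` of `s` of `dist (FF f u) (FF f x) ^ M * a u` is at most a constant times the bracket of
`T_VAR` plus the `M`-th powers of the oscillations.
-/

set_option autoImplicit false

namespace Pool.Agent.CorA

open Complex Metric Set Filter Topology MeasureTheory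
open Pool.Corona91698f Pool.Agent.CorE
open scoped Real BoundedContinuousFunction

namespace ENE_

/-- The perpendicular parts cost variation. -/
theorem perp (E : Type) [NormedAddCommGroup E] [InnerProductSpace ℂ E] (ι : Type)
    (s t : Finset ι) (x : ι → E) (X : E) (hts : t ⊆ s) :
    ∃ w : ι → ℂ, (∀ i ∈ t, ‖w i‖ * ‖X‖ ≤ ‖x i‖) ∧ (∀ i ∈ t, ‖x i - w i • X‖ ≤ ‖x i‖) ∧
      ∑ i ∈ t, ‖x i - w i • X‖ ^ 2 / ‖x i‖ ≤
        2 * (∑ i ∈ s, ‖x i‖ + ‖X - ∑ i ∈ s, x i‖ - ‖X‖) := by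
  classical
  by_cases h0 : X = 0
  · refine ⟨fun _ => 0, fun i _ => by rw [norm_zero, zero_mul]; exact norm_nonneg _,
      fun i _ => by rw [zero_smul, sub_zero], ?_⟩
    have h1 : ∑ i ∈ t, ‖x i - (0 : ℂ) • X‖ ^ 2 / ‖x i‖ ≤ ∑ i ∈ t, ‖x i‖ := by
      refine Finset.sum_le_sum fun i _ => ?_
      rw [zero_smul, sub_zero]
      rcases (norm_nonneg (x i)).eq_or_lt with h | h
      · rw [← h]
        simp
      · rw [div_le_iff₀ h]
        nlinarith
    have h2 : ∑ i ∈ t, ‖x i‖ ≤ ∑ i ∈ s, ‖x i‖ :=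
      Finset.sum_le_sum_of_subset_of_nonneg hts fun i _ _ => norm_nonneg _
    have h3 : 0 ≤ ∑ i ∈ s, ‖x i‖ := Finset.sum_nonneg fun i _ => norm_nonneg _
    rw [h0, norm_zero] at *
    have h4 := norm_nonneg ((0 : E) - ∑ i ∈ s, x i)
    linarith
  · have hn : 0 < ‖X‖ := norm_pos_iff.2 h0
    set v : E := ((‖X‖⁻¹ : ℝ) : ℂ) • X with hv
    have hv1 : ‖v‖ = 1 := by
      rw [hv, norm_smul, Complex.norm_real, Real.norm_of_nonneg (by positivity)]
      exact inv_mul_cancel₀ hn.ne'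
    have hvX : (inner ℂ v X : ℂ).re = ‖X‖ := by
      rw [hv, inner_smul_left, inner_self_eq_norm_sq_to_K, Complex.conj_ofReal]
      have : ((‖X‖⁻¹ : ℝ) : ℂ) * (((‖X‖ : ℝ) : ℂ)) ^ 2 = ((‖X‖ : ℝ) : ℂ) := by
        push_cast
        have : ((‖X‖ : ℝ) : ℂ) ≠ 0 := by exact_mod_cast hn.ne'
        field_simp
      erw [this]
      exact Complex.ofReal_re _
    have hV : ∑ i ∈ s, ‖x i‖ + ‖X - ∑ i ∈ s, x i‖ - ‖X‖ =
        ∑ i ∈ s, (‖x i‖ - (inner ℂ v (x i) : ℂ).re) +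
          (‖X - ∑ i ∈ s, x i‖ - (inner ℂ v (X - ∑ i ∈ s, x i) : ℂ).re) := by
      rw [Finset.sum_sub_distrib, inner_sub_right, Complex.sub_re, hvX, inner_sum,
        Complex.re_sum]
      ring
    have hw : ∀ i, ((inner ℂ v (x i) : ℂ) * ((‖X‖⁻¹ : ℝ) : ℂ)) • X =
        (inner ℂ v (x i) : ℂ) • v := by
      intro i
      rw [mul_smul, ← hv]
    refine ⟨fun i => (inner ℂ v (x i) : ℂ) * ((‖X‖⁻¹ : ℝ) : ℂ), fun i _ => ?_, fun i _ => ?_, ?_⟩
    · rw [norm_mul, Complex.norm_real, Real.norm_of_nonneg (by positivity), mul_assoc,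
        inv_mul_cancel₀ hn.ne', mul_one]
      have h6 := norm_inner_le_norm (𝕜 := ℂ) v (x i)
      rwa [hv1, one_mul] at h6
    · rw [hw]
      have h3 := VEC_.norm_sq_perp hv1 (x i)
      have h4 : ‖x i - (inner ℂ v (x i) : ℂ) • v‖ ^ 2 ≤ ‖x i‖ ^ 2 := by
        rw [h3]
        have := sq_nonneg ‖(inner ℂ v (x i) : ℂ)‖
        linarith
      exact (sq_le_sq₀ (norm_nonneg _) (norm_nonneg _)).1 h4
    · have h1 : ∀ i ∈ t, ‖x i - ((inner ℂ v (x i) : ℂ) * ((‖X‖⁻¹ : ℝ) : ℂ)) • X‖ ^ 2 / ‖x i‖ ≤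
          2 * (‖x i‖ - (inner ℂ v (x i) : ℂ).re) := by
        intro i _
        rw [hw, VEC_.norm_sq_perp hv1 (x i)]
        have h5 := Complex.re_le_norm (inner ℂ v (x i) : ℂ)
        have h6 := norm_inner_le_norm (𝕜 := ℂ) v (x i)
        rw [hv1, one_mul] at h6
        have h7 : 0 ≤ ‖(inner ℂ v (x i) : ℂ)‖ := norm_nonneg _
        rcases (norm_nonneg (x i)).eq_or_lt with h | h
        · rw [← h] at h6 ⊢
          rw [div_zero]
          linarith
        · rw [div_le_iff₀ h]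
          nlinarith [mul_nonneg (sub_nonneg.2 h6) (sub_nonneg.2 h6)]
      refine (Finset.sum_le_sum h1).trans ?_
      rw [← Finset.mul_sum, hV]
      have h4 : ∑ i ∈ t, (‖x i‖ - (inner ℂ v (x i) : ℂ).re) ≤
          ∑ i ∈ s, (‖x i‖ - (inner ℂ v (x i) : ℂ).re) :=
        Finset.sum_le_sum_of_subset_of_nonneg hts fun i _ _ =>
          sub_nonneg.2 (VEC_.re_le hv1 _)
      have h5 := sub_nonneg.2 (VEC_.re_le hv1 (X - ∑ i ∈ s, x i))
      linarith

/-- The difference of the values against the perpendicular part. -/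
theorem dif {n N : ℕ} {δ C₀ τx τu A : ℝ} {f : Fin n → ℂ → ℂ} {h : Fin n → Fin n → ℂ → ℂ}
    {a : List D → ℝ} (hf : Dat n δ f) (hh : HD n N h a C₀) {x u : List D}
    (hx : x.length < N) (hu : u.length < N) (hτx : 0 ≤ τx) (hτu : 0 ≤ τu) (hcx : ¬ NC f τx x)
    (hcu : ¬ NC f τu u) (hA : 1 ≤ A) (hax : a x ≤ A * ‖mm f h x‖) (hau : a u ≤ A * ‖mm f h u‖)
    (hs : 2 * (SRB_.KK n * (A * τu)) ≤ 1) (hU : 0 < ‖mm f h u‖) {w : ℂ}
    (hw : ‖w‖ * ‖mm f h x‖ ≤ ‖mm f h u‖) :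
    dist (FF f u) (FF f x) ≤
      2 * SRB_.KK n * (2 * (‖mm f h u - w • mm f h x‖ / ‖mm f h u‖) + A * τu + A * τx) := by
  have hK := SRB_.KK_pos n
  set U := mm f h u with hUdef
  set X := mm f h x with hXdef
  have hR : 0 ≤ 2 * (‖U - w • X‖ / ‖U‖) + A * τu + A * τx := by positivity
  refine (dist_pi_le_iff (by positivity)).2 fun k => ?_
  rw [dist_eq_norm]
  obtain ⟨i, j, hij⟩ := SRB_.large hf hh hu hτu hcu hU
  rw [← hUdef] at hij
  have t1 := SRB_.calm hf hh hx hτx hcx i j k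
  have t2 := SRB_.calm hf hh hu hτu hcu i j k
  rw [← hUdef] at t2
  rw [← hXdef] at t1
  have e1 : (FF f u k - FF f x k) * U (i, j, none) =
      ((U - w • X) (i, j, some k) - FF f x k * (U - w • X) (i, j, none)) -
        (U (i, j, some k) - FF f u k * U (i, j, none)) +
          w * (X (i, j, some k) - FF f x k * X (i, j, none)) := by
    simp only [PiLp.sub_apply, PiLp.smul_apply, smul_eq_mul]
    ring
  have b1 : ‖(U - w • X) (i, j, some k) - FF f x k * (U - w • X) (i, j, none)‖ ≤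
      2 * ‖U - w • X‖ := by
    refine (norm_sub_le _ _).trans ?_
    rw [norm_mul]
    have q1 := PiLp.norm_apply_le (U - w • X) (i, j, some k)
    have q2 := PiLp.norm_apply_le (U - w • X) (i, j, (none : Option (Fin n)))
    have q3 := mul_le_of_le_one_left (norm_nonneg ((U - w • X) (i, j, none)))
      (SRB_.FF_le hf x k)
    linarith
  have b3 : ‖w * (X (i, j, some k) - FF f x k * X (i, j, none))‖ ≤ A * τx * ‖U‖ := by
    rw [norm_mul]
    refine (mul_le_mul_of_nonneg_left t1 (norm_nonneg _)).trans ?_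
    have h1 : τx * a x ≤ τx * (A * ‖X‖) := mul_le_mul_of_nonneg_left hax hτx
    have h2 : ‖w‖ * (τx * a x) ≤ ‖w‖ * (τx * (A * ‖X‖)) :=
      mul_le_mul_of_nonneg_left h1 (norm_nonneg _)
    have h3 : A * τx * (‖w‖ * ‖X‖) ≤ A * τx * ‖U‖ :=
      mul_le_mul_of_nonneg_left hw (by positivity)
    calc ‖w‖ * (τx * a x) ≤ ‖w‖ * (τx * (A * ‖X‖)) := h2
      _ = A * τx * (‖w‖ * ‖X‖) := by ring
      _ ≤ _ := h3
  have b2 : τu * a u ≤ A * τu * ‖U‖ := by
    calc τu * a u ≤ τu * (A * ‖U‖) := mul_le_mul_of_nonneg_left hau hτu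
      _ = A * τu * ‖U‖ := by ring
  have b4 : ‖FF f u k - FF f x k‖ * ‖U (i, j, none)‖ ≤
      2 * ‖U - w • X‖ + A * τu * ‖U‖ + A * τx * ‖U‖ := by
    rw [← norm_mul, e1]
    refine (norm_add_le _ _).trans ?_
    have := norm_sub_le ((U - w • X) (i, j, some k) - FF f x k * (U - w • X) (i, j, none))
      (U (i, j, some k) - FF f u k * U (i, j, none))
    linarith
  have b5 : ‖U‖ ≤ 2 * SRB_.KK n * ‖U (i, j, none)‖ := by
    have h1 : SRB_.KK n * (τu * a u) ≤ SRB_.KK n * (A * τu * ‖U‖) :=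
      mul_le_mul_of_nonneg_left b2 (by linarith)
    have h2 : SRB_.KK n * (A * τu * ‖U‖) ≤ 1 / 2 * ‖U‖ := by
      have := mul_le_mul_of_nonneg_right hs hU.le
      linarith
    linarith
  have b6 : ‖FF f u k - FF f x k‖ * ‖U‖ ≤
      2 * SRB_.KK n * (2 * ‖U - w • X‖ + A * τu * ‖U‖ + A * τx * ‖U‖) := by
    calc ‖FF f u k - FF f x k‖ * ‖U‖ ≤
        ‖FF f u k - FF f x k‖ * (2 * SRB_.KK n * ‖U (i, j, none)‖) :=
          mul_le_mul_of_nonneg_left b5 (norm_nonneg _)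
      _ = 2 * SRB_.KK n * (‖FF f u k - FF f x k‖ * ‖U (i, j, none)‖) := by ring
      _ ≤ _ := mul_le_mul_of_nonneg_left b4 (by linarith)
  have b7 : ‖FF f u k - FF f x k‖ ≤
      2 * SRB_.KK n * (2 * ‖U - w • X‖ + A * τu * ‖U‖ + A * τx * ‖U‖) / ‖U‖ :=
    (le_div_iff₀ hU).2 b6
  refine b7.trans (le_of_eq ?_)
  field_simp

theorem pow3 {a b c : ℝ} (ha : 0 ≤ a) (hb : 0 ≤ b) (hc : 0 ≤ c) (M : ℕ) :
    (a + b + c) ^ M ≤ 3 ^ M * (a ^ M + b ^ M + c ^ M) := by
  have h1 : a + b + c ≤ 3 * max a (max b c) := by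
    have := le_max_left a (max b c)
    have h2 := (le_max_left b c).trans (le_max_right a (max b c))
    have h3 := (le_max_right b c).trans (le_max_right a (max b c))
    linarith
  have h2 : (a + b + c) ^ M ≤ (3 * max a (max b c)) ^ M :=
    pow_le_pow_left₀ (by positivity) h1 M
  rw [mul_pow] at h2
  refine h2.trans (mul_le_mul_of_nonneg_left ?_ (by positivity))
  have ha' : 0 ≤ a ^ M := by positivity
  have hb' : 0 ≤ b ^ M := by positivity
  have hc' : 0 ≤ c ^ M := by positivity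
  rcases max_choice a (max b c) with h | h
  · rw [h]
    linarith
  · rw [h]
    rcases max_choice b c with h' | h'
    · rw [h']
      linarith
    · rw [h']
      linarith

theorem dist_le {n : ℕ} {δ : ℝ} {f : Fin n → ℂ → ℂ} (hf : Dat n δ f) (u x : List D) :
    dist (FF f u) (FF f x) ≤ 2 := by
  refine (dist_pi_le_iff (by norm_num)).2 fun k => ?_
  rw [dist_eq_norm]
  have h1 := SRB_.FF_le hf u k
  have h2 := SRB_.FF_le hf x k
  exact (norm_sub_le _ _).trans (by linarith)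

end ENE_

open ENE_ in
/-- **Energy.** -/
theorem energy (n M : ℕ) (A : ℝ) (hM : 2 ≤ M) (hA : 1 ≤ A) : ∃ C : ℝ, 1 ≤ C ∧
    ∀ (N : ℕ) (δ C₀ : ℝ) (f : Fin n → ℂ → ℂ) (h : Fin n → Fin n → ℂ → ℂ) (a : List D → ℝ)
      (τ : List D → ℝ) (x : List D) (s t : Finset (List D)), Dat n δ f → HD n N h a C₀ →
    t ⊆ s → x.length < N → (∀ u ∈ s, u.length < N) → (∀ u, 0 ≤ τ u) → τ x ≤ 5 →
    ¬ NC f (τ x) x → (∀ u ∈ t, ¬ NC f (τ u) u) → a x ≤ A * ‖mm f h x‖ →
    (∀ u ∈ t, a u ≤ A * ‖mm f h u‖) →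
    ∑ u ∈ t, dist (FF f u) (FF f x) ^ M * a u ≤
      C * (∑ u ∈ s, ‖mm f h u‖ + ‖mm f h x - ∑ u ∈ s, mm f h u‖ - ‖mm f h x‖) +
      C * (τ x ^ M * ‖mm f h x‖ + ∑ u ∈ t, τ u ^ M * a u) := by
  classical
  have hK := SRB_.KK_pos n
  set K := SRB_.KK n with hKdef
  -- the constants
  set B : ℝ := 3 ^ M * (4 * K * A) ^ M with hB
  have hKA : 1 ≤ 4 * K * A := by nlinarith
  have hB1 : 1 ≤ B := by
    rw [hB]
    exact one_le_mul_of_one_le_of_one_le (one_le_pow₀ (by norm_num)) (one_le_pow₀ hKA)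
  set C : ℝ := (1 + 5 ^ M) * (3 * (A * B)) with hC
  have hAB : 1 ≤ A * B := one_le_mul_of_one_le_of_one_le hA hB1
  have h3M : (1 : ℝ) ≤ 3 ^ M := one_le_pow₀ (by norm_num)
  have h5M : (1 : ℝ) ≤ 5 ^ M := one_le_pow₀ (by norm_num)
  refine ⟨C, ?_, ?_⟩
  · rw [hC]
    nlinarith
  intro N δ C₀ f h a τ x s t hf hh hts hx hs hτ hτ3 hcx hct hax hat
  obtain ⟨w, hw1, hw2, hw3⟩ := perp _ _ s t (fun u => mm f h u) (mm f h x) hts
  set V := ∑ u ∈ s, ‖mm f h u‖ + ‖mm f h x - ∑ u ∈ s, mm f h u‖ - ‖mm f h x‖ with hV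
  set X := mm f h x with hX
  have hτxM : 0 ≤ τ x ^ M := pow_nonneg (hτ x) M
  -- one node
  have key : ∀ u ∈ t, dist (FF f u) (FF f x) ^ M * a u ≤
      A * B * (‖mm f h u - w u • X‖ ^ 2 / ‖mm f h u‖) + A * B * (τ x ^ M * ‖mm f h u‖) +
        A * B * (τ u ^ M * a u) := by
    intro u hu
    have hul := hs u (hts hu)
    have hau := hat u hu
    have hau0 := hh.nn u
    have hτu : 0 ≤ τ u := hτ u
    have hd0 : 0 ≤ dist (FF f u) (FF f x) := dist_nonneg
    have z1 : 0 ≤ A * B * (‖mm f h u - w u • X‖ ^ 2 / ‖mm f h u‖) := by positivity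
    have z2 : 0 ≤ A * B * (τ x ^ M * ‖mm f h u‖) := by positivity
    have z3 : 0 ≤ A * B * (τ u ^ M * a u) := by positivity
    rcases (norm_nonneg (mm f h u)).eq_or_lt with hU | hU
    · rw [← hU, mul_zero] at hau
      have : a u = 0 := le_antisymm hau hau0
      rw [this, mul_zero]
      rw [this] at z3
      linarith
    by_cases hsm : 2 * (K * (A * τ u)) ≤ 1
    · have h1 := dif hf hh hx hul (hτ x) hτu hcx (hct u hu) hA hax hau hsm hU (hw1 u hu)
      rw [← hKdef, ← hX] at h1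
      set y := ‖mm f h u - w u • X‖ / ‖mm f h u‖ with hy
      have hy0 : 0 ≤ y := by positivity
      have hy1 : y ≤ 1 := by
        rw [hy, div_le_one hU]
        exact hw2 u hu
      have h2 : 2 * K * (2 * y + A * τ u + A * τ x) ≤ 4 * K * A * y + 4 * K * A * τ u +
          4 * K * A * τ x := by
        have q1 : 0 ≤ K * (A - 1) * y := by
          have : 0 ≤ A - 1 := by linarith
          positivity
        have q2 : 0 ≤ K * A * τ u := by positivity
        have q3 : 0 ≤ K * A * τ x := mul_nonneg (by positivity) (hτ x)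
        nlinarith
      have h3 : dist (FF f u) (FF f x) ^ M ≤ (4 * K * A * y + 4 * K * A * τ u +
          4 * K * A * τ x) ^ M := pow_le_pow_left₀ hd0 (h1.trans h2) M
      have h4 := pow3 (a := 4 * K * A * y) (b := 4 * K * A * τ u) (c := 4 * K * A * τ x)
        (by positivity) (by positivity) (mul_nonneg (by positivity) (hτ x)) M
      have h5 : 3 ^ M * ((4 * K * A * y) ^ M + (4 * K * A * τ u) ^ M + (4 * K * A * τ x) ^ M) =
          B * (y ^ M + τ u ^ M + τ x ^ M) := by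
        rw [hB, mul_pow (4 * K * A) y, mul_pow (4 * K * A) (τ u), mul_pow (4 * K * A) (τ x)]
        ring
      have h6 : y ^ M ≤ y ^ 2 := pow_le_pow_of_le_one hy0 hy1 hM
      have h7 : dist (FF f u) (FF f x) ^ M ≤ B * (y ^ 2 + τ u ^ M + τ x ^ M) := by
        refine (h3.trans h4).trans ?_
        rw [h5]
        exact mul_le_mul_of_nonneg_left (by linarith) (by linarith)
      have h8 : dist (FF f u) (FF f x) ^ M * a u ≤ B * (y ^ 2 + τ u ^ M + τ x ^ M) * a u :=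
        mul_le_mul_of_nonneg_right h7 hau0
      have h9 : B * y ^ 2 * a u ≤ A * B * (‖mm f h u - w u • X‖ ^ 2 / ‖mm f h u‖) := by
        have e1 : ‖mm f h u - w u • X‖ ^ 2 / ‖mm f h u‖ = y ^ 2 * ‖mm f h u‖ := by
          rw [hy]
          field_simp
        rw [e1]
        calc B * y ^ 2 * a u ≤ B * y ^ 2 * (A * ‖mm f h u‖) :=
              mul_le_mul_of_nonneg_left hau (by positivity)
          _ = _ := by ring
      have h10 : B * τ x ^ M * a u ≤ A * B * (τ x ^ M * ‖mm f h u‖) := by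
        calc B * τ x ^ M * a u ≤ B * τ x ^ M * (A * ‖mm f h u‖) :=
              mul_le_mul_of_nonneg_left hau (by positivity)
          _ = _ := by ring
      have h11 : B * τ u ^ M * a u ≤ A * B * (τ u ^ M * a u) := by
        have : 0 ≤ (A - 1) * (B * (τ u ^ M * a u)) := by
          have : 0 ≤ A - 1 := by linarith
          positivity
        nlinarith
      have h12 : B * (y ^ 2 + τ u ^ M + τ x ^ M) * a u =
          B * y ^ 2 * a u + B * τ x ^ M * a u + B * τ u ^ M * a u := by ring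
      linarith
    · push Not at hsm
      have h1 : dist (FF f u) (FF f x) ^ M ≤ 2 ^ M :=
        pow_le_pow_left₀ hd0 (dist_le hf u x) M
      have h2 : (2 : ℝ) ≤ 4 * K * A * τ u := by nlinarith
      have h3 : (2 : ℝ) ^ M ≤ (4 * K * A) ^ M * τ u ^ M := by
        rw [← mul_pow]
        exact pow_le_pow_left₀ (by norm_num) h2 M
      have h4 : (4 * K * A) ^ M * τ u ^ M ≤ A * B * τ u ^ M := by
        refine mul_le_mul_of_nonneg_right ?_ (pow_nonneg hτu M)
        rw [hB]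
        have q0 : 0 ≤ (4 * K * A) ^ M := by positivity
        have q1 : (4 * K * A) ^ M ≤ 3 ^ M * (4 * K * A) ^ M := le_mul_of_one_le_left q0 h3M
        have q2 : 3 ^ M * (4 * K * A) ^ M ≤ A * (3 ^ M * (4 * K * A) ^ M) :=
          le_mul_of_one_le_left (by positivity) hA
        linarith
      have h5 : dist (FF f u) (FF f x) ^ M * a u ≤ A * B * τ u ^ M * a u :=
        mul_le_mul_of_nonneg_right (h1.trans (h3.trans h4)) hau0
      have h6 : A * B * τ u ^ M * a u = A * B * (τ u ^ M * a u) := by ring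
      linarith
  -- the sums
  have hsum : ∑ u ∈ t, ‖mm f h u‖ ≤ ‖X‖ + V := by
    have h1 : ∑ u ∈ t, ‖mm f h u‖ ≤ ∑ u ∈ s, ‖mm f h u‖ :=
      Finset.sum_le_sum_of_subset_of_nonneg hts fun i _ _ => norm_nonneg _
    have h2 := norm_nonneg (X - ∑ u ∈ s, mm f h u)
    rw [hV]
    linarith
  have hV0 : 0 ≤ V := by
    have h1 : 0 ≤ ∑ u ∈ t, ‖mm f h u - w u • X‖ ^ 2 / ‖mm f h u‖ :=
      Finset.sum_nonneg fun i _ => by positivity
    linarith
  have htot := Finset.sum_le_sum key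
  rw [Finset.sum_add_distrib, Finset.sum_add_distrib, ← Finset.mul_sum, ← Finset.mul_sum,
    ← Finset.mul_sum, ← Finset.mul_sum] at htot
  have hAB0 : 0 ≤ A * B := by linarith
  have p1 : A * B * (∑ u ∈ t, ‖mm f h u - w u • X‖ ^ 2 / ‖mm f h u‖) ≤ A * B * (2 * V) :=
    mul_le_mul_of_nonneg_left hw3 hAB0
  have p2 : A * B * (τ x ^ M * ∑ u ∈ t, ‖mm f h u‖) ≤ A * B * (τ x ^ M * (‖X‖ + V)) :=
    mul_le_mul_of_nonneg_left (mul_le_mul_of_nonneg_left hsum hτxM) hAB0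
  have p3 : τ x ^ M * V ≤ 5 ^ M * V :=
    mul_le_mul_of_nonneg_right (pow_le_pow_left₀ (hτ x) hτ3 M) hV0
  have p4 : A * B * (τ x ^ M * V) ≤ A * B * (5 ^ M * V) := mul_le_mul_of_nonneg_left p3 hAB0
  have p5 : 0 ≤ ∑ u ∈ t, τ u ^ M * a u :=
    Finset.sum_nonneg fun u _ => mul_nonneg (pow_nonneg (hτ u) M) (hh.nn u)
  have p6 : 0 ≤ τ x ^ M * ‖X‖ := mul_nonneg hτxM (norm_nonneg _)
  have hCA : A * B ≤ C := by
    rw [hC]
    nlinarith
  have q1 : A * B * (τ x ^ M * ‖X‖) ≤ C * (τ x ^ M * ‖X‖) := mul_le_mul_of_nonneg_right hCA p6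
  have q2 : A * B * (∑ u ∈ t, τ u ^ M * a u) ≤ C * ∑ u ∈ t, τ u ^ M * a u :=
    mul_le_mul_of_nonneg_right hCA p5
  have q3 : A * B * (2 * V) + A * B * (5 ^ M * V) ≤ C * V := by
    have e1 : C * V = (1 + 5 ^ M) * 3 * (A * B) * V := by rw [hC]; ring
    rw [e1]
    have r1 : 0 ≤ A * B * V := mul_nonneg hAB0 hV0
    have r2 : 0 ≤ 5 ^ M * (A * B * V) := by positivity
    nlinarith
  have e2 : A * B * (τ x ^ M * (‖X‖ + V)) = A * B * (τ x ^ M * ‖X‖) + A * B * (τ x ^ M * V) := by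
    ring
  linarith

end Pool.Agent.CorA
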