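import Pool.Agent.ALQ.Defs
import Pool.Agent.ALQ.ENE
import Pool.Agent.CorA.P_VAR

/-!
# Project ALQ, block ENE: the values at the exits
-/

set_option autoImplicit false

namespace Pool.Agent.ALQ

open Complex Metric Set Filter Topology MeasureTheory
open Pool.Corona91698f Pool.Agent.CorE Pool.Agent.CorA
open scoped Real BoundedContinuousFunction

namespace ENE_

theorem f_le {n : ℕ} {δ : ℝ} {f : Fin n → ℂ → ℂ} (hf : Dat n δ f) (k : Fin n) {u : List D}
    {z : ℂ} (hz : Psi u z ∈ nodeX) : ‖f k z - f k (cc u)‖ ≤ 2 := by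
  have h1 := MAS_.fac_le hf (some k) (MAS_.X_notMem hz)
  have h2 := SRB_.FF_le hf u k
  have h3 : ‖f k z‖ ≤ 1 := h1
  have h4 : ‖f k (cc u)‖ ≤ 1 := h2
  exact (norm_sub_le _ _).trans (by linarith)

theorem bdd {n : ℕ} {δ : ℝ} {f : Fin n → ℂ → ℂ} (hf : Dat n δ f) (k : Fin n) (u : List D) :
    BddAbove ((fun z => ‖f k z - f k (cc u)‖) '' {z | Psi u z ∈ nodeX}) := by
  refine ⟨2, ?_⟩
  rintro _ ⟨z, hz, rfl⟩
  exact f_le hf k hz

theorem le_ta {n : ℕ} {δ : ℝ} {f : Fin n → ℂ → ℂ} (hf : Dat n δ f) (k : Fin n) {u : List D}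
    {z : ℂ} (hz : Psi u z ∈ nodeX) : ‖f k z - f k (cc u)‖ ≤ ta f u := by
  have h1 : ‖f k z - f k (cc u)‖ ≤ sp (fun z => f k z - f k (cc u)) u :=
    le_csSup (bdd hf k u) ⟨z, hz, rfl⟩
  have h2 : sp (fun z => f k z - f k (cc u)) u ≤ ta f u :=
    le_ciSup (f := fun k : Fin n => sp (fun z => f k z - f k (cc u)) u)
      (Set.finite_range _).bddAbove k
  exact h1.trans h2

theorem ta_nonneg {n : ℕ} (f : Fin n → ℂ → ℂ) (u : List D) : 0 ≤ ta f u := by
  refine Real.iSup_nonneg fun k => Real.sSup_nonneg ?_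
  rintro _ ⟨z, -, rfl⟩
  exact norm_nonneg _

theorem ta_le {n : ℕ} {δ : ℝ} {f : Fin n → ℂ → ℂ} (hf : Dat n δ f) (u : List D) :
    ta f u ≤ 2 := by
  refine Real.iSup_le (fun k => Real.sSup_le ?_ (by norm_num)) (by norm_num)
  rintro _ ⟨z, hz, rfl⟩
  exact f_le hf k hz

theorem calm {n : ℕ} {δ : ℝ} {f : Fin n → ℂ → ℂ} (hf : Dat n δ f) {η : ℝ} (hη : 0 < η)
    (u : List D) : ¬ NC f (2 * ta f u + η) u := by
  rintro ⟨k, x, y, hx, hy, hxy⟩
  have h1 := le_ta hf k hx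
  have h2 := le_ta hf k hy
  have h3 : ‖f k x - f k y‖ ≤ ‖f k x - f k (cc u)‖ + ‖f k y - f k (cc u)‖ := by
    have e : f k x - f k y = (f k x - f k (cc u)) - (f k y - f k (cc u)) := by ring
    rw [e]
    exact norm_sub_le _ _
  linarith

/-- The tops below tops are counted once. -/
theorem once {N : ℕ} {K : ℝ} {a : List D → ℝ} (g : List D → ℝ) (hg : ∀ u, 0 ≤ g u) :
    ∑ x ∈ Tp N K a, ∑ u ∈ nxt N (Top K a) x, g u ≤ ∑ u ∈ Tp N K a, g u := by
  classical
  have hmem : ∀ x ∈ Tp N K a, Top K a x := by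
    intro x hx
    unfold Tp at hx
    exact (Finset.mem_filter.1 hx).2
  rw [← Finset.sum_biUnion]
  · refine Finset.sum_le_sum_of_subset_of_nonneg ?_ fun _ _ _ => hg _
    intro u hu
    rw [Finset.mem_biUnion] at hu
    obtain ⟨x, -, hu⟩ := hu
    rw [VAR_.mem_nxt] at hu
    unfold Tp
    rw [Finset.mem_filter, mem_wd]
    exact ⟨hu.1, hu.2.2.2.1⟩
  · intro x hx x' hx' hxx
    rw [Function.onFun, Finset.disjoint_left]
    intro u hu hu'
    exact hxx (VAR_.disj_nxt N (Top K a) (hmem x hx) (hmem x' hx') hu hu')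

theorem Vx_nonneg {n : ℕ} (N : ℕ) (f : Fin n → ℂ → ℂ) (h : Fin n → Fin n → ℂ → ℂ)
    (R : List D → Prop) (x : List D) : 0 ≤ Vx N f h R x := by
  unfold Vx
  have h1 := norm_sum_le (nxt N R x) (fun u => mm f h u)
  have h2 : ‖mm f h x‖ ≤ ‖mm f h x - ∑ u ∈ nxt N R x, mm f h u‖ + ‖∑ u ∈ nxt N R x, mm f h u‖ := by
    have := norm_add_le (mm f h x - ∑ u ∈ nxt N R x, mm f h u) (∑ u ∈ nxt N R x, mm f h u)
    rwa [sub_add_cancel] at this
  linarith

theorem pow2 {a b : ℝ} (ha : 0 ≤ a) (hb : 0 ≤ b) (M : ℕ) :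
    (a + b) ^ M ≤ 2 ^ M * (a ^ M + b ^ M) := by
  have h1 : a + b ≤ 2 * max a b := by
    have := le_max_left a b
    have h2 := le_max_right a b
    linarith
  have h2 : (a + b) ^ M ≤ (2 * max a b) ^ M := pow_le_pow_left₀ (by positivity) h1 M
  rw [mul_pow] at h2
  refine h2.trans (mul_le_mul_of_nonneg_left ?_ (by positivity))
  have ha' : 0 ≤ a ^ M := by positivity
  have hb' : 0 ≤ b ^ M := by positivity
  rcases max_choice a b with h | h
  · rw [h]
    linarith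
  · rw [h]
    linarith

end ENE_

open ENE_

open Classical in
theorem p_ENE (hBAD : T_BAD) (hNMB : T_NMB) (hEXI : T_EXI) (hMAS : T_MAS) (hVAR : T_VAR) :
    T_ENE := by
  intro n C₀ K hC₀ hK
  obtain ⟨A, C₁, hA, hC₁, hbad⟩ := hBAD n C₀ K hC₀ hK
  obtain ⟨M₁, hM₁⟩ := hNMB n C₀ K hC₀ hK
  obtain ⟨C₃, hC₃, hmas⟩ := hMAS n
  obtain ⟨C₄, hC₄, hexi⟩ := hEXI n C₀ K hC₀ hK
  refine ⟨max 2 M₁, fun M hM => ?_⟩
  have hM2 : 2 ≤ M := (le_max_left _ _).trans hM
  obtain ⟨C₂, hC₂, hnmb⟩ := hM₁ M ((le_max_right _ _).trans hM)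
  obtain ⟨C₅, hC₅, hene⟩ := energy n M A hM2 hA
  set S : ℝ := 2 ^ M * (2 ^ M * C₂ + 1) with hS
  set W : ℝ := C₅ * (C₃ * C₀) + C₅ * (C₃ * S) + C₅ * S + 2 ^ M * C₁ + 2 ^ M * (C₄ * (1 + C₁))
    with hW
  refine ⟨max 1 W, le_max_left _ _, ?_⟩
  intro N δ f h a hN hf hh
  refine le_trans ?_ (le_max_right _ _)
  obtain ⟨m1, m2, -⟩ := hmas N δ C₀ f h a hf hh
  -- the constant `η`
  set s₀ : ℝ := ∑ u ∈ Tp N K a, a u with hs₀
  have hs₀0 : 0 ≤ s₀ := Finset.sum_nonneg fun u _ => hh.nn u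
  set η : ℝ := 1 / (1 + s₀) with hη
  have hη0 : 0 < η := by rw [hη]; positivity
  have hη1 : η ≤ 1 := by
    rw [hη, div_le_one (by linarith)]
    linarith
  have hηs : η ^ M * s₀ ≤ 1 := by
    have h1 : η ^ M ≤ η ^ 1 := pow_le_pow_of_le_one hη0.le hη1 (by omega)
    rw [pow_one] at h1
    have h2 : η * s₀ ≤ 1 := by
      rw [hη, div_mul_eq_mul_div, one_mul, div_le_one (by linarith)]
      linarith
    exact (mul_le_mul_of_nonneg_right h1 hs₀0).trans h2
  set τ : List D → ℝ := fun u => 2 * ta f u + η with hτ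
  have hτ0 : ∀ u, 0 ≤ τ u := by
    intro u
    have := ta_nonneg f u
    rw [hτ]
    show 0 ≤ 2 * ta f u + η
    linarith
  have hτ5 : ∀ u, τ u ≤ 5 := by
    intro u
    have := ta_le hf u
    show 2 * ta f u + η ≤ 5
    linarith
  have hcalm : ∀ u, ¬ NC f (τ u) u := fun u => calm hf hη0 u
  -- the sum of the `M`-th powers
  have hSum : ∑ u ∈ Tp N K a, τ u ^ M * a u ≤ S := by
    have h1 : ∀ u ∈ Tp N K a, τ u ^ M * a u ≤
        2 ^ M * (2 ^ M * (ta f u ^ M * a u) + η ^ M * a u) := by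
      intro u _
      have h2 : τ u ^ M ≤ 2 ^ M * ((2 * ta f u) ^ M + η ^ M) :=
        pow2 (by have := ta_nonneg f u; positivity) hη0.le M
      rw [mul_pow] at h2
      calc τ u ^ M * a u ≤ 2 ^ M * (2 ^ M * ta f u ^ M + η ^ M) * a u :=
            mul_le_mul_of_nonneg_right h2 (hh.nn u)
        _ = _ := by ring
    refine (Finset.sum_le_sum h1).trans ?_
    rw [← Finset.mul_sum, Finset.sum_add_distrib, ← Finset.mul_sum, ← Finset.mul_sum, hS]
    refine mul_le_mul_of_nonneg_left ?_ (by positivity)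
    have h3 := hnmb N δ f h a hN hf hh
    have h4 : (2 : ℝ) ^ M * ∑ u ∈ Tp N K a, ta f u ^ M * a u ≤ 2 ^ M * C₂ :=
      mul_le_mul_of_nonneg_left h3 (by positivity)
    linarith
  -- the brackets
  have hVs : ∑ x ∈ Tp N K a, Vx N f h (Top K a) x ≤ C₃ * C₀ := by
    have h1 := hVAR (EuclideanSpace ℂ (Fin n × Fin n × Option (Fin n))) N (mm f h) (Top K a) hN
      (Or.inl rfl) m2
    have h2 : ∑ v ∈ lv (N - 1), ‖mm f h v‖ ≤ C₃ * C₀ := by
      have h3 : ∀ v ∈ lv (N - 1), ‖mm f h v‖ ≤ C₃ * a v := by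
        intro v hv
        rw [mem_lv] at hv
        exact m1 v (by omega)
      refine (Finset.sum_le_sum h3).trans ?_
      rw [← Finset.mul_sum]
      exact mul_le_mul_of_nonneg_left (hh.lev (N - 1) (by omega)) (by linarith)
    refine le_trans (le_of_eq ?_) (h1.trans h2)
    unfold Tp
    refine Finset.sum_congr ?_ fun _ _ => rfl
    ext x
    simp only [Finset.mem_filter]
  -- lengths
  have hlen : ∀ x ∈ Tp N K a, x.length < N := by
    intro x hx
    unfold Tp at hx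
    rw [Finset.mem_filter, mem_wd] at hx
    omega
  have hlen' : ∀ x, ∀ u ∈ nxt N (Top K a) x, u.length < N := by
    intro x u hu
    rw [VAR_.mem_nxt] at hu
    omega
  -- one top
  have key : ∀ x ∈ Tp N K a, ∑ u ∈ nxt N (Top K a) x, dist (FF f u) (FF f x) ^ M * a u ≤
      C₅ * Vx N f h (Top K a) x + C₅ * (C₃ * (τ x ^ M * a x)) +
        C₅ * ∑ u ∈ nxt N (Top K a) x, τ u ^ M * a u +
        2 ^ M * ∑ u ∈ nxt N (Top K a) x, (if A * ‖mm f h u‖ < a u then a u else 0) +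
        (if A * ‖mm f h x‖ < a x then 2 ^ M * ∑ u ∈ nxt N (Top K a) x, a u else 0) := by
    intro x hx
    have z1 : 0 ≤ C₅ * Vx N f h (Top K a) x :=
      mul_nonneg (by linarith) (Vx_nonneg N f h _ x)
    have z2 : 0 ≤ C₅ * (C₃ * (τ x ^ M * a x)) :=
      mul_nonneg (by linarith) (mul_nonneg (by linarith)
        (mul_nonneg (pow_nonneg (hτ0 x) M) (hh.nn x)))
    have z3 : 0 ≤ C₅ * ∑ u ∈ nxt N (Top K a) x, τ u ^ M * a u :=
      mul_nonneg (by linarith) (Finset.sum_nonneg fun u _ =>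
        mul_nonneg (pow_nonneg (hτ0 u) M) (hh.nn u))
    have z4 : 0 ≤ 2 ^ M * ∑ u ∈ nxt N (Top K a) x, (if A * ‖mm f h u‖ < a u then a u else 0) := by
      refine mul_nonneg (by positivity) (Finset.sum_nonneg fun u _ => ?_)
      split_ifs
      · exact hh.nn u
      · exact le_rfl
    have hd : ∀ u, dist (FF f u) (FF f x) ^ M * a u ≤ 2 ^ M * a u := fun u =>
      mul_le_mul_of_nonneg_right (pow_le_pow_left₀ dist_nonneg (CorA.ENE_.dist_le hf u x) M)
        (hh.nn u)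
    by_cases hb : A * ‖mm f h x‖ < a x
    · rw [if_pos hb]
      have h1 : ∑ u ∈ nxt N (Top K a) x, dist (FF f u) (FF f x) ^ M * a u ≤
          2 ^ M * ∑ u ∈ nxt N (Top K a) x, a u := by
        rw [Finset.mul_sum]
        exact Finset.sum_le_sum fun u _ => hd u
      linarith
    · rw [if_neg hb, add_zero]
      have hgx : a x ≤ A * ‖mm f h x‖ := not_lt.1 hb
      set t := (nxt N (Top K a) x).filter (fun u => ¬ A * ‖mm f h u‖ < a u) with ht
      have h1 := hene N δ C₀ f h a τ x (nxt N (Top K a) x) t hf hh (Finset.filter_subset _ _)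
        (hlen x hx) (hlen' x) hτ0 (hτ5 x) (hcalm x) (fun u _ => hcalm u) hgx
        (fun u hu => not_lt.1 (Finset.mem_filter.1 hu).2)
      have h2 : ∑ u ∈ nxt N (Top K a) x, dist (FF f u) (FF f x) ^ M * a u ≤
          ∑ u ∈ t, dist (FF f u) (FF f x) ^ M * a u +
            2 ^ M * ∑ u ∈ nxt N (Top K a) x, (if A * ‖mm f h u‖ < a u then a u else 0) := by
        rw [← Finset.sum_filter_add_sum_filter_not (nxt N (Top K a) x)
          (fun u => A * ‖mm f h u‖ < a u), ← Finset.sum_filter, Finset.mul_sum, add_comm]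
        exact add_le_add le_rfl (Finset.sum_le_sum fun u _ => hd u)
      have h3 : ∑ u ∈ t, τ u ^ M * a u ≤ ∑ u ∈ nxt N (Top K a) x, τ u ^ M * a u :=
        Finset.sum_le_sum_of_subset_of_nonneg (Finset.filter_subset _ _) fun u _ _ =>
          mul_nonneg (pow_nonneg (hτ0 u) M) (hh.nn u)
      have h4 : τ x ^ M * ‖mm f h x‖ ≤ C₃ * (τ x ^ M * a x) := by
        calc τ x ^ M * ‖mm f h x‖ ≤ τ x ^ M * (C₃ * a x) :=
              mul_le_mul_of_nonneg_left (m1 x (hlen x hx)) (pow_nonneg (hτ0 x) M)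
          _ = _ := by ring
      have h5 : C₅ * (τ x ^ M * ‖mm f h x‖ + ∑ u ∈ t, τ u ^ M * a u) ≤
          C₅ * (C₃ * (τ x ^ M * a x)) + C₅ * ∑ u ∈ nxt N (Top K a) x, τ u ^ M * a u := by
        rw [← mul_add]
        exact mul_le_mul_of_nonneg_left (add_le_add h4 h3) (by linarith)
      have h6 : C₅ * (∑ u ∈ nxt N (Top K a) x, ‖mm f h u‖ +
          ‖mm f h x - ∑ u ∈ nxt N (Top K a) x, mm f h u‖ - ‖mm f h x‖) =
          C₅ * Vx N f h (Top K a) x := rfl
      rw [h6] at h1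
      linarith
  refine (Finset.sum_le_sum key).trans ?_
  rw [Finset.sum_add_distrib, Finset.sum_add_distrib, Finset.sum_add_distrib,
    Finset.sum_add_distrib, ← Finset.mul_sum, ← Finset.mul_sum, ← Finset.mul_sum,
    ← Finset.mul_sum, ← Finset.mul_sum, ← Finset.sum_filter]
  -- the five sums
  have p1 : C₅ * ∑ x ∈ Tp N K a, Vx N f h (Top K a) x ≤ C₅ * (C₃ * C₀) :=
    mul_le_mul_of_nonneg_left hVs (by linarith)
  have p2 : C₅ * (C₃ * ∑ x ∈ Tp N K a, τ x ^ M * a x) ≤ C₅ * (C₃ * S) :=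
    mul_le_mul_of_nonneg_left (mul_le_mul_of_nonneg_left hSum (by linarith)) (by linarith)
  have p3 : C₅ * ∑ x ∈ Tp N K a, ∑ u ∈ nxt N (Top K a) x, τ u ^ M * a u ≤ C₅ * S :=
    mul_le_mul_of_nonneg_left ((once (fun u => τ u ^ M * a u) fun u =>
      mul_nonneg (pow_nonneg (hτ0 u) M) (hh.nn u)).trans hSum) (by linarith)
  have hbad' := hbad N δ f h a hN hf hh
  have p4 : 2 ^ M * ∑ x ∈ Tp N K a, ∑ u ∈ nxt N (Top K a) x,
      (if A * ‖mm f h u‖ < a u then a u else 0) ≤ 2 ^ M * C₁ := by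
    refine mul_le_mul_of_nonneg_left ?_ (by positivity)
    refine (once (fun u => if A * ‖mm f h u‖ < a u then a u else 0) fun u => ?_).trans ?_
    · split_ifs
      · exact hh.nn u
      · exact le_rfl
    · rw [← Finset.sum_filter]
      exact hbad'
  have p5 : ∑ x ∈ (Tp N K a).filter (fun x => A * ‖mm f h x‖ < a x),
      2 ^ M * ∑ u ∈ nxt N (Top K a) x, a u ≤ 2 ^ M * (C₄ * (1 + C₁)) := by
    rw [← Finset.mul_sum]
    refine mul_le_mul_of_nonneg_left ?_ (by positivity)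
    refine (hexi N δ f h a _ hN hf hh (Finset.filter_subset _ _)).trans ?_
    exact mul_le_mul_of_nonneg_left (by linarith) (by linarith)
  rw [hW]
  linarith

end Pool.Agent.ALQ
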