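import Pool.Agent.ALQ.Defs

/-!
# The sizes at the exits below a set of tops
-/

set_option autoImplicit false

namespace Pool.Agent.ALQ

open Complex Metric Set Filter Topology MeasureTheory
open Pool.Corona91698f Pool.Agent.CorE Pool.Agent.CorA
open scoped Real BoundedContinuousFunction

namespace EXI_

theorem mem_Tp {N : ℕ} {K : ℝ} {a : List D → ℝ} {u : List D} :
    u ∈ Tp N K a ↔ u.length ≤ N - 1 ∧ Top K a u := by
  classical
  unfold Tp
  rw [Finset.mem_filter, mem_wd]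

theorem vx_nonneg {n : ℕ} (N : ℕ) (f : Fin n → ℂ → ℂ) (h : Fin n → Fin n → ℂ → ℂ)
    (R : List D → Prop) (x : List D) : 0 ≤ Vx N f h R x := by
  unfold Vx
  have e1 : ‖mm f h x‖ ≤ ‖mm f h x - ∑ u ∈ nxt N R x, mm f h u‖ +
      ‖∑ u ∈ nxt N R x, mm f h u‖ := by
    have := norm_add_le (mm f h x - ∑ u ∈ nxt N R x, mm f h u) (∑ u ∈ nxt N R x, mm f h u)
    rwa [sub_add_cancel] at this
  have e2 : ‖∑ u ∈ nxt N R x, mm f h u‖ ≤ ∑ u ∈ nxt N R x, ‖mm f h u‖ := norm_sum_le _ _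
  linarith

theorem sum_le_vx {n : ℕ} (N : ℕ) (f : Fin n → ℂ → ℂ) (h : Fin n → Fin n → ℂ → ℂ)
    (R : List D → Prop) (x : List D) :
    ∑ u ∈ nxt N R x, ‖mm f h u‖ ≤ Vx N f h R x + ‖mm f h x‖ := by
  unfold Vx
  have := norm_nonneg (mm f h x - ∑ u ∈ nxt N R x, mm f h u)
  linarith

/-- the brackets of the words of a set with `R` have a bounded sum -/
theorem sum_vx {n N : ℕ} {C₀ C3 : ℝ} {f : Fin n → ℂ → ℂ} {h : Fin n → Fin n → ℂ → ℂ}
    {a : List D → ℝ} (hN : 1 ≤ N) (hh : HD n N h a C₀) (hC3 : 0 ≤ C3)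
    (m1 : ∀ u : List D, u.length < N → ‖mm f h u‖ ≤ C3 * a u)
    (m2 : ∀ p : List D, p.length + 1 < N → mm f h p = ∑ d : D, mm f h (p ++ [d]))
    (R : List D → Prop) (hR : R []) (t : Finset (List D))
    (ht : ∀ x ∈ t, x.length ≤ N - 1 ∧ R x) : ∑ x ∈ t, Vx N f h R x ≤ C3 * C₀ := by
  classical
  have v1 := p_VAR _ N (mm f h) R hN hR m2
  have v2 : ∑ x ∈ t, Vx N f h R x ≤ ∑ x ∈ (wd (N - 1)).filter R, Vx N f h R x :=
    Finset.sum_le_sum_of_subset_of_nonneg (fun x hx => by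
      rw [Finset.mem_filter, mem_wd]
      exact ht x hx) fun x _ _ => vx_nonneg N f h R x
  have v3 : ∑ v ∈ lv (N - 1), ‖mm f h v‖ ≤ C3 * C₀ := by
    calc ∑ v ∈ lv (N - 1), ‖mm f h v‖ ≤ ∑ v ∈ lv (N - 1), C3 * a v :=
          Finset.sum_le_sum fun v hv => m1 v (by
            rw [mem_lv] at hv
            omega)
      _ = C3 * ∑ v ∈ lv (N - 1), a v := by rw [Finset.mul_sum]
      _ ≤ C3 * C₀ := mul_le_mul_of_nonneg_left (hh.lev (N - 1) (by omega)) hC3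
  exact v2.trans (v1.trans v3)

/-- every top is an exit at most once -/
theorem sum_exits_le {N : ℕ} {K : ℝ} {a : List D → ℝ} (t : Finset (List D)) (ht : t ⊆ Tp N K a)
    (g : List D → ℝ) (hg : ∀ u, 0 ≤ g u) :
    ∑ x ∈ t, ∑ u ∈ nxt N (Top K a) x, g u ≤ ∑ u ∈ Tp N K a, g u := by
  classical
  have hdis : Set.PairwiseDisjoint (↑t : Set (List D)) (fun x => nxt N (Top K a) x) := by
    intro x hx x' hx' hxx
    rw [Function.onFun, Finset.disjoint_left]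
    intro u hu hu'
    exact hxx (VAR_.disj_nxt N (Top K a) (mem_Tp.1 (ht hx)).2 (mem_Tp.1 (ht hx')).2 hu hu')
  rw [← Finset.sum_biUnion hdis]
  refine Finset.sum_le_sum_of_subset_of_nonneg (fun u hu => ?_) fun u _ _ => hg u
  obtain ⟨x, -, hu⟩ := Finset.mem_biUnion.1 hu
  have := VAR_.mem_nxt.1 hu
  exact mem_Tp.2 ⟨this.1, this.2.2.2.1⟩

end EXI_

open EXI_ in
theorem p_EXI (hBAD : T_BAD) (hMAS : T_MAS) : T_EXI := by
  classical
  intro n C₀ K hC₀ hK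
  obtain ⟨A, C1, hA, hC1, h1⟩ := hBAD n C₀ K hC₀ hK
  obtain ⟨C3, hC3, h3⟩ := hMAS n
  have hA' : 0 < A := by linarith
  have hC3' : 0 < C3 := by linarith
  have hAC : 0 < A * C3 := by positivity
  have hACC : 0 < A * C3 * C₀ := by positivity
  refine ⟨C1 + A * C3 * C₀ + A * C3, by linarith, ?_⟩
  intro N δ f h a t hN hf hh ht
  obtain ⟨m1, m2, m3⟩ := h3 N δ C₀ f h a hf hh
  have hnn := hh.nn
  set g : List D → ℝ := fun u => if A * ‖mm f h u‖ < a u then a u else 0 with hg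
  have hg0 : ∀ u, 0 ≤ g u := fun u => by
    simp only [hg]
    split_ifs
    · exact hnn u
    · exact le_rfl
  have hag : ∀ u, a u ≤ g u + A * ‖mm f h u‖ := fun u => by
    simp only [hg]
    split_ifs with hc
    · have : 0 ≤ A * ‖mm f h u‖ := by positivity
      linarith
    · push Not at hc
      linarith
  have s1 : ∑ x ∈ t, ∑ u ∈ nxt N (Top K a) x, g u ≤ C1 := by
    refine (sum_exits_le t ht g hg0).trans ?_
    have e : ∑ u ∈ Tp N K a, g u =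
        ∑ u ∈ (Tp N K a).filter (fun u => A * ‖mm f h u‖ < a u), a u := by
      rw [Finset.sum_filter]
    rw [e]
    exact h1 N δ f h a hN hf hh
  have s2 : ∑ x ∈ t, Vx N f h (Top K a) x ≤ C3 * C₀ :=
    sum_vx hN hh hC3'.le m1 m2 (Top K a) (Or.inl rfl) t fun x hx => mem_Tp.1 (ht hx)
  have s3 : ∑ x ∈ t, ‖mm f h x‖ ≤ C3 * ∑ x ∈ t, a x := by
    rw [Finset.mul_sum]
    refine Finset.sum_le_sum fun x hx => m1 x ?_
    have := (mem_Tp.1 (ht hx)).1
    omega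
  have s4 : 0 ≤ ∑ x ∈ t, a x := Finset.sum_nonneg fun x _ => hnn x
  have s5 : ∑ x ∈ t, ∑ u ∈ nxt N (Top K a) x, a u ≤
      ∑ x ∈ t, ∑ u ∈ nxt N (Top K a) x, g u +
        A * (∑ x ∈ t, Vx N f h (Top K a) x + ∑ x ∈ t, ‖mm f h x‖) := by
    rw [← Finset.sum_add_distrib, Finset.mul_sum, ← Finset.sum_add_distrib]
    refine Finset.sum_le_sum fun x _ => ?_
    calc ∑ u ∈ nxt N (Top K a) x, a u ≤ ∑ u ∈ nxt N (Top K a) x, (g u + A * ‖mm f h u‖) :=
          Finset.sum_le_sum fun u _ => hag u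
      _ = ∑ u ∈ nxt N (Top K a) x, g u + A * ∑ u ∈ nxt N (Top K a) x, ‖mm f h u‖ := by
          rw [Finset.sum_add_distrib, Finset.mul_sum]
      _ ≤ _ := by
          have := mul_le_mul_of_nonneg_left (sum_le_vx N f h (Top K a) x) hA'.le
          linarith
  have s6 : A * (∑ x ∈ t, Vx N f h (Top K a) x + ∑ x ∈ t, ‖mm f h x‖) ≤
      A * (C3 * C₀ + C3 * ∑ x ∈ t, a x) := mul_le_mul_of_nonneg_left (by linarith) hA'.le
  have s7 : 0 ≤ (C1 + A * C3 * C₀) * ∑ x ∈ t, a x := by positivity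
  nlinarith

end Pool.Agent.ALQ
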