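import Pool.Agent.ALQ.TargetsC

/-!
# FAR: the steep regions of all tops
-/

set_option autoImplicit false

namespace Pool.Agent.ALQ

open Complex Metric Set Filter Topology MeasureTheory
open Pool.Corona91698f Pool.Agent.CorE Pool.Agent.CorA
open scoped Real BoundedContinuousFunction

namespace FAR_

/-- the words near the bottom -/
theorem edge {n : ℕ} {C₀ : ℝ} {N : ℕ} {h : Fin n → Fin n → ℂ → ℂ} {a : List D → ℝ}
    (hN : 1 ≤ N) (hC₀ : 0 < C₀) (hH : HD n N h a C₀) (k : ℕ) :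
    ∑ u ∈ (wd (N - 1)).filter (fun u => N ≤ u.length + k), a u ≤ (k + 1) * C₀ := by
  rw [Finset.sum_filter, NC4_.sum_wd_lv N hN]
  have ha := hH.nn
  have h1 := NC4_.card_le
    (fun l => ∑ u ∈ lv l, if N ≤ u.length + k then a u else 0) C₀ N (N - (k + 1)) k hN
    rfl (fun l hl => by
      refine le_trans (Finset.sum_le_sum fun u _ => ?_) (hH.lev l hl)
      split_ifs
      · exact le_refl _
      · exact ha u) hC₀.le
  have h2 : ∑ m ∈ Finset.range (N - (k + 1)), ∑ u ∈ lv (m + 1),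
      (if N ≤ u.length + k then a u else 0) = 0 := by
    refine Finset.sum_eq_zero fun m hm => Finset.sum_eq_zero fun u hu => ?_
    rw [mem_lv] at hu
    rw [Finset.mem_range] at hm
    rw [if_neg]
    omega
  rw [h2] at h1
  linarith

theorem AM_le {n N M : ℕ} {C₀ : ℝ} {φ : ℂ → ℂ} {h : Fin n → Fin n → ℂ → ℂ} {a : List D → ℝ}
    {v : List D} {B : ℝ} (hSZF : T_SZF) (hH : HD n N h a C₀)
    (hφ : DifferentiableOn ℂ φ squareCantorᶜ) (hv : v.length < N) (hB : 0 ≤ B)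
    (hb : ∀ z, Psi v z ∈ nodeX → ‖φ z‖ ≤ B) : AM φ M h v ≤ B ^ M * a v := by
  obtain ⟨-, -, -, h4, -⟩ := hSZF
  refine (h4 n N M C₀ φ h a v hH hφ hv).2.2.1 _ (mul_nonneg (pow_nonneg hB M) (hH.nn v)) ?_
  intro i j z hz
  rw [norm_mul, norm_pow]
  have h1 := hH.up v hv i j z hz
  have h2 : ‖φ z‖ ^ M ≤ B ^ M := pow_le_pow_left₀ (norm_nonneg _) (hb z hz) M
  calc ‖φ z‖ ^ M * ‖h i j z‖ ≤ B ^ M * (3 ^ v.length * a v) :=
        mul_le_mul h2 h1 (norm_nonneg _) (pow_nonneg hB M)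
    _ = 3 ^ v.length * (B ^ M * a v) := by ring

theorem AM1 {n N M : ℕ} {C₀ δ : ℝ} {φ : ℂ → ℂ} {f : Fin n → ℂ → ℂ}
    {h : Fin n → Fin n → ℂ → ℂ} {a : List D → ℝ}
    {s e : List D} (hSZF : T_SZF) (hD : Dat n δ f) (hH : HD n N h a C₀)
    (hφ : DifferentiableOn ℂ φ squareCantorᶜ) (hv : e.length < N)
    (hb : ∀ z ∈ squareCantorᶜ, ‖φ z‖ ≤ ∑ k, ‖f k z - f k (cc s)‖) :
    AM φ M h e ≤
      (2 * n) ^ M * (ta f e ^ M * a e + dist (FF f e) (FF f s) ^ M * a e) := by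
  have h3 := hSZF.2.2.1
  have h5 := hSZF.2.2.2.2 n δ f e hD
  have ht0 := h5.1
  have hd0 : 0 ≤ dist (FF f e) (FF f s) := dist_nonneg
  have hn0 : (0 : ℝ) ≤ n := Nat.cast_nonneg n
  have key : ∀ z, Psi e z ∈ nodeX → ‖φ z‖ ≤ n * (ta f e + dist (FF f e) (FF f s)) := by
    intro z hz
    refine (hb z ((h3 e).1 hz)).trans ?_
    calc ∑ k, ‖f k z - f k (cc s)‖ ≤ ∑ _k : Fin n, (ta f e + dist (FF f e) (FF f s)) := by
          refine Finset.sum_le_sum fun k _ => ?_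
          have e1 := h5.2.2.1 k z hz
          have e2 : ‖f k (cc e) - f k (cc s)‖ ≤ dist (FF f e) (FF f s) := by
            rw [← dist_eq_norm]
            exact dist_le_pi_dist (FF f e) (FF f s) k
          have e3 : ‖f k z - f k (cc s)‖ ≤
              ‖f k z - f k (cc e)‖ + ‖f k (cc e) - f k (cc s)‖ :=
            norm_sub_le_norm_sub_add_norm_sub _ _ _
          linarith
      _ = n * (ta f e + dist (FF f e) (FF f s)) := by
          rw [Finset.sum_const, Finset.card_univ, Fintype.card_fin, nsmul_eq_mul]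
  have h1 := AM_le (M := M) hSZF hH hφ hv (mul_nonneg hn0 (add_nonneg ht0 hd0)) key
  refine h1.trans ?_
  have h2 := add_pow_le ht0 hd0 M
  have h6 : (2 : ℝ) ^ (M - 1) ≤ 2 ^ M := pow_le_pow_right₀ (by norm_num) (Nat.sub_le M 1)
  have h7 : 0 ≤ ta f e ^ M + dist (FF f e) (FF f s) ^ M :=
    add_nonneg (pow_nonneg ht0 M) (pow_nonneg hd0 M)
  have h8 : (ta f e + dist (FF f e) (FF f s)) ^ M ≤
      2 ^ M * (ta f e ^ M + dist (FF f e) (FF f s) ^ M) :=
    h2.trans (mul_le_mul_of_nonneg_right h6 h7)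
  have ha := hH.nn e
  calc (n * (ta f e + dist (FF f e) (FF f s))) ^ M * a e
      = n ^ M * a e * (ta f e + dist (FF f e) (FF f s)) ^ M := by rw [mul_pow]; ring
    _ ≤ n ^ M * a e * (2 ^ M * (ta f e ^ M + dist (FF f e) (FF f s) ^ M)) :=
        mul_le_mul_of_nonneg_left h8 (mul_nonneg (pow_nonneg hn0 M) ha)
    _ = (2 * n) ^ M * (ta f e ^ M * a e + dist (FF f e) (FF f s) ^ M * a e) := by
        rw [mul_pow]; ring

theorem len_of_Tp {N : ℕ} (hN : 1 ≤ N) {K : ℝ} {a : List D → ℝ} {s : List D}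
    (hs : s ∈ Tp N K a) : s.length < N ∧ Top K a s := by
  classical
  unfold Tp at hs
  rw [Finset.mem_filter, mem_wd] at hs
  exact ⟨by omega, hs.2⟩

theorem len_of_nxt {N : ℕ} (hN : 1 ≤ N) {K : ℝ} {a : List D → ℝ} {s e : List D}
    (he : e ∈ nxt N (Top K a) s) : e.length < N ∧ e ∈ Tp N K a := by
  classical
  unfold nxt at he
  rw [Finset.mem_filter, mem_wd] at he
  refine ⟨by omega, ?_⟩
  unfold Tp
  rw [Finset.mem_filter, mem_wd]
  exact ⟨he.1, he.2.2.2.1⟩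

theorem sum_nxt {N : ℕ} (hN : 1 ≤ N) (hLST : T_LST) {K : ℝ} {a : List D → ℝ}
    (F : List D → ℝ) (hF : ∀ u, 0 ≤ F u) :
    ∑ s ∈ Tp N K a, ∑ e ∈ nxt N (Top K a) s, F e ≤ ∑ e ∈ Tp N K a, F e := by
  classical
  rw [← Finset.sum_biUnion]
  · refine Finset.sum_le_sum_of_subset_of_nonneg ?_ fun _ _ _ => hF _
    intro e he
    rw [Finset.mem_biUnion] at he
    obtain ⟨s, -, hs⟩ := he
    exact (len_of_nxt hN hs).2
  · intro s hs t ht hst
    rw [Function.onFun, Finset.disjoint_left]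
    intro u h1 h2
    obtain ⟨-, -, -, -, -, -, -, h8⟩ := hLST K a
    have e1 := (h8 N s u (len_of_Tp hN (Finset.mem_coe.1 hs)).2 h1).2
    have e2 := (h8 N t u (len_of_Tp hN (Finset.mem_coe.1 ht)).2 h2).2
    exact hst (e1.symm.trans e2)

theorem sum_Rg {N : ℕ} (hN : 1 ≤ N) (hLST : T_LST) {K : ℝ} {a : List D → ℝ}
    (ha : ∀ u, 0 ≤ a u) (J : ℕ) :
    ∑ s ∈ Tp N K a, ∑ y ∈ (Rg N K a s).filter (fun y => N ≤ y.length + J), a y ≤
      ∑ y ∈ (wd (N - 1)).filter (fun y => N ≤ y.length + J), a y := by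
  classical
  rw [← Finset.sum_biUnion]
  · refine Finset.sum_le_sum_of_subset_of_nonneg ?_ fun _ _ _ => ha _
    intro e he
    rw [Finset.mem_biUnion] at he
    obtain ⟨s, hs', hs⟩ := he
    rw [Finset.mem_filter] at hs
    obtain ⟨-, -, -, -, -, -, h7, -⟩ := hLST K a
    have h1 := (h7 N s e (len_of_Tp hN hs').2 hs.1).2.2
    rw [Finset.mem_filter, mem_wd]
    exact ⟨by omega, hs.2⟩
  · intro s hs t ht hst
    rw [Function.onFun, Finset.disjoint_left]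
    intro u h1 h2
    rw [Finset.mem_filter] at h1 h2
    obtain ⟨-, -, -, -, -, -, h7, -⟩ := hLST K a
    have e1 := (h7 N s u (len_of_Tp hN (Finset.mem_coe.1 hs)).2 h1.1).2.1
    have e2 := (h7 N t u (len_of_Tp hN (Finset.mem_coe.1 ht)).2 h2.1).2.1
    exact hst (e1.symm.trans e2)

end FAR_

open FAR_ in
theorem p_FAR (hSRG : T_SRG) (hNMB : T_NMB) (hENE : T_ENE) (hSZF : T_SZF) (hLST : T_LST) :
    T_FAR := by
  classical
  obtain ⟨Kt, hKt, HS⟩ := hSRG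
  refine ⟨max 8 Kt, le_max_left _ _, ?_⟩
  intro n C₀ K hC₀ hK
  have hK8 : 8 ≤ K := (le_max_left _ _).trans hK
  have hKK : Kt ≤ K := (le_max_right _ _).trans hK
  obtain ⟨M1, HM1⟩ := hNMB n C₀ K hC₀ (by linarith)
  obtain ⟨M2, HM2⟩ := hENE n C₀ K hC₀ (by linarith)
  refine ⟨max 1 (max M1 M2), ?_⟩
  intro M hM
  have hM0 : 1 ≤ M := (le_max_left _ _).trans hM
  have hM1 : M1 ≤ M := ((le_max_left _ _).trans (le_max_right _ _)).trans hM
  have hM2 : M2 ≤ M := ((le_max_right _ _).trans (le_max_right _ _)).trans hM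
  obtain ⟨CN, hCN, HN⟩ := HM1 M hM1
  obtain ⟨CE, hCE, HE⟩ := HM2 M hM2
  obtain ⟨CS, J, hCS, HS'⟩ := HS n K M hKK hM0
  have hn0 : (0 : ℝ) ≤ n := Nat.cast_nonneg n
  have hp0 : (0 : ℝ) ≤ (2 * n) ^ M := pow_nonneg (by linarith) M
  have hJ0 : (0 : ℝ) ≤ J := Nat.cast_nonneg J
  refine ⟨1 + CS * ((2 * n) ^ M * CN + (2 * n) ^ M * (CN + CE) + (J + 1) * C₀), ?_, ?_⟩
  · have h1 : 0 ≤ (2 * n : ℝ) ^ M * CN := mul_nonneg hp0 (by linarith)
    have h2 : 0 ≤ (2 * n : ℝ) ^ M * (CN + CE) := mul_nonneg hp0 (by linarith)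
    have h3 : 0 ≤ (J + 1) * C₀ := mul_nonneg (by linarith) hC₀.le
    have h4 : 0 ≤ CS * ((2 * n) ^ M * CN + (2 * n) ^ M * (CN + CE) + (J + 1) * C₀) :=
      mul_nonneg (by linarith) (by linarith)
    linarith
  intro N δ f h a φ hN hD hH hφ hb
  have ha := hH.nn
  have hta : ∀ u, 0 ≤ ta f u := fun u => (hSZF.2.2.2.2 n δ f u hD).1
  have S1 : ∑ s ∈ Tp N K a, AM (φ s) M h s ≤ (2 * n) ^ M * CN := by
    calc ∑ s ∈ Tp N K a, AM (φ s) M h s
        ≤ ∑ s ∈ Tp N K a, (2 * n) ^ M * (ta f s ^ M * a s) := by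
          refine Finset.sum_le_sum fun s hs => ?_
          have h1 := AM1 (M := M) (s := s) (e := s) hSZF hD hH (hφ s) (len_of_Tp hN hs).1
            fun z hz => (hb s z hz).2
          rw [dist_self, zero_pow (by omega), zero_mul, add_zero] at h1
          exact h1
      _ = (2 * n) ^ M * ∑ s ∈ Tp N K a, ta f s ^ M * a s := by rw [Finset.mul_sum]
      _ ≤ (2 * n) ^ M * CN := mul_le_mul_of_nonneg_left (HN N δ f h a hN hD hH) hp0
  have S2 : ∑ s ∈ Tp N K a, ∑ e ∈ nxt N (Top K a) s, AM (φ s) M h e ≤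
      (2 * n) ^ M * (CN + CE) := by
    calc ∑ s ∈ Tp N K a, ∑ e ∈ nxt N (Top K a) s, AM (φ s) M h e
        ≤ ∑ s ∈ Tp N K a, ∑ e ∈ nxt N (Top K a) s,
          (2 * n) ^ M * (ta f e ^ M * a e + dist (FF f e) (FF f s) ^ M * a e) := by
          refine Finset.sum_le_sum fun s hs => Finset.sum_le_sum fun e he => ?_
          exact AM1 hSZF hD hH (hφ s) (len_of_nxt hN he).1 fun z hz => (hb s z hz).2
      _ = (2 * n) ^ M * (∑ s ∈ Tp N K a, ∑ e ∈ nxt N (Top K a) s, ta f e ^ M * a e +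
            ∑ s ∈ Tp N K a, ∑ e ∈ nxt N (Top K a) s,
              dist (FF f e) (FF f s) ^ M * a e) := by
          rw [← Finset.sum_add_distrib, Finset.mul_sum]
          refine Finset.sum_congr rfl fun s _ => ?_
          rw [← Finset.sum_add_distrib, Finset.mul_sum]
      _ ≤ (2 * n) ^ M * (CN + CE) := by
          refine mul_le_mul_of_nonneg_left (add_le_add ?_ (HE N δ f h a hN hD hH)) hp0
          exact (sum_nxt hN hLST (fun e => ta f e ^ M * a e)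
            fun u => mul_nonneg (pow_nonneg (hta u) M) (ha u)).trans (HN N δ f h a hN hD hH)
  have S3 : ∑ s ∈ Tp N K a, ∑ y ∈ (Rg N K a s).filter (fun y => N ≤ y.length + J), a y ≤
      (J + 1) * C₀ := (sum_Rg hN hLST ha J).trans (edge hN hC₀ hH J)
  calc ∑ s ∈ Tp N K a, ∑ y ∈ Rg N K a s, wt (φ s) y * AM (φ s) M h y
      ≤ ∑ s ∈ Tp N K a, CS * (AM (φ s) M h s + ∑ e ∈ nxt N (Top K a) s, AM (φ s) M h e +
          ∑ y ∈ (Rg N K a s).filter (fun y => N ≤ y.length + J), a y) := by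
        refine Finset.sum_le_sum fun s hs => ?_
        exact HS' N C₀ h a (φ s) s hN hH (hφ s) (fun z hz => (hb s z hz).1)
          (len_of_Tp hN hs).1
    _ = CS * (∑ s ∈ Tp N K a, AM (φ s) M h s +
          ∑ s ∈ Tp N K a, ∑ e ∈ nxt N (Top K a) s, AM (φ s) M h e +
          ∑ s ∈ Tp N K a, ∑ y ∈ (Rg N K a s).filter (fun y => N ≤ y.length + J), a y) := by
        rw [← Finset.sum_add_distrib, ← Finset.sum_add_distrib, Finset.mul_sum]
    _ ≤ CS * ((2 * n) ^ M * CN + (2 * n) ^ M * (CN + CE) + (J + 1) * C₀) :=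
        mul_le_mul_of_nonneg_left (add_le_add (add_le_add S1 S2) S3) (by linarith)
    _ ≤ 1 + CS * ((2 * n) ^ M * CN + (2 * n) ^ M * (CN + CE) + (J + 1) * C₀) := by linarith

end Pool.Agent.ALQ
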