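import Pool.Agent.ALQ.TargetsG

set_option autoImplicit false

/-!
# ALQ, target GIT: growth down to the first stops
-/

namespace Pool.Agent.ALQ

open Complex Metric Set Filter Topology MeasureTheory
open Pool.Corona91698f Pool.Agent.CorE Pool.Agent.CorA
open scoped Real

namespace GIT_

/-- membership in a filter, any decidability instance -/
theorem memf {P : List D → Prop} {i : DecidablePred P} {s : Finset (List D)} {k : List D} :
    k ∈ @Finset.filter (List D) P i s ↔ k ∈ s ∧ P k := Finset.mem_filter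

theorem memnxt {N : ℕ} {E : List D → Prop} {v w : List D} : w ∈ nxt N E v ↔
    w ∈ wd (N - 1) ∧ v <+: w ∧ w ≠ v ∧ E w ∧
      ∀ t, v <+: t → t <+: w → E t → t = v ∨ t = w := by
  unfold nxt
  exact memf

theorem anti {s t : List D} (h1 : s <+: t) (h2 : t <+: s) : s = t :=
  h1.eq_of_length (le_antisymm h1.length_le h2.length_le)

theorem un_refl {E : List D → Prop} {z : List D} (h : ¬ E z) : Un E z z := by
  refine ⟨List.prefix_rfl, fun t h1 h2 h3 => h ?_⟩
  rw [anti h1 h2]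
  exact h3

theorem un_trans {E : List D → Prop} {z v u : List D} (h1 : Un E z v) (h2 : Un E v u) :
    Un E z u := by
  refine ⟨h1.1.trans h2.1, fun t h3 h4 h5 => ?_⟩
  rcases List.prefix_or_prefix_of_prefix h4 h2.1 with h | h
  · exact h1.2 t h3 h h5
  · exact h2.2 t h h4 h5

theorem un_not {E : List D → Prop} {z v : List D} (h : Un E z v) : ¬ E v :=
  h.2 v h.1 List.prefix_rfl

theorem nxt_sub {N : ℕ} {E : List D → Prop} {z v w : List D} (h : Un E z v)
    (hw : w ∈ nxt N E v) : w ∈ nxt N E z := by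
  rw [memnxt] at hw ⊢
  obtain ⟨a1, a2, a3, a4, a5⟩ := hw
  have hz : ¬ E z := h.2 z List.prefix_rfl h.1
  refine ⟨a1, h.1.trans a2, fun e => hz (e ▸ a4), a4, fun t b1 b2 b3 => ?_⟩
  rcases List.prefix_or_prefix_of_prefix b2 a2 with c | c
  · exact absurd b3 (h.2 t b1 c)
  · rcases a5 t c b2 b3 with e | e
    · rw [e] at b3
      exact absurd b3 (un_not h)
    · exact Or.inr e

theorem parent {E : List D → Prop} {z v : List D} (h : Un E z v) (hne : v ≠ z) :
    ∃ (p' : List D) (d' : D), v = p' ++ [d'] ∧ Un E z p' := by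
  obtain ⟨⟨s, hs⟩, h2⟩ := h
  rcases s.eq_nil_or_concat' with rfl | ⟨s', d', rfl⟩
  · rw [List.append_nil] at hs
    exact absurd hs.symm hne
  · have hv : v = z ++ s' ++ [d'] := by rw [← hs, List.append_assoc]
    refine ⟨z ++ s', d', hv, List.prefix_append _ _, fun t h3 h4 => h2 t h3 (h4.trans ?_)⟩
    rw [hv]
    exact List.prefix_append _ _

/-- the weight -/
noncomputable def W (z v : List D) : ℝ := (9 / 10 : ℝ) ^ (v.length - z.length)

theorem W_pos (z v : List D) : 0 < W z v := by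
  unfold W
  positivity

theorem W_app {z v : List D} (x : List D) (h : z <+: v) :
    W z v = (10 / 9) ^ x.length * W z (v ++ x) := by
  unfold W
  have h1 := h.length_le
  rw [List.length_append, show v.length + x.length - z.length = (v.length - z.length) + x.length
    by omega, pow_add]
  have h2 : (10 / 9 : ℝ) ^ x.length * (9 / 10 : ℝ) ^ x.length = 1 := by
    rw [← mul_pow]
    norm_num
  calc (9 / 10 : ℝ) ^ (v.length - z.length) = (9 / 10 : ℝ) ^ (v.length - z.length) *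
        ((10 / 9 : ℝ) ^ x.length * (9 / 10 : ℝ) ^ x.length) := by rw [h2, mul_one]
    _ = _ := by ring

open Classical in
/-- the unstopped words below `z` -/
noncomputable def Rs (N : ℕ) (E : List D → Prop) (z : List D) : Finset (List D) :=
  (wd (N - 1)).filter fun v => Un E z v

theorem mem_Rs {N : ℕ} {E : List D → Prop} {z v : List D} :
    v ∈ Rs N E z ↔ v ∈ wd (N - 1) ∧ Un E z v := by
  unfold Rs
  exact memf

theorem mem_Rs' {N J : ℕ} {E : List D → Prop} (hE : ∀ v : List D, N ≤ v.length + J → E v)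
    {z v : List D} : v ∈ Rs N E z ↔ Un E z v := by
  rw [mem_Rs]
  refine ⟨fun h => h.2, fun h => ⟨mem_wd.2 ?_, h⟩⟩
  have h1 : ¬ N ≤ v.length + J := fun h2 => un_not h (hE v h2)
  omega

/-- the weighted sum -/
noncomputable def TS (N : ℕ) (E : List D → Prop) (z : List D) (A : List D → ℝ) : ℝ :=
  ∑ v ∈ Rs N E z, W z v * A v

/-- the parents -/
theorem B0 {N J : ℕ} {E : List D → Prop} (hE : ∀ v : List D, N ≤ v.length + J → E v)
    {z : List D} {A : List D → ℝ} (hA : ∀ u, 0 ≤ A u) {K₁ : ℝ} (hK : 16 ≤ K₁) :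
    ∑ v ∈ Rs N E z, W z v * (if v = z then 0 else A v.dropLast / K₁) ≤
      9 / 40 * TS N E z A := by
  classical
  have hK0 : 0 < K₁ := by linarith
  have e1 : ∑ v ∈ Rs N E z, W z v * (if v = z then 0 else A v.dropLast / K₁) =
      ∑ v ∈ (Rs N E z).filter (fun v => v ≠ z), W z v * (A v.dropLast / K₁) := by
    rw [Finset.sum_filter]
    refine Finset.sum_congr rfl fun v _ => ?_
    by_cases h : v = z
    · rw [if_pos h, if_neg (not_not.2 h), mul_zero]
    · rw [if_neg h, if_pos h]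
  rw [e1]
  have e2 : (Rs N E z).filter (fun v => v ≠ z) ⊆
      (Rs N E z ×ˢ (Finset.univ : Finset D)).image (fun y : List D × D => y.1 ++ [y.2]) := by
    intro v hv
    obtain ⟨h1, h2⟩ := Finset.mem_filter.1 hv
    obtain ⟨p', d', h3, h4⟩ := parent (mem_Rs.1 h1).2 h2
    refine Finset.mem_image.2 ⟨(p', d'), ?_, h3.symm⟩
    exact Finset.mem_product.2 ⟨(mem_Rs' hE).2 h4, Finset.mem_univ _⟩
  have e3 : ∑ v ∈ (Rs N E z).filter (fun v => v ≠ z), W z v * (A v.dropLast / K₁) ≤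
      ∑ v ∈ (Rs N E z ×ˢ (Finset.univ : Finset D)).image (fun y : List D × D => y.1 ++ [y.2]),
        W z v * (A v.dropLast / K₁) := by
    refine Finset.sum_le_sum_of_subset_of_nonneg e2 fun v _ _ => ?_
    exact mul_nonneg (W_pos z v).le (div_nonneg (hA _) hK0.le)
  refine e3.trans ?_
  rw [Finset.sum_image (by
    rintro ⟨p1, d1⟩ _ ⟨p2, d2⟩ _ h
    have h3 := List.append_inj' h rfl
    rw [Prod.mk.injEq]
    exact ⟨h3.1, by simpa using h3.2⟩), Finset.sum_product]
  have e4 : ∀ p' ∈ Rs N E z, ∑ d' : D, W z (p' ++ [d']) * (A (p' ++ [d']).dropLast / K₁) ≤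
      9 / 40 * (W z p' * A p') := by
    intro p' hp
    have h5 : ∀ d' : D, W z (p' ++ [d']) * (A (p' ++ [d']).dropLast / K₁) =
        9 / 10 * (W z p' * A p') / K₁ := by
      intro d'
      rw [List.dropLast_concat, W_app (v := p') [d'] (mem_Rs.1 hp).2.1]
      simp only [List.length_singleton, pow_one]
      ring
    rw [Finset.sum_congr rfl fun d' _ => h5 d', Finset.sum_const]
    have h6 : (Finset.univ : Finset D).card = 4 := by decide
    rw [h6, nsmul_eq_mul]
    have h7 : 0 ≤ W z p' * A p' := mul_nonneg (W_pos z p').le (hA _)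
    have h8 : 9 / 10 * (W z p' * A p') / K₁ ≤ 9 / 10 * (W z p' * A p') / 16 := by gcongr
    calc ((4 : ℕ) : ℝ) * (9 / 10 * (W z p' * A p') / K₁) ≤
          ((4 : ℕ) : ℝ) * (9 / 10 * (W z p' * A p') / 16) := by gcongr
      _ = _ := by push_cast; ring
  refine (Finset.sum_le_sum e4).trans (le_of_eq ?_)
  unfold TS
  rw [Finset.mul_sum]

open Classical in
/-- the words of a fixed relative length -/
theorem B1 {N J : ℕ} {E : List D → Prop} (hE : ∀ v : List D, N ≤ v.length + J → E v)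
    {z : List D} {A : List D → ℝ} (hA : ∀ u, 0 ≤ A u) (i : ℕ) :
    ∑ v ∈ Rs N E z, W z v * ∑ x ∈ (lv i).filter (fun x => Un E v (v ++ x)), A (v ++ x) ≤
      (10 / 9) ^ i * TS N E z A := by
  have e1 : ∀ v ∈ Rs N E z,
      W z v * ∑ x ∈ (lv i).filter (fun x => Un E v (v ++ x)), A (v ++ x) =
      (10 / 9) ^ i * ∑ x ∈ (lv i).filter (fun x => Un E v (v ++ x)),
        W z (v ++ x) * A (v ++ x) := by
    intro v hv
    rw [Finset.mul_sum, Finset.mul_sum]
    refine Finset.sum_congr rfl fun x hx => ?_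
    have hx' : x.length = i := mem_lv.1 (memf.1 hx).1
    rw [W_app x (mem_Rs.1 hv).2.1, hx']
    ring
  rw [Finset.sum_congr rfl e1, ← Finset.mul_sum]
  refine mul_le_mul_of_nonneg_left ?_ (by positivity)
  rw [Finset.sum_sigma']
  have e2 : ∑ y ∈ (Rs N E z).sigma (fun v => (lv i).filter (fun x => Un E v (v ++ x))),
      W z (y.1 ++ y.2) * A (y.1 ++ y.2) =
      ∑ u ∈ ((Rs N E z).sigma (fun v => (lv i).filter (fun x => Un E v (v ++ x)))).image
        (fun y : (_ : List D) × List D => y.1 ++ y.2), W z u * A u := by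
    rw [Finset.sum_image]
    rintro ⟨v1, x1⟩ h1 ⟨v2, x2⟩ h2 h
    have g1 := Finset.mem_sigma.1 h1
    have g2 := Finset.mem_sigma.1 h2
    have k1 : x1.length = i := mem_lv.1 (memf.1 g1.2).1
    have k2 : x2.length = i := mem_lv.1 (memf.1 g2.2).1
    have h3 := List.append_inj' h (k1.trans k2.symm)
    obtain ⟨h4, h5⟩ := h3
    subst h4
    subst h5
    rfl
  rw [e2]
  refine Finset.sum_le_sum_of_subset_of_nonneg ?_
    fun u _ _ => mul_nonneg (W_pos z u).le (hA _)
  intro u hu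
  obtain ⟨y, hy, rfl⟩ := Finset.mem_image.1 hu
  have g1 := Finset.mem_sigma.1 hy
  exact (mem_Rs' hE).2 (un_trans (mem_Rs.1 g1.1).2 (memf.1 g1.2).2)

theorem pfx_inj {u v v' : List D} (h : v <+: u) (h' : v' <+: u) (hl : v.length = v'.length) :
    v = v' := by
  rcases List.prefix_or_prefix_of_prefix h h' with c | c
  · exact c.eq_of_length hl
  · exact (c.eq_of_length hl.symm).symm

open Classical in
/-- the words of small relative length -/
theorem B3 {N J : ℕ} {E : List D → Prop} (hE : ∀ v : List D, N ≤ v.length + J → E v)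
    {z : List D} {A : List D → ℝ} (hA : ∀ u, 0 ≤ A u) (i : ℕ) :
    ∑ v ∈ Rs N E z, W z v * ∑ u ∈ (wd (N - 1)).filter (fun u => Un E v u ∧
      u.length ≤ v.length + i), A u ≤ (i + 1) * (10 / 9) ^ i * TS N E z A := by
  have e1 : ∀ v ∈ Rs N E z,
      W z v * ∑ u ∈ (wd (N - 1)).filter (fun u => Un E v u ∧ u.length ≤ v.length + i), A u ≤
      ∑ u ∈ Rs N E z, if v <+: u ∧ u.length ≤ v.length + i then W z v * A u else 0 := by
    intro v hv
    rw [← Finset.sum_filter, Finset.mul_sum]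
    refine Finset.sum_le_sum_of_subset_of_nonneg ?_
      fun u _ _ => mul_nonneg (W_pos z v).le (hA _)
    intro u hu
    obtain ⟨h1, h2, h3⟩ := memf.1 hu
    exact memf.2 ⟨(mem_Rs' hE).2 (un_trans (mem_Rs.1 hv).2 h2), h2.1, h3⟩
  refine (Finset.sum_le_sum e1).trans ?_
  rw [Finset.sum_comm]
  unfold TS
  rw [Finset.mul_sum]
  refine Finset.sum_le_sum fun u hu => ?_
  rw [← Finset.sum_filter]
  have h4 : ∀ v ∈ (Rs N E z).filter (fun v => v <+: u ∧ u.length ≤ v.length + i),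
      W z v * A u ≤ (10 / 9) ^ i * (W z u * A u) := by
    intro v hv
    obtain ⟨h5, h6, h7⟩ := memf.1 hv
    obtain ⟨x, hx⟩ := h6
    have hl : x.length ≤ i := by
      have h8 := congrArg List.length hx
      rw [List.length_append] at h8
      omega
    rw [W_app x (mem_Rs.1 h5).2.1, hx, mul_assoc]
    have h9 : 0 ≤ W z u * A u := mul_nonneg (W_pos z u).le (hA _)
    exact mul_le_mul_of_nonneg_right (pow_le_pow_right₀ (by norm_num) hl) h9
  refine (Finset.sum_le_sum h4).trans ?_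
  rw [Finset.sum_const, nsmul_eq_mul, mul_assoc]
  have h10 : 0 ≤ (10 / 9 : ℝ) ^ i * (W z u * A u) :=
    mul_nonneg (by positivity) (mul_nonneg (W_pos z u).le (hA _))
  refine mul_le_mul_of_nonneg_right ?_ h10
  have h11 : ((Rs N E z).filter (fun v => v <+: u ∧ u.length ≤ v.length + i)).card ≤
      (Finset.Icc (u.length - i) u.length).card := by
    refine Finset.card_le_card_of_injOn List.length ?_ ?_
    · intro v hv
      obtain ⟨h5, h6, h7⟩ := memf.1 (Finset.mem_coe.1 hv)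
      have h8 := h6.length_le
      rw [Finset.coe_Icc, Set.mem_Icc]
      omega
    · intro v hv v' hv' hl
      obtain ⟨_, h6, _⟩ := memf.1 (Finset.mem_coe.1 hv)
      obtain ⟨_, h6', _⟩ := memf.1 (Finset.mem_coe.1 hv')
      exact pfx_inj h6 h6' hl
  have h12 : (Finset.Icc (u.length - i) u.length).card ≤ i + 1 := by
    rw [Nat.card_Icc]
    omega
  exact_mod_cast h11.trans h12

theorem geo (n : ℕ) : ∑ l ∈ Finset.range n, (9 / 10 : ℝ) ^ l ≤ 10 := by
  have h : ∑ l ∈ Finset.range n, (9 / 10 : ℝ) ^ l = 10 - 10 * (9 / 10 : ℝ) ^ n := by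
    induction n with
    | zero => norm_num
    | succ n ih =>
      rw [Finset.sum_range_succ, ih, pow_succ]
      ring
  rw [h]
  have h2 : 0 < (9 / 10 : ℝ) ^ n := by positivity
  linarith

open Classical in
/-- the first stops -/
theorem B4 {N : ℕ} {E : List D → Prop} {z : List D} {A : List D → ℝ} (hA : ∀ u, 0 ≤ A u) :
    ∑ v ∈ Rs N E z, W z v * ∑ w ∈ nxt N E v, A w ≤ 10 * ∑ w ∈ nxt N E z, A w := by
  have e1 : ∀ v ∈ Rs N E z, W z v * ∑ w ∈ nxt N E v, A w ≤
      ∑ w ∈ nxt N E z, if v <+: w then W z v * A w else 0 := by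
    intro v hv
    rw [← Finset.sum_filter, Finset.mul_sum]
    refine Finset.sum_le_sum_of_subset_of_nonneg ?_
      fun u _ _ => mul_nonneg (W_pos z v).le (hA _)
    intro w hw
    exact memf.2 ⟨nxt_sub (mem_Rs.1 hv).2 hw, (memnxt.1 hw).2.1⟩
  refine (Finset.sum_le_sum e1).trans ?_
  rw [Finset.sum_comm, Finset.mul_sum]
  refine Finset.sum_le_sum fun w _ => ?_
  rw [← Finset.sum_filter, ← Finset.sum_mul]
  refine mul_le_mul_of_nonneg_right ?_ (hA _)
  have e2 : ∑ v ∈ (Rs N E z).filter (fun v => v <+: w), W z v =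
      ∑ l ∈ ((Rs N E z).filter (fun v => v <+: w)).image (fun v => v.length - z.length),
        (9 / 10 : ℝ) ^ l := by
    rw [Finset.sum_image]
    · rfl
    · intro v hv v' hv' hl
      obtain ⟨h5, h6⟩ := memf.1 (Finset.mem_coe.1 hv)
      obtain ⟨h5', h6'⟩ := memf.1 (Finset.mem_coe.1 hv')
      refine pfx_inj h6 h6' ?_
      have h7 := (mem_Rs.1 h5).2.1.length_le
      have h8 := (mem_Rs.1 h5').2.1.length_le
      simp only at hl
      omega
  rw [e2]
  refine le_trans (Finset.sum_le_sum_of_subset_of_nonneg (t := Finset.range (w.length + 1)) ?_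
    fun l _ _ => by positivity) (geo _)
  intro l hl
  obtain ⟨v, hv, rfl⟩ := Finset.mem_image.1 hl
  have h6 := (memf.1 hv).2.length_le
  rw [Finset.mem_range]
  omega

end GIT_

open GIT_ in
open Classical in
/-- GIT -/
theorem p_GIT (hLOC : T_LOC) : T_GIT := by
  intro K hK
  obtain ⟨C₁, hC₁, hL⟩ := hLOC (max K 16) (hK.trans (le_max_left _ _))
  have hC0 : 0 < C₁ := by linarith
  obtain ⟨j, hj⟩ := exists_pow_lt_of_lt_one (show (0 : ℝ) < 1 / (16 * C₁) by positivity)
    (show (25 / 27 : ℝ) < 1 by norm_num)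
  have hj1 : 1 ≤ j + 1 := by omega
  have hj2 : C₁ * (25 / 27 : ℝ) ^ (j + 1) ≤ 1 / 16 := by
    have h1 : (25 / 27 : ℝ) ^ (j + 1) ≤ 1 / (16 * C₁) :=
      (pow_le_pow_of_le_one (by norm_num) (by norm_num) (Nat.le_succ j)).trans hj.le
    calc C₁ * (25 / 27 : ℝ) ^ (j + 1) ≤ C₁ * (1 / (16 * C₁)) := by gcongr
      _ = 1 / 16 := by field_simp
  obtain ⟨i, hi⟩ : ∃ i, i = j + 1 := ⟨_, rfl⟩
  rw [← hi] at hj1 hj2
  obtain ⟨C₂, hC₂, hM⟩ := hL i (16 * (2 * i + 1) * (10 / 9) ^ (2 * i)) hj1 (by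
    have h1 : (1 : ℝ) ≤ (10 / 9) ^ (2 * i) := one_le_pow₀ (by norm_num)
    have h2 : (0 : ℝ) ≤ i := Nat.cast_nonneg i
    nlinarith)
  refine ⟨20 * C₂, 2 * i + 2, by linarith, ?_⟩
  intro N H A E p d hS hE hp hAp
  have hA := hS.nn
  obtain ⟨z, hz⟩ : ∃ z, z = p ++ [d] := ⟨_, rfl⟩
  rw [← hz] at hp hAp ⊢
  have hS0 : 0 ≤ ∑ w ∈ nxt N E z, A w := Finset.sum_nonneg fun w _ => hA w
  -- the local estimate
  have hloc : ∀ (p' : List D) (d' : D), ¬ E (p' ++ [d']) → A p' ≤ max K 16 * A (p' ++ [d']) →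
      A (p' ++ [d']) ≤
      C₁ * (3 / 4) ^ i * ∑ x ∈ (lv i).filter (fun x => Un E (p' ++ [d']) (p' ++ [d'] ++ x)),
        A (p' ++ [d'] ++ x) +
      C₁ * (3 / 4) ^ i * ∑ x ∈ (lv (2 * i)).filter (fun x => Un E (p' ++ [d'])
        (p' ++ [d'] ++ x)), A (p' ++ [d'] ++ x) +
      1 / (16 * (2 * i + 1) * (10 / 9) ^ (2 * i)) * ∑ v ∈ (wd (N - 1)).filter
        (fun v => Un E (p' ++ [d']) v ∧ v.length ≤ (p' ++ [d']).length + 2 * i), A v +
      C₂ * ∑ w ∈ nxt N E (p' ++ [d']), A w := by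
    intro p' d' h1 h2
    have h3 := hM N H A E p' d' hS hE h1 h2
    rw [List.length_append, List.length_singleton]
    exact h3
  have hall : ∀ v ∈ Rs N E z, A v ≤ (if v = z then 0 else A v.dropLast / max K 16) +
      C₁ * (3 / 4) ^ i * ∑ x ∈ (lv i).filter (fun x => Un E v (v ++ x)), A (v ++ x) +
      C₁ * (3 / 4) ^ i * ∑ x ∈ (lv (2 * i)).filter (fun x => Un E v (v ++ x)), A (v ++ x) +
      1 / (16 * (2 * i + 1) * (10 / 9) ^ (2 * i)) * ∑ u ∈ (wd (N - 1)).filter
        (fun u => Un E v u ∧ u.length ≤ v.length + 2 * i), A u +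
      C₂ * ∑ w ∈ nxt N E v, A w := by
    intro v hv
    have hK0 : (0 : ℝ) < max K 16 := lt_of_lt_of_le (by norm_num) (le_max_right _ _)
    have hun := (mem_Rs.1 hv).2
    by_cases h : v = z
    · rw [if_pos h, zero_add, h, hz]
      refine hloc p d (hz ▸ hp) ?_
      rw [← hz]
      exact hAp.trans (mul_le_mul_of_nonneg_right (le_max_left _ _) (hA _))
    · obtain ⟨p', d', h3, h4⟩ := parent hun h
      have h5 : v.dropLast = p' := by rw [h3, List.dropLast_concat]
      rw [if_neg h, h5]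
      by_cases h6 : A p' ≤ max K 16 * A v
      · have h7 := hloc p' d' (h3 ▸ un_not hun) (h3 ▸ h6)
        rw [← h3] at h7
        have h8 : 0 ≤ A p' / max K 16 := div_nonneg (hA _) hK0.le
        linarith
      · have h7 : A v ≤ A p' / max K 16 := by
          rw [le_div_iff₀ hK0]
          push Not at h6
          linarith
        have n1 : 0 ≤ ∑ x ∈ (lv i).filter (fun x => Un E v (v ++ x)), A (v ++ x) :=
          Finset.sum_nonneg fun _ _ => hA _
        have n2 : 0 ≤ ∑ x ∈ (lv (2 * i)).filter (fun x => Un E v (v ++ x)), A (v ++ x) :=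
          Finset.sum_nonneg fun _ _ => hA _
        have n3 : 0 ≤ ∑ u ∈ (wd (N - 1)).filter
            (fun u => Un E v u ∧ u.length ≤ v.length + 2 * i), A u :=
          Finset.sum_nonneg fun _ _ => hA _
        have n4 : 0 ≤ ∑ w ∈ nxt N E v, A w := Finset.sum_nonneg fun _ _ => hA _
        have m1 : 0 ≤ C₁ * (3 / 4) ^ i := by positivity
        have m3 : (0 : ℝ) ≤ 1 / (16 * (2 * i + 1) * (10 / 9) ^ (2 * i)) := by positivity
        have m4 : 0 ≤ C₂ := by linarith
        have := mul_nonneg m1 n1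
        have := mul_nonneg m1 n2
        have := mul_nonneg m3 n3
        have := mul_nonneg m4 n4
        linarith
  -- summation
  have hT0 : 0 ≤ TS N E z A := Finset.sum_nonneg fun v _ => mul_nonneg (W_pos z v).le (hA v)
  have b0 := B0 (z := z) hE hA (le_max_right K 16)
  have b1 := B1 (z := z) hE hA i
  have b2 := B1 (z := z) hE hA (2 * i)
  have b3 := B3 (z := z) hE hA (2 * i)
  have b4 := B4 (N := N) (E := E) (z := z) hA
  have hsum : TS N E z A ≤
      ∑ v ∈ Rs N E z, W z v * (if v = z then 0 else A v.dropLast / max K 16) +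
      C₁ * (3 / 4) ^ i * ∑ v ∈ Rs N E z, W z v *
        ∑ x ∈ (lv i).filter (fun x => Un E v (v ++ x)), A (v ++ x) +
      C₁ * (3 / 4) ^ i * ∑ v ∈ Rs N E z, W z v *
        ∑ x ∈ (lv (2 * i)).filter (fun x => Un E v (v ++ x)), A (v ++ x) +
      1 / (16 * (2 * i + 1) * (10 / 9) ^ (2 * i)) * ∑ v ∈ Rs N E z, W z v *
        ∑ u ∈ (wd (N - 1)).filter (fun u => Un E v u ∧ u.length ≤ v.length + 2 * i), A u +
      C₂ * ∑ v ∈ Rs N E z, W z v * ∑ w ∈ nxt N E v, A w := by
    rw [Finset.mul_sum, Finset.mul_sum, Finset.mul_sum, Finset.mul_sum,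
      ← Finset.sum_add_distrib, ← Finset.sum_add_distrib, ← Finset.sum_add_distrib,
      ← Finset.sum_add_distrib]
    refine Finset.sum_le_sum fun v hv => ?_
    refine (mul_le_mul_of_nonneg_left (hall v hv) (W_pos z v).le).trans (le_of_eq ?_)
    ring
  have c1 : C₁ * (3 / 4) ^ i * ((10 / 9) ^ i * TS N E z A) ≤ 1 / 16 * TS N E z A := by
    have h1 : C₁ * (3 / 4) ^ i * (10 / 9) ^ i ≤ 1 / 16 := by
      refine le_trans ?_ hj2
      rw [mul_assoc, ← mul_pow]
      refine mul_le_mul_of_nonneg_left (pow_le_pow_left₀ (by norm_num) (by norm_num) _) hC0.le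
    calc C₁ * (3 / 4) ^ i * ((10 / 9) ^ i * TS N E z A) =
          C₁ * (3 / 4) ^ i * (10 / 9) ^ i * TS N E z A := by ring
      _ ≤ _ := mul_le_mul_of_nonneg_right h1 hT0
  have c2 : C₁ * (3 / 4) ^ i * ((10 / 9) ^ (2 * i) * TS N E z A) ≤ 1 / 16 * TS N E z A := by
    have h1 : C₁ * (3 / 4) ^ i * (10 / 9) ^ (2 * i) ≤ 1 / 16 := by
      refine le_trans (le_of_eq ?_) hj2
      rw [mul_assoc, pow_mul, ← mul_pow]
      norm_num
    calc C₁ * (3 / 4) ^ i * ((10 / 9) ^ (2 * i) * TS N E z A) =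
          C₁ * (3 / 4) ^ i * (10 / 9) ^ (2 * i) * TS N E z A := by ring
      _ ≤ _ := mul_le_mul_of_nonneg_right h1 hT0
  have c3 : 1 / (16 * (2 * (i : ℝ) + 1) * (10 / 9) ^ (2 * i)) *
      ((((2 * i : ℕ) : ℝ) + 1) * (10 / 9) ^ (2 * i) * TS N E z A) = 1 / 16 * TS N E z A := by
    have h1 : (0 : ℝ) < 2 * (i : ℝ) + 1 := by positivity
    have h2 : (0 : ℝ) < (10 / 9) ^ (2 * i) := by positivity
    push_cast
    field_simp
  have d1 := mul_le_mul_of_nonneg_left b1 (show 0 ≤ C₁ * (3 / 4) ^ i by positivity)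
  have d2 := mul_le_mul_of_nonneg_left b2 (show 0 ≤ C₁ * (3 / 4) ^ i by positivity)
  have d3 := mul_le_mul_of_nonneg_left b3
    (show (0 : ℝ) ≤ 1 / (16 * (2 * (i : ℝ) + 1) * (10 / 9) ^ (2 * i)) by positivity)
  have d4 := mul_le_mul_of_nonneg_left b4 (show 0 ≤ C₂ by linarith)
  have hfin : TS N E z A ≤ 20 * C₂ * ∑ w ∈ nxt N E z, A w := by
    have h0 : 0 ≤ C₂ * ∑ w ∈ nxt N E z, A w := mul_nonneg (by linarith) hS0
    have h1 : TS N E z A ≤ 9 / 40 * TS N E z A + 1 / 16 * TS N E z A + 1 / 16 * TS N E z A +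
        1 / 16 * TS N E z A + C₂ * (10 * ∑ w ∈ nxt N E z, A w) := by
      linarith
    nlinarith
  have hzR : z ∈ Rs N E z := (mem_Rs' hE).2 (un_refl hp)
  have hz1 : A z ≤ TS N E z A := by
    unfold TS
    refine le_trans (le_of_eq ?_)
      (Finset.single_le_sum (fun v _ => mul_nonneg (W_pos z v).le (hA v)) hzR)
    unfold GIT_.W
    rw [Nat.sub_self, pow_zero, one_mul]
  exact hz1.trans hfin

end Pool.Agent.ALQ
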