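import Pool.Agent.ALQ.TargetsG
import Pool.Agent.CorA.P_NC3

/-!
# HNK: Harnack for a bounded function
-/

set_option autoImplicit false

namespace Pool.Agent.ALQ

open Complex Metric Set Filter Topology MeasureTheory
open Pool.Corona91698f Pool.Agent.CorE Pool.Agent.CorA
open scoped Real

namespace HNK_

theorem core (hLAV : T_LAV) (hPRD : T_PRD) (b : ℂ) (s : ℝ) (hs : 0 < s)
    (hb : closedBall b (4 * s) ⊆ VV) : ∃ C : ℝ, 1 ≤ C ∧ ∀ (F : ℂ → ℂ) (t : ℝ) (y : ℂ),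
    DifferentiableOn ℂ F VV → (∀ z ∈ VV, ‖F z‖ ≤ 2) → 0 < t → t ≤ 2 → y ∈ nodeX →
    t ≤ ‖F y‖ → ∃ w, dist w b = s ∧ 2 * (t / 2) ^ C ≤ ‖F w‖ := by
  obtain ⟨C, hC, h⟩ := hLAV b s hs hb
  obtain ⟨θ, hθ⟩ : ∃ θ, θ = min (s / C) 1 := ⟨_, rfl⟩
  have hC0 : 0 < C := by linarith
  have hθ0 : 0 < θ := by
    rw [hθ]
    exact lt_min (by positivity) one_pos
  have hθ1 : θ ≤ 1 := by
    rw [hθ]
    exact min_le_right _ _
  have hθs : θ ≤ s / C := by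
    rw [hθ]
    exact min_le_left _ _
  have hlog : Real.log θ ≤ 0 := Real.log_nonpos hθ0.le hθ1
  obtain ⟨E, hE⟩ : ∃ E, E = C + C * -Real.log θ := ⟨_, rfl⟩
  have hE1 : 1 ≤ E := by
    rw [hE]
    have : 0 ≤ C * -Real.log θ := mul_nonneg hC0.le (by linarith)
    linarith
  refine ⟨E, hE1, ?_⟩
  intro F t y hF hM ht ht2 hy hyF
  obtain ⟨m, a, hm, ha⟩ := h F 2 t y hF hM ht hy hyF
  obtain ⟨w, hw, hp⟩ := hPRD m a b s hs
  refine ⟨w, hw, ?_⟩
  have h1 := ha w (mem_closedBall.2 hw.le)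
  have h2 : θ ^ m ≤ ∏ i, (dist w (a i) / C) := by
    have h3 : s ^ m ≤ ∏ i, max (dist b (a i)) s := by
      calc s ^ m = ∏ _i : Fin m, s := by simp
        _ ≤ ∏ i, max (dist b (a i)) s :=
          Finset.prod_le_prod (fun _ _ => hs.le) fun i _ => le_max_right _ _
    calc θ ^ m ≤ (s / C) ^ m := by gcongr
      _ = s ^ m / C ^ m := by rw [div_pow]
      _ ≤ (∏ i, dist w (a i)) / C ^ m := by
          gcongr
          exact h3.trans hp
      _ = ∏ i, (dist w (a i) / C) := by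
          rw [Finset.prod_div_distrib]
          simp
  have hq : 0 < t / 2 := by positivity
  have e1 : Real.log (2 / t) = - Real.log (t / 2) := by
    rw [← Real.log_inv]
    congr 1
    field_simp
  have h4 : (t / 2) ^ (C * -Real.log θ) ≤ θ ^ m := by
    rw [Real.rpow_def_of_pos hq, ← Real.rpow_natCast θ m, Real.rpow_def_of_pos hθ0]
    refine Real.exp_le_exp.2 ?_
    rw [e1] at hm
    nlinarith
  calc 2 * (t / 2) ^ E = 2 * (t / 2) ^ C * (t / 2) ^ (C * -Real.log θ) := by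
        rw [hE, Real.rpow_add hq]
        ring
    _ ≤ 2 * (t / 2) ^ C * ∏ i, (dist w (a i) / C) := by
        gcongr
        exact h4.trans h2
    _ ≤ ‖F w‖ := h1

/-- The function in the coordinates of the word `u`. -/
theorem loc {φ : ℂ → ℂ} {b : ℂ} {s C : ℝ}
    (hcore : ∀ (F : ℂ → ℂ) (t : ℝ) (y : ℂ),
      DifferentiableOn ℂ F VV → (∀ z ∈ VV, ‖F z‖ ≤ 2) → 0 < t → t ≤ 2 → y ∈ nodeX →
      t ≤ ‖F y‖ → ∃ w, dist w b = s ∧ 2 * (t / 2) ^ C ≤ ‖F w‖)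
    (hd : DifferentiableOn ℂ φ squareCantorᶜ) (hM : ∀ z ∈ squareCantorᶜ, ‖φ z‖ ≤ 2)
    {t : ℝ} (ht : 0 < t) (ht2 : t ≤ 2) {u : List D} {y : ℂ} (hy : Psi u y ∈ nodeX)
    (hty : t ≤ ‖φ y‖) : ∃ w, dist w b = s ∧ 2 * (t / 2) ^ C ≤ ‖φ (Phi u w)‖ := by
  have hF : DifferentiableOn ℂ (fun z => φ (Phi u z)) VV :=
    hd.comp (differentiable_Phi u).differentiableOn fun z hz => NC3_.Phi_VV hz
  exact hcore (fun z => φ (Phi u z)) t (Psi u y) hF (fun z hz => hM _ (NC3_.Phi_VV hz))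
    ht ht2 hy (by rw [Phi_Psi]; exact hty)

theorem mono {t A C x : ℝ} (ht : 0 < t) (ht2 : t ≤ 2) (h : A ≤ C)
    (hx : 2 * (t / 2) ^ A ≤ x) : 2 * (t / 2) ^ C ≤ x := by
  have h1 : (t / 2) ^ C ≤ (t / 2) ^ A :=
    Real.rpow_le_rpow_of_exponent_ge (by positivity) (by linarith) h
  linarith

end HNK_

open HNK_ in
/-- Harnack for a bounded function. -/
theorem p_HNK (hLAV : T_LAV) (hPRD : T_PRD) : T_HNK := by
  choose A hA1 hA using fun d : D => core hLAV hPRD (phi d (ctr + (77 / 100 : ℝ))) (3 / 1000)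
    (by norm_num) (NC3_.down_VV d)
  obtain ⟨B, hB1, hB⟩ := core hLAV hPRD (ctr + (85 / 100 : ℝ)) (1 / 100) (by norm_num)
    NC3_.up_VV
  have hsum : ∀ d, A d ≤ ∑ d, A d := fun d =>
    Finset.single_le_sum (fun e _ => (zero_le_one.trans (hA1 e))) (Finset.mem_univ d)
  have hsum0 : 1 ≤ ∑ d, A d := (hA1 (true, true)).trans (hsum _)
  refine ⟨∑ d, A d + B, by linarith, ?_⟩
  intro φ p d t hd hM ht ht2
  refine ⟨?_, ?_⟩
  · rintro ⟨y, hy, hty⟩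
    obtain ⟨w, hw, h1⟩ := loc (hA d) hd hM ht ht2 hy hty
    refine ⟨Phi p w, ?_, mono ht ht2 (by linarith [hsum d]) h1⟩
    rw [Psi_snoc, Psi_Phi]
    exact NC3_.down_node hw.le
  · rintro ⟨y, hy, hty⟩
    obtain ⟨w, hw, h1⟩ := loc hB hd hM ht ht2 hy hty
    refine ⟨Phi (p ++ [d]) w, ?_, mono ht ht2 (by linarith) h1⟩
    rw [Phi_snoc, Psi_Phi]
    exact NC3_.up_node hw.le

end Pool.Agent.ALQ
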