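import Pool.Agent.ALQ.TargetsN

/-!
# Block INC: the sum of all increments of the variation
-/

set_option autoImplicit false

namespace Pool.Agent.ALQ

open Complex Metric Set Filter Topology MeasureTheory
open Pool.Corona91698f Pool.Agent.CorE Pool.Agent.CorA
open scoped Real BoundedContinuousFunction

namespace INC_

theorem tele (M : ℕ → ℝ) (B : ℝ) (P k : ℕ) (h0 : ∀ l, 0 ≤ M l)
    (hB : ∀ l, l < P + k → M l ≤ B) :
    ∑ m ∈ Finset.range P, (M (m + k) - M m) ≤ k * B := by
  induction k with
  | zero => simp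
  | succ k ih =>
    have h1 := ih fun l hl => hB l (by omega)
    have h2 : ∑ m ∈ Finset.range P, (M (m + (k + 1)) - M m) =
        ∑ m ∈ Finset.range P, (M (m + k) - M m) +
        ∑ m ∈ Finset.range P, (M ((m + 1) + k) - M (m + k)) := by
      rw [← Finset.sum_add_distrib]
      refine Finset.sum_congr rfl fun m _ => ?_
      rw [show m + (k + 1) = m + 1 + k by ring]
      ring
    have h3 := Finset.sum_range_sub (fun m => M (m + k)) P
    have h4 := hB (P + k) (by omega)
    have h5 := h0 (0 + k)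
    rw [h2, h3]
    push_cast
    linarith

end INC_

open Classical in
theorem p_INC (hMAS : T_MAS) : T_INC := by
  intro n C₀ hC₀
  obtain ⟨C, hC, H⟩ := hMAS n
  have hCC : 0 < C * C₀ := by positivity
  refine ⟨1 + C * C₀, by linarith, fun N k δ f h a hN hf hh => ?_⟩
  obtain ⟨m1, -, -⟩ := H N δ C₀ f h a hf hh
  have hk0 : (0 : ℝ) ≤ k := Nat.cast_nonneg k
  have hfin : (k : ℝ) * (C * C₀) ≤ (1 + C * C₀) * (k + 1) := by nlinarith
  set M : ℕ → ℝ := fun l => ∑ v ∈ lv l, ‖mm f h v‖ with hM
  have hM0 : ∀ l, 0 ≤ M l := fun l => Finset.sum_nonneg fun v _ => norm_nonneg _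
  have hMB : ∀ l, l < N → M l ≤ C * C₀ := by
    intro l hl
    calc M l ≤ ∑ v ∈ lv l, C * a v := Finset.sum_le_sum fun v hv => m1 v (by
          rw [mem_lv.1 hv]
          exact hl)
      _ = C * ∑ v ∈ lv l, a v := by rw [Finset.mul_sum]
      _ ≤ C * C₀ := by
          have := hh.lev l hl
          gcongr
  by_cases hkN : N ≤ k
  · rw [Finset.filter_false_of_mem fun u _ => by omega, Finset.sum_empty]
    positivity
  push Not at hkN
  have h1 : ∑ u ∈ (wd (N - 1)).filter (fun u => u.length + k < N),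
      (∑ x ∈ lv k, ‖mm f h (u ++ x)‖ - ‖mm f h u‖) =
      ∑ l ∈ Finset.range (N - k), (M (l + k) - M l) := by
    have h2 : (wd (N - 1)).filter (fun u => u.length + k < N) = wd (N - k - 1) := by
      ext u
      rw [Finset.mem_filter, mem_wd, mem_wd]
      omega
    rw [h2, NC4_.sum_wd_lv (N - k) (by omega)]
    refine Finset.sum_congr rfl fun l _ => ?_
    rw [Finset.sum_sub_distrib, hM]
    simp only
    rw [sum_lv_add]
  rw [h1]
  refine (INC_.tele M (C * C₀) (N - k) k hM0 fun l hl => hMB l (by omega)).trans hfin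

end Pool.Agent.ALQ
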