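import Pool.Agent.ALQ.TargetsG
import Pool.Agent.CorA.P_NC1
import Pool.Agent.CorA.P_NC3

/-!
# LA1: lower bounds pass to the children
-/

set_option autoImplicit false

namespace Pool.Agent.ALQ

open Complex Metric Set Filter Topology MeasureTheory
open Pool.Corona91698f Pool.Agent.CorE Pool.Agent.CorA
open scoped Real

namespace LA1_

open Pool.Agent.CorA.NC1_ Pool.Agent.CorA.NC3_

theorem low (hLAV : T_LAV) (hPRD : T_PRD) (b : ℂ) (s K : ℝ) (hs : 0 < s) (hK : 1 ≤ K)
    (hb : closedBall b (4 * s) ⊆ VV) : ∃ k : ℝ, 0 < k ∧ ∀ (F : ℂ → ℂ) (S : ℝ) (y : ℂ),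
    DifferentiableOn ℂ F VV → (∀ z ∈ VV, ‖F z‖ ≤ 3 * K * S) → 0 < S → y ∈ nodeX →
    S ≤ ‖F y‖ → ∃ w, dist w b = s ∧ k * S ≤ ‖F w‖ := by
  obtain ⟨C, hC, h⟩ := hLAV b s hs hb
  obtain ⟨θ, hθ⟩ : ∃ θ, θ = min (s / C) 1 := ⟨_, rfl⟩
  have hC0 : 0 < C := by linarith
  have hθ0 : 0 < θ := by
    rw [hθ]
    exact lt_min (by positivity) one_pos
  have hθ1 : θ ≤ 1 := by
    rw [hθ]
    exact min_le_right _ _
  have hθs : θ ≤ s / C := by
    rw [hθ]
    exact min_le_left _ _
  have hK0 : 0 < K := by linarith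
  refine ⟨3 * K * (1 / (3 * K)) ^ C * θ ^ ⌈C * Real.log (3 * K)⌉₊, by positivity, ?_⟩
  intro F S y hF hM hS hy hyF
  obtain ⟨m, a, hm, ha⟩ := h F (3 * K * S) S y hF hM hS hy hyF
  obtain ⟨w, hw, hp⟩ := hPRD m a b s hs
  refine ⟨w, hw, ?_⟩
  have h1 := ha w (mem_closedBall.2 hw.le)
  have h2 : θ ^ m ≤ ∏ i, (dist w (a i) / C) := by
    have h3 : s ^ m ≤ ∏ i, max (dist b (a i)) s := by
      calc s ^ m = ∏ _i : Fin m, s := by simp
        _ ≤ ∏ i, max (dist b (a i)) s :=
          Finset.prod_le_prod (fun _ _ => hs.le) fun i _ => le_max_right _ _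
    calc θ ^ m ≤ (s / C) ^ m := by gcongr
      _ = s ^ m / C ^ m := by rw [div_pow]
      _ ≤ (∏ i, dist w (a i)) / C ^ m := by
          gcongr
          exact h3.trans hp
      _ = ∏ i, (dist w (a i) / C) := by
          rw [Finset.prod_div_distrib]
          simp
  have e1 : 3 * K * S / S = 3 * K := by field_simp
  have e2 : S / (3 * K * S) = 1 / (3 * K) := by field_simp
  rw [e1] at hm
  rw [e2] at h1
  have h4 : θ ^ ⌈C * Real.log (3 * K)⌉₊ ≤ θ ^ m := by
    refine pow_le_pow_of_le_one hθ0.le hθ1 ?_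
    have := hm.trans (Nat.le_ceil _)
    exact_mod_cast this
  calc 3 * K * (1 / (3 * K)) ^ C * θ ^ ⌈C * Real.log (3 * K)⌉₊ * S
      = 3 * K * S * (1 / (3 * K)) ^ C * θ ^ ⌈C * Real.log (3 * K)⌉₊ := by ring
    _ ≤ 3 * K * S * (1 / (3 * K)) ^ C * ∏ i, (dist w (a i) / C) := by
        gcongr
        exact h4.trans h2
    _ ≤ ‖F w‖ := h1

/-- The size of `H` near the node of `u = p ++ [d]`. -/
theorem bound {N : ℕ} {H : ℂ → ℂ} {A : List D → ℝ} {K : ℝ}
    (hSZ : SZ N H A) {p : List D} {d : D} (hl : p.length + 2 < N) (hK : 1 ≤ K)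
    (hp : A p ≤ K * A (p ++ [d])) (hc : ∀ e : D, A (p ++ [d, e]) ≤ K * A (p ++ [d]))
    {y : ℂ} (hy : y ∈ VV) :
    ‖H (Phi (p ++ [d]) y)‖ ≤ 3 * K * (3 ^ (p.length + 1) * A (p ++ [d])) := by
  have ha : 0 ≤ A (p ++ [d]) := hSZ.nn _
  have h3 : (0 : ℝ) < 3 ^ p.length := by positivity
  have hpos : 0 ≤ 3 ^ (p.length + 1) * A (p ++ [d]) := by positivity
  by_cases c1 : dist y ctr ≤ 80 / 100
  · by_cases c2 : ∀ e : D, 74 / 100 ≤ dist (psi e y) ctr
    · have h4 := hSZ.up (p ++ [d]) (by simp; omega) (Phi (p ++ [d]) y)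
        (by rw [Psi_Phi]; exact ⟨c1, c2⟩)
      rw [List.length_append, List.length_singleton] at h4
      refine h4.trans ?_
      have : 1 * (3 ^ (p.length + 1) * A (p ++ [d])) ≤
          3 * K * (3 ^ (p.length + 1) * A (p ++ [d])) :=
        mul_le_mul_of_nonneg_right (by linarith) hpos
      linarith
    · push Not at c2
      obtain ⟨e, he⟩ := c2
      have h5 : Psi (p ++ [d, e]) (Phi (p ++ [d]) y) = psi e y := by
        have e1 : p ++ [d, e] = (p ++ [d]) ++ [e] := by simp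
        rw [e1, Psi_snoc, Psi_Phi]
      have h4 := hSZ.up (p ++ [d, e]) (by simp; omega) (Phi (p ++ [d]) y) (by
        rw [h5]
        refine ⟨by linarith, fun e' => ?_⟩
        have h6 := dist_psi_ge e' (psi e y)
        have h7 := hy.2 e
        linarith)
      have h8 : (p ++ [d, e]).length = p.length + 1 + 1 := by simp
      rw [h8] at h4
      refine h4.trans ?_
      calc (3 : ℝ) ^ (p.length + 1 + 1) * A (p ++ [d, e])
          ≤ 3 ^ (p.length + 1 + 1) * (K * A (p ++ [d])) :=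
            mul_le_mul_of_nonneg_left (hc e) (by positivity)
        _ = 3 * K * (3 ^ (p.length + 1) * A (p ++ [d])) := by ring
  · push Not at c1
    have h5 : Psi p (Phi (p ++ [d]) y) = phi d y := by
      rw [Phi_snoc, Psi_Phi]
    have h4 := hSZ.up p (by omega) (Phi (p ++ [d]) y) (by
      rw [h5]
      refine ⟨?_, fun e => ?_⟩
      · have h6 := dist_triangle (phi d y) (phi d ctr) ctr
        have h7 := dist_phi' d y ctr
        have h8 := dist_phi_ctr d
        have h9 := hy.1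
        linarith
      · by_cases hed : e = d
        · rw [hed, psi_phi]
          linarith
        · by_contra hlt
          push Not at hlt
          refine hed (psi_disj (z := phi d y) (by linarith) ?_)
          rw [psi_phi]
          linarith [hy.1])
    refine h4.trans ?_
    calc (3 : ℝ) ^ p.length * A p ≤ 3 ^ p.length * (K * A (p ++ [d])) :=
          mul_le_mul_of_nonneg_left hp h3.le
      _ ≤ 3 ^ p.length * (K * A (p ++ [d])) * 9 := by
          have : 0 ≤ 3 ^ p.length * (K * A (p ++ [d])) := by positivity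
          linarith
      _ = 3 * K * (3 ^ (p.length + 1) * A (p ++ [d])) := by ring

end LA1_

open LA1_ Pool.Agent.CorA.NC1_ Pool.Agent.CorA.NC3_ in
/-- Lower bounds pass to the children. -/
theorem p_LA1 (hLAV : T_LAV) (hPRD : T_PRD) : T_LA1 := by
  intro K hK
  choose k hk hlow using fun e : D => low hLAV hPRD (phi e (ctr + (77 / 100 : ℝ))) (3 / 1000) K
    (by norm_num) hK (down_VV e)
  obtain ⟨e₀, -, he₀⟩ := Finset.exists_min_image Finset.univ k ⟨(true, true), Finset.mem_univ _⟩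
  refine ⟨k e₀ / 3, by have := hk e₀; positivity, ?_⟩
  intro N H A p d e hSZ hl hp hc
  rcases (hSZ.nn (p ++ [d])).eq_or_lt with h0 | h0
  · rw [← h0, mul_zero]
    exact hSZ.nn _
  have hlen : (p ++ [d]).length = p.length + 1 := by simp
  obtain ⟨y, hy, hyH⟩ := hSZ.att (p ++ [d]) (by omega)
  rw [hlen] at hyH
  have hF : DifferentiableOn ℂ (fun z => H (Phi (p ++ [d]) z)) VV :=
    hSZ.diff.comp (differentiable_Phi _).differentiableOn fun z hz => VV_Om (by omega) hz
  obtain ⟨w, hw, hwk⟩ := hlow e (fun z => H (Phi (p ++ [d]) z)) (3 ^ (p.length + 1) * A (p ++ [d]))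
    (Psi (p ++ [d]) y) hF (fun z hz => bound hSZ hl hK hp hc hz) (by positivity) hy (by
      show _ ≤ ‖H (Phi (p ++ [d]) (Psi (p ++ [d]) y))‖
      rw [Phi_Psi]
      exact hyH)
  have e1 : p ++ [d, e] = (p ++ [d]) ++ [e] := by simp
  have h4 := hSZ.up (p ++ [d, e]) (by simp; omega) (Phi (p ++ [d]) w) (by
    rw [e1, Psi_snoc, Psi_Phi]
    exact down_node hw.le)
  have h8 : (p ++ [d, e]).length = p.length + 1 + 1 := by simp
  rw [h8] at h4
  have h9 : k e₀ * (3 ^ (p.length + 1) * A (p ++ [d])) ≤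
      3 ^ (p.length + 1 + 1) * A (p ++ [d, e]) := by
    refine le_trans ?_ (hwk.trans h4)
    have := he₀ e (Finset.mem_univ _)
    gcongr
  have h10 : (0 : ℝ) < 3 ^ (p.length + 1) := by positivity
  rw [pow_succ (3 : ℝ) (p.length + 1)] at h9
  have h11 : 3 ^ (p.length + 1) * (k e₀ * A (p ++ [d])) ≤
      3 ^ (p.length + 1) * (3 * A (p ++ [d, e])) := by linarith
  have h12 := le_of_mul_le_mul_left h11 h10
  linarith

end Pool.Agent.ALQ
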