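import Pool.Agent.ALQ.TargetsG

/-!
# LAP: lower bounds pass along a path
-/

set_option autoImplicit false

namespace Pool.Agent.ALQ

open Complex Metric Set Filter Topology MeasureTheory
open Pool.Corona91698f Pool.Agent.CorE Pool.Agent.CorA
open scoped Real

theorem p_LAP (h : T_LA1) : T_LAP := by
  intro K i hK
  induction i with
  | zero =>
    refine ⟨1, one_pos, fun N H A p d y _ hy _ _ _ => ?_⟩
    have hy0 : y = [] := List.length_eq_zero_iff.1 hy
    rw [hy0, List.append_nil, one_mul]
  | succ i ih =>
    obtain ⟨c0, hc0, ih⟩ := ih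
    have hc : 0 < min c0 1 := lt_min hc0 one_pos
    have hc1 : min c0 1 ≤ 1 := min_le_right _ _
    have hKc : 1 ≤ K / min c0 1 := by
      rw [le_div_iff₀ hc]
      linarith
    obtain ⟨c', hc', h1⟩ := h (K / min c0 1) hKc
    refine ⟨c' * min c0 1, mul_pos hc' hc, fun N H A p d y hS hy hN hp hch => ?_⟩
    rcases List.eq_nil_or_concat' y with rfl | ⟨y', e, rfl⟩
    · simp at hy
    have hy' : y'.length = i := by simpa using hy
    have hA : ∀ v, 0 ≤ A v := hS.nn
    have hne : ∀ z : List D, z <+: y' → z ≠ y' ++ [e] := by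
      intro z hz hze
      have h2 := hz.length_le
      rw [hze, List.length_append] at h2
      simp at h2
    have h2 : c0 * A (p ++ [d]) ≤ A (p ++ [d] ++ y') :=
      ih N H A p d y' hS hy' (by omega) hp fun z hz _ e' =>
        hch z (hz.trans (List.prefix_append _ _)) (hne z hz) e'
    have h3 : min c0 1 * A (p ++ [d]) ≤ A (p ++ [d] ++ y') :=
      (mul_le_mul_of_nonneg_right (min_le_left _ _) (hA _)).trans h2
    have h4 : ∀ x : ℝ, x ≤ K * A (p ++ [d]) → x ≤ K / min c0 1 * A (p ++ [d] ++ y') := by
      intro x hx
      refine hx.trans ?_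
      rw [div_mul_eq_mul_div, le_div_iff₀ hc]
      calc K * A (p ++ [d]) * min c0 1 = K * (min c0 1 * A (p ++ [d])) := by ring
        _ ≤ K * A (p ++ [d] ++ y') := mul_le_mul_of_nonneg_left h3 (by linarith)
    have h5 : A (p ++ [d]) ≤ K * A (p ++ [d]) := by
      nlinarith [hA (p ++ [d])]
    have h6 : ∀ e' : D, A (p ++ [d] ++ y' ++ [e']) ≤ K / min c0 1 * A (p ++ [d] ++ y') :=
      fun e' => h4 _ (hch y' (List.prefix_append _ _) (hne y' (List.prefix_refl _)) e')
    have h7 : c' * A (p ++ [d] ++ y') ≤ A (p ++ [d] ++ y' ++ [e]) := by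
      rcases List.eq_nil_or_concat' y' with rfl | ⟨y2, d', rfl⟩
      · simp only [List.append_nil] at h4 h6 ⊢
        have h8 := h1 N H A p d e hS (by simp at hy'; omega) (h4 _ hp) fun e' => by
          have h9 := h6 e'
          rw [List.append_assoc] at h9
          exact h9
        rw [List.append_assoc]
        exact h8
      · have h8 : A (p ++ [d] ++ y2) ≤ K * A (p ++ [d]) := by
          rcases List.eq_nil_or_concat' y2 with rfl | ⟨y3, d3, rfl⟩
          · rw [List.append_nil]
            exact h5
          · have h9 := hch y3 (by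
              rw [List.append_assoc, List.append_assoc]
              exact List.prefix_append _ _) (by
              intro h10
              have h11 := congrArg List.length h10
              simp at h11
              ) d3
            rw [← List.append_assoc]
            exact h9
        have h9 := h1 N H A (p ++ [d] ++ y2) d' e hS (by
          simp at hy' ⊢
          omega) (by
          have h10 := h4 _ h8
          rw [← List.append_assoc] at h10
          exact h10) fun e' => by
          have h10 := h6 e'
          have e1 : p ++ [d] ++ (y2 ++ [d']) ++ [e'] = p ++ [d] ++ y2 ++ [d', e'] := by simp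
          have e2 : p ++ [d] ++ (y2 ++ [d']) = p ++ [d] ++ y2 ++ [d'] := by simp
          rw [e1, e2] at h10
          exact h10
        have e1 : p ++ [d] ++ (y2 ++ [d']) ++ [e] = p ++ [d] ++ y2 ++ [d', e] := by simp
        have e2 : p ++ [d] ++ (y2 ++ [d']) = p ++ [d] ++ y2 ++ [d'] := by simp
        rw [e1, e2]
        exact h9
    calc c' * min c0 1 * A (p ++ [d]) = c' * (min c0 1 * A (p ++ [d])) := by ring
      _ ≤ c' * A (p ++ [d] ++ y') := mul_le_mul_of_nonneg_left h3 hc'.le
      _ ≤ A (p ++ [d] ++ y' ++ [e]) := h7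
      _ = A (p ++ [d] ++ (y' ++ [e])) := by rw [List.append_assoc (p ++ [d]) y' [e]]

end Pool.Agent.ALQ
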