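import Pool.Agent.ALQ.TargetsG

/-!
# LOC: the local estimate
-/

set_option autoImplicit false

namespace Pool.Agent.ALQ

open Complex Metric Set Filter Topology MeasureTheory
open Pool.Corona91698f Pool.Agent.CorE Pool.Agent.CorA
open scoped Real

namespace LOC_

theorem mem_nxt' {N : ℕ} {R : List D → Prop} {x u : List D} :
    u ∈ nxt N R x ↔ u.length ≤ N - 1 ∧ x <+: u ∧ u ≠ x ∧ R u ∧
      ∀ t, x <+: t → t <+: u → R t → t = x ∨ t = u := by
  unfold nxt
  simp only [Finset.mem_filter, mem_wd]

theorem notE {N j : ℕ} {E : List D → Prop} {u : List D} (hE : ¬ E u)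
    (hN : u.length + 2 * j < N)
    (hn : ∀ w ∈ nxt N E u, ¬ w.length ≤ u.length + 2 * j) :
    ∀ (m : ℕ) (y : List D), y.length = m → m ≤ 2 * j → ¬ E (u ++ y) := by
  intro m
  induction m using Nat.strong_induction_on with
  | _ m ih =>
    intro y hy hm hEy
    have h1 : u ++ y ∈ nxt N E u := by
      rw [mem_nxt']
      refine ⟨by rw [List.length_append]; omega, List.prefix_append _ _, ?_, hEy, ?_⟩
      · intro h
        rw [h] at hEy
        exact hE hEy
      · intro t ht1 ht2 ht3
        right
        obtain ⟨y', rfl⟩ := ht1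
        have h3 := ht2.length_le
        rw [List.length_append, List.length_append] at h3
        rcases Nat.lt_or_ge y'.length m with h4 | h4
        · exact absurd ht3 (ih y'.length h4 y' rfl (by omega))
        · exact ht2.eq_of_length (by rw [List.length_append, List.length_append]; omega)
    exact hn _ h1 (by rw [List.length_append]; omega)

theorem un_app {E : List D → Prop} {u : List D} (n : ℕ)
    (h : ∀ y : List D, y.length ≤ n → ¬ E (u ++ y)) (x : List D) (hx : x.length ≤ n) :
    Un E u (u ++ x) := by
  refine ⟨List.prefix_append _ _, fun t h1 h2 => ?_⟩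
  obtain ⟨y', rfl⟩ := h1
  have h3 := h2.length_le
  rw [List.length_append, List.length_append] at h3
  exact h y' (by omega)

theorem nxt_sub {N : ℕ} {E : List D → Prop} {u v : List D} (h : Un E u v) :
    nxt N E v ⊆ nxt N E u := by
  intro w hw
  rw [mem_nxt'] at hw ⊢
  obtain ⟨h1, h2, h3, h4, h5⟩ := hw
  have hu : ¬ E u := h.2 u (List.prefix_refl u) h.1
  have hv : ¬ E v := h.2 v h.1 (List.prefix_refl v)
  refine ⟨h1, h.1.trans h2, ?_, h4, ?_⟩
  · rintro rfl
    exact hu h4
  · intro t ht1 ht2 ht3
    rcases List.prefix_or_prefix_of_prefix ht2 h2 with h6 | h6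
    · exact absurd ht3 (h.2 t ht1 h6)
    · rcases h5 t h6 ht2 ht3 with h7 | h7
      · rw [h7] at ht3
        exact absurd ht3 hv
      · exact Or.inr h7

theorem sum_sub {N : ℕ} {E : List D → Prop} {u : List D} {k : ℕ} (A : List D → ℝ)
    (hA : ∀ v, 0 ≤ A v) (h : ∀ x ∈ lv k, Un E u (u ++ x)) :
    ∑ x ∈ lv k, ∑ w ∈ nxt N E (u ++ x), A w ≤ ∑ w ∈ nxt N E u, A w := by
  classical
  rw [← Finset.sum_biUnion]
  · refine Finset.sum_le_sum_of_subset_of_nonneg ?_ fun w _ _ => hA w
    intro w hw
    rw [Finset.mem_biUnion] at hw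
    obtain ⟨x, hx, hw⟩ := hw
    exact nxt_sub (h x hx) hw
  · intro x hx x' hx' hne
    rw [Function.onFun, Finset.disjoint_left]
    intro w h1 h2
    apply hne
    rw [mem_nxt'] at h1 h2
    have hx1 : x.length = k := mem_lv.1 hx
    have hx2 : x'.length = k := mem_lv.1 hx'
    have h3 : (u ++ x).length = (u ++ x').length := by
      rw [List.length_append, List.length_append, hx1, hx2]
    have h4 := List.prefix_of_prefix_length_le h1.2.1 h2.2.1 h3.le
    exact List.append_cancel_left (h4.eq_of_length h3)

end LOC_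

open LOC_

theorem p_LOC (h1 : T_GLL) (h2 : T_LAP) (h3 : T_STA) : T_LOC := by
  classical
  intro K hK
  obtain ⟨C, hC, hG⟩ := h1
  have hKC : 1 ≤ K ^ C := Real.one_le_rpow hK (by linarith)
  have hCK : 1 ≤ C * K ^ C := by nlinarith
  refine ⟨C * K ^ C, hCK, ?_⟩
  intro j K' hj hK'
  have hK2 : 1 ≤ max K K' := hK.trans (le_max_left _ _)
  choose c hc0 hc using fun i : ℕ => h2 (max K K') i hK2
  have hS0 : 0 ≤ ∑ i ∈ Finset.range (2 * j + 1), 1 / c i :=
    Finset.sum_nonneg fun i _ => (one_div_pos.2 (hc0 i)).le
  refine ⟨C * K ^ C + 1 + ∑ i ∈ Finset.range (2 * j + 1), 1 / c i, by linarith, ?_⟩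
  intro N H A E p d hS hE hu hAp
  obtain ⟨u, hud⟩ : ∃ u, u = p ++ [d] := ⟨_, rfl⟩
  have hul : u.length = p.length + 1 := by rw [hud, List.length_append]; rfl
  rw [← hud] at hu hAp ⊢
  have hN : u.length + (2 * j + 2) < N := by
    by_contra hcon
    exact hu (hE u (by omega))
  have hAn : ∀ v, 0 ≤ A v := hS.nn
  have n1 : 0 ≤ C * K ^ C * (3 / 4) ^ j *
      ∑ x ∈ (lv j).filter (fun x => Un E u (u ++ x)), A (u ++ x) :=
    mul_nonneg (by positivity) (Finset.sum_nonneg fun x _ => hAn _)
  have n2 : 0 ≤ C * K ^ C * (3 / 4) ^ j *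
      ∑ x ∈ (lv (2 * j)).filter (fun x => Un E u (u ++ x)), A (u ++ x) :=
    mul_nonneg (by positivity) (Finset.sum_nonneg fun x _ => hAn _)
  have n3 : 0 ≤ 1 / K' * ∑ v ∈ (wd (N - 1)).filter (fun v => Un E u v ∧
      v.length ≤ p.length + 1 + 2 * j), A v :=
    mul_nonneg (by positivity) (Finset.sum_nonneg fun x _ => hAn _)
  have n4 : 0 ≤ ∑ w ∈ nxt N E u, A w := Finset.sum_nonneg fun x _ => hAn _
  rcases (hAn u).eq_or_lt with hA0 | hA0
  · rw [← hA0]
    have := mul_nonneg (by linarith : 0 ≤ C * K ^ C + 1 +
      ∑ i ∈ Finset.range (2 * j + 1), 1 / c i) n4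
    linarith
  by_cases hcase : ∃ w ∈ nxt N E u, w.length ≤ u.length + 2 * j
  · -- case (b)
    obtain ⟨w, hw, hwl⟩ := hcase
    have hw' := mem_nxt'.1 hw
    obtain ⟨hw1, hw2, hw3, hw4, hw5⟩ := hw'
    obtain ⟨y, rfl⟩ := hw2
    rw [List.length_append] at hwl
    have hAw : A (u ++ y) ≤ ∑ w ∈ nxt N E u, A w :=
      Finset.single_le_sum (f := A) (fun x _ => hAn x) hw
    have hun : ∀ y' : List D, y' <+: y → y' ≠ y → Un E u (u ++ y') := by
      intro y' hy1 hy2
      refine ⟨List.prefix_append _ _, fun t ht1 ht2 ht3 => ?_⟩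
      have h5 : u ++ y' <+: u ++ y := (List.prefix_append_right_inj u).2 hy1
      rcases hw5 t ht1 (ht2.trans h5) ht3 with h6 | h6
      · rw [h6] at ht3
        exact hu ht3
      · rw [h6] at ht2
        have h7 := (List.prefix_append_right_inj u).1 ht2
        exact hy2 (hy1.eq_of_length_le h7.length_le)
    by_cases hb : ∃ y' : List D, y' <+: y ∧ y' ≠ y ∧ ∃ e : D,
        K' * A u < A (u ++ y' ++ [e])
    · obtain ⟨y', hy1, hy2, e, hy3⟩ := hb
      have hyl : y'.length < y.length := by
        rcases Nat.lt_or_ge y'.length y.length with h | h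
        · exact h
        · exact absurd (hy1.eq_of_length_le h) hy2
      have hUn := hun y' hy1 hy2
      have hvl : (u ++ y' ++ [e]).length = u.length + y'.length + 1 := by
        rw [List.length_append, List.length_append, List.length_singleton]
      have hle1 : A u ≤ 1 / K' * A (u ++ y' ++ [e]) := by
        rw [one_div, ← div_eq_inv_mul, le_div_iff₀ (by linarith)]
        linarith
      by_cases hEv : E (u ++ y' ++ [e])
      · have hmem : u ++ y' ++ [e] ∈ nxt N E u := by
          rw [mem_nxt']
          refine ⟨by omega, ?_, ?_, hEv, ?_⟩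
          · rw [List.append_assoc]
            exact List.prefix_append _ _
          · intro h
            rw [h] at hEv
            exact hu hEv
          · intro t ht1 ht2 ht3
            right
            rcases Nat.lt_or_ge t.length (u ++ y' ++ [e]).length with h | h
            · have h6 : t <+: u ++ y' := by
                refine List.prefix_of_prefix_length_le ht2 (List.prefix_append _ _) ?_
                rw [List.length_append]
                omega
              exact absurd ht3 (hUn.2 t ht1 h6)
            · exact ht2.eq_of_length_le h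
        have h6 : A (u ++ y' ++ [e]) ≤ ∑ w ∈ nxt N E u, A w :=
          Finset.single_le_sum (f := A) (fun x _ => hAn x) hmem
        have h7 : 1 / K' * A (u ++ y' ++ [e]) ≤ A (u ++ y' ++ [e]) := by
          have h8 : 1 / K' ≤ 1 := by
            rw [div_le_one (by linarith)]
            exact hK'
          have := mul_le_mul_of_nonneg_right h8 (hAn (u ++ y' ++ [e]))
          linarith
        have h9 : ∑ w ∈ nxt N E u, A w ≤ (C * K ^ C + 1 +
            ∑ i ∈ Finset.range (2 * j + 1), 1 / c i) * ∑ w ∈ nxt N E u, A w := by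
          have h10 : (1 : ℝ) ≤ C * K ^ C + 1 + ∑ i ∈ Finset.range (2 * j + 1), 1 / c i := by
            linarith
          have := mul_le_mul_of_nonneg_right h10 n4
          linarith
        linarith
      · have hUv : Un E u (u ++ y' ++ [e]) := by
          refine ⟨?_, fun t ht1 ht2 ht3 => ?_⟩
          · rw [List.append_assoc]
            exact List.prefix_append _ _
          · rcases Nat.lt_or_ge t.length (u ++ y' ++ [e]).length with h | h
            · have h6 : t <+: u ++ y' := by
                refine List.prefix_of_prefix_length_le ht2 (List.prefix_append _ _) ?_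
                rw [List.length_append]
                omega
              exact hUn.2 t ht1 h6 ht3
            · rw [ht2.eq_of_length_le h] at ht3
              exact hEv ht3
        have hmem : u ++ y' ++ [e] ∈ (wd (N - 1)).filter (fun v => Un E u v ∧
            v.length ≤ p.length + 1 + 2 * j) := by
          rw [Finset.mem_filter, mem_wd]
          exact ⟨by omega, hUv, by omega⟩
        have h6 : A (u ++ y' ++ [e]) ≤ ∑ v ∈ (wd (N - 1)).filter (fun v => Un E u v ∧
            v.length ≤ p.length + 1 + 2 * j), A v :=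
          Finset.single_le_sum (f := A) (fun x _ => hAn x) hmem
        have h7 := mul_le_mul_of_nonneg_left h6 (by positivity : (0 : ℝ) ≤ 1 / K')
        have h8 := mul_nonneg (by linarith : 0 ≤ C * K ^ C + 1 +
          ∑ i ∈ Finset.range (2 * j + 1), 1 / c i) n4
        linarith
    · push Not at hb
      have h5 := hc y.length N H A p d y hS rfl (by omega)
        (by
          rw [← hud]
          exact hAp.trans (mul_le_mul_of_nonneg_right (le_max_left _ _) (hAn u)))
        (by
          intro y' hy1 hy2 e
          rw [← hud]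
          exact (hb y' hy1 hy2 e).trans (mul_le_mul_of_nonneg_right (le_max_right _ _) (hAn u)))
      rw [← hud] at h5
      have h6 : A u ≤ 1 / c y.length * A (u ++ y) := by
        rw [one_div, ← div_eq_inv_mul, le_div_iff₀ (hc0 _)]
        linarith
      have h7 : 1 / c y.length ≤ ∑ i ∈ Finset.range (2 * j + 1), 1 / c i :=
        Finset.single_le_sum (f := fun i => 1 / c i)
          (fun i _ => (one_div_pos.2 (hc0 i)).le) (Finset.mem_range.2 (by omega))
      have h8 : 1 / c y.length * A (u ++ y) ≤ (C * K ^ C + 1 +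
          ∑ i ∈ Finset.range (2 * j + 1), 1 / c i) * ∑ w ∈ nxt N E u, A w :=
        mul_le_mul (by linarith) hAw (hAn _) (by linarith)
      linarith
  · -- case (a)
    push Not at hcase
    have hno := notE (N := N) (j := j) hu (by omega) (fun w hw h => by
      have := hcase w hw
      omega)
    have hun : ∀ x : List D, x.length ≤ 2 * j → Un E u (u ++ x) :=
      un_app (2 * j) fun y hy => hno y.length y rfl hy
    obtain ⟨y₀, hy1, hy2⟩ := hS.att u (by omega)
    have h5 := hG N j p d H A (A u) K y₀ hj (by omega) hS.diff hS.up hA0 hK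
      (by rw [← hud]; exact hy1) (by rw [← hul]; exact hy2) hAp
    rw [← hud] at h5
    have h6 : ∑ x ∈ lv (2 * j), ‖cm (u ++ x) H‖ ≤ ∑ w ∈ nxt N E u, A w := by
      refine le_trans (Finset.sum_le_sum fun x hx => ?_)
        (sum_sub A hAn fun x hx => hun x (mem_lv.1 hx).le)
      have hxl : x.length = 2 * j := mem_lv.1 hx
      have h7 := h3 N H A E hS fun v hv => hE v (by omega)
      rw [h7.1 (u ++ x) (by rw [List.length_append]; omega)]
      refine (norm_sum_le _ _).trans (Finset.sum_le_sum fun w hw => ?_)
      have := (mem_nxt'.1 hw).1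
      exact h7.2 w (by omega)
    have f1 : (lv j).filter (fun x => Un E u (u ++ x)) = lv j :=
      Finset.filter_true_of_mem fun x hx => hun x (by have := mem_lv.1 hx; omega)
    have f2 : (lv (2 * j)).filter (fun x => Un E u (u ++ x)) = lv (2 * j) :=
      Finset.filter_true_of_mem fun x hx => hun x (by have := mem_lv.1 hx; omega)
    rw [f1, f2]
    have h8 := mul_le_mul_of_nonneg_left h6 (by positivity : (0 : ℝ) ≤ C * K ^ C)
    have h9 := mul_nonneg (by linarith : 0 ≤ 1 + ∑ i ∈ Finset.range (2 * j + 1), 1 / c i) n4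
    nlinarith [h5, h8, h9, n3]

end Pool.Agent.ALQ
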