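import Pool.Agent.ALQ.TargetsC

/-!
# LST: the last top above a word (project ALQ)
-/

set_option autoImplicit false

namespace Pool.Agent.ALQ

open Complex Metric Set Filter Topology MeasureTheory
open Pool.Corona91698f Pool.Agent.CorE Pool.Agent.CorA
open scoped Real BoundedContinuousFunction

namespace LST_

/-- the last top is a top above `u`, and there is no other top between -/
theorem one (K : ℝ) (a : List D → ℝ) (u : List D) : lst K a u <+: u ∧ Top K a (lst K a u) ∧
    ∀ t, lst K a u <+: t → t <+: u → Top K a t → t = lst K a u := by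
  classical
  have h0 : Top K a (u.take 0) := Or.inl (List.take_zero)
  obtain ⟨i, hi⟩ : ∃ i : ℕ, i = Nat.findGreatest (fun i => Top K a (u.take i)) u.length :=
    ⟨_, rfl⟩
  have hlst : lst K a u = u.take i := by
    unfold lst
    rw [hi]
  have hle : i ≤ u.length := hi ▸ Nat.findGreatest_le _
  have htop : Top K a (u.take i) := by
    have := Nat.findGreatest_spec (P := fun i => Top K a (u.take i)) (Nat.zero_le u.length) h0
    rw [hi]
    exact this
  rw [hlst]
  refine ⟨List.take_prefix _ _, htop, fun t h1 h2 h3 => ?_⟩
  have e1 : t = u.take t.length := List.prefix_iff_eq_take.1 h2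
  have e2 : t.length ≤ u.length := h2.length_le
  have e3 : t.length ≤ i := by
    rw [hi]
    exact Nat.le_findGreatest e2 (by rw [← e1]; exact h3)
  have e4 : i ≤ t.length := by
    have := h1.length_le
    rwa [List.length_take, min_eq_left hle] at this
  rw [e1, le_antisymm e3 e4]

/-- uniqueness -/
theorem four (K : ℝ) (a : List D → ℝ) (s u : List D) (h1 : s <+: u) (h2 : Top K a s)
    (h3 : ∀ t, s <+: t → t <+: u → Top K a t → t = s) : lst K a u = s := by
  obtain ⟨g1, g2, g3⟩ := one K a u
  rcases List.prefix_or_prefix_of_prefix h1 g1 with h | h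
  · exact h3 _ h g1 g2
  · exact (g3 s h h1 h2).symm

end LST_

open LST_ in
theorem p_LST : T_LST := by
  classical
  intro K a
  refine ⟨one K a, fun u hu => ?_, fun p d hp => ?_, four K a, fun N u hN hu => ?_,
    fun N p d hN hp => ?_, fun N s u hs hu => ?_, fun N s u hs hu => ?_⟩
  · exact ((one K a u).2.2 u (one K a u).1 List.prefix_rfl hu).symm
  · obtain ⟨g1, g2, g3⟩ := one K a p
    refine four K a _ _ (g1.trans (List.prefix_append p [d])) g2 fun t h1 h2 h3 => ?_
    rcases List.prefix_concat_iff.1 h2 with h | h
    · exact absurd (h ▸ h3) hp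
    · exact g3 t h1 h h3
  · obtain ⟨g1, g2, g3⟩ := one K a u
    unfold Rg
    rw [Finset.mem_filter]
    refine ⟨mem_wd.2 (by omega), g1, fun h => hu ?_, g3⟩
    rw [h]
    exact g2
  · obtain ⟨g1, g2, g3⟩ := one K a p
    unfold nxt
    rw [Finset.mem_filter]
    refine ⟨mem_wd.2 (by rw [List.length_append, List.length_singleton]; omega),
      g1.trans (List.prefix_append p [d]), fun h => ?_, hp, fun t h1 h2 h3 => ?_⟩
    · have h4 := g1.length_le
      rw [← h, List.length_append, List.length_singleton] at h4
      omega
    · rcases List.prefix_concat_iff.1 h2 with h | h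
      · exact Or.inr h
      · exact Or.inl (g3 t h1 h h3)
  · unfold Rg at hu
    rw [Finset.mem_filter] at hu
    obtain ⟨h1, h2, h3, h4⟩ := hu
    refine ⟨fun h => h3 (h4 u h2 List.prefix_rfl h), four K a s u h2 hs h4, ?_⟩
    have h5 := mem_wd.1 h1
    rcases Nat.eq_zero_or_pos u.length with h6 | h6
    · exfalso
      have h7 : u = [] := List.length_eq_zero_iff.1 h6
      rw [h7] at h2 h3
      exact h3 (List.prefix_nil.1 h2).symm
    · omega
  · unfold nxt at hu
    rw [Finset.mem_filter] at hu
    obtain ⟨-, h2, h3, -, h5⟩ := hu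
    have h6 : u ≠ [] := by
      intro h7
      rw [h7] at h2 h3
      exact h3 (List.prefix_nil.1 h2).symm
    refine ⟨h6, ?_⟩
    obtain ⟨p, d, hp⟩ : ∃ (p : List D) (d : D), u = p ++ [d] :=
      ⟨u.dropLast, u.getLast h6, (List.dropLast_append_getLast h6).symm⟩
    have hd : u.dropLast = p := by
      rw [hp, List.dropLast_concat]
    rw [hd]
    have h7 : s <+: p := by
      rw [hp] at h2
      rcases List.prefix_concat_iff.1 h2 with h | h
      · exact absurd (hp.trans h.symm) h3
      · exact h
    refine four K a s p h7 hs fun t g1 g2 g3 => ?_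
    rcases h5 t g1 (g2.trans (by rw [hp]; exact List.prefix_append p [d])) g3 with h | h
    · exact h
    · exfalso
      have h8 := g2.length_le
      rw [h, hp, List.length_append, List.length_singleton] at h8
      omega

end Pool.Agent.ALQ
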