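import Pool.Agent.ALQ.TargetsC
import Pool.Agent.CorA.P_AVS
import Pool.Agent.CorA.P_NC4

/-!
# NCR: the tops which are not good and calm, and what is below them
-/

set_option autoImplicit false

namespace Pool.Agent.ALQ

open Complex Metric Set Filter Topology MeasureTheory
open Pool.Corona91698f Pool.Agent.CorE Pool.Agent.CorA
open scoped Real BoundedContinuousFunction

namespace NCR_

theorem card_lv (j : ℕ) : ∑ _x ∈ lv j, (1 : ℝ) = 4 ^ j := by
  induction j with
  | zero => simp [lv]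
  | succ j ih =>
    rw [sum_lv_succ, Finset.sum_congr rfl fun d _ => ih]
    rw [Finset.sum_const, Finset.card_univ, Fintype.card_prod, Fintype.card_bool, pow_succ]
    simp
    ring

theorem steep_pow {K : ℝ} (hK : 0 < K) {a : List D → ℝ} (s : List D) (x : List D)
    (h : ∀ t, s <+: t → t <+: s ++ x → Top K a t → t = s) :
    a (s ++ x) ≤ (1 / K) ^ x.length * a s := by
  induction x using List.reverseRecOn with
  | nil => simp
  | append_singleton y d ih =>
    have h1 := ih fun t ht ht' hT => h t ht (ht'.trans (by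
      rw [← List.append_assoc]; exact List.prefix_append _ _)) hT
    have h2 : ¬ Top K a (s ++ (y ++ [d])) := by
      intro hT
      have h3 := h _ (List.prefix_append _ _) (List.prefix_refl _) hT
      have h4 := congrArg List.length h3
      simp at h4
    have h3 : K * a (s ++ (y ++ [d])) < a (s ++ y) := by
      by_contra hn
      push Not at hn
      refine h2 (Or.inr ?_)
      have : (s ++ (y ++ [d])).dropLast = s ++ y := by
        rw [← List.append_assoc, List.dropLast_concat]
      rw [this]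
      exact hn
    have h4 : a (s ++ (y ++ [d])) ≤ 1 / K * a (s ++ y) := by
      rw [one_div, ← div_eq_inv_mul, le_div_iff₀ hK]
      linarith
    refine h4.trans ?_
    rw [List.length_append, List.length_singleton, pow_succ]
    have h5 := mul_le_mul_of_nonneg_left h1 (by positivity : (0 : ℝ) ≤ 1 / K)
    linarith

theorem geo {K : ℝ} (hK : 8 ≤ K) (N : ℕ) (hN : 1 ≤ N) :
    ∑ x ∈ (wd (N - 1)).filter (fun x => x ≠ []), (1 / K) ^ x.length ≤ 1 := by
  have hK0 : 0 < K := by linarith
  rw [Finset.sum_filter, NC4_.sum_wd_lv N hN]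
  obtain ⟨M, rfl⟩ : ∃ M, N = M + 1 := ⟨N - 1, by omega⟩
  rw [Finset.sum_range_succ']
  have h0 : ∑ u ∈ lv 0, (if u ≠ [] then (1 / K) ^ u.length else 0) = 0 := by
    simp [lv]
  rw [h0, add_zero]
  calc ∑ l ∈ Finset.range M, ∑ u ∈ lv (l + 1), (if u ≠ [] then (1 / K) ^ u.length else 0)
      ≤ ∑ l ∈ Finset.range M, (1 / 2 : ℝ) * (1 / 2) ^ l := by
        refine Finset.sum_le_sum fun l _ => ?_
        calc ∑ u ∈ lv (l + 1), (if u ≠ [] then (1 / K) ^ u.length else 0)
            ≤ ∑ u ∈ lv (l + 1), (1 / 8 : ℝ) ^ (l + 1) * 1 := by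
              refine Finset.sum_le_sum fun u hu => ?_
              rw [mem_lv] at hu
              rw [hu, mul_one]
              have h1 : (1 / K) ^ (l + 1) ≤ (1 / 8 : ℝ) ^ (l + 1) := by
                refine pow_le_pow_left₀ (by positivity) ?_ _
                exact one_div_le_one_div_of_le (by norm_num) hK
              split_ifs
              · exact h1
              · positivity
          _ = (1 / 8 : ℝ) ^ (l + 1) * 4 ^ (l + 1) := by
              rw [← Finset.mul_sum, card_lv]
          _ = (1 / 2 : ℝ) * (1 / 2) ^ l := by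
              rw [← mul_pow, ← pow_succ']
              norm_num
    _ ≤ 1 := by
        rw [← Finset.mul_sum]
        have := sum_geometric_two_le M
        linarith

open Classical in
theorem reg {K : ℝ} (hK : 8 ≤ K) {a : List D → ℝ} (ha : ∀ u, 0 ≤ a u) (N : ℕ) (hN : 1 ≤ N)
    (s : List D) : ∑ y ∈ Rg N K a s, a y ≤ a s := by
  have hK0 : 0 < K := by linarith
  have h1 : ∀ y ∈ Rg N K a s, a y ≤ (1 / K) ^ (y.length - s.length) * a s := by
    intro y hy
    unfold Rg at hy
    rw [Finset.mem_filter] at hy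
    obtain ⟨-, ⟨x, rfl⟩, -, h2⟩ := hy
    have h3 := steep_pow hK0 s x h2
    rwa [List.length_append, Nat.add_sub_cancel_left]
  have h2 : Rg N K a s ⊆ ((wd (N - 1)).filter (fun x => x ≠ [])).image (fun x => s ++ x) := by
    intro y hy
    unfold Rg at hy
    rw [Finset.mem_filter, mem_wd] at hy
    obtain ⟨h3, ⟨x, rfl⟩, h4, -⟩ := hy
    rw [Finset.mem_image]
    refine ⟨x, ?_, rfl⟩
    rw [Finset.mem_filter, mem_wd]
    rw [List.length_append] at h3
    refine ⟨by omega, ?_⟩
    rintro rfl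
    exact h4 (List.append_nil _)
  calc ∑ y ∈ Rg N K a s, a y ≤ ∑ y ∈ Rg N K a s, (1 / K) ^ (y.length - s.length) * a s :=
        Finset.sum_le_sum h1
    _ ≤ ∑ y ∈ ((wd (N - 1)).filter (fun x => x ≠ [])).image (fun x => s ++ x),
          (1 / K) ^ (y.length - s.length) * a s := by
        refine Finset.sum_le_sum_of_subset_of_nonneg h2 fun y _ _ => ?_
        have := ha s
        positivity
    _ = ∑ x ∈ (wd (N - 1)).filter (fun x => x ≠ []), (1 / K) ^ x.length * a s := by
        rw [Finset.sum_image fun x _ y _ h => List.append_cancel_left h]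
        refine Finset.sum_congr rfl fun x _ => ?_
        rw [List.length_append, Nat.add_sub_cancel_left]
    _ ≤ 1 * a s := by
        rw [← Finset.sum_mul]
        exact mul_le_mul_of_nonneg_right (geo hK N hN) (ha s)
    _ = a s := one_mul _

end NCR_

open NCR_ in
open Classical in
theorem p_NCR (hBAD : T_BAD) (hNMB : T_NMB) (hEXI : T_EXI) (hSZF : T_SZF) (hLST : T_LST) :
    T_NCR := by
  intro n C₀ K hC₀ hK
  have hK1 : 1 ≤ K := by linarith
  obtain ⟨A, CB, hA, hCB, hB⟩ := hBAD n C₀ K hC₀ hK1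
  obtain ⟨M, hM⟩ := hNMB n C₀ K hC₀ hK1
  obtain ⟨CN, hCN, hNM⟩ := hM M le_rfl
  obtain ⟨CE, hCE, hE⟩ := hEXI n C₀ K hC₀ hK1
  refine ⟨A, hA, fun ε hε => ?_⟩
  obtain ⟨S1, hS1⟩ : ∃ S1 : ℝ, S1 = CB + (1 / ε) ^ M * CN := ⟨_, rfl⟩
  have hS1' : 1 ≤ S1 := by
    have : 0 ≤ (1 / ε) ^ M * CN := by positivity
    linarith
  refine ⟨CE * (1 + S1) + S1, by nlinarith, ?_⟩
  intro N δ f h a hN hf hD
  have ha := hD.nn
  have hF : ∑ u ∈ (Tp N K a).filter (fun u => ¬ GC f h a A ε u), a u ≤ S1 := by
    have h1 := hB N δ f h a hN hf hD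
    have h2 := hNM N δ f h a hN hf hD
    rw [Finset.sum_filter] at h1 ⊢
    have h3 : ∀ u ∈ Tp N K a, (if ¬ GC f h a A ε u then a u else 0) ≤
        (if A * ‖mm f h u‖ < a u then a u else 0) + (1 / ε) ^ M * (ta f u ^ M * a u) := by
      intro u _
      have h4 := (hSZF.2.2.2.2 n δ f u hf).1
      have h5 : 0 ≤ (1 / ε) ^ M * (ta f u ^ M * a u) := by
        have := ha u
        positivity
      by_cases hg : GC f h a A ε u
      · rw [if_neg (by simpa using hg)]
        split_ifs
        · linarith [ha u]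
        · linarith
      · rw [if_pos hg]
        split_ifs with h6
        · linarith
        · have h7 : ε < ta f u := by
            by_contra hn
            push Not at hn h6
            exact hg ⟨h6, hn⟩
          have h8 : 1 ≤ (1 / ε) ^ M * ta f u ^ M := by
            rw [← mul_pow]
            refine one_le_pow₀ ?_
            rw [one_div, inv_mul_eq_div, le_div_iff₀ hε]
            linarith
          have h9 := mul_le_mul_of_nonneg_right h8 (ha u)
          rw [zero_add, ← mul_assoc]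
          linarith
    calc ∑ u ∈ Tp N K a, (if ¬ GC f h a A ε u then a u else 0)
        ≤ ∑ u ∈ Tp N K a, ((if A * ‖mm f h u‖ < a u then a u else 0) +
          (1 / ε) ^ M * (ta f u ^ M * a u)) := Finset.sum_le_sum h3
      _ = ∑ u ∈ Tp N K a, (if A * ‖mm f h u‖ < a u then a u else 0) +
          (1 / ε) ^ M * ∑ u ∈ Tp N K a, ta f u ^ M * a u := by
          rw [Finset.sum_add_distrib, Finset.mul_sum]
      _ ≤ CB + (1 / ε) ^ M * CN := add_le_add h1 (mul_le_mul_of_nonneg_left h2 (by positivity))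
      _ = S1 := hS1.symm
  refine ⟨hF.trans (by nlinarith), ?_⟩
  obtain ⟨L1, L2, L3, L4, L5, L6, L7, L8⟩ := hLST K a
  obtain ⟨F1, hF1⟩ : ∃ F1, F1 = (Tp N K a).filter (fun u => ¬ GC f h a A ε u) := ⟨_, rfl⟩
  obtain ⟨S, hS⟩ : ∃ S, S = (wd (N - 1)).filter
      (fun u => u ≠ [] ∧ ncc f h a K A ε u.dropLast) := ⟨_, rfl⟩
  rw [← hF1] at hF
  rw [← hS]
  have hmap : ∀ u ∈ S, lst K a u.dropLast ∈ F1 := by
    intro u hu
    rw [hS, Finset.mem_filter, mem_wd] at hu
    obtain ⟨h1, h2, h3⟩ := hu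
    rw [hF1, Finset.mem_filter]
    refine ⟨?_, h3⟩
    unfold Tp
    rw [Finset.mem_filter, mem_wd]
    refine ⟨?_, (L1 _).2.1⟩
    have h4 := (L1 u.dropLast).1.length_le
    rw [List.length_dropLast] at h4
    omega
  have hpd : ∀ u ∈ S, ∃ p d, u = p ++ [d] ∧ u.dropLast = p ∧ p.length + 1 < N := by
    intro u hu
    rw [hS, Finset.mem_filter, mem_wd] at hu
    obtain ⟨h1, h2, h3⟩ := hu
    refine ⟨u.dropLast, u.getLast h2, (List.dropLast_append_getLast h2).symm, rfl, ?_⟩
    rw [List.length_dropLast]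
    have := List.length_pos_iff.2 h2
    omega
  have hA1 : ∑ u ∈ S.filter (fun u => Top K a u), a u ≤
      ∑ i ∈ F1, ∑ u ∈ nxt N (Top K a) i, a u := by
    rw [← Finset.sum_fiberwise_of_maps_to (t := F1) (g := fun u => lst K a u.dropLast)
      fun u hu => hmap u (Finset.mem_filter.1 hu).1]
    refine Finset.sum_le_sum fun i _ => ?_
    refine Finset.sum_le_sum_of_subset_of_nonneg ?_ fun u _ _ => ha u
    intro u hu
    rw [Finset.mem_filter, Finset.mem_filter] at hu
    obtain ⟨⟨h1, h2⟩, h3⟩ := hu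
    obtain ⟨p, d, hu1, hu2, hu3⟩ := hpd u h1
    rw [← h3, hu2, hu1]
    rw [hu1] at h2
    exact L6 N p d hu3 h2
  have hA2 : ∑ u ∈ S.filter (fun u => ¬ Top K a u), a u ≤
      ∑ i ∈ F1, ∑ u ∈ Rg N K a i, a u := by
    rw [← Finset.sum_fiberwise_of_maps_to (t := F1) (g := fun u => lst K a u.dropLast)
      fun u hu => hmap u (Finset.mem_filter.1 hu).1]
    refine Finset.sum_le_sum fun i _ => ?_
    refine Finset.sum_le_sum_of_subset_of_nonneg ?_ fun u _ _ => ha u
    intro u hu
    rw [Finset.mem_filter, Finset.mem_filter] at hu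
    obtain ⟨⟨h1, h2⟩, h3⟩ := hu
    obtain ⟨p, d, hu1, hu2, hu3⟩ := hpd u h1
    rw [hu1] at h2
    have h4 := L3 p d h2
    have h5 := L5 N (p ++ [d]) (by simpa using hu3) h2
    rw [h4] at h5
    rw [← h3, hu2, hu1]
    exact h5
  have hA3 : ∑ i ∈ F1, ∑ u ∈ nxt N (Top K a) i, a u ≤ CE * (1 + ∑ x ∈ F1, a x) :=
    hE N δ f h a F1 hN hf hD (by rw [hF1]; exact Finset.filter_subset _ _)
  have hA4 : ∑ i ∈ F1, ∑ u ∈ Rg N K a i, a u ≤ ∑ x ∈ F1, a x :=
    Finset.sum_le_sum fun i _ => reg hK ha N hN i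
  rw [← Finset.sum_filter_add_sum_filter_not S (fun u => Top K a u)]
  have hA5 : CE * (1 + ∑ x ∈ F1, a x) ≤ CE * (1 + S1) := by
    refine mul_le_mul_of_nonneg_left (by linarith) (by linarith)
  linarith

end Pool.Agent.ALQ
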