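import Pool.Agent.ALQ.TargetsN

/-!
# NMB: the tops with their oscillation (dyadic classes)
-/

set_option autoImplicit false

namespace Pool.Agent.ALQ

open Complex Metric Set Filter Topology MeasureTheory
open Pool.Corona91698f Pool.Agent.CorE Pool.Agent.CorA
open scoped Real BoundedContinuousFunction

namespace NMB_

theorem osc_le {n : ℕ} {δ : ℝ} {f : Fin n → ℂ → ℂ} (hD : Dat n δ f) (u : List D) (k : Fin n)
    {z : ℂ} (hz : Psi u z ∈ nodeX) : ‖f k z - f k (cc u)‖ ≤ 2 := by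
  have h1 := hD.le k z (MAS_.X_notMem hz)
  have h2 := hD.le k (cc u) (MAS_.X_notMem (MAI_.cc_X u))
  calc ‖f k z - f k (cc u)‖ ≤ ‖f k z‖ + ‖f k (cc u)‖ := norm_sub_le _ _
    _ ≤ 2 := by linarith

theorem ta_nn {n : ℕ} (f : Fin n → ℂ → ℂ) (u : List D) : 0 ≤ ta f u := by
  unfold ta sp
  refine Real.iSup_nonneg fun k => Real.sSup_nonneg ?_
  rintro _ ⟨z, _, rfl⟩
  exact norm_nonneg _

theorem ta_le {n : ℕ} {δ : ℝ} {f : Fin n → ℂ → ℂ} (hD : Dat n δ f) (u : List D) :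
    ta f u ≤ 2 := by
  unfold ta sp
  refine Real.iSup_le (fun k => Real.sSup_le ?_ (by norm_num)) (by norm_num)
  rintro _ ⟨z, hz, rfl⟩
  exact osc_le hD u k hz

theorem ta_NC {n : ℕ} (f : Fin n → ℂ → ℂ) (u : List D) (ht : 0 < ta f u) :
    NC f (ta f u / 2) u := by
  have hne : Nonempty (Fin n) := by
    by_contra h
    rw [not_nonempty_iff] at h
    have : ta f u = 0 := by
      unfold ta
      exact Real.iSup_of_isEmpty _
    linarith
  have h1 : ta f u / 2 < ⨆ k : Fin n, sp (fun z => f k z - f k (cc u)) u := by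
    show ta f u / 2 < ta f u
    linarith
  obtain ⟨k, hk⟩ := exists_lt_of_lt_ciSup h1
  have hs : ((fun z => ‖f k z - f k (cc u)‖) '' {z | Psi u z ∈ nodeX}).Nonempty :=
    ⟨_, cc u, MAI_.cc_X u, rfl⟩
  have hk' : ta f u / 2 < sSup ((fun z => ‖f k z - f k (cc u)‖) '' {z | Psi u z ∈ nodeX}) := hk
  obtain ⟨_, ⟨z, hz, rfl⟩, hlt⟩ := exists_lt_of_lt_csSup hs hk'
  exact ⟨k, z, cc u, hz, MAI_.cc_X u, hlt.le⟩

theorem cls {n : ℕ} {δ : ℝ} {f : Fin n → ℂ → ℂ} (hD : Dat n δ f) (u : List D)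
    (ht : 0 < ta f u) : ∃ r : ℕ, NC f ((1 / 2) ^ r) u ∧ ta f u ≤ 4 * (1 / 2) ^ r := by
  classical
  have hex : ∃ r : ℕ, (1 / 2 : ℝ) ^ r ≤ ta f u / 2 := by
    obtain ⟨r, hr⟩ := exists_pow_lt_of_lt_one (show 0 < ta f u / 2 by linarith)
      (show (1 / 2 : ℝ) < 1 by norm_num)
    exact ⟨r, hr.le⟩
  refine ⟨Nat.find hex, NC4_.NC_mono (Nat.find_spec hex) (ta_NC f u ht), ?_⟩
  rcases Nat.eq_zero_or_pos (Nat.find hex) with h0 | h0
  · rw [h0]
    have := ta_le hD u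
    norm_num
    linarith
  · have h1 := Nat.find_min hex (Nat.sub_lt h0 Nat.one_pos)
    rw [not_le] at h1
    have h2 : (1 / 2 : ℝ) ^ Nat.find hex = (1 / 2) ^ (Nat.find hex - 1) * (1 / 2) := by
      rw [← pow_succ, Nat.sub_add_cancel h0]
    rw [h2]
    linarith

end NMB_

open NMB_ in
/-- NMB -/
theorem p_NMB (hNMT : T_NMT) : T_NMB := by
  classical
  intro n C₀ K hC₀ hK
  obtain ⟨C, hC1, hC⟩ := hNMT n C₀ K hC₀ hK
  refine ⟨⌈C⌉₊ + 1, fun M hM => ⟨2 * (4 ^ M * C), ?_, ?_⟩⟩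
  · have h4 : (1 : ℝ) ≤ 4 ^ M := one_le_pow₀ (by norm_num)
    nlinarith
  intro N δ f h a hN hD hH
  have hM1 : 1 ≤ M := by omega
  -- the class of a word
  have hr : ∀ u : List D, ∃ r : ℕ, 0 < ta f u →
      NC f ((1 / 2) ^ r) u ∧ ta f u ≤ 4 * (1 / 2) ^ r := by
    intro u
    by_cases ht : 0 < ta f u
    · obtain ⟨r, h1, h2⟩ := cls hD u ht
      exact ⟨r, fun _ => ⟨h1, h2⟩⟩
    · exact ⟨0, fun h => absurd h ht⟩
  choose r hr using hr
  set R := (Tp N K a).sup r + 1 with hR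
  have hpt : ∀ u ∈ Tp N K a, ta f u ^ M * a u ≤ ∑ i ∈ Finset.range R,
      if NC f ((1 / 2) ^ i) u then 4 ^ M * (1 / 2) ^ (i * M) * a u else 0 := by
    intro u hu
    have hnn : ∀ i ∈ Finset.range R, (0 : ℝ) ≤
        if NC f ((1 / 2) ^ i) u then 4 ^ M * (1 / 2) ^ (i * M) * a u else 0 := by
      intro i _
      split_ifs
      · exact mul_nonneg (by positivity) (hH.nn u)
      · exact le_rfl
    by_cases ht : 0 < ta f u
    · obtain ⟨h1, h2⟩ := hr u ht
      have hmem : r u ∈ Finset.range R := by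
        rw [Finset.mem_range, hR]
        exact Nat.lt_succ_of_le (Finset.le_sup hu)
      refine le_trans ?_ (Finset.single_le_sum hnn hmem)
      rw [if_pos h1]
      refine mul_le_mul_of_nonneg_right ?_ (hH.nn u)
      calc ta f u ^ M ≤ (4 * (1 / 2) ^ r u) ^ M := pow_le_pow_left₀ (ta_nn f u) h2 M
        _ = 4 ^ M * (1 / 2) ^ (r u * M) := by rw [mul_pow, ← pow_mul]
    · have h0 : ta f u = 0 := le_antisymm (not_lt.1 ht) (ta_nn f u)
      rw [h0, zero_pow (by omega), zero_mul]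
      exact Finset.sum_nonneg hnn
  calc ∑ u ∈ Tp N K a, ta f u ^ M * a u
      ≤ ∑ u ∈ Tp N K a, ∑ i ∈ Finset.range R,
        (if NC f ((1 / 2) ^ i) u then 4 ^ M * (1 / 2) ^ (i * M) * a u else 0) :=
        Finset.sum_le_sum hpt
    _ = ∑ i ∈ Finset.range R, 4 ^ M * (1 / 2) ^ (i * M) *
        ∑ u ∈ (Tp N K a).filter (fun u => NC f ((1 / 2) ^ i) u), a u := by
        rw [Finset.sum_comm]
        refine Finset.sum_congr rfl fun i _ => ?_
        rw [← Finset.sum_filter, Finset.mul_sum]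
    _ ≤ ∑ i ∈ Finset.range R, 4 ^ M * C * (1 / 2) ^ i := by
        refine Finset.sum_le_sum fun i _ => ?_
        have h1 := hC N δ ((1 / 2) ^ i) f h a hN hD hH (by positivity)
          (pow_le_one₀ (by norm_num) (by norm_num))
        have h2 : (1 / (1 / 2 : ℝ) ^ i) = 2 ^ i := by
          rw [one_div, one_div, inv_pow, inv_inv]
        rw [h2] at h1
        have h3 : ((2 : ℝ) ^ i) ^ C ≤ (2 ^ i) ^ (M - 1) := by
          rw [← Real.rpow_natCast ((2 : ℝ) ^ i) (M - 1)]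
          refine Real.rpow_le_rpow_of_exponent_le (one_le_pow₀ (by norm_num)) ?_
          have h4 : (⌈C⌉₊ : ℝ) ≤ ((M - 1 : ℕ) : ℝ) := by
            exact_mod_cast (by omega : ⌈C⌉₊ ≤ M - 1)
          exact (Nat.le_ceil C).trans h4
        have h5 : (1 / 2 : ℝ) ^ (i * M) * (2 ^ i) ^ (M - 1) = (1 / 2) ^ i := by
          obtain ⟨m, rfl⟩ : ∃ m, M = m + 1 := ⟨M - 1, by omega⟩
          rw [Nat.add_sub_cancel, Nat.mul_add, mul_one, pow_add, pow_mul (1 / 2 : ℝ) i m,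
            mul_right_comm, ← mul_pow, ← mul_pow]
          norm_num
        calc 4 ^ M * (1 / 2) ^ (i * M) *
              ∑ u ∈ (Tp N K a).filter (fun u => NC f ((1 / 2) ^ i) u), a u
            ≤ 4 ^ M * (1 / 2) ^ (i * M) * (C * (2 ^ i) ^ (M - 1)) := by
              refine mul_le_mul_of_nonneg_left (h1.trans ?_) (by positivity)
              exact mul_le_mul_of_nonneg_left h3 (by linarith)
          _ = 4 ^ M * C * ((1 / 2) ^ (i * M) * (2 ^ i) ^ (M - 1)) := by ring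
          _ = 4 ^ M * C * (1 / 2) ^ i := by rw [h5]
    _ = 4 ^ M * C * ∑ i ∈ Finset.range R, (1 / 2 : ℝ) ^ i := by rw [Finset.mul_sum]
    _ ≤ 4 ^ M * C * 2 := by
        refine mul_le_mul_of_nonneg_left (sum_geometric_two_le R) ?_
        exact mul_nonneg (by positivity) (by linarith)
    _ = 2 * (4 ^ M * C) := by ring

end Pool.Agent.ALQ
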