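import Pool.Agent.ALQ.TargetsN

/-! NMT: the tops with oscillation at least `ε`. -/

set_option autoImplicit false

namespace Pool.Agent.ALQ

open Complex Metric Set Filter Topology MeasureTheory
open Pool.Corona91698f Pool.Agent.CorE Pool.Agent.CorA
open scoped Real BoundedContinuousFunction

namespace NMT_

open Classical in
theorem split (N j : ℕ) (C₀ : ℝ) (a g : List D → ℝ) (F : Finset (List D)) (J : List D → Prop)
    (hN : 1 ≤ N) (hC₀ : 0 ≤ C₀) (ha : ∀ u, 0 ≤ a u)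
    (hlev : ∀ l, l < N → ∑ u ∈ lv l, a u ≤ C₀) (hF : F ⊆ wd (N - 1))
    (hg : ∀ u : List D, u.length + 2 * j < N → 0 ≤ g u)
    (hpt : ∀ u ∈ F, u ≠ [] → u.length + 2 * j < N → ¬ J u → a u ≤ g u) :
    ∑ u ∈ F, a u ≤ (2 * j + 1) * C₀ + ∑ u ∈ (wd (N - 1)).filter J, a u +
      ∑ u ∈ (wd (N - 1)).filter (fun u => u.length + 2 * j < N), g u := by
  set g1 : List D → ℝ := fun u => if u.length + 2 * j < N then g u else 0 with hg1
  set g2 : List D → ℝ := fun u => if u = [] then a u else 0 with hg2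
  set g3 : List D → ℝ := fun u => if N ≤ u.length + 2 * j then a u else 0 with hg3
  set g4 : List D → ℝ := fun u => if J u then a u else 0 with hg4
  have p1 : ∀ u, 0 ≤ g1 u := by
    intro u
    simp only [hg1]
    split_ifs with h
    · exact hg u h
    · exact le_refl _
  have p2 : ∀ u, 0 ≤ g2 u := by
    intro u
    simp only [hg2]
    split_ifs with h
    · exact ha u
    · exact le_refl _
  have p3 : ∀ u, 0 ≤ g3 u := by
    intro u
    simp only [hg3]
    split_ifs with h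
    · exact ha u
    · exact le_refl _
  have p4 : ∀ u, 0 ≤ g4 u := by
    intro u
    simp only [hg4]
    split_ifs with h
    · exact ha u
    · exact le_refl _
  have h1 : ∀ u ∈ F, a u ≤ g1 u + g2 u + g3 u + g4 u := by
    intro u hu
    by_cases c1 : u = []
    · have : g2 u = a u := if_pos c1
      have q1 := p1 u
      have q3 := p3 u
      have q4 := p4 u
      linarith
    by_cases c2 : u.length + 2 * j < N
    · by_cases c3 : J u
      · have : g4 u = a u := if_pos c3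
        have q1 := p1 u
        have q3 := p3 u
        have q2 := p2 u
        linarith
      · have e : g1 u = g u := if_pos c2
        have q := hpt u hu c1 c2 c3
        have q2 := p2 u
        have q3 := p3 u
        have q4 := p4 u
        linarith
    · have : g3 u = a u := if_pos (by omega)
      have q1 := p1 u
      have q2 := p2 u
      have q4 := p4 u
      linarith
  have h2 : ∑ u ∈ F, a u ≤ ∑ u ∈ wd (N - 1), (g1 u + g2 u + g3 u + g4 u) := by
    refine (Finset.sum_le_sum h1).trans ?_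
    refine Finset.sum_le_sum_of_subset_of_nonneg hF fun u _ _ => ?_
    have q1 := p1 u
    have q2 := p2 u
    have q3 := p3 u
    have q4 := p4 u
    linarith
  have e1 : ∑ u ∈ wd (N - 1), g1 u =
      ∑ u ∈ (wd (N - 1)).filter (fun u => u.length + 2 * j < N), g u := by
    rw [Finset.sum_filter]
  have e4 : ∑ u ∈ wd (N - 1), g4 u = ∑ u ∈ (wd (N - 1)).filter J, a u := by
    rw [Finset.sum_filter]
  have e2 : ∑ u ∈ wd (N - 1), g2 u ≤ C₀ := by
    have q : ∑ u ∈ wd (N - 1), g2 u = a [] := by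
      simp only [hg2]
      rw [Finset.sum_ite_eq' (wd (N - 1)) ([] : List D) a]
      rw [if_pos (mem_wd.2 (by simp))]
    rw [q]
    have := hlev 0 (by omega)
    simpa [lv] using this
  have e3 : ∑ u ∈ wd (N - 1), g3 u ≤ 2 * j * C₀ := by
    rw [NC4_.sum_wd_lv N hN]
    have q : ∀ l ∈ Finset.range N, ∑ u ∈ lv l, g3 u ≤ if N ≤ l + 2 * j then C₀ else 0 := by
      intro l hl
      rw [Finset.mem_range] at hl
      split_ifs with h
      · refine (Finset.sum_le_sum fun u hu => ?_).trans (hlev l hl)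
        simp only [hg3]
        split_ifs
        · exact le_refl _
        · exact ha u
      · refine (Finset.sum_eq_zero fun u hu => ?_).le
        simp only [hg3]
        rw [if_neg]
        rw [mem_lv.1 hu]
        exact h
    refine (Finset.sum_le_sum q).trans ?_
    rw [← Finset.sum_filter, Finset.sum_const, nsmul_eq_mul]
    refine mul_le_mul_of_nonneg_right ?_ hC₀
    have q2 : ((Finset.range N).filter (fun l => N ≤ l + 2 * j)).card ≤ 2 * j := by
      have q3 : (Finset.range N).filter (fun l => N ≤ l + 2 * j) ⊆ Finset.Ico (N - 2 * j) N := by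
        intro l hl
        rw [Finset.mem_filter, Finset.mem_range] at hl
        rw [Finset.mem_Ico]
        omega
      refine (Finset.card_le_card q3).trans ?_
      rw [Nat.card_Ico]
      omega
    exact_mod_cast q2
  simp only [Finset.sum_add_distrib] at h2
  rw [e1, e4] at h2
  linarith

/-- The choice of `j`. -/
theorem choose_j (X : ℝ) (hX : 1 ≤ X) : ∃ j : ℕ, 1 ≤ j ∧ (j : ℝ) ≤ 8 * X ∧
    (3 / 4 : ℝ) ^ j * X ≤ 1 := by
  have hc := Nat.le_ceil X
  have hc2 := Nat.ceil_lt_add_one (show 0 ≤ X by linarith)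
  have h1 : 1 ≤ ⌈X⌉₊ := by
    rw [Nat.one_le_ceil_iff]
    linarith
  obtain ⟨j, hj1, hj2, hj3⟩ := NC4_.jb ⌈X⌉₊ h1
  refine ⟨j, hj1, ?_, ?_⟩
  · have h2 : (1 : ℝ) ≤ ⌈X⌉₊ := by exact_mod_cast h1
    have h3 : Real.log (⌈X⌉₊ : ℝ) ≤ (⌈X⌉₊ : ℝ) - 1 := Real.log_le_sub_one_of_pos (by linarith)
    linarith
  · refine (mul_le_mul_of_nonneg_left hc (by positivity)).trans hj3

theorem lv_mono (j : ℕ) (u : List D) (μ : List D → ℝ)
    (h : ∀ x ∈ lv j, μ (u ++ x) ≤ ∑ y ∈ lv j, μ (u ++ x ++ y)) :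
    ∑ x ∈ lv j, μ (u ++ x) ≤ ∑ x ∈ lv (2 * j), μ (u ++ x) := by
  rw [two_mul, sum_lv_add]
  refine Finset.sum_le_sum fun x hx => (h x hx).trans (le_of_eq ?_)
  refine Finset.sum_congr rfl fun y _ => ?_
  rw [List.append_assoc]

/-- The pointwise inequality. -/
theorem point (κ q A CM au I S1 S2 Y1 Y2 M1 M2 mu t1 t2 : ℝ) (hA : 1 ≤ A) (hCM : 1 ≤ CM)
    (hκ : 0 ≤ κ) (hq : 0 ≤ q) (hq1 : q ≤ 1) (hau : 0 ≤ au) (hI : 0 ≤ I) (hS1 : 0 ≤ S1)
    (hS2 : 0 ≤ S2) (hX : q * (4 * κ * (4 * A * CM + 2)) ≤ 1)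
    (hY1 : Y1 ≤ 2 / (1 / A) * M1 + S1 + t1 * au) (hY2 : Y2 ≤ 2 / (1 / A) * M2 + S2 + t2 * au)
    (ht1 : t1 ≤ 1) (ht2 : t2 ≤ 1) (hM : M1 ≤ M2) (hM2 : M2 = mu + I) (hmu : mu ≤ CM * au)
    (h : au ≤ κ * (q * (Y1 + Y2) + I)) :
    au ≤ 2 * κ * (1 + 4 * A) * I + S1 + S2 := by
  have e : 2 / (1 / A) = 2 * A := by
    field_simp
  rw [e] at hY1 hY2
  have h1 : Y1 + Y2 ≤ 4 * A * (CM * au + I) + S1 + S2 + 2 * au := by
    have a1 : 2 * A * M1 ≤ 2 * A * M2 := mul_le_mul_of_nonneg_left hM (by linarith)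
    have a2 : 4 * A * M2 ≤ 4 * A * (CM * au + I) :=
      mul_le_mul_of_nonneg_left (by linarith) (by linarith)
    have a3 : t1 * au ≤ 1 * au := mul_le_mul_of_nonneg_right ht1 hau
    have a4 : t2 * au ≤ 1 * au := mul_le_mul_of_nonneg_right ht2 hau
    linarith
  have h2 : κ * (q * (Y1 + Y2) + I) ≤
      κ * (q * (4 * A * (CM * au + I) + S1 + S2 + 2 * au) + I) := by
    refine mul_le_mul_of_nonneg_left ?_ hκ
    have := mul_le_mul_of_nonneg_left h1 hq
    linarith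
  have h3 : κ * q * (4 * A * CM + 2) ≤ 1 / 4 := by nlinarith
  have hκq : 0 ≤ κ * q := mul_nonneg hκ hq
  have hACM : 1 ≤ 4 * A * CM + 2 := by nlinarith
  have h4 : κ * q ≤ 1 / 4 := by nlinarith
  have h5 : κ * q * (4 * A * CM + 2) * au ≤ 1 / 4 * au := mul_le_mul_of_nonneg_right h3 hau
  have h6 : κ * q * (S1 + S2) ≤ 1 / 4 * (S1 + S2) := mul_le_mul_of_nonneg_right h4 (by linarith)
  have h7 : κ * q * (4 * A * I) ≤ κ * (4 * A * I) := by
    have : κ * q ≤ κ * 1 := mul_le_mul_of_nonneg_left hq1 hκ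
    have h8 : 0 ≤ 4 * A * I := by positivity
    calc κ * q * (4 * A * I) ≤ κ * 1 * (4 * A * I) := mul_le_mul_of_nonneg_right this h8
      _ = κ * (4 * A * I) := by ring
  have h9 : au ≤ 1 / 4 * au + κ * (4 * A * I) + 1 / 4 * (S1 + S2) + κ * I := by
    calc au ≤ _ := h
      _ ≤ _ := h2
      _ = κ * q * (4 * A * CM + 2) * au + κ * q * (4 * A * I) + κ * q * (S1 + S2) + κ * I := by
          ring
      _ ≤ _ := by linarith
  have h10 : 0 ≤ κ * (4 * A * I) := by positivity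
  have h11 : 0 ≤ κ * I := by positivity
  have h12 : 2 * κ * (1 + 4 * A) * I = 2 * (κ * I) + 2 * (κ * (4 * A * I)) := by ring
  rw [h12]
  linarith

/-- The final sum. -/
theorem fin_num (κ A CI J0 CB C₀ CJ j : ℝ) (hκ : 1 ≤ κ) (hA : 1 ≤ A) (hCI : 1 ≤ CI)
    (hJ0 : 1 ≤ J0) (hCB : 1 ≤ CB) (hC₀ : 0 < C₀) (hCJ : 1 ≤ CJ) (hj : j ≤ κ * J0) :
    (2 * j + 1) * C₀ + CJ + (2 * κ * (1 + 4 * A) * (CI * (2 * j + 1)) + 4 * CB) ≤
      κ ^ 2 * (2 * (1 + 4 * A) * (CI * (2 * J0 + 1)) + 4 * CB + (2 * J0 + 1) * C₀ + CJ) := by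
  have hκ0 : 0 ≤ κ := by linarith
  have hκκ : κ ≤ κ ^ 2 := by nlinarith
  have h1κ : 1 ≤ κ ^ 2 := by linarith
  have hj2 : 2 * j + 1 ≤ κ * (2 * J0 + 1) := by linarith
  have b1 : (2 * j + 1) * C₀ ≤ κ ^ 2 * ((2 * J0 + 1) * C₀) := by
    have b2 : κ * (2 * J0 + 1) ≤ κ ^ 2 * (2 * J0 + 1) :=
      mul_le_mul_of_nonneg_right hκκ (by linarith)
    calc (2 * j + 1) * C₀ ≤ κ ^ 2 * (2 * J0 + 1) * C₀ :=
          mul_le_mul_of_nonneg_right (hj2.trans b2) hC₀.le
      _ = _ := by ring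
  have b3 : CJ ≤ κ ^ 2 * CJ := le_mul_of_one_le_left (by linarith) h1κ
  have b4 : 4 * CB ≤ κ ^ 2 * (4 * CB) := le_mul_of_one_le_left (by linarith) h1κ
  have hcoef : 0 ≤ 2 * κ * (1 + 4 * A) := by positivity
  have b5 : 2 * κ * (1 + 4 * A) * (CI * (2 * j + 1)) ≤
      κ ^ 2 * (2 * (1 + 4 * A) * (CI * (2 * J0 + 1))) := by
    calc 2 * κ * (1 + 4 * A) * (CI * (2 * j + 1)) ≤
          2 * κ * (1 + 4 * A) * (CI * (κ * (2 * J0 + 1))) := by
          refine mul_le_mul_of_nonneg_left ?_ hcoef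
          exact mul_le_mul_of_nonneg_left hj2 (by linarith)
      _ = _ := by ring
  have e : κ ^ 2 * (2 * (1 + 4 * A) * (CI * (2 * J0 + 1)) + 4 * CB + (2 * J0 + 1) * C₀ + CJ) =
      κ ^ 2 * (2 * (1 + 4 * A) * (CI * (2 * J0 + 1))) + κ ^ 2 * (4 * CB) +
      κ ^ 2 * ((2 * J0 + 1) * C₀) + κ ^ 2 * CJ := by ring
  rw [e]
  linarith

theorem fin_pow (ε K C1 C6 : ℝ) (hε : 0 < ε) (hε1 : ε ≤ 1) (hK : 1 ≤ K) (hC1 : 1 ≤ C1)
    (hC6 : 0 ≤ C6) :
    (C1 * (K / ε) ^ C1) ^ 2 * C6 ≤ ((C1 * K ^ C1) ^ 2 * C6 + 2 * C1) *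
      (1 / ε) ^ ((C1 * K ^ C1) ^ 2 * C6 + 2 * C1) := by
  have hKC : 0 < K ^ C1 := Real.rpow_pos_of_pos (by linarith) _
  have hC70 : 0 ≤ (C1 * K ^ C1) ^ 2 * C6 := by positivity
  have he1 : (1 : ℝ) ≤ 1 / ε := by
    rw [le_div_iff₀ hε]
    linarith
  have e2 : (K / ε) ^ C1 = K ^ C1 * (1 / ε) ^ C1 := by
    rw [div_eq_mul_one_div, Real.mul_rpow (by linarith) (by positivity)]
  have e3 : (1 / ε) ^ (2 * C1) = ((1 / ε) ^ C1) ^ 2 := by
    rw [mul_comm, Real.rpow_mul (by positivity)]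
    norm_num
  have e1 : (C1 * (K / ε) ^ C1) ^ 2 * C6 = (C1 * K ^ C1) ^ 2 * C6 * (1 / ε) ^ (2 * C1) := by
    rw [e2, e3]
    ring
  rw [e1]
  have e4 : (1 / ε) ^ (2 * C1) ≤ (1 / ε) ^ ((C1 * K ^ C1) ^ 2 * C6 + 2 * C1) :=
    Real.rpow_le_rpow_of_exponent_le he1 (by linarith)
  have e5 : 0 ≤ (1 / ε) ^ ((C1 * K ^ C1) ^ 2 * C6 + 2 * C1) := Real.rpow_nonneg (by linarith) _
  calc (C1 * K ^ C1) ^ 2 * C6 * (1 / ε) ^ (2 * C1) ≤
        (C1 * K ^ C1) ^ 2 * C6 * (1 / ε) ^ ((C1 * K ^ C1) ^ 2 * C6 + 2 * C1) :=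
        mul_le_mul_of_nonneg_left e4 hC70
    _ ≤ _ := mul_le_mul_of_nonneg_right (by linarith) e5

end NMT_

open Classical in
open NMT_ in
theorem p_NMT (hNC1 : T_NC1) (hYBD : T_YBD) (hSME : T_SME) (hINC : T_INC) (hBAD : T_BAD)
    (hJMP : T_JMP) (hMAS : T_MAS) : T_NMT := by
  intro n C₀ K hC₀ hK
  set K' : ℝ := max K 8 with hK'
  have hKK' : K ≤ K' := le_max_left _ _
  have hK'1 : 1 ≤ K' := hK.trans hKK'
  have hK'8 : 8 ≤ K' := le_max_right _ _
  obtain ⟨A, CB, hA, hCB, HB⟩ := hBAD n C₀ K' hC₀ hK'1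
  obtain ⟨K4, CJ, hK4, hCJ, HJ⟩ := hJMP n C₀ hC₀
  obtain ⟨C1, hC1, H1⟩ := hNC1 n
  obtain ⟨CM, hCM, HM⟩ := hMAS n
  obtain ⟨CI, hCI, HI⟩ := hINC n C₀ hC₀
  set K'' : ℝ := max K' K4 with hK''
  have hK''1 : 1 ≤ K'' := hK'1.trans (le_max_left _ _)
  set J0 : ℝ := 32 * (4 * A * CM + 2) with hJ0
  set C6 : ℝ := 2 * (1 + 4 * A) * (CI * (2 * J0 + 1)) + 4 * CB + (2 * J0 + 1) * C₀ + CJ with hC6
  have hACM : 1 ≤ 4 * A * CM + 2 := by nlinarith
  have hJ01 : 1 ≤ J0 := by linarith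
  have hC60 : 0 ≤ C6 := by positivity
  set C7 : ℝ := (C1 * K'' ^ C1) ^ 2 * C6 with hC7
  have hKC : 0 < K'' ^ C1 := Real.rpow_pos_of_pos (by linarith) _
  have hC70 : 0 ≤ C7 := by positivity
  refine ⟨C7 + 2 * C1, by linarith, ?_⟩
  intro N δ ε f h a hN hD hH hε hε1
  have ha := hH.nn
  obtain ⟨hm1, -, hm3⟩ := HM N δ C₀ f h a hD hH
  have hKe : 1 ≤ K'' / ε := by
    rw [le_div_iff₀ hε]
    linarith
  set κ : ℝ := C1 * (K'' / ε) ^ C1 with hκ
  have hκ1 : 1 ≤ κ := by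
    have : 1 ≤ (K'' / ε) ^ C1 := Real.one_le_rpow hKe (by linarith)
    nlinarith
  have hκ0 : 0 ≤ κ := by linarith
  obtain ⟨j, hj1, hj2, hj3⟩ := choose_j (4 * κ * (4 * A * CM + 2)) (by nlinarith)
  obtain ⟨P, hP⟩ : ∃ P : List D → Prop, ∀ v, P v ↔ (Top K' a v ∧ A * ‖mm f h v‖ < a v) :=
    ⟨_, fun _ => Iff.rfl⟩
  have hc0 : (0 : ℝ) < 1 / A := by positivity
  have hμ : ∀ p : List D, p.length + 1 < N →
      ‖mm f h p‖ ≤ ∑ d : D, ‖mm f h (p ++ [d])‖ := by
    intro p hp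
    rw [(HM N δ C₀ f h a hD hH).2.1 p hp]
    exact norm_sum_le _ _
  have hstep : ∀ (p : List D) (d : D), p.length + 1 < N → a (p ++ [d]) ≤ a p / 8 ∨
      1 / A * a (p ++ [d]) ≤ ‖mm f h (p ++ [d])‖ ∨ P (p ++ [d]) := by
    intro p d _
    by_cases c1 : Top K' a (p ++ [d])
    · by_cases c2 : A * ‖mm f h (p ++ [d])‖ < a (p ++ [d])
      · exact Or.inr (Or.inr ((hP _).2 ⟨c1, c2⟩))
      · right
        left
        push Not at c2
        rw [one_div, ← div_eq_inv_mul, div_le_iff₀ (by linarith)]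
        linarith
    · left
      unfold Top at c1
      push Not at c1
      have c3 := c1.2
      rw [List.dropLast_concat] at c3
      have c4 := mul_le_mul_of_nonneg_right hK'8 (ha (p ++ [d]))
      linarith
  have HY := hYBD N (1 / A) a (fun u => ‖mm f h u‖) P hc0 ha (fun u => norm_nonneg _) hμ hstep
  set S : ℕ → List D → ℝ := fun k u => ∑ i ∈ Finset.range k, (1 / 2 : ℝ) ^ i *
    ∑ x ∈ (lv (k - i)).filter (fun x => P (u ++ x)), a (u ++ x) with hS
  have hS0 : ∀ k u, 0 ≤ S k u := fun k u => Finset.sum_nonneg fun i _ =>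
    mul_nonneg (by positivity) (Finset.sum_nonneg fun x _ => ha _)
  set I : List D → ℝ := fun u => ∑ x ∈ lv (2 * j), ‖mm f h (u ++ x)‖ - ‖mm f h u‖ with hI
  have hI0 : ∀ u : List D, u.length + 2 * j < N → 0 ≤ I u := by
    intro u hu
    have := norm_sum_le (lv (2 * j)) (fun x => mm f h (u ++ x))
    rw [← hm3 u (2 * j) hu] at this
    simp only [hI]
    linarith
  set g : List D → ℝ := fun u => 2 * κ * (1 + 4 * A) * I u + S j u + S (2 * j) u with hg
  have hcoef : 0 ≤ 2 * κ * (1 + 4 * A) := by positivity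
  have hg0 : ∀ u : List D, u.length + 2 * j < N → 0 ≤ g u := by
    intro u hu
    have b1 := mul_nonneg hcoef (hI0 u hu)
    have b2 := hS0 j u
    have b3 := hS0 (2 * j) u
    simp only [hg]
    linarith
  obtain ⟨J, hJ⟩ : ∃ J : List D → Prop, ∀ u, J u ↔ (u.length + 1 < N ∧
      ∃ d : D, K4 * a u < a (u ++ [d])) := ⟨_, fun _ => Iff.rfl⟩
  have hsub : (Tp N K a).filter (fun u => NC f ε u) ⊆ wd (N - 1) := by
    intro u hu
    rw [Finset.mem_filter] at hu
    unfold Tp at hu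
    rw [Finset.mem_filter] at hu
    exact hu.1.1
  have hsp := split N j C₀ a g ((Tp N K a).filter (fun u => NC f ε u)) J hN hC₀.le ha
    (fun l hl => hH.lev l hl) hsub hg0 (by
      intro u hu hne hlen hnJ
      rw [Finset.mem_filter] at hu
      obtain ⟨hu1, hnc⟩ := hu
      unfold Tp at hu1
      rw [Finset.mem_filter] at hu1
      have htop := hu1.2
      obtain ⟨p, d, rfl⟩ : ∃ p d, u = p ++ [d] :=
        ⟨u.dropLast, u.getLast hne, (List.dropLast_append_getLast hne).symm⟩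
      have hap : a p ≤ K'' * a (p ++ [d]) := by
        rcases htop with h' | h'
        · exact absurd h' hne
        · rw [List.dropLast_concat] at h'
          refine h'.trans (mul_le_mul_of_nonneg_right ?_ (ha _))
          exact hKK'.trans (le_max_left _ _)
      have hlen' : p.length + 1 + 2 * j < N := by
        simpa using hlen
      have hch : ∀ e : D, a (p ++ [d, e]) ≤ K'' * a (p ++ [d]) := by
        intro e
        have c1 : ¬ (K4 * a (p ++ [d]) < a (p ++ [d] ++ [e])) := by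
          intro c2
          exact hnJ ((hJ _).2 ⟨by omega, e, c2⟩)
        push Not at c1
        have e3 : p ++ [d] ++ [e] = p ++ [d, e] := by simp
        rw [e3] at c1
        exact c1.trans (mul_le_mul_of_nonneg_right (le_max_right _ _) (ha _))
      have hmain := H1 N j δ C₀ ε K'' f h a p d hD hH hε hε1 hK''1 hj1 hlen' hnc hap hch
      have hy1 := HY (p ++ [d]) j (by omega)
      have hy2 := HY (p ++ [d]) (2 * j) hlen
      have hMM : ∑ x ∈ lv j, ‖mm f h (p ++ [d] ++ x)‖ ≤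
          ∑ x ∈ lv (2 * j), ‖mm f h (p ++ [d] ++ x)‖ := by
        refine lv_mono j (p ++ [d]) (fun v => ‖mm f h v‖) fun x hx => ?_
        have hx' := mem_lv.1 hx
        have := hm3 (p ++ [d] ++ x) j (by
          simp only [List.length_append, List.length_cons, List.length_nil] at hlen ⊢
          omega)
        show ‖mm f h (p ++ [d] ++ x)‖ ≤ ∑ y ∈ lv j, ‖mm f h (p ++ [d] ++ x ++ y)‖
        rw [this]
        exact norm_sum_le _ _
      refine point κ ((3 / 4) ^ j) A CM (a (p ++ [d])) (I (p ++ [d])) (S j (p ++ [d]))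
        (S (2 * j) (p ++ [d])) _ _ _ _ ‖mm f h (p ++ [d])‖ ((1 / 2) ^ j) ((1 / 2) ^ (2 * j))
        hA hCM hκ0 (by positivity) (pow_le_one₀ (by norm_num) (by norm_num)) (ha _)
        (hI0 _ hlen) (hS0 _ _) (hS0 _ _) hj3 hy1 hy2 (pow_le_one₀ (by norm_num) (by norm_num))
        (pow_le_one₀ (by norm_num) (by norm_num)) hMM ?_ (hm1 _ (by omega)) hmain
      simp only [hI]
      ring)
  have hJs := HJ N δ f h a hN hD hH
  have hIs := HI N (2 * j) δ f h a hN hD hH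
  have hPs : ∑ v ∈ (wd (N - 1)).filter P, a v ≤ CB := by
    have e : (wd (N - 1)).filter P =
        (Tp N K' a).filter (fun u => A * ‖mm f h u‖ < a u) := by
      ext u
      unfold Tp
      rw [Finset.mem_filter, Finset.mem_filter, Finset.mem_filter, and_assoc, hP]
    rw [e]
    exact HB N δ f h a hN hD hH
  have hS2 := hSME N (2 * j) a P hN ha
  have hS1 := hSME N j a P hN ha
  have hS1' : ∑ u ∈ (wd (N - 1)).filter (fun u => u.length + 2 * j < N), S j u ≤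
      ∑ u ∈ (wd (N - 1)).filter (fun u => u.length + j < N), S j u := by
    refine Finset.sum_le_sum_of_subset_of_nonneg ?_ fun u _ _ => hS0 j u
    intro u hu
    rw [Finset.mem_filter] at hu ⊢
    exact ⟨hu.1, by omega⟩
  have hgs : ∑ u ∈ (wd (N - 1)).filter (fun u => u.length + 2 * j < N), g u ≤
      2 * κ * (1 + 4 * A) * (CI * (2 * j + 1)) + 4 * CB := by
    simp only [hg]
    rw [Finset.sum_add_distrib, Finset.sum_add_distrib, ← Finset.mul_sum]
    have b1 := mul_le_mul_of_nonneg_left hIs hcoef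
    push_cast at b1
    have b2 : ∑ u ∈ (wd (N - 1)).filter (fun u => u.length + j < N), S j u ≤
        2 * ∑ v ∈ (wd (N - 1)).filter P, a v := hS1
    have b3 : ∑ u ∈ (wd (N - 1)).filter (fun u => u.length + 2 * j < N), S (2 * j) u ≤
        2 * ∑ v ∈ (wd (N - 1)).filter P, a v := hS2
    simp only [hI]
    linarith
  have hjk : (j : ℝ) ≤ κ * J0 := by
    calc (j : ℝ) ≤ 8 * (4 * κ * (4 * A * CM + 2)) := hj2
      _ = κ * J0 := by
          rw [hJ0]
          ring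
  have hJs' : ∑ u ∈ (wd (N - 1)).filter J, a u ≤ CJ := by
    rw [Finset.filter_congr (fun u _ => hJ u)]
    exact hJs
  have hnum := fin_num κ A CI J0 CB C₀ CJ j hκ1 hA hCI hJ01 hCB hC₀ hCJ hjk
  have hpow := fin_pow ε K'' C1 C6 hε hε1 hK''1 hC1 hC60
  refine (hsp.trans ?_).trans hpow
  refine le_trans ?_ hnum
  exact add_le_add (add_le_add le_rfl hJs') hgs

end Pool.Agent.ALQ
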