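import Pool.Agent.ALQ.TargetsG
import Pool.Agent.CorA.P_PRD

/-!
# ALQ, target PRH: a product of distances times a holomorphic function is large on a circle
-/

set_option autoImplicit false

namespace Pool.Agent.ALQ

open Complex Metric Set Filter Topology MeasureTheory
open Pool.Corona91698f Pool.Agent.CorE Pool.Agent.CorA
open scoped Real

open Pool.Agent.CorA.PRD_ in
theorem p_PRH : T_PRH := by
  intro m k a x r G hr hG
  obtain ⟨Q, hQ⟩ : ∃ Q : ℂ → ℂ, Q = fun z => ∏ i, q x r (a i) z := ⟨_, rfl⟩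
  have hd : Differentiable ℂ Q := by
    rw [hQ]
    refine Differentiable.fun_finsetProd fun i _ => q_diff x r (a i)
  have hdk : Differentiable ℂ (fun z => Q z ^ k) := hd.pow k
  have hF : DiffContOnCl ℂ (fun z => Q z ^ k • G z) (ball x r) := hdk.diffContOnCl.smul hG
  have hne : (sphere x r).Nonempty := (NormedSpace.sphere_nonempty).2 hr.le
  have hc : ContinuousOn (fun z => Q z ^ k • G z) (sphere x r) :=
    hF.continuousOn_ball.mono sphere_subset_closedBall
  obtain ⟨z, hz, hmax⟩ := (isCompact_sphere x r).exists_isMaxOn hne hc.norm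
  refine ⟨z, hz, ?_⟩
  have h1 : ‖Q x ^ k • G x‖ ≤ ‖Q z ^ k • G z‖ := by
    refine Complex.norm_le_of_forall_mem_frontier_norm_le (isBounded_ball (x := x) (r := r))
      hF (fun y hy => ?_) (subset_closure (mem_ball_self hr))
    rw [frontier_ball x hr.ne'] at hy
    exact hmax hy
  have h2 : r ^ m ≤ ‖Q x‖ := by
    have e1 : ‖Q x‖ = ∏ i, max (dist x (a i)) r := by
      rw [hQ, norm_prod]
      exact Finset.prod_congr rfl fun i _ => q_centre hr (a i)
    have e2 : (∏ _i : Fin m, r) = r ^ m := by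
      rw [Finset.prod_const, Finset.card_univ, Fintype.card_fin]
    rw [e1, ← e2]
    exact Finset.prod_le_prod (fun _ _ => hr.le) fun i _ => le_max_right _ _
  have h3 : ‖Q z‖ = ∏ i, dist z (a i) := by
    rw [hQ, norm_prod]
    exact Finset.prod_congr rfl fun i _ => q_sphere hr (a i) hz
  rw [norm_smul, norm_smul, norm_pow, norm_pow, h3] at h1
  have h4 : r ^ (m * k) ≤ ‖Q x‖ ^ k := by
    rw [pow_mul]
    exact pow_le_pow_left₀ (pow_nonneg hr.le _) h2 k
  exact (mul_le_mul_of_nonneg_right h4 (norm_nonneg _)).trans h1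

end Pool.Agent.ALQ
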