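import Pool.Agent.ALQ.TargetsC

/-!
# The total size of the resets
-/

set_option autoImplicit false

namespace Pool.Agent.ALQ

open Complex Metric Set Filter Topology MeasureTheory
open Pool.Corona91698f Pool.Agent.CorE Pool.Agent.CorA
open scoped Real BoundedContinuousFunction

namespace RST_

/-- A small oscillation around the centre is a small oscillation. -/
theorem not_NC (hSZF : T_SZF) {n : ℕ} {δ ε : ℝ} {f : Fin n → ℂ → ℂ} {v : List D}
    (hf : Dat n δ f) (hε : 0 < ε) (hv : ta f v ≤ ε) : ¬ NC f (3 * ε) v := by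
  rintro ⟨k, x, y, hx, hy, hxy⟩
  obtain ⟨-, -, h3, -⟩ := hSZF.2.2.2.2 n δ f v hf
  have h1 := h3 k x hx
  have h2 := h3 k y hy
  have h4 : ‖f k x - f k y‖ ≤ ‖f k x - f k (cc v)‖ + ‖f k y - f k (cc v)‖ := by
    have := norm_sub_le (f k x - f k (cc v)) (f k y - f k (cc v))
    rwa [sub_sub_sub_cancel_right] at this
  linarith

/-- A word which ends a bad piece is a top. -/
theorem top_of (hLST : T_LST) {n : ℕ} {f : Fin n → ℂ → ℂ} {h : Fin n → Fin n → ℂ → ℂ}
    {a : List D → ℝ} {K A ε : ℝ} {x : List D} (hnc : ¬ ncc f h a K A ε x)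
    (hx : ncc f h a K A ε x.dropLast) : Top K a x := by
  by_contra hT
  have hne : x ≠ [] := fun h0 => hT (Or.inl h0)
  have e : x.dropLast ++ [x.getLast hne] = x := List.dropLast_append_getLast hne
  have h1 := (hLST K a).2.2.1 x.dropLast (x.getLast hne) (by rw [e]; exact hT)
  rw [e] at h1
  apply hnc
  unfold ncc at hx ⊢
  rw [h1]
  exact hx

end RST_

open RST_

open Classical in
theorem p_RST (hLST : T_LST) (hSZF : T_SZF) (hCSF : T_CSF) : T_RST := by
  intro n C₀ K A e hC₀ hA he he4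
  obtain ⟨C2, hC2, h2⟩ := Pool.Agent.CorA.a_SRB n (e / 4) (by linarith)
  obtain ⟨C3, hC3, h3⟩ := Pool.Agent.CorA.a_MAS n
  have hA' : 0 < A := by linarith
  have hC2' : 0 < C2 := by linarith
  have hC3' : 0 < C3 := by linarith
  have hK : 0 < A * C2 * C3 * C₀ := by positivity
  refine ⟨2 * (A * C2 * C3 * C₀) + C₀ + 1, 1 / (12 * (A * C2)), by linarith,
    by positivity, ?_⟩
  intro N δ ε P f h a Cs hN hf hh hε hε1 hCs hP
  obtain ⟨m1, m2, m3⟩ := h3 N δ C₀ f h a hf hh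
  obtain ⟨-, -, -, -, -, c6⟩ := hCSF n δ f h a K A ε e Cs hf he he4 hCs
  have hnn := hh.nn
  set nc : List D → Prop := ncc f h a K A ε with hnc
  set tol : List D → ℝ := tl f h a K A ε e with htol
  set R : List D → Prop := RR (FF f) nc tol Cs with hR
  set T : Finset (List D) := (wd (N - 1)).filter (fun u => Reset (FF f) nc tol Cs u) with hT
  set S1 : Finset (List D) := (wd (N - 1)).filter (fun u => u ≠ [] ∧ nc u.dropLast) with hS1
  set X : Finset (List D) := (wd (N - 1)).filter R with hX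
  set X' : Finset (List D) := X.filter (fun x => ¬ nc x) with hX'
  have hmT : ∀ u ∈ T, u.length ≤ N - 1 ∧ Reset (FF f) nc tol Cs u := by
    intro u hu
    rw [hT, Finset.mem_filter, mem_wd] at hu
    exact hu
  have hmX : ∀ x ∈ X', x.length ≤ N - 1 ∧ R x ∧ ¬ nc x := by
    intro x hx
    rw [hX', Finset.mem_filter, hX, Finset.mem_filter, mem_wd] at hx
    exact ⟨hx.1.1, hx.1.2, hx.2⟩
  -- the elements of `X'` are good calm tops
  have hGX : ∀ x ∈ X', GC f h a A ε x := by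
    intro x hx
    obtain ⟨x1, x2, x3⟩ := hmX x hx
    have htop : Top K a x := by
      rcases x2 with h0 | h0 | h0
      · exact Or.inl h0
      · exact top_of hLST x3 h0
      · exact (c6 x h0).1
    have e1 := (hLST K a).2.1 x htop
    have e2 : ¬ ¬ GC f h a A ε (lst K a x) := x3
    rw [e1] at e2
    exact not_not.1 e2
  -- the tree decomposition of `T`
  have hTU : T = X'.biUnion fun x => T.filter fun u => u ∈ nxt N R x := by
    ext u
    rw [Finset.mem_biUnion]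
    constructor
    · intro hu
      obtain ⟨x, x1, x2, x3, x4, -⟩ := SRT_.anc hCs (hmT u hu).2 (hmT u hu).1
      refine ⟨x, ?_, Finset.mem_filter.2 ⟨hu, x4⟩⟩
      rw [hX', Finset.mem_filter, hX, Finset.mem_filter, mem_wd]
      exact ⟨⟨x1, x2⟩, x3⟩
    · rintro ⟨x, -, hu⟩
      exact (Finset.mem_filter.1 hu).1
  have hdis : Set.PairwiseDisjoint (↑X' : Set (List D))
      (fun x => T.filter fun u => u ∈ nxt N R x) := by
    intro x hx x' hx' hxx
    rw [Function.onFun, Finset.disjoint_left]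
    intro u hu hu'
    exact hxx (VAR_.disj_nxt N R (hmX x hx).2.1 (hmX x' hx').2.1 (Finset.mem_filter.1 hu).2
      (Finset.mem_filter.1 hu').2)
  have hsumT : ∀ g : List D → ℝ, ∑ u ∈ T, g u =
      ∑ x ∈ X', ∑ u ∈ T.filter (fun u => u ∈ nxt N R x), g u := by
    intro g
    conv_lhs => rw [hTU]
    exact Finset.sum_biUnion hdis
  -- the estimate for one `x`
  have hone : ∀ x ∈ X', ∑ u ∈ T.filter (fun u => u ∈ nxt N R x), ‖mm f h u‖ ≤
      C2 * (∑ u ∈ nxt N R x, ‖mm f h u‖ + ‖mm f h x - ∑ u ∈ nxt N R x, mm f h u‖ -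
        ‖mm f h x‖) + C2 * (3 * ε) *
          (a x + ∑ u ∈ T.filter (fun u => u ∈ nxt N R x), a u) := by
    intro x hx
    obtain ⟨x1, x2, x3⟩ := hmX x hx
    refine h2 N δ C₀ (3 * ε) f h a x (nxt N R x) (T.filter fun u => u ∈ nxt N R x) hf hh
      (by linarith) ?_ (by omega) ?_ (not_NC hSZF hf hε (hGX x hx).2) ?_
    · intro u hu
      exact (Finset.mem_filter.1 hu).2
    · intro u hu
      have := (VAR_.mem_nxt.1 hu).1
      omega
    · intro u hu
      obtain ⟨u1, u2⟩ := Finset.mem_filter.1 hu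
      obtain ⟨v1, v2⟩ := hmT u u1
      obtain ⟨w1, w2⟩ := c6 u v2
      refine ⟨not_NC hSZF hf hε w2.2, ?_⟩
      obtain ⟨y, y1, y2, y3, y4, y5⟩ := SRT_.anc hCs v2 v1
      have hxy : x = y := VAR_.disj_nxt N R x2 y2 u2 y4
      have htu : tol u = e / 4 := by
        rw [htol]
        unfold tl
        rw [if_pos ⟨w1, w2⟩]
      rw [hxy, ← htu]
      exact y5.le
  have hV0 : ∀ x, 0 ≤ ∑ u ∈ nxt N R x, ‖mm f h u‖ +
      ‖mm f h x - ∑ u ∈ nxt N R x, mm f h u‖ - ‖mm f h x‖ := by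
    intro x
    have e1 : ‖mm f h x‖ ≤ ‖mm f h x - ∑ u ∈ nxt N R x, mm f h u‖ +
        ‖∑ u ∈ nxt N R x, mm f h u‖ := by
      have := norm_add_le (mm f h x - ∑ u ∈ nxt N R x, mm f h u) (∑ u ∈ nxt N R x, mm f h u)
      rwa [sub_add_cancel] at this
    have e2 : ‖∑ u ∈ nxt N R x, mm f h u‖ ≤ ∑ u ∈ nxt N R x, ‖mm f h u‖ := norm_sum_le _ _
    linarith
  -- the variation
  have hvar : ∑ x ∈ X', (∑ u ∈ nxt N R x, ‖mm f h u‖ +
      ‖mm f h x - ∑ u ∈ nxt N R x, mm f h u‖ - ‖mm f h x‖) ≤ C3 * C₀ := by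
    have v1 := p_VAR _ N (mm f h) R hN (Or.inl rfl) m2
    have v2 : ∑ x ∈ X', (∑ u ∈ nxt N R x, ‖mm f h u‖ +
        ‖mm f h x - ∑ u ∈ nxt N R x, mm f h u‖ - ‖mm f h x‖) ≤
        ∑ x ∈ X, (∑ u ∈ nxt N R x, ‖mm f h u‖ +
        ‖mm f h x - ∑ u ∈ nxt N R x, mm f h u‖ - ‖mm f h x‖) :=
      Finset.sum_le_sum_of_subset_of_nonneg (Finset.filter_subset _ _) fun x _ _ => hV0 x
    have v3 : ∑ v ∈ lv (N - 1), ‖mm f h v‖ ≤ C3 * C₀ := by
      calc ∑ v ∈ lv (N - 1), ‖mm f h v‖ ≤ ∑ v ∈ lv (N - 1), C3 * a v :=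
            Finset.sum_le_sum fun v hv => m1 v (by
              rw [mem_lv] at hv
              omega)
        _ = C3 * ∑ v ∈ lv (N - 1), a v := by rw [Finset.mul_sum]
        _ ≤ C3 * C₀ := mul_le_mul_of_nonneg_left (hh.lev (N - 1) (by omega)) hC3'.le
    exact v2.trans (v1.trans v3)
  -- the sizes of the elements of `X'`
  have hsub : X' ⊆ ({([] : List D)} ∪ S1) ∪ T := by
    intro x hx
    obtain ⟨x1, x2, x3⟩ := hmX x hx
    rw [Finset.mem_union, Finset.mem_union, Finset.mem_singleton]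
    by_cases h0 : x = []
    · exact Or.inl (Or.inl h0)
    · rcases x2 with h | h | h
      · exact Or.inl (Or.inl h)
      · refine Or.inl (Or.inr ?_)
        rw [hS1, Finset.mem_filter, mem_wd]
        exact ⟨x1, h0, h⟩
      · right
        rw [hT, Finset.mem_filter, mem_wd]
        exact ⟨x1, h⟩
  have hAx : ∑ x ∈ X', a x ≤ C₀ + P + ∑ u ∈ T, a u := by
    have a0 : a [] ≤ C₀ := by
      have := hh.lev 0 (by omega)
      simpa [lv] using this
    have a1 := Finset.sum_le_sum_of_subset_of_nonneg hsub fun x _ _ => hnn x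
    have a2 := SRT_.sum_union_le ({([] : List D)} ∪ S1) T a hnn
    have a4 := SRT_.sum_union_le {([] : List D)} S1 a hnn
    rw [Finset.sum_singleton] at a4
    linarith
  -- the sum over `T` of the norms
  have hM : ∑ u ∈ T, ‖mm f h u‖ ≤ C2 * (C3 * C₀) +
      C2 * (3 * ε) * (∑ x ∈ X', a x + ∑ u ∈ T, a u) := by
    rw [hsumT (fun u => ‖mm f h u‖)]
    refine (Finset.sum_le_sum hone).trans ?_
    rw [Finset.sum_add_distrib, ← Finset.mul_sum, ← Finset.mul_sum, Finset.sum_add_distrib,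
      ← hsumT a]
    have := mul_le_mul_of_nonneg_left hvar hC2'.le
    linarith
  have hS : ∑ u ∈ T, a u ≤ A * ∑ u ∈ T, ‖mm f h u‖ := by
    rw [Finset.mul_sum]
    exact Finset.sum_le_sum fun u hu => (c6 u (hmT u hu).2).2.1
  have hP1 : 0 ≤ P := le_trans (Finset.sum_nonneg fun u _ => hnn u) hP
  have hP3 : 0 ≤ ∑ u ∈ T, a u := Finset.sum_nonneg fun u _ => hnn u
  have hq : A * C2 * (3 * ε) ≤ 1 / 4 := by
    rw [le_div_iff₀ (by positivity)] at hε1
    linarith
  have hq0 : 0 ≤ A * C2 * (3 * ε) := by positivity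
  generalize ∑ u ∈ T, a u = SR at *
  generalize ∑ x ∈ X', a x = Y at *
  generalize ∑ u ∈ T, ‖mm f h u‖ = M at *
  have k1 : A * M ≤ A * (C2 * (C3 * C₀) + C2 * (3 * ε) * (Y + SR)) :=
    mul_le_mul_of_nonneg_left hM hA'.le
  have k2 : A * C2 * (3 * ε) * (Y + SR) ≤ A * C2 * (3 * ε) * (C₀ + P + 2 * SR) :=
    mul_le_mul_of_nonneg_left (by linarith) hq0
  have k3 : A * C2 * (3 * ε) * (C₀ + P + 2 * SR) ≤ 1 / 4 * (C₀ + P + 2 * SR) :=
    mul_le_mul_of_nonneg_right hq (by linarith)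
  have k4 : SR ≤ 2 * (A * C2 * C3 * C₀) + C₀ / 2 + P / 2 := by
    linarith
  have k6 : 0 ≤ (2 * (A * C2 * C3 * C₀) + C₀) * P := by positivity
  linarith

end Pool.Agent.ALQ
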