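import Pool.Agent.ALQ.TargetsN

/-!
# ALQ, target SME: the sum of the middle terms of YBD
-/

set_option autoImplicit false

namespace Pool.Agent.ALQ

open Complex Metric Set Filter Topology MeasureTheory
open Pool.Corona91698f Pool.Agent.CorE Pool.Agent.CorA
open scoped Real BoundedContinuousFunction

namespace SME_

open Classical in
/-- The exchange for one length of the extension. -/
theorem inner (N k m : ℕ) (a : List D → ℝ) (P : List D → Prop) (ha : ∀ u, 0 ≤ a u) (hm : m ≤ k)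
    (U V : Finset (List D)) (hU : ∀ u ∈ U, u.length + k < N)
    (hV : ∀ v : List D, v.length < N → P v → v ∈ V) :
    ∑ u ∈ U, ∑ x ∈ (lv m).filter (fun x => P (u ++ x)), a (u ++ x) ≤ ∑ v ∈ V, a v := by
  rw [Finset.sum_sigma']
  obtain ⟨S, hS⟩ : ∃ S, S = U.sigma (fun u => (lv m).filter (fun x => P (u ++ x))) := ⟨_, rfl⟩
  rw [← hS]
  have hmem : ∀ p ∈ S, p.1 ∈ U ∧ p.2.length = m ∧ P (p.1 ++ p.2) := by
    intro p hp
    rw [hS, Finset.mem_sigma, Finset.mem_filter, mem_lv] at hp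
    exact ⟨hp.1, hp.2.1, hp.2.2⟩
  have hinj : Set.InjOn (fun p : (_ : List D) × List D => p.1 ++ p.2) (S : Set _) := by
    rintro ⟨u, x⟩ hp ⟨u', x'⟩ hp' h
    have h1 := (hmem _ hp).2.1
    have h2 := (hmem _ hp').2.1
    obtain ⟨h3, h4⟩ := List.append_inj' h (h1.trans h2.symm)
    subst h3
    subst h4
    rfl
  have h1 : ∑ p ∈ S, a (p.1 ++ p.2) =
      ∑ v ∈ S.image (fun p : (_ : List D) × List D => p.1 ++ p.2), a v :=
    (Finset.sum_image hinj).symm
  rw [h1]
  refine Finset.sum_le_sum_of_subset_of_nonneg ?_ fun v _ _ => ha v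
  intro v hv
  obtain ⟨p, hp, rfl⟩ := Finset.mem_image.1 hv
  obtain ⟨h2, h3, h4⟩ := hmem p hp
  refine hV _ ?_ h4
  have h5 := hU _ h2
  rw [List.length_append]
  omega

end SME_

open SME_ in
/-- SME. -/
theorem p_SME : T_SME := by
  classical
  intro N k a P hN ha
  rw [Finset.sum_comm]
  have hE : 0 ≤ ∑ v ∈ (wd (N - 1)).filter P, a v := Finset.sum_nonneg fun v _ => ha v
  have h1 : ∀ i ∈ Finset.range k,
      ∑ u ∈ (wd (N - 1)).filter (fun u => u.length + k < N), (1 / 2 : ℝ) ^ i *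
        ∑ x ∈ (lv (k - i)).filter (fun x => P (u ++ x)), a (u ++ x) ≤
      (1 / 2 : ℝ) ^ i * ∑ v ∈ (wd (N - 1)).filter P, a v := by
    intro i _
    rw [← Finset.mul_sum]
    refine mul_le_mul_of_nonneg_left ?_ (by positivity)
    refine inner N k (k - i) a P ha (Nat.sub_le _ _) _ _ ?_ ?_
    · intro u hu
      exact (Finset.mem_filter.1 hu).2
    · intro v hv hP
      rw [Finset.mem_filter, mem_wd]
      exact ⟨by omega, hP⟩
  refine (Finset.sum_le_sum h1).trans ?_
  rw [← Finset.sum_mul]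
  exact mul_le_mul_of_nonneg_right (sum_geometric_two_le k) hE

end Pool.Agent.ALQ
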