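import Pool.Agent.ALQ.TargetsC

/-!
# SOF: frozen and soft local solutions
-/

set_option autoImplicit false

namespace Pool.Agent.ALQ

open Complex Metric Set Filter Topology MeasureTheory
open Pool.Corona91698f Pool.Agent.CorE Pool.Agent.CorA
open scoped Real BoundedContinuousFunction

namespace SOF_

variable {n : ℕ}

open Classical in
/-- the constants -/
noncomputable def cx (gc : List D → Prop) (c : List D → Fin n → ℂ) (u : List D) : Fin n → ℂ :=
  if gc u then c u else 0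

open Classical in
/-- the coefficient of the constants -/
noncomputable def xx (f : Fin n → ℂ → ℂ) (M : ℕ) (gc : List D → Prop) (c : List D → Fin n → ℂ)
    (τ : List D → ℂ) (u : List D) (z : ℂ) : ℂ :=
  if gc u then (if Near f (c u) (τ u) u then (Fn f (c u) z)⁻¹ else
    (∑ m ∈ Finset.range M, (1 - Fn f (c u) z / τ u) ^ m) / τ u) else 0

open Classical in
/-- the coefficient of the local solution -/
noncomputable def bb (f : Fin n → ℂ → ℂ) (M : ℕ) (gc : List D → Prop) (c : List D → Fin n → ℂ)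
    (τ : List D → ℂ) (u : List D) (z : ℂ) : ℂ :=
  if gc u then (if Near f (c u) (τ u) u then 0 else (1 - Fn f (c u) z / τ u) ^ M) else 1

/-- the solutions -/
noncomputable def gs (f : Fin n → ℂ → ℂ) (M : ℕ) (gc : List D → Prop) (c : List D → Fin n → ℂ)
    (τ : List D → ℂ) (g₀ : Option (List D) → Fin n → ℂ → ℂ) : Option (List D) → Fin n → ℂ → ℂ
  | none => g₀ none
  | some u => fun i z => xx f M gc c τ u z * (starRingEnd ℂ) (cx gc c u i) +
      bb f M gc c τ u z * g₀ (some u) i z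

theorem Fn_le {f : Fin n → ℂ → ℂ} {c : Fin n → ℂ} {z : ℂ} (hf : ∀ k, ‖f k z‖ ≤ 1)
    (hc : ∀ k, ‖c k‖ ≤ 1) : ‖Fn f c z‖ ≤ n := by
  unfold Fn
  refine (norm_sum_le _ _).trans ?_
  have h : ∀ k ∈ (Finset.univ : Finset (Fin n)), ‖f k z * (starRingEnd ℂ) (c k)‖ ≤ 1 := by
    intro k _
    rw [norm_mul, RCLike.norm_conj]
    exact mul_le_one₀ (hf k) (norm_nonneg _) (hc k)
  refine (Finset.sum_le_sum h).trans ?_
  simp

theorem diff_Fn {δ : ℝ} {f : Fin n → ℂ → ℂ} (hf : Dat n δ f) (c : Fin n → ℂ) (u : List D) :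
    DifferentiableOn ℂ (Fn f c) (NR (some u)) := by
  unfold Fn
  refine DifferentiableOn.fun_sum fun k _ => ?_
  exact ((hf.diff k).mono fun z hz => NR_notMem hz).mul_const _

theorem near_ge {f : Fin n → ℂ → ℂ} {c : Fin n → ℂ} {t : ℂ} {y : List D} (h : Near f c t y)
    {z : ℂ} (hz : z ∈ NR (some y)) : ‖t‖ / 2 ≤ ‖Fn f c z‖ := by
  have h1 := h z (nodeV_subset hz)
  have h2 := norm_sub_norm_le t (Fn f c z)
  rw [norm_sub_rev] at h2
  linarith

theorem geo (F t : ℂ) (ht : t ≠ 0) (M : ℕ) :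
    F * ((∑ m ∈ Finset.range M, (1 - F / t) ^ m) / t) + (1 - F / t) ^ M = 1 := by
  have h := mul_neg_geom_sum (1 - F / t) M
  have e : F * ((∑ m ∈ Finset.range M, (1 - F / t) ^ m) / t) =
      (1 - (1 - F / t)) * ∑ m ∈ Finset.range M, (1 - F / t) ^ m := by
    field_simp
    ring
  rw [e, h]
  ring

theorem anti_sum (c : Fin n → ℂ) (h : Fin n → Fin n → ℂ) (hh : ∀ i j, h j i = - h i j) :
    ∑ i, ∑ j, c i * c j * h i j = 0 := by
  have h1 : ∑ i, ∑ j, c i * c j * h i j = - ∑ i, ∑ j, c i * c j * h i j := by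
    conv_lhs => rw [Finset.sum_comm]
    rw [← Finset.sum_neg_distrib]
    refine Finset.sum_congr rfl fun i _ => ?_
    rw [← Finset.sum_neg_distrib]
    refine Finset.sum_congr rfl fun j _ => ?_
    rw [hh i j]
    ring
  exact self_eq_neg.mp h1

/-- the bound of `1 - F / t` -/
noncomputable def b0 (n : ℕ) (δ : ℝ) : ℝ := 1 + 2 * n / δ ^ 2

/-- the bound of the coefficients -/
noncomputable def PP (n M : ℕ) (δ : ℝ) : ℝ := (M + 1) * b0 n δ ^ M * (4 / δ ^ 2 + 1)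

theorem b0_ge (n : ℕ) {δ : ℝ} (hδ : 0 < δ) : 1 ≤ b0 n δ := by
  unfold b0
  have : 0 ≤ 2 * (n : ℝ) / δ ^ 2 := by positivity
  linarith

theorem beta_le {δ : ℝ} (hδ : 0 < δ) {F t : ℂ} (hF : ‖F‖ ≤ n) (ht : δ ^ 2 / 2 ≤ ‖t‖) :
    ‖1 - F / t‖ ≤ b0 n δ := by
  have h0 : 0 < δ ^ 2 / 2 := by positivity
  have h1 : ‖F / t‖ ≤ n / (δ ^ 2 / 2) := by
    rw [norm_div]
    exact div_le_div₀ (Nat.cast_nonneg n) hF h0 ht
  have h2 : ‖1 - F / t‖ ≤ 1 + ‖F / t‖ := by
    have := norm_sub_le (1 : ℂ) (F / t)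
    rwa [norm_one] at this
  have h3 : (n : ℝ) / (δ ^ 2 / 2) = 2 * n / δ ^ 2 := by
    field_simp
  unfold b0
  linarith

theorem PP_1 (n M : ℕ) {δ : ℝ} (hδ : 0 < δ) : 1 ≤ PP n M δ := by
  unfold PP
  have h1 : 1 ≤ b0 n δ ^ M := one_le_pow₀ (b0_ge n hδ)
  have h2 : (0 : ℝ) ≤ M := Nat.cast_nonneg M
  have h3 : 0 < 4 / δ ^ 2 := by positivity
  have h4 : 1 ≤ ((M : ℝ) + 1) * b0 n δ ^ M := by nlinarith
  nlinarith

theorem PP_b (n M : ℕ) {δ : ℝ} (hδ : 0 < δ) : b0 n δ ^ M ≤ PP n M δ := by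
  unfold PP
  have h1 : 1 ≤ b0 n δ ^ M := one_le_pow₀ (b0_ge n hδ)
  have h2 : (0 : ℝ) ≤ M := Nat.cast_nonneg M
  have h3 : 0 < 4 / δ ^ 2 := by positivity
  have h4 : b0 n δ ^ M ≤ ((M : ℝ) + 1) * b0 n δ ^ M := by nlinarith
  have h5 : 0 ≤ ((M : ℝ) + 1) * b0 n δ ^ M := by positivity
  nlinarith

theorem PP_x (n M : ℕ) {δ : ℝ} (hδ : 0 < δ) : M * b0 n δ ^ M / (δ ^ 2 / 2) ≤ PP n M δ := by
  unfold PP
  have h1 : 1 ≤ b0 n δ ^ M := one_le_pow₀ (b0_ge n hδ)
  have h2 : (0 : ℝ) ≤ M := Nat.cast_nonneg M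
  have h3 : 0 < 4 / δ ^ 2 := by positivity
  have e : M * b0 n δ ^ M / (δ ^ 2 / 2) = (M * b0 n δ ^ M) * (2 / δ ^ 2) := by
    field_simp
  have e2 : 2 / δ ^ 2 ≤ 4 / δ ^ 2 + 1 := by
    have : 4 / δ ^ 2 = 2 / δ ^ 2 + 2 / δ ^ 2 := by ring
    have h4 : 0 < 2 / δ ^ 2 := by positivity
    linarith
  rw [e]
  refine mul_le_mul ?_ e2 (by positivity) (by positivity)
  nlinarith

theorem PP_n (n M : ℕ) {δ : ℝ} (hδ : 0 < δ) : 4 / δ ^ 2 ≤ PP n M δ := by
  unfold PP
  have h1 : 1 ≤ b0 n δ ^ M := one_le_pow₀ (b0_ge n hδ)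
  have h2 : (0 : ℝ) ≤ M := Nat.cast_nonneg M
  have h3 : 0 < 4 / δ ^ 2 := by positivity
  have h4 : 1 ≤ ((M : ℝ) + 1) * b0 n δ ^ M := by nlinarith
  nlinarith

theorem sum_pow_le {β : ℂ} {b : ℝ} (hb : 1 ≤ b) (h : ‖β‖ ≤ b) (M : ℕ) :
    ‖∑ m ∈ Finset.range M, β ^ m‖ ≤ M * b ^ M := by
  refine (norm_sum_le _ _).trans ?_
  have h1 : ∀ m ∈ Finset.range M, ‖β ^ m‖ ≤ b ^ M := by
    intro m hm
    rw [norm_pow]
    exact (pow_le_pow_left₀ (norm_nonneg _) h m).trans
      (pow_le_pow_right₀ hb (Finset.mem_range.1 hm).le)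
  refine (Finset.sum_le_sum h1).trans ?_
  rw [Finset.sum_const, Finset.card_range, nsmul_eq_mul]

section

variable {δ : ℝ} {f : Fin n → ℂ → ℂ} {M : ℕ} {gc : List D → Prop} {c : List D → Fin n → ℂ}
  {τ : List D → ℂ}

theorem tne (hδ : 0 < δ) {t : ℂ} (h : δ ^ 2 / 2 ≤ ‖t‖) : t ≠ 0 := by
  rintro rfl
  rw [norm_zero] at h
  have : 0 < δ ^ 2 / 2 := by positivity
  linarith

theorem ne_near (hδ : 0 < δ) {c : Fin n → ℂ} {t : ℂ} {u : List D} (ht : δ ^ 2 / 2 ≤ ‖t‖)
    (h : Near f c t u) {z : ℂ} (hz : z ∈ NR (some u)) : Fn f c z ≠ 0 := by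
  intro h0
  have h1 := near_ge h hz
  rw [h0, norm_zero] at h1
  have : 0 < δ ^ 2 / 2 := by positivity
  linarith

theorem main_eq (hδ : 0 < δ)
    (hc : ∀ u, gc u → (∀ k, ‖c u k‖ ≤ 1) ∧ δ ^ 2 / 2 ≤ ‖τ u‖ ∧ ‖τ u‖ ≤ n) {u : List D} {z : ℂ}
    (hz : z ∈ NR (some u)) :
    Fn f (cx gc c u) z * xx f M gc c τ u z + bb f M gc c τ u z = 1 := by
  unfold xx bb cx
  by_cases hu : gc u
  · obtain ⟨-, h2, -⟩ := hc u hu
    simp only [if_pos hu]
    by_cases hN : Near f (c u) (τ u) u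
    · simp only [if_pos hN, add_zero]
      exact mul_inv_cancel₀ (ne_near hδ h2 hN hz)
    · simp only [if_neg hN]
      exact geo _ _ (tne hδ h2) M
  · simp only [if_neg hu, mul_zero, zero_add]

theorem x_le (hδ : 0 < δ) (hf : Dat n δ f)
    (hc : ∀ u, gc u → (∀ k, ‖c u k‖ ≤ 1) ∧ δ ^ 2 / 2 ≤ ‖τ u‖ ∧ ‖τ u‖ ≤ n) {u : List D} {z : ℂ}
    (hz : z ∈ NR (some u)) : ‖xx f M gc c τ u z‖ ≤ PP n M δ := by
  unfold xx
  have h0 : 0 < δ ^ 2 := by positivity
  by_cases hu : gc u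
  · obtain ⟨h1, h2, -⟩ := hc u hu
    simp only [if_pos hu]
    by_cases hN : Near f (c u) (τ u) u
    · simp only [if_pos hN]
      refine le_trans ?_ (PP_n n M hδ)
      rw [norm_inv]
      have h3 := near_ge hN hz
      have h4 : δ ^ 2 / 4 ≤ ‖Fn f (c u) z‖ := by linarith
      have h5 : (4 : ℝ) / δ ^ 2 = (δ ^ 2 / 4)⁻¹ := by
        rw [inv_div]
      rw [h5]
      exact inv_anti₀ (by positivity) h4
    · simp only [if_neg hN]
      refine le_trans ?_ (PP_x n M hδ)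
      rw [norm_div]
      have h3 := beta_le hδ (Fn_le (fun k => hf.le k z (NR_notMem hz)) h1) h2
      have hb := b0_ge n hδ
      exact div_le_div₀ (by positivity) (sum_pow_le hb h3 M) (by positivity) h2
  · simp only [if_neg hu, norm_zero]
    exact zero_le_one.trans (PP_1 n M hδ)

theorem b_le (hδ : 0 < δ) (hf : Dat n δ f)
    (hc : ∀ u, gc u → (∀ k, ‖c u k‖ ≤ 1) ∧ δ ^ 2 / 2 ≤ ‖τ u‖ ∧ ‖τ u‖ ≤ n) {u : List D} {z : ℂ}
    (hz : z ∈ NR (some u)) : ‖bb f M gc c τ u z‖ ≤ PP n M δ := by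
  unfold bb
  by_cases hu : gc u
  · obtain ⟨h1, h2, -⟩ := hc u hu
    simp only [if_pos hu]
    by_cases hN : Near f (c u) (τ u) u
    · simp only [if_pos hN, norm_zero]
      exact zero_le_one.trans (PP_1 n M hδ)
    · simp only [if_neg hN]
      refine le_trans ?_ (PP_b n M hδ)
      rw [norm_pow]
      have h3 := beta_le hδ (Fn_le (fun k => hf.le k z (NR_notMem hz)) h1) h2
      exact pow_le_pow_left₀ (norm_nonneg _) h3 M
  · simp only [if_neg hu, norm_one]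
    exact PP_1 n M hδ

theorem cx_le (hc : ∀ u, gc u → (∀ k, ‖c u k‖ ≤ 1) ∧ δ ^ 2 / 2 ≤ ‖τ u‖ ∧ ‖τ u‖ ≤ n)
    (u : List D) (k : Fin n) : ‖cx gc c u k‖ ≤ 1 := by
  unfold cx
  by_cases hu : gc u
  · simp only [if_pos hu]
    exact (hc u hu).1 k
  · simp only [if_neg hu, Pi.zero_apply, norm_zero, zero_le_one]

theorem diff_x (hδ : 0 < δ) (hf : Dat n δ f)
    (hc : ∀ u, gc u → (∀ k, ‖c u k‖ ≤ 1) ∧ δ ^ 2 / 2 ≤ ‖τ u‖ ∧ ‖τ u‖ ≤ n) (u : List D) :
    DifferentiableOn ℂ (xx f M gc c τ u) (NR (some u)) := by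
  by_cases hu : gc u
  · obtain ⟨h1, h2, -⟩ := hc u hu
    by_cases hN : Near f (c u) (τ u) u
    · have e : xx f M gc c τ u = fun z => (Fn f (c u) z)⁻¹ := by
        funext z
        unfold xx
        simp only [if_pos hu, if_pos hN]
      rw [e]
      exact (diff_Fn hf (c u) u).inv fun z hz => ne_near hδ h2 hN hz
    · have e : xx f M gc c τ u = fun z =>
          (∑ m ∈ Finset.range M, (1 - Fn f (c u) z / τ u) ^ m) / τ u := by
        funext z
        unfold xx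
        simp only [if_pos hu, if_neg hN]
      rw [e]
      refine DifferentiableOn.div_const (DifferentiableOn.fun_sum fun m _ => ?_) _
      exact ((differentiableOn_const _).sub ((diff_Fn hf (c u) u).div_const _)).pow m
  · have e : xx f M gc c τ u = fun _ => 0 := by
      funext z
      unfold xx
      simp only [if_neg hu]
    rw [e]
    exact differentiableOn_const _

theorem diff_b (hf : Dat n δ f) (u : List D) :
    DifferentiableOn ℂ (bb f M gc c τ u) (NR (some u)) := by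
  by_cases hu : gc u
  · by_cases hN : Near f (c u) (τ u) u
    · have e : bb f M gc c τ u = fun z => 0 := by
        funext z
        unfold bb
        simp only [if_pos hu, if_pos hN]
      rw [e]
      exact differentiableOn_const _
    · have e : bb f M gc c τ u = fun z => (1 - Fn f (c u) z / τ u) ^ M := by
        funext z
        unfold bb
        simp only [if_pos hu, if_neg hN]
      rw [e]
      exact ((differentiableOn_const _).sub ((diff_Fn hf (c u) u).div_const _)).pow M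
  · have e : bb f M gc c τ u = fun _ => 1 := by
      funext z
      unfold bb
      simp only [if_neg hu]
    rw [e]
    exact differentiableOn_const _

open Classical in
theorem bb_eq (hδ : 0 < δ)
    (hc : ∀ u, gc u → (∀ k, ‖c u k‖ ≤ 1) ∧ δ ^ 2 / 2 ≤ ‖τ u‖ ∧ ‖τ u‖ ≤ n) {u : List D}
    (hu : gc u) (z : ℂ) : ‖bb f M gc c τ u z‖ ≤
      (2 / δ ^ 2) ^ M * (if Near f (c u) (τ u) u then 0 else ‖Fn f (c u) z - τ u‖ ^ M) := by
  obtain ⟨-, h2, -⟩ := hc u hu
  unfold bb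
  simp only [if_pos hu]
  by_cases hN : Near f (c u) (τ u) u
  · simp only [if_pos hN, norm_zero, mul_zero, le_refl]
  · simp only [if_neg hN]
    have ht := tne hδ h2
    have e : 1 - Fn f (c u) z / τ u = -((Fn f (c u) z - τ u) / τ u) := by
      field_simp
      ring
    rw [e, norm_pow, norm_neg, norm_div, ← mul_pow]
    refine pow_le_pow_left₀ (by positivity) ?_ M
    have h0 : 0 < δ ^ 2 / 2 := by positivity
    have h3 : (2 : ℝ) / δ ^ 2 = 1 / (δ ^ 2 / 2) := by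
      field_simp
    rw [div_eq_mul_one_div, mul_comm, h3]
    exact mul_le_mul_of_nonneg_right (one_div_le_one_div_of_le h0 h2) (norm_nonneg _)

end

/-- the pairing of two solutions in the same direction -/
theorem pair_le {G H C : Fin n → ℂ} {h : Fin n → Fin n → ℂ} {xu xp bu bp : ℂ} {P B : ℝ}
    (hh : ∀ i j, h j i = - h i j) (hP : 1 ≤ P) (hB : 1 ≤ B) (hG : ∀ i, ‖G i‖ ≤ B)
    (hH : ∀ i, ‖H i‖ ≤ B) (hC : ∀ i, ‖C i‖ ≤ 1) (hxu : ‖xu‖ ≤ P) (hxp : ‖xp‖ ≤ P)
    (hbu : ‖bu‖ ≤ P) :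
    ‖∑ i, ∑ j, (xu * C i + bu * G i) * (xp * C j + bp * H j) * h i j‖ ≤
      2 * P * B ^ 2 * ((‖bu‖ + ‖bp‖) * ∑ i, ∑ j, ‖h i j‖) := by
  have e : ∑ i, ∑ j, (xu * C i + bu * G i) * (xp * C j + bp * H j) * h i j =
      ∑ i, ∑ j, (xu * bp * C i * H j + bu * xp * G i * C j + bu * bp * G i * H j) * h i j := by
    have e1 : ∀ i j, (xu * C i + bu * G i) * (xp * C j + bp * H j) * h i j =
        xu * xp * (C i * C j * h i j) +
        (xu * bp * C i * H j + bu * xp * G i * C j + bu * bp * G i * H j) * h i j := by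
      intro i j
      ring
    simp only [e1, Finset.sum_add_distrib, ← Finset.mul_sum]
    rw [anti_sum C h hh, mul_zero, zero_add]
  rw [e, Finset.mul_sum, Finset.mul_sum]
  refine (norm_sum_le _ _).trans (Finset.sum_le_sum fun i _ => ?_)
  rw [Finset.mul_sum, Finset.mul_sum]
  refine (norm_sum_le _ _).trans (Finset.sum_le_sum fun j _ => ?_)
  rw [norm_mul, ← mul_assoc]
  refine mul_le_mul_of_nonneg_right ?_ (norm_nonneg _)
  have hP0 : 0 ≤ P := by linarith
  have hB0 : 0 ≤ B := by linarith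
  have hBB : B ≤ B ^ 2 := by nlinarith
  have hb1 := norm_nonneg bu
  have hb2 := norm_nonneg bp
  have t1 : ‖xu * bp * C i * H j‖ ≤ P * ‖bp‖ * 1 * B := by
    rw [norm_mul, norm_mul, norm_mul]
    gcongr
    · exact hC i
    · exact hH j
  have t2 : ‖bu * xp * G i * C j‖ ≤ ‖bu‖ * P * B * 1 := by
    rw [norm_mul, norm_mul, norm_mul]
    gcongr
    · exact hG i
    · exact hC j
  have t3 : ‖bu * bp * G i * H j‖ ≤ P * ‖bp‖ * B * B := by
    rw [norm_mul, norm_mul, norm_mul]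
    gcongr
    · exact hG i
    · exact hH j
  have t4 := norm_add_le (xu * bp * C i * H j + bu * xp * G i * C j) (bu * bp * G i * H j)
  have t5 := norm_add_le (xu * bp * C i * H j) (bu * xp * G i * C j)
  have s1 : P * ‖bp‖ * 1 * B ≤ P * B ^ 2 * ‖bp‖ := by
    have : P * ‖bp‖ * B ≤ P * ‖bp‖ * B ^ 2 := mul_le_mul_of_nonneg_left hBB (by positivity)
    linarith
  have s2 : ‖bu‖ * P * B * 1 ≤ P * B ^ 2 * ‖bu‖ := by
    have : P * ‖bu‖ * B ≤ P * ‖bu‖ * B ^ 2 := mul_le_mul_of_nonneg_left hBB (by positivity)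
    linarith
  have s3 : P * ‖bp‖ * B * B = P * B ^ 2 * ‖bp‖ := by ring
  have s4 : 0 ≤ P * B ^ 2 * ‖bu‖ := by positivity
  have s5 : 2 * P * B ^ 2 * (‖bu‖ + ‖bp‖) =
      2 * (P * B ^ 2 * ‖bu‖) + 2 * (P * B ^ 2 * ‖bp‖) := by ring
  rw [s5]
  linarith

end SOF_

open SOF_ in
/-- SOF -/
theorem p_SOF : T_SOF := by
  classical
  intro n M δ hδ hM
  obtain ⟨B₀, hB₀, hL⟩ := Pool.Agent.CorA.a_LCL n δ hδ
  have hP := PP_1 n M hδ
  set P := PP n M δ with hPdef
  set Q : ℝ := (2 / δ ^ 2) ^ M with hQdef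
  have hQ : 0 ≤ Q := by positivity
  have hB1 : 1 ≤ P * (1 + B₀) := by nlinarith
  refine ⟨P * (1 + B₀), (P * (1 + B₀)) ^ 2 + 2 * P * B₀ ^ 2 * Q, hB1, ?_, ?_⟩
  · have h1 : 1 ≤ (P * (1 + B₀)) ^ 2 := one_le_pow₀ hB1
    have h2 : 0 ≤ 2 * P * B₀ ^ 2 * Q := by positivity
    linarith
  intro f gc c τ hf hc
  obtain ⟨g₀, hg₀⟩ := hL f hf
  have hLS : LS n f (gs f M gc c τ g₀) (P * (1 + B₀)) := by
    refine ⟨?_, ?_, ?_⟩
    · intro R i
      cases R with
      | none => exact hg₀.diff none i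
      | some u =>
        exact ((diff_x hδ hf hc u).mul_const _).add ((diff_b hf u).mul (hg₀.diff (some u) i))
    · intro R i z hz
      cases R with
      | none =>
        refine (hg₀.bd none i z hz).trans ?_
        nlinarith
      | some u =>
        have h1 := hg₀.bd (some u) i z hz
        have h2 : ‖xx f M gc c τ u z‖ ≤ P := x_le hδ hf hc hz
        have h3 : ‖bb f M gc c τ u z‖ ≤ P := b_le hδ hf hc hz
        have h4 : ‖cx gc c u i‖ ≤ 1 := cx_le hc u i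
        have h5 : ‖xx f M gc c τ u z * (starRingEnd ℂ) (cx gc c u i)‖ ≤ P * 1 := by
          rw [norm_mul, RCLike.norm_conj]
          exact mul_le_mul h2 h4 (norm_nonneg _) (by linarith)
        have h6 : ‖bb f M gc c τ u z * g₀ (some u) i z‖ ≤ P * B₀ := by
          rw [norm_mul]
          exact mul_le_mul h3 h1 (norm_nonneg _) (by linarith)
        refine (norm_add_le _ _).trans ?_
        linarith
    · intro R z hz
      cases R with
      | none => exact hg₀.one none z hz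
      | some u =>
        have h1 := hg₀.one (some u) z hz
        have h2 := main_eq (f := f) (M := M) hδ hc hz
        have h3 : ∑ j, f j z * gs f M gc c τ g₀ (some u) j z =
            Fn f (cx gc c u) z * xx f M gc c τ u z +
              bb f M gc c τ u z * ∑ j, f j z * g₀ (some u) j z := by
          unfold Fn
          rw [Finset.sum_mul, Finset.mul_sum, ← Finset.sum_add_distrib]
          refine Finset.sum_congr rfl fun j _ => ?_
          simp only [gs]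
          ring
        rw [h3, h1, mul_one, h2]
  refine ⟨gs f M gc c τ g₀, hLS, ?_, ?_⟩
  · intro h u z hz hz'
    have hS : 0 ≤ ∑ i, ∑ j, ‖h i j z‖ :=
      Finset.sum_nonneg fun i _ => Finset.sum_nonneg fun j _ => norm_nonneg _
    have h1 : ‖BB (gs f M gc c τ g₀) h u z‖ ≤ (P * (1 + B₀)) ^ 2 * ∑ i, ∑ j, ‖h i j z‖ := by
      unfold BB
      rw [Finset.mul_sum]
      refine (norm_sum_le _ _).trans (Finset.sum_le_sum fun i _ => ?_)
      rw [Finset.mul_sum]
      refine (norm_sum_le _ _).trans (Finset.sum_le_sum fun j _ => ?_)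
      rw [norm_mul, norm_mul, pow_two]
      refine mul_le_mul_of_nonneg_right ?_ (norm_nonneg _)
      exact mul_le_mul (hLS.bd _ i z hz) (hLS.bd _ j z hz') (norm_nonneg _) (by linarith)
    refine h1.trans (mul_le_mul_of_nonneg_right ?_ hS)
    have h2 : 0 ≤ 2 * P * B₀ ^ 2 * Q := by positivity
    linarith
  · intro h u z hne hu hp hC hz hz' hh
    have hpar : par u = some u.dropLast := by
      unfold par
      rw [if_neg hne]
    have e : BB (gs f M gc c τ g₀) h u z = ∑ i, ∑ j,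
        (xx f M gc c τ u z * (starRingEnd ℂ) (c u i) + bb f M gc c τ u z * g₀ (some u) i z) *
        (xx f M gc c τ u.dropLast z * (starRingEnd ℂ) (c u j) +
          bb f M gc c τ u.dropLast z * g₀ (some u.dropLast) j z) * h i j z := by
      unfold BB
      rw [hpar]
      simp only [gs, cx, if_pos hu, if_pos hp, ← hC]
    have h1 := pair_le (G := fun i => g₀ (some u) i z) (H := fun i => g₀ (some u.dropLast) i z)
      (C := fun i => (starRingEnd ℂ) (c u i)) (h := fun i j => h i j z)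
      (xu := xx f M gc c τ u z) (xp := xx f M gc c τ u.dropLast z)
      (bu := bb f M gc c τ u z) (bp := bb f M gc c τ u.dropLast z) hh hP hB₀
      (fun i => hg₀.bd _ i z hz) (fun i => hg₀.bd _ i z hz')
      (fun i => by rw [RCLike.norm_conj]; exact (hc u hu).1 i)
      (x_le hδ hf hc hz) (x_le hδ hf hc hz') (b_le hδ hf hc hz)
    rw [e]
    refine h1.trans ?_
    have b1 := bb_eq (f := f) (M := M) hδ hc hu z
    have b2 := bb_eq (f := f) (M := M) hδ hc hp z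
    rw [← hC] at b2
    set A1 : ℝ := if Near f (c u) (τ u) u then 0 else ‖Fn f (c u) z - τ u‖ ^ M with hA1
    set A2 : ℝ := if Near f (c u) (τ u.dropLast) u.dropLast then 0 else
      ‖Fn f (c u) z - τ u.dropLast‖ ^ M with hA2
    have a1 : 0 ≤ A1 := by
      rw [hA1]
      split_ifs <;> positivity
    have a2 : 0 ≤ A2 := by
      rw [hA2]
      split_ifs <;> positivity
    have hS : 0 ≤ ∑ i, ∑ j, ‖h i j z‖ :=
      Finset.sum_nonneg fun i _ => Finset.sum_nonneg fun j _ => norm_nonneg _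
    have c1 : ‖bb f M gc c τ u z‖ + ‖bb f M gc c τ u.dropLast z‖ ≤ Q * (A1 + A2) := by
      rw [mul_add]
      exact add_le_add b1 b2
    calc 2 * P * B₀ ^ 2 * ((‖bb f M gc c τ u z‖ + ‖bb f M gc c τ u.dropLast z‖) *
          ∑ i, ∑ j, ‖h i j z‖)
        ≤ 2 * P * B₀ ^ 2 * ((Q * (A1 + A2)) * ∑ i, ∑ j, ‖h i j z‖) := by
          refine mul_le_mul_of_nonneg_left (mul_le_mul_of_nonneg_right c1 hS) (by positivity)
      _ = (2 * P * B₀ ^ 2 * Q) * ((A1 + A2) * ∑ i, ∑ j, ‖h i j z‖) := by ring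
      _ ≤ ((P * (1 + B₀)) ^ 2 + 2 * P * B₀ ^ 2 * Q) * ((A1 + A2) * ∑ i, ∑ j, ‖h i j z‖) := by
          refine mul_le_mul_of_nonneg_right ?_ (mul_nonneg (add_nonneg a1 a2) hS)
          have : 0 ≤ (P * (1 + B₀)) ^ 2 := sq_nonneg _
          linarith

end Pool.Agent.ALQ
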