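import Pool.Agent.CorA.Targets

/-!
# Bounded corona solutions: group G, growth down to the first stops

Project ALQ (helper95), problem MP_91698f. Library: `Pool/Agent/CorA`. Every `T_X` has its complete
proof in the docstring; block `X` delivers `theorem p_X : T_X` (or with the hypotheses named in the
docstring) in `Pool/Agent/ALQ/P_X.lean`, which imports `Pool.Agent.ALQ.TargetsG`, helper lemmas in
the namespace `Pool.Agent.ALQ.X_`. The proofs of `Pool/Agent/CorA/P_NC3.lean`, `P_NC1.lean`,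
`P_MAS.lean`, `P_PRD.lean`, `P_LAV.lean` contain most of the steps used here and may be copied.
-/

set_option autoImplicit false

namespace Pool.Agent.ALQ

open Complex Metric Set Filter Topology MeasureTheory
open Pool.Corona91698f Pool.Agent.CorE Pool.Agent.CorA
open scoped Real

/-- One function `H` on the outer region of level `N` with its sizes `A` on the nodes. -/
structure SZ (N : ℕ) (H : ℂ → ℂ) (A : List D → ℝ) : Prop where
  diff : DifferentiableOn ℂ H (OmR (73 / 100) N)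
  nn : ∀ u, 0 ≤ A u
  up : ∀ u : List D, u.length < N → ∀ z, Psi u z ∈ nodeX → ‖H z‖ ≤ 3 ^ u.length * A u
  att : ∀ u : List D, u.length < N → ∃ z, Psi u z ∈ nodeX ∧ 3 ^ u.length * A u ≤ ‖H z‖

/-- `v` is below `z` and no word between `z` and `v` (both included) is stopped. -/
def Un (E : List D → Prop) (z v : List D) : Prop :=
  z <+: v ∧ ∀ t, z <+: t → t <+: v → ¬ E t

/-- LA1: lower bounds pass to the children. Hypotheses hLAV : T_LAV, hPRD : T_PRD.

PROOF. u = p ++ [d]. If A u = 0 trivial (A ≥ 0). Otherwise b = phi e (ctr + .77), s = .003: as in NC3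
closedBall b (4s) ⊆ VV and psi e (closedBall b s) ⊆ nodeX (psi e (closedBall b s) =
closedBall (ctr + .77) .009, dist from ctr in [.761, .779], psi e' of it at distance
≥ 3 (.761 - .4715) ≥ .74 from ctr). F = H ∘ Phi u is holomorphic on VV (VV in the coordinates of u lies
in OmR (73/100) N; see NC1, NC3 for the covering): for y ∈ VV the point Phi u y is in the node of u, or of p
(dist y ctr in (.80,.9)), or of u ++ [e'] (dist (psi e' y) ctr in (.73,.74)), so |F| ≤ M := 3 K 3^|u| A u,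
and |F y| ≥ μ := 3^|u| A u at some y ∈ nodeX (att). LAV (C depends on e only; take the maximum over the
four e), m ≤ C log(3K), PRD on the circle |w - b| = s: some w with |w - b| = s and
|F w| ≥ M (1/(3K))^C (s/C)^m ≥ c 3^|u| A u (C ≥ 1 > s). Phi u w is in the node of u ++ [e], so
|F w| ≤ 3^(|u|+1) A (u ++ [e]). -/
def T_LA1 : Prop := ∀ K : ℝ, 1 ≤ K → ∃ c : ℝ, 0 < c ∧ ∀ (N : ℕ) (H : ℂ → ℂ) (A : List D → ℝ)
  (p : List D) (d e : D), SZ N H A → p.length + 2 < N → A p ≤ K * A (p ++ [d]) →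
  (∀ e' : D, A (p ++ [d, e']) ≤ K * A (p ++ [d])) → c * A (p ++ [d]) ≤ A (p ++ [d, e])

/-- LAP: lower bounds pass along a path. Hypothesis hLA1 : T_LA1.

PROOF. Induction on i. i = 0: y = [], c = 1. Step: y = y' ++ [e]. The induction hypothesis gives
c_i A u ≤ A (u ++ y') with u = p ++ [d]. If A u = 0 trivial. LA1 for the word u ++ y' = p' ++ [d']: its
parent p' is p (y' = []) with A p ≤ K A u, or u ++ y'' with y' = y'' ++ [d'], y'' <+: y, and then either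
y'' = [] and A p' = A u, or A p' ≤ K A u by the hypothesis; so A p' ≤ (K/c_i) A (u ++ y'), and the children
A (u ++ y' ++ [e']) ≤ K A u ≤ (K/c_i) A (u ++ y'). (Assume c_i ≤ 1.) -/
def T_LAP : Prop := ∀ (K : ℝ) (i : ℕ), 1 ≤ K → ∃ c : ℝ, 0 < c ∧ ∀ (N : ℕ) (H : ℂ → ℂ)
  (A : List D → ℝ) (p : List D) (d : D) (y : List D), SZ N H A → y.length = i →
  p.length + 1 + i < N → A p ≤ K * A (p ++ [d]) →
  (∀ y' : List D, y' <+: y → y' ≠ y → ∀ e : D, A (p ++ [d] ++ y' ++ [e]) ≤ K * A (p ++ [d])) →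
  c * A (p ++ [d]) ≤ A (p ++ [d] ++ y)

/-- STA: the contour means are additive down to the first stops. Hypothesis hADD : T_ADD.

PROOF. For |v| + 1 < N H is holomorphic on Nd (some v) ⊆ OmR (73/100) N (see MAS, PAI), so
cm v H = sum over d of cm (v ++ [d]) H. Induction on N - |v|: every child v ++ [d] is either in E, hence in
nxt N E v, or not in E, then |v| + 2 < N (all words of length ≥ N - 1 are in E) and
cm (v ++ [d]) H = the sum over nxt N E (v ++ [d]); nxt N E v is the disjoint union of these pieces.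
Second claim: |cm w H| ≤ A w for |w| < N: the circle dist (Psi w z) ctr = .77 lies in the node of w and
has radius .77 * 3^(-|w|) (see MAS). -/
def T_STA : Prop := ∀ (N : ℕ) (H : ℂ → ℂ) (A : List D → ℝ) (E : List D → Prop), SZ N H A →
  (∀ v : List D, N ≤ v.length + 1 → E v) →
  (∀ v : List D, v.length + 1 < N → cm v H = ∑ w ∈ nxt N E v, cm w H) ∧
  ∀ w : List D, w.length < N → ‖cm w H‖ ≤ A w

open Classical in
/-- LOC: the local estimate. Hypotheses hGLL : T_GLL, hLAP : T_LAP, hSTA : T_STA.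

PROOF. C₁ = C K^C with C of GLL. Let u = p ++ [d]; A u > 0 (otherwise trivial).
(a) No word of nxt N E u has length ≤ |u| + 2j: then every u ++ x, |x| ≤ 2j, is Un E u (by induction on |x|;
a shortest E-word below u would be in nxt N E u). GLL (|u| + 2j < N as u is not in E, att gives y₀):
A u ≤ C₁ [(3/4)^j (two sums) + sum over lv (2j) of |cm (u ++ x) H|], and by STA
|cm (u ++ x) H| ≤ sum over w ∈ nxt N E (u ++ x) of A w; these w are in nxt N E u (the words between u and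
u ++ x are not in E), and for different x they are different. So C₂ ≥ C₁ is enough.
(b) Otherwise there is w = u ++ y ∈ nxt N E u, 1 ≤ |y| ≤ 2j. For y' <+: y, y' ≠ y, the word u ++ y' is
Un E u, and u ++ y' ++ [e] is Un E u or in nxt N E u, of length ≤ |u| + 2j. If for one of these words
A (u ++ y' ++ [e]) > K' A u then A u ≤ (1/K') A (..) is ≤ the third or the fourth term (K' ≥ 1, C₂ ≥ 1).
Otherwise LAP with the constant max K K' and i = |y|: A u ≤ (1/c) A w; C₂ = the maximum over i ≤ 2j of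
1/c and C₁, 1. -/
def T_LOC : Prop := ∀ K : ℝ, 1 ≤ K → ∃ C₁ : ℝ, 1 ≤ C₁ ∧ ∀ (j : ℕ) (K' : ℝ), 1 ≤ j → 1 ≤ K' →
  ∃ C₂ : ℝ, 1 ≤ C₂ ∧ ∀ (N : ℕ) (H : ℂ → ℂ) (A : List D → ℝ) (E : List D → Prop) (p : List D)
    (d : D), SZ N H A → (∀ v : List D, N ≤ v.length + (2 * j + 2) → E v) → ¬ E (p ++ [d]) →
  A p ≤ K * A (p ++ [d]) →
  A (p ++ [d]) ≤
    C₁ * (3 / 4) ^ j * ∑ x ∈ (lv j).filter (fun x => Un E (p ++ [d]) (p ++ [d] ++ x)),
      A (p ++ [d] ++ x) +
    C₁ * (3 / 4) ^ j * ∑ x ∈ (lv (2 * j)).filter (fun x => Un E (p ++ [d]) (p ++ [d] ++ x)),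
      A (p ++ [d] ++ x) +
    1 / K' * ∑ v ∈ (wd (N - 1)).filter (fun v => Un E (p ++ [d]) v ∧
      v.length ≤ p.length + 1 + 2 * j), A v +
    C₂ * ∑ w ∈ nxt N E (p ++ [d]), A w

/-- GIT: growth down to the first stops. Hypothesis hLOC : T_LOC.

PROOF. K₁ = max K 16, C₁ of LOC for K₁, q = 9/10; j ≥ 1 with C₁ (75/81)^j ≤ 1/16 (then C₁ (75/90)^j ≤ 1/16
too), K' = 16 (2j + 1) q^(-2j) (≥ 1), C₂ of LOC, J = 2j + 2, C = 20 C₂. Let z = p ++ [d],
R = the finite set of the v ∈ wd (N - 1) with Un E z v (z ∈ R; every Un word has length < N - J),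
T = sum over v ∈ R of q^(|v| - |z|) A v. For v ∈ R, v ≠ z, write v = p' ++ [d'], p' ∈ R. Either
A v ≤ A p'/K₁ (1), or A p' ≤ K₁ A v and LOC holds for v (2); for v = z (2) holds. Sum of q^(|v|-|z|) times:
(1): ≤ (4q/K₁) T ≤ (9/40) T (every p' occurs at most 4 times). (2): first term: v ++ x ∈ R, every word
is v ++ x with |x| = j at most once: ≤ C₁ (3/4)^j q^(-j) T ≤ T/16; second term ≤ C₁ (3/4)^j q^(-2j) T ≤ T/16;
third term: every v' ∈ R is Un E v v' for at most 2j + 1 initial words v with |v| ≥ |v'| - 2j: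
≤ (1/K') (2j + 1) q^(-2j) T ≤ T/16; fourth term: nxt N E v ⊆ nxt N E z for v ∈ R, and for a given
w ∈ nxt N E z the v with w ∈ nxt N E v are initial words of w of different lengths: ≤ C₂ * 10 * sum over
nxt N E z of A w. Together T ≤ (9/40 + 3/16) T + 10 C₂ sum, so A z ≤ T ≤ 20 C₂ sum. -/
def T_GIT : Prop := ∀ K : ℝ, 1 ≤ K → ∃ (C : ℝ) (J : ℕ), 1 ≤ C ∧ ∀ (N : ℕ) (H : ℂ → ℂ)
  (A : List D → ℝ) (E : List D → Prop) (p : List D) (d : D), SZ N H A →
  (∀ v : List D, N ≤ v.length + J → E v) → ¬ E (p ++ [d]) → A p ≤ K * A (p ++ [d]) →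
  A (p ++ [d]) ≤ C * ∑ w ∈ nxt N E (p ++ [d]), A w

/-- PRH: a product of distances times a holomorphic function is large somewhere on a circle.

PROOF. As PRD: let Q(z) be the product over the i with |a_i - x| ≥ r of (z - a_i) and over the other i
of (r - conj(a_i - x) (z - x)/r); on |z - x| = r |Q(z)| is the product of |z - a_i|, and
|Q(x)| = the product of max(|x - a_i|, r) ≥ r^m. Maximum principle for Q^k G on the ball:
r^(m k) |G x| ≤ |Q(x)^k G(x)| ≤ |Q(z)^k G(z)| for some z on the circle. -/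
def T_PRH : Prop := ∀ (m k : ℕ) (a : Fin m → ℂ) (x : ℂ) (r : ℝ) (G : ℂ → ℂ), 0 < r →
  DiffContOnCl ℂ G (ball x r) →
  ∃ z, dist z x = r ∧ r ^ (m * k) * ‖G x‖ ≤ (∏ i, dist z (a i)) ^ k * ‖G z‖

/-- UNI: the lower bound of LAV near every point of the node. Hypothesis hLAV : T_LAV.

PROOF. s = .0008: closedBall b (4s) ⊆ VV for b ∈ nodeX (dist y ctr ≤ .80 + .0032 < .9 and
dist (psi d y) ctr ≥ .74 - 3 * .0032 > .73). nodeX is compact: finitely many b_i ∈ nodeX with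
nodeX ⊆ union of ball b_i .0004; C = the maximum of the constants of LAV for b_i, s (the right side
of the conclusion decreases when C grows: M ≥ μ > 0 since μ ≤ |F y| ≤ M; dist/C decreases, and
(μ/M)^C decreases). For x ∈ ball b_i .0004: closedBall x .0004 ⊆ closedBall b_i s. -/
def T_UNI : Prop := ∃ C : ℝ, 1 ≤ C ∧ ∀ (F : ℂ → ℂ) (M μ : ℝ) (y x : ℂ), DifferentiableOn ℂ F VV →
  (∀ z ∈ VV, ‖F z‖ ≤ M) → 0 < μ → y ∈ nodeX → μ ≤ ‖F y‖ → x ∈ nodeX →
  ∃ (m : ℕ) (a : Fin m → ℂ), (m : ℝ) ≤ C * Real.log (M / μ) ∧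
    ∀ z ∈ closedBall x (4 / 10000), M * (μ / M) ^ C * ∏ i, (dist z (a i) / C) ≤ ‖F z‖

/-- CIR: the size of the product against the product of the sizes. Hypotheses hUNI : T_UNI,
hPRH : T_PRH.

PROOF. u = p ++ [d], x₀ = Psi u x ∈ nodeX with |h (Phi u x₀)| ≥ 3^|u| a₀, r = .0004, C₀ the constant of
UNI. F = φ ∘ Phi u is holomorphic on VV, |F| ≤ 2 there (Phi u VV avoids the square Cantor set), |F y| ≥ t
at some y ∈ nodeX: UNI with M = 2, μ = t gives a_i, m ≤ C₀ log(2/t). PRH for G = h ∘ Phi u on ball x₀ r, k: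
w with |w - x₀| = r and r^(m k) |G x₀| ≤ (∏ dist w a_i)^k |G w|. So |φ^k h| at Phi u w is
≥ (2 (t/2)^C₀ C₀^(-m))^k r^(m k) |G x₀| ≥ (t/2)^(C₀ k) (r/C₀)^(m k) 3^|u| a₀, and (r/C₀)^m ≥ (t/2)^(C')
with C' = C₀ log(C₀/r). w is within .0004 of nodeX, hence Phi u w is in the node of u, of p
(dist w ctr in (.80,.81)) or of some u ++ [e] (dist (psi e w) ctr in (.73,.74)), so there
|φ^k h| ≤ 3^(|u|+1) L A u (A u ≥ 0 by hup). C = max(3, (C₀ + C') k). (If a₀ ≤ 0 trivial.) -/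
def T_CIR : Prop := ∀ k : ℕ, ∃ C : ℝ, 1 ≤ C ∧ ∀ (N : ℕ) (φ h : ℂ → ℂ) (A : List D → ℝ)
  (p : List D) (d : D) (L t a₀ : ℝ) (x : ℂ), DifferentiableOn ℂ φ squareCantorᶜ →
  (∀ z ∈ squareCantorᶜ, ‖φ z‖ ≤ 2) → DifferentiableOn ℂ h (OmR (73 / 100) N) →
  (∀ v : List D, v.length < N → ∀ z, Psi v z ∈ nodeX → ‖φ z ^ k * h z‖ ≤ 3 ^ v.length * A v) →
  p.length + 2 < N → 1 ≤ L → 0 < t → t ≤ 2 →
  (∃ y, Psi (p ++ [d]) y ∈ nodeX ∧ t ≤ ‖φ y‖) →
  Psi (p ++ [d]) x ∈ nodeX → 3 ^ (p.length + 1) * a₀ ≤ ‖h x‖ → A p ≤ L * A (p ++ [d]) →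
  (∀ e : D, A (p ++ [d, e]) ≤ L * A (p ++ [d])) →
  (t / 2) ^ C * a₀ ≤ C * L * A (p ++ [d])

/-- HNK: Harnack for a bounded function. Hypotheses hLAV : T_LAV, hPRD : T_PRD.

PROOF. As NC3 (with F = φ ∘ Phi p, M = 2, μ = t): first claim: b = phi d (ctr + .77), s = .003; LAV and PRD
give w with |w - b| = s, |F w| ≥ 2 (t/2)^C (s/C)^m, m ≤ C log(2/t), so |F w| ≥ 2 (t/2)^(C + C log(C/s)), and
Phi p w is in the node of p ++ [d]. Second claim: F = φ ∘ Phi u, u = p ++ [d], b = ctr + .85, s = .01: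
Phi u w is in the node of p. -/
def T_HNK : Prop := ∃ C : ℝ, 1 ≤ C ∧ ∀ (φ : ℂ → ℂ) (p : List D) (d : D) (t : ℝ),
  DifferentiableOn ℂ φ squareCantorᶜ → (∀ z ∈ squareCantorᶜ, ‖φ z‖ ≤ 2) → 0 < t → t ≤ 2 →
  ((∃ y, Psi p y ∈ nodeX ∧ t ≤ ‖φ y‖) →
    ∃ y, Psi (p ++ [d]) y ∈ nodeX ∧ 2 * (t / 2) ^ C ≤ ‖φ y‖) ∧
  ((∃ y, Psi (p ++ [d]) y ∈ nodeX ∧ t ≤ ‖φ y‖) →
    ∃ y, Psi p y ∈ nodeX ∧ 2 * (t / 2) ^ C ≤ ‖φ y‖)

end Pool.Agent.ALQ
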