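import Pool.Agent.CorA.Defs

/-!
# Project ALQ (MP_91698f), group (Z)(W)(C): steep regions with weights (helper12)
-/

set_option autoImplicit false

namespace Pool.Agent.ALQ

open Pool.Corona91698f

/-- TRE: the abstract estimate in a steep region.

PROOF. `W u = (1 + Phi u)^(-2)`. `Z` = the `z` in `S` with `A y ≤ L^(|z|-|y|) A z` for all `y` in `S` with
`y <+: z` (so `s` is in `Z`). (1) Every `u` in `S` has a `z` in `Z`, `z <+: u`, `L^(|u|-|z|) A u ≤ A z`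
(induction on the length). (2) `1 + Phi z ≤ (2 C₁)^(|u|-|z|) (1 + Phi u)` for `z <+: u` in `S`.
(3) The sum of `W u A u` is at most `4/3` times
`T` = the sum over `Z` of `W z A z` (`4 C₁^2 / L ≤ 1/16`, `Σ 4^n/16^n = 4/3`). (4) If `z` in `Z` has a child `c`
with `A c > L A z`: either `c ∈ X` or `c ∈ Z` and `W z A z ≤ 4 C₁^2 W c A c / L ≤ W c A c / 16`. The other
`z ≠ s` with `A z > 0`: hypothesis (3), `W z A z ≤ W z CL Σ_(w ∈ X, z <+: w) A w`. (5) For a word `w` the sum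
of `W z` over these `z <+: w` is at most `2 (1 + 16 C₂^2)`: let `z₀` be the longest one, `y` another one,
`d = |z₀| - |y|`: `K^d A z₀ ≤ exp(C₂ (Phi y + 1)) A y ≤ exp(C₂ (Phi y + 1)) L^d A z₀`, so
`d log 2 ≤ C₂ (1 + Phi y)` and `W y ≤ (1 + 16 C₂^2)/(d + 1)^2`. So `T ≤ A s + (CL 2 (1 + 16 C₂^2) + 1) Σ_X A + T/16`. -/
def T_TRE : Prop := ∀ (C₁ C₂ L K CL : ℝ), 1 ≤ C₁ → 0 ≤ C₂ → 64 * C₁ ^ 2 ≤ L → 2 * L ≤ K → 0 ≤ CL →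
  ∃ C : ℝ, 1 ≤ C ∧ ∀ (S X : Finset (List D)) (s : List D) (A Ph : List D → ℝ),
  s ∈ S → (∀ u ∈ S, s <+: u) → (∀ u ∈ S, u ≠ s → u.dropLast ∈ S) →
  (∀ u, 0 ≤ A u) → (∀ u, 0 ≤ Ph u) →
  (∀ u ∈ S, ∀ d : D, u ++ [d] ∈ S ∨ u ++ [d] ∈ X) →
  (∀ u ∈ S, u ≠ s → Ph u.dropLast ≤ C₁ * (Ph u + 1) ∧ Ph u ≤ C₁ * (Ph u.dropLast + 1)) →
  (∀ y ∈ S, ∀ z ∈ S, y ≠ s → y <+: z → y ≠ z → A y.dropLast ≤ L * A y →
    (∀ d : D, A (y ++ [d]) ≤ L * A y) →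
    K ^ (z.length - y.length) * A z ≤ Real.exp (C₂ * (Ph y + 1)) * A y) →
  (∀ u ∈ S, u ≠ s → A u.dropLast ≤ L * A u →
    ∀ Y : Finset (List D), (∀ w, w ∈ Y ↔ w ∈ X ∧ u <+: w) → A u ≤ CL * ∑ w ∈ Y, A w) →
  ∑ u ∈ S, ((1 + Ph u) ^ 2)⁻¹ * A u ≤ C * (A s + ∑ w ∈ X, A w)

end Pool.Agent.ALQ
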