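import Pool.Agent.ALQ.TargetsC
import Pool.Agent.ALQ.TargetsG
import Pool.Agent.ALQ.TargetsT
import Pool.Agent.CorA.P_NC1

/-!
# The steep regions: second route (helper65)

`T_SRG` from the abstract estimate `T_TRE` and the analysis of group G.
-/

set_option autoImplicit false

namespace Pool.Agent.ALQ

open Complex Metric Set Filter Topology MeasureTheory
open Pool.Corona91698f Pool.Agent.CorE Pool.Agent.CorA
open scoped Real BoundedContinuousFunction

namespace SRG2_

theorem pre_dl {z u : List D} (h : z <+: u) (hne : z ≠ u) : z <+: u.dropLast := by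
  obtain ⟨t, ht⟩ := h
  rcases List.eq_nil_or_concat t with rfl | ⟨t', d, h₀⟩
  · simp at ht
    exact absurd ht hne
  · rw [List.concat_eq_append] at h₀
    subst h₀
    rw [← ht, ← List.append_assoc, List.dropLast_concat]
    exact List.prefix_append _ _

open Classical in
theorem mem_Rg {N : ℕ} {K : ℝ} {a : List D → ℝ} {s u : List D} :
    u ∈ Rg N K a s ↔ u.length ≤ N - 1 ∧ s <+: u ∧ u ≠ s ∧
      ∀ t, s <+: t → t <+: u → Top K a t → t = s := by
  unfold Rg
  rw [Finset.mem_filter, mem_wd]

open Classical in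
theorem mem_nxt {N : ℕ} {R : List D → Prop} {x u : List D} :
    u ∈ nxt N R x ↔ u.length ≤ N - 1 ∧ x <+: u ∧ u ≠ x ∧ R u ∧
      ∀ t, x <+: t → t <+: u → R t → t = x ∨ t = u := by
  unfold nxt
  rw [Finset.mem_filter, mem_wd]

theorem Rg_ntop {N : ℕ} {K : ℝ} {a : List D → ℝ} {s u : List D} (h : u ∈ Rg N K a s) :
    ¬ Top K a u := by
  intro ht
  rw [mem_Rg] at h
  exact h.2.2.1 (h.2.2.2 u h.2.1 List.prefix_rfl ht)

theorem Rg_dl {N : ℕ} {K : ℝ} {a : List D → ℝ} {s u : List D} (h : u ∈ Rg N K a s) :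
    u.dropLast = s ∨ u.dropLast ∈ Rg N K a s := by
  by_cases h1 : u.dropLast = s
  · exact Or.inl h1
  · right
    rw [mem_Rg] at h ⊢
    refine ⟨?_, pre_dl h.2.1 (Ne.symm h.2.2.1), h1, fun t h2 h3 h4 => ?_⟩
    · rw [List.length_dropLast]
      omega
    · exact h.2.2.2 t h2 (h3.trans (List.dropLast_prefix u)) h4

theorem exists_snoc {u : List D} (h : u ≠ []) : ∃ p d, u = p ++ [d] :=
  ⟨u.dropLast, u.getLast h, (List.dropLast_append_getLast h).symm⟩

theorem Rg_steep {N : ℕ} {K : ℝ} {a : List D → ℝ} {s u : List D} (h : u ∈ Rg N K a s) :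
    K * a u ≤ a u.dropLast := by
  have h1 := Rg_ntop h
  unfold Top at h1
  push Not at h1
  exact h1.2.le

theorem steep {N : ℕ} {K : ℝ} {a : List D → ℝ} {s : List D} (hK : 0 ≤ K) :
    ∀ (m : ℕ) (y z : List D), y ∈ Rg N K a s → z ∈ Rg N K a s → y <+: z →
      z.length - y.length = m → K ^ m * a z ≤ a y := by
  intro m
  induction m with
  | zero =>
    intro y z _ _ h3 h4
    have : y = z := h3.eq_of_length_le (by omega)
    rw [this]
    simp
  | succ m ih =>
    intro y z h1 h2 h3 h4
    have hne : y ≠ z := by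
      intro h
      rw [h] at h4
      omega
    have h5 := pre_dl h3 hne
    have h6 : z.dropLast ∈ Rg N K a s := by
      rcases Rg_dl h2 with h7 | h7
      · exfalso
        rw [h7] at h5
        have h8 := (mem_Rg.1 h1).2.1
        exact (mem_Rg.1 h1).2.2.1 (h5.eq_of_length_le h8.length_le)
      · exact h7
    have h7 := ih y z.dropLast h1 h6 h5 (by
      rw [List.length_dropLast]
      omega)
    have h8 := Rg_steep h2
    calc K ^ (m + 1) * a z = K ^ m * (K * a z) := by ring
      _ ≤ K ^ m * a z.dropLast := by gcongr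
      _ ≤ a y := h7

theorem harn_aux {C s t : ℝ} (hC : 1 ≤ C) (ht : 0 < t) (ht1 : t ≤ 1)
    (hs : 2 * (t / 2) ^ C ≤ s) :
    0 < s ∧ 1 - Real.log s ≤ C * (1 - Real.log t + 1) := by
  have h0 : 0 < 2 * (t / 2) ^ C := by positivity
  have hs0 : 0 < s := h0.trans_le hs
  refine ⟨hs0, ?_⟩
  have h1 : Real.log (2 * (t / 2) ^ C) ≤ Real.log s := Real.log_le_log h0 hs
  rw [Real.log_mul (by norm_num) (by positivity), Real.log_rpow (by positivity),
    Real.log_div ht.ne' (by norm_num)] at h1
  have h2 : Real.log t ≤ 0 := Real.log_nonpos ht.le ht1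
  have h3 : 0 < Real.log 2 := Real.log_pos (by norm_num)
  have h4 : Real.log 2 ≤ 1 := by
    have := Real.log_two_lt_d9
    linarith
  nlinarith

theorem grow_aux {C L t a A : ℝ} (hC : 1 ≤ C) (hL : 1 ≤ L) (ht : 0 < t) (ht1 : t ≤ 1)
    (hA : 0 ≤ A) (h : (t / 2) ^ C * a ≤ C * L * A) :
    a ≤ Real.exp ((C + C * L) * (1 - Real.log t + 1)) * A := by
  have h1 : (t / 2) ^ C = Real.exp (-(C * (Real.log 2 - Real.log t))) := by
    rw [Real.rpow_def_of_pos (by positivity), Real.log_div ht.ne' (by norm_num)]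
    congr 1
    ring
  have h2 : a ≤ Real.exp (C * (Real.log 2 - Real.log t)) * (C * L * A) := by
    rw [h1] at h
    have h3 := mul_le_mul_of_nonneg_left h (Real.exp_pos (C * (Real.log 2 - Real.log t))).le
    rw [← mul_assoc, ← Real.exp_add, add_neg_cancel, Real.exp_zero, one_mul] at h3
    exact h3
  have h4 : Real.log t ≤ 0 := Real.log_nonpos ht.le ht1
  have h5 : Real.log 2 ≤ 1 := by
    have := Real.log_two_lt_d9
    linarith
  have hCL : 0 < C * L := by positivity
  have h6 : C * L ≤ Real.exp (C * L) := by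
    have := Real.add_one_le_exp (C * L)
    linarith
  have h7 : Real.exp (C * (Real.log 2 - Real.log t)) * Real.exp (C * L) ≤
      Real.exp ((C + C * L) * (1 - Real.log t + 1)) := by
    rw [← Real.exp_add]
    apply Real.exp_le_exp.2
    nlinarith
  calc a ≤ Real.exp (C * (Real.log 2 - Real.log t)) * (C * L * A) := h2
    _ = Real.exp (C * (Real.log 2 - Real.log t)) * (C * L) * A := by ring
    _ ≤ Real.exp (C * (Real.log 2 - Real.log t)) * Real.exp (C * L) * A := by gcongr
    _ ≤ _ := by gcongr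

theorem sp_nn (H : ℂ → ℂ) (v : List D) : 0 ≤ sp H v := by
  unfold sp
  apply Real.sSup_nonneg
  rintro x ⟨z, _, rfl⟩
  exact norm_nonneg _

theorem sz_nn (H : ℂ → ℂ) (v : List D) : 0 ≤ sz H v := by
  unfold sz
  have := sp_nn H v
  positivity

theorem AM_nn {n : ℕ} (φ : ℂ → ℂ) (M : ℕ) (h : Fin n → Fin n → ℂ → ℂ) (v : List D) :
    0 ≤ AM φ M h v := by
  unfold AM
  exact Real.iSup_nonneg fun x => sz_nn _ v

theorem three_sz (H : ℂ → ℂ) (v : List D) : 3 ^ v.length * sz H v = sp H v := by
  unfold sz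
  rw [← mul_assoc, ← mul_pow]
  norm_num

end SRG2_

open SRG2_ in
open Classical in
theorem p_SRG2 (hHNK : T_HNK) (hCIR : T_CIR) (hGIT : T_GIT) (hTRE : T_TRE) (hSZF : T_SZF) :
    T_SRG := by
  obtain ⟨hS1, hS2, hS3, hS4, -⟩ := hSZF
  obtain ⟨CH, hCH, hH⟩ := hHNK
  refine ⟨128 * CH ^ 2, by nlinarith, ?_⟩
  intro n K M hK hM
  set L : ℝ := 64 * CH ^ 2 with hL
  have hL1 : 1 ≤ L := by nlinarith
  obtain ⟨CG, J, hCG, hG⟩ := hGIT L hL1
  obtain ⟨CC, hCC, hC⟩ := hCIR M
  have hK0 : 0 ≤ K := by nlinarith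
  obtain ⟨CT, hCT, hT⟩ := hTRE CH (CC + CC * L) L K CG hCH (by positivity) (by rw [hL])
    (by rw [hL]; linarith) (by linarith)
  refine ⟨CT + 1, max J 1, by linarith, ?_⟩
  intro N C₀ h a φ s hN hh hφd hφ1 hsN
  -- basic facts about φ
  have hcont : ∀ v, ContinuousOn φ {z | Psi v z ∈ nodeX} := fun v =>
    hφd.continuousOn.mono (hS3 v).1
  have hsp1 : ∀ v, sp φ v ≤ 1 := fun v =>
    (hS1 φ v (hcont v)).2.2.2 1 fun z hz => hφ1 z ((hS3 v).1 hz)
  have hspn : ∀ v, 0 ≤ sp φ v := fun v => sp_nn φ v
  have hatt : ∀ v, ∃ y, Psi v y ∈ nodeX ∧ sp φ v ≤ ‖φ y‖ := by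
    intro v
    obtain ⟨z, hz, hz1⟩ := (hS1 φ v (hcont v)).2.2.1
    exact ⟨z, hz, hz1.ge⟩
  have hφ2 : ∀ z ∈ squareCantorᶜ, ‖φ z‖ ≤ 2 := fun z hz => (hφ1 z hz).trans (by norm_num)
  have hdown : ∀ (p : List D) (d : D), 0 < sp φ p → 0 < sp φ (p ++ [d]) ∧
      1 - Real.log (sp φ (p ++ [d])) ≤ CH * (1 - Real.log (sp φ p) + 1) := by
    intro p d hp
    obtain ⟨y, hy, hy1⟩ := (hH φ p d (sp φ p) hφd hφ2 hp (by linarith [hsp1 p])).1 (hatt p)
    exact harn_aux hCH hp (hsp1 p)
      (hy1.trans ((hS1 φ (p ++ [d]) (hcont _)).2.1 y hy))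
  have hup : ∀ (p : List D) (d : D), 0 < sp φ (p ++ [d]) → 0 < sp φ p ∧
      1 - Real.log (sp φ p) ≤ CH * (1 - Real.log (sp φ (p ++ [d])) + 1) := by
    intro p d hp
    obtain ⟨y, hy, hy1⟩ := (hH φ p d (sp φ (p ++ [d])) hφd hφ2 hp
      (by linarith [hsp1 (p ++ [d])])).2 (hatt _)
    exact harn_aux hCH hp (hsp1 _) (hy1.trans ((hS1 φ p (hcont _)).2.1 y hy))
  have hall : ∀ v : List D, 0 < sp φ v ↔ 0 < sp φ [] := by
    intro v
    induction v using List.reverseRecOn with
    | nil => exact Iff.rfl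
    | append_singleton p d ih =>
      exact ⟨fun h1 => ih.1 (hup p d h1).1, fun h1 => (hdown p d (ih.2 h1)).1⟩
  -- sizes
  have hAn : ∀ u, 0 ≤ AM φ M h u := fun u => AM_nn φ M h u
  have hAa : ∀ u : List D, u.length < N → AM φ M h u ≤ a u := by
    intro u hu
    refine (hS4 n N M C₀ φ h a u hh hφd hu).2.2.1 (a u) (hh.nn u) fun i j z hz => ?_
    have h1 := hh.up u hu i j z hz
    have h2 := hφ1 z ((hS3 u).1 hz)
    rw [norm_mul, norm_pow]
    have h3 : ‖φ z‖ ^ M ≤ 1 := pow_le_one₀ (norm_nonneg _) h2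
    calc ‖φ z‖ ^ M * ‖h i j z‖ ≤ 1 * ‖h i j z‖ := by gcongr
      _ ≤ _ := by rw [one_mul]; exact h1
  have hnxt0 : 0 ≤ ∑ e ∈ nxt N (Top K a) s, AM φ M h e := Finset.sum_nonneg fun e _ => hAn e
  have hbot0 : 0 ≤ ∑ y ∈ (Rg N K a s).filter (fun y => N ≤ y.length + max J 1), a y :=
    Finset.sum_nonneg fun e _ => hh.nn e
  have hRHS : 0 ≤ AM φ M h s + ∑ e ∈ nxt N (Top K a) s, AM φ M h e +
      ∑ y ∈ (Rg N K a s).filter (fun y => N ≤ y.length + max J 1), a y := by
    have := hAn s
    linarith
  have hRgN : ∀ u ∈ Rg N K a s, u.length < N := by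
    intro u hu
    have := (mem_Rg.1 hu).1
    omega
  by_cases h0 : 0 < sp φ []
  swap
  · -- φ vanishes on all nodes
    have h1 : ∀ y ∈ Rg N K a s, wt φ y * AM φ M h y = 0 := by
      intro y hy
      have h2 : sp φ y = 0 := le_antisymm (not_lt.1 fun h3 => h0 ((hall y).1 h3)) (hspn y)
      have h3 : AM φ M h y ≤ 0 := by
        refine (hS4 n N M C₀ φ h a y hh hφd (hRgN y hy)).2.2.1 0 le_rfl fun i j z hz => ?_
        have h4 : ‖φ z‖ ≤ 0 := by
          rw [← h2]
          exact (hS1 φ y (hcont y)).2.1 z hz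
        have h5 : φ z = 0 := norm_le_zero_iff.1 h4
        rw [h5, zero_pow (by omega), zero_mul, norm_zero, mul_zero]
      have h4 : AM φ M h y = 0 := le_antisymm h3 (hAn y)
      rw [h4, mul_zero]
    rw [Finset.sum_eq_zero h1]
    exact mul_nonneg (by linarith) hRHS
  by_cases hs1 : s.length + 1 < N
  swap
  · have h1 : Rg N K a s = ∅ := by
      rw [Finset.eq_empty_iff_forall_notMem]
      intro u hu
      have h2 := mem_Rg.1 hu
      have h3 := h2.2.1.length_le
      exact h2.2.2.1 (h2.2.1.eq_of_length_le (by omega)).symm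
    rw [h1, Finset.sum_empty]
    rw [h1] at hRHS
    exact mul_nonneg (by linarith) hRHS
  have hpos : ∀ v, 0 < sp φ v := fun v => (hall v).2 h0
  -- the abstract estimate
  set Ph : List D → ℝ := fun u => 1 - Real.log (sp φ u) with hPh
  have hPh0 : ∀ u, 0 ≤ Ph u := by
    intro u
    have h1 := Real.log_nonpos (hspn u) (hsp1 u)
    rw [hPh]
    simp only
    linarith
  have hwt : ∀ u, ((1 + Ph u) ^ 2)⁻¹ = wt φ u := by
    intro u
    unfold wt
    rw [hPh]
    simp only
    congr 2
    ring
  set S : Finset (List D) := insert s ((Rg N K a s).filter (fun y => y.length + max J 1 < N))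
    with hS
  set X : Finset (List D) := nxt N (Top K a) s ∪
    (Rg N K a s).filter (fun y => N ≤ y.length + max J 1) with hX
  have hmS : ∀ u, u ∈ S ↔ u = s ∨ (u ∈ Rg N K a s ∧ u.length + max J 1 < N) := by
    intro u
    rw [hS, Finset.mem_insert, Finset.mem_filter]
  have hmX : ∀ u, u ∈ X ↔ u ∈ nxt N (Top K a) s ∨
      (u ∈ Rg N K a s ∧ N ≤ u.length + max J 1) := by
    intro u
    rw [hX, Finset.mem_union, Finset.mem_filter]
  have hpreS : ∀ u ∈ S, s <+: u := by
    intro u hu
    rcases (hmS u).1 hu with h1 | h1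
    · rw [h1]
    · exact (mem_Rg.1 h1.1).2.1
  have hmain := hT S X s (AM φ M h) Ph ((hmS s).2 (Or.inl rfl)) hpreS ?_ hAn hPh0 ?_ ?_ ?_ ?_
  · -- conclusion
    have h1 : ∑ y ∈ Rg N K a s, wt φ y * AM φ M h y ≤ ∑ u ∈ S, ((1 + Ph u) ^ 2)⁻¹ * AM φ M h u +
        ∑ y ∈ (Rg N K a s).filter (fun y => N ≤ y.length + max J 1), a y := by
      have h2 : ∑ y ∈ Rg N K a s, wt φ y * AM φ M h y =
          ∑ y ∈ (Rg N K a s).filter (fun y => y.length + max J 1 < N), wt φ y * AM φ M h y +
          ∑ y ∈ (Rg N K a s).filter (fun y => ¬ (y.length + max J 1 < N)), wt φ y * AM φ M h y :=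
        (Finset.sum_filter_add_sum_filter_not _ _ _).symm
      have hw0 : ∀ u, 0 ≤ wt φ u := fun u => by rw [← hwt u]; positivity
      have hw1 : ∀ u, wt φ u ≤ 1 := by
        intro u
        rw [← hwt u]
        refine inv_le_one_of_one_le₀ ?_
        nlinarith [hPh0 u]
      have h3 : ∑ y ∈ (Rg N K a s).filter (fun y => y.length + max J 1 < N),
          wt φ y * AM φ M h y ≤ ∑ u ∈ S, ((1 + Ph u) ^ 2)⁻¹ * AM φ M h u := by
        have h4 : ∑ y ∈ (Rg N K a s).filter (fun y => y.length + max J 1 < N),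
            wt φ y * AM φ M h y = ∑ y ∈ (Rg N K a s).filter (fun y => y.length + max J 1 < N),
            ((1 + Ph y) ^ 2)⁻¹ * AM φ M h y :=
          Finset.sum_congr rfl fun y _ => by rw [hwt y]
        rw [h4]
        refine Finset.sum_le_sum_of_subset_of_nonneg (fun y hy => ?_) fun y _ _ => ?_
        · rw [hS]
          exact Finset.mem_insert_of_mem hy
        · exact mul_nonneg (by positivity) (hAn y)
      have h5 : ∑ y ∈ (Rg N K a s).filter (fun y => ¬ (y.length + max J 1 < N)),
          wt φ y * AM φ M h y ≤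
          ∑ y ∈ (Rg N K a s).filter (fun y => N ≤ y.length + max J 1), a y := by
        have h6 : (Rg N K a s).filter (fun y => ¬ (y.length + max J 1 < N)) =
            (Rg N K a s).filter (fun y => N ≤ y.length + max J 1) := by
          refine Finset.filter_congr fun y _ => ?_
          exact not_lt
        rw [h6]
        refine Finset.sum_le_sum fun y hy => ?_
        have h7 := hAa y (hRgN y (Finset.mem_filter.1 hy).1)
        calc wt φ y * AM φ M h y ≤ 1 * AM φ M h y := by
              have := hw1 y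
              have := hAn y
              gcongr
          _ ≤ a y := by rw [one_mul]; exact h7
      rw [h2]
      linarith
    have h8 : ∑ w ∈ X, AM φ M h w ≤ ∑ e ∈ nxt N (Top K a) s, AM φ M h e +
        ∑ y ∈ (Rg N K a s).filter (fun y => N ≤ y.length + max J 1), a y := by
      have h9 : ∑ w ∈ X, AM φ M h w ≤ ∑ e ∈ nxt N (Top K a) s, AM φ M h e +
          ∑ y ∈ (Rg N K a s).filter (fun y => N ≤ y.length + max J 1), AM φ M h y := by
        have h10 := Finset.sum_union_inter (s₁ := nxt N (Top K a) s)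
          (s₂ := (Rg N K a s).filter (fun y => N ≤ y.length + max J 1)) (f := AM φ M h)
        have h11 : 0 ≤ ∑ y ∈ nxt N (Top K a) s ∩
            (Rg N K a s).filter (fun y => N ≤ y.length + max J 1), AM φ M h y :=
          Finset.sum_nonneg fun y _ => hAn y
        rw [hX]
        linarith
      have h12 : ∑ y ∈ (Rg N K a s).filter (fun y => N ≤ y.length + max J 1), AM φ M h y ≤
          ∑ y ∈ (Rg N K a s).filter (fun y => N ≤ y.length + max J 1), a y :=
        Finset.sum_le_sum fun y hy => hAa y (hRgN y (Finset.mem_filter.1 hy).1)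
      linarith
    have h13 : CT * (AM φ M h s + ∑ w ∈ X, AM φ M h w) ≤ CT * (AM φ M h s +
        ∑ e ∈ nxt N (Top K a) s, AM φ M h e +
        ∑ y ∈ (Rg N K a s).filter (fun y => N ≤ y.length + max J 1), a y) := by
      apply mul_le_mul_of_nonneg_left _ (by linarith)
      linarith
    have h14 := hAn s
    nlinarith
  · -- initial words
    intro u hu hus
    rcases (hmS u).1 hu with h1 | h1
    · exact absurd h1 hus
    · rw [hmS]
      rcases Rg_dl h1.1 with h2 | h2
      · exact Or.inl h2
      · refine Or.inr ⟨h2, ?_⟩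
        rw [List.length_dropLast]
        omega
  · -- children
    intro u hu d
    have hlen : u.length + 1 < N := by
      rcases (hmS u).1 hu with h1 | h1
      · rw [h1]
        exact hs1
      · have := le_max_right J 1
        omega
    have hsu := hpreS u hu
    have hsud : s <+: u ++ [d] := hsu.trans (List.prefix_append _ _)
    have hne : u ++ [d] ≠ s := by
      intro h1
      have h2 := congrArg List.length h1
      have h3 := hsu.length_le
      rw [List.length_append, List.length_singleton] at h2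
      omega
    have hint : ∀ t, s <+: t → t <+: u → Top K a t → t = s := by
      intro t h1 h2 h3
      rcases (hmS u).1 hu with h4 | h4
      · rw [h4] at h2
        exact (h1.eq_of_length_le h2.length_le).symm
      · exact (mem_Rg.1 h4.1).2.2.2 t h1 h2 h3
    by_cases htop : Top K a (u ++ [d])
    · right
      rw [hmX]
      left
      rw [mem_nxt]
      refine ⟨?_, hsud, hne, htop, fun t h1 h2 h3 => ?_⟩
      · rw [List.length_append, List.length_singleton]
        omega
      · rcases List.prefix_concat_iff.1 h2 with h4 | h4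
        · exact Or.inr h4
        · exact Or.inl (hint t h1 h4 h3)
    · have hR : u ++ [d] ∈ Rg N K a s := by
        rw [mem_Rg]
        refine ⟨?_, hsud, hne, fun t h1 h2 h3 => ?_⟩
        · rw [List.length_append, List.length_singleton]
          omega
        · rcases List.prefix_concat_iff.1 h2 with h4 | h4
          · rw [h4] at h3
            exact absurd h3 htop
          · exact hint t h1 h4 h3
      by_cases hb : (u ++ [d]).length + max J 1 < N
      · left
        exact (hmS _).2 (Or.inr ⟨hR, hb⟩)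
      · right
        exact (hmX _).2 (Or.inr ⟨hR, not_lt.1 hb⟩)
  · -- Harnack
    intro u hu hus
    have hne : u ≠ [] := by
      intro h1
      rcases (hmS u).1 hu with h2 | h2
      · exact hus h2
      · have h3 := (mem_Rg.1 h2.1).2.1
        rw [h1] at h3 hus
        exact hus (List.prefix_nil.1 h3).symm
    obtain ⟨p, d, rfl⟩ := exists_snoc hne
    rw [List.dropLast_concat]
    exact ⟨(hup p d (hpos _)).2, (hdown p d (hpos _)).2⟩
  · -- growth
    intro y hy z hz hys hyz hyz' hpar hch
    have hyR : y ∈ Rg N K a s ∧ y.length + max J 1 < N := by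
      rcases (hmS y).1 hy with h1 | h1
      · exact absurd h1 hys
      · exact h1
    have hzR : z ∈ Rg N K a s := by
      rcases (hmS z).1 hz with h1 | h1
      · exfalso
        rw [h1] at hyz hyz'
        have h2 := (mem_Rg.1 hyR.1).2.1
        exact hyz' (hyz.eq_of_length_le h2.length_le)
      · exact h1.1
    have hJ1 := le_max_right J 1
    have hne : y ≠ [] := by
      intro h1
      have h3 := (mem_Rg.1 hyR.1).2.1
      rw [h1] at h3 hys
      exact hys (List.prefix_nil.1 h3).symm
    obtain ⟨p, d, rfl⟩ := exists_snoc hne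
    rw [List.dropLast_concat] at hpar
    have hlen : (p ++ [d]).length = p.length + 1 := by
      rw [List.length_append, List.length_singleton]
    have hyN : (p ++ [d]).length < N := hRgN _ hyR.1
    obtain ⟨i, j, x, hx, hx1⟩ := hh.att (p ++ [d]) hyN
    have h1 := hC N φ (h i j) (AM φ M h) p d L (sp φ (p ++ [d])) (a (p ++ [d])) x hφd hφ2
      (hh.diff i j) (fun v hv z hz => (hS4 n N M C₀ φ h a v hh hφd hv).2.1 i j z hz)
      (by omega) hL1 (hpos _) (by linarith [hsp1 (p ++ [d])]) (hatt _) hx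
      (by rw [← hlen]; exact hx1) hpar (fun e => by
        have := hch e
        rwa [List.append_assoc] at this)
    have h2 := grow_aux hCC hL1 (hpos _) (hsp1 _) (hAn _) h1
    have h3 := steep hK0 _ (p ++ [d]) z hyR.1 hzR hyz rfl
    have h4 := hAa z (hRgN z hzR)
    calc K ^ (z.length - (p ++ [d]).length) * AM φ M h z
        ≤ K ^ (z.length - (p ++ [d]).length) * a z := by gcongr
      _ ≤ a (p ++ [d]) := h3
      _ ≤ _ := h2
  · -- growth down to the stops
    intro u hu hus hpar Y hY
    have huR : u ∈ Rg N K a s ∧ u.length + max J 1 < N := by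
      rcases (hmS u).1 hu with h1 | h1
      · exact absurd h1 hus
      · exact h1
    have hsu := (mem_Rg.1 huR.1).2.1
    have hne : u ≠ [] := by
      intro h1
      rw [h1] at hsu hus
      exact hus (List.prefix_nil.1 hsu).symm
    obtain ⟨p, d, rfl⟩ := exists_snoc hne
    rw [List.dropLast_concat] at hpar
    have huN : (p ++ [d]).length < N := hRgN _ huR.1
    have hlen : (p ++ [d]).length = p.length + 1 := by
      rw [List.length_append, List.length_singleton]
    have hn : 1 ≤ n := by
      obtain ⟨i, _⟩ := hh.att (p ++ [d]) huN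
      have := i.isLt
      omega
    obtain ⟨i, j, z, hz, hz1⟩ := (hS4 n N M C₀ φ h a (p ++ [d]) hh hφd huN).2.2.2 hn
    set H : ℂ → ℂ := fun z => φ z ^ M * h i j z with hHdef
    have hHd : DifferentiableOn ℂ H (OmR (73 / 100) N) := by
      refine DifferentiableOn.mul (DifferentiableOn.pow (hφd.mono fun w hw => ?_) M) (hh.diff i j)
      exact NC1_.Om_notMem hw
    have hHc : ∀ v : List D, v.length < N → ContinuousOn H {z | Psi v z ∈ nodeX} := fun v hv =>
      hHd.continuousOn.mono (hS2 N v hv)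
    have hszle : ∀ v : List D, v.length < N → sz H v ≤ AM φ M h v := by
      intro v hv
      have h1 : sp H v ≤ 3 ^ v.length * AM φ M h v :=
        (hS1 H v (hHc v hv)).2.2.2 _ fun w hw => (hS4 n N M C₀ φ h a v hh hφd hv).2.1 i j w hw
      rw [← three_sz] at h1
      exact le_of_mul_le_mul_left h1 (by positivity)
    have hSZ : SZ N H (sz H) := by
      refine ⟨hHd, sz_nn H, fun v hv w hw => ?_, fun v hv => ?_⟩
      · rw [three_sz]
        exact (hS1 H v (hHc v hv)).2.1 w hw
      · obtain ⟨w, hw, hw1⟩ := (hS1 H v (hHc v hv)).2.2.1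
        refine ⟨w, hw, ?_⟩
        rw [three_sz, hw1]
    have heq : AM φ M h (p ++ [d]) ≤ sz H (p ++ [d]) := by
      have h1 : 3 ^ (p ++ [d]).length * AM φ M h (p ++ [d]) ≤
          3 ^ (p ++ [d]).length * sz H (p ++ [d]) := by
        rw [hz1, three_sz]
        exact (hS1 H _ (hHc _ huN)).2.1 z hz
      exact le_of_mul_le_mul_left h1 (by positivity)
    set E : List D → Prop := fun v => Top K a v ∨ N ≤ v.length + max J 1 with hE
    have hEu : ¬ E (p ++ [d]) := by
      rintro (h1 | h1)
      · exact Rg_ntop huR.1 h1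
      · omega
    have h1 := hG N H (sz H) E p d hSZ (fun v hv => Or.inr (hv.trans (by
      have := le_max_left J 1
      omega))) hEu (by
        have h2 := hszle p (by omega)
        calc sz H p ≤ AM φ M h p := h2
          _ ≤ L * AM φ M h (p ++ [d]) := hpar
          _ ≤ L * sz H (p ++ [d]) := by gcongr)
    have hsub : nxt N E (p ++ [d]) ⊆ Y := by
      intro w hw
      rw [mem_nxt] at hw
      obtain ⟨w1, w2, w3, w4, w5⟩ := hw
      rw [hY]
      refine ⟨?_, w2⟩
      rw [hmX]
      have hsw : s <+: w := hsu.trans w2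
      have hws : w ≠ s := by
        intro h2
        have h3 := w2.length_le
        have h4 := hsu.length_le
        have h5 : (p ++ [d]) = w := w2.eq_of_length_le (by rw [h2]; exact h4)
        exact w3 h5.symm
      have hint : ∀ t, s <+: t → t <+: w → Top K a t → t = s ∨ t = w := by
        intro t h2 h3 h4
        rcases List.prefix_or_prefix_of_prefix h3 w2 with h5 | h5
        · exact Or.inl ((mem_Rg.1 huR.1).2.2.2 t h2 h5 h4)
        · rcases w5 t h5 h3 (Or.inl h4) with h6 | h6
          · rw [h6] at h4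
            exact absurd h4 (Rg_ntop huR.1)
          · exact Or.inr h6
      by_cases htop : Top K a w
      · left
        rw [mem_nxt]
        exact ⟨w1, hsw, hws, htop, hint⟩
      · right
        refine ⟨?_, ?_⟩
        · rw [mem_Rg]
          refine ⟨w1, hsw, hws, fun t h2 h3 h4 => ?_⟩
          rcases hint t h2 h3 h4 with h5 | h5
          · exact h5
          · rw [h5] at h4
            exact absurd h4 htop
        · rcases w4 with h2 | h2
          · exact absurd h2 htop
          · exact h2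
    calc AM φ M h (p ++ [d]) ≤ sz H (p ++ [d]) := heq
      _ ≤ CG * ∑ w ∈ nxt N E (p ++ [d]), sz H w := h1
      _ ≤ CG * ∑ w ∈ nxt N E (p ++ [d]), AM φ M h w := by
          apply mul_le_mul_of_nonneg_left _ (by linarith)
          refine Finset.sum_le_sum fun w hw => hszle w ?_
          have := (mem_nxt.1 hw).1
          omega
      _ ≤ CG * ∑ w ∈ Y, AM φ M h w := by
          apply mul_le_mul_of_nonneg_left _ (by linarith)
          exact Finset.sum_le_sum_of_subset_of_nonneg hsub fun w _ _ => hAn w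

end Pool.Agent.ALQ
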