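import Pool.Agent.ALQ.TargetsG
import Pool.Agent.CorA.P_MAS
import Pool.Agent.CorA.P_VAR

/-!
# The contour means are additive down to the first stops
-/

set_option autoImplicit false

namespace Pool.Agent.ALQ

open Complex Metric Set Filter Topology MeasureTheory
open Pool.Corona91698f Pool.Agent.CorE Pool.Agent.CorA
open scoped Real

namespace STA_

theorem add {N : ℕ} {H : ℂ → ℂ} {A : List D → ℝ} (h : T_ADD) (hS : SZ N H A) (p : List D)
    (hp : p.length + 1 < N) : cm p H = ∑ d : D, cm (p ++ [d]) H :=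
  h p H (hS.diff.mono (CorA.MAS_.Nd_sub (by omega)))

theorem Sx_empty {N : ℕ} {E : List D → Prop} (hE : ∀ v : List D, N ≤ v.length + 1 → E v)
    {v : List D} (hv : v.length + 1 < N) : CorA.VAR_.Sx (N - 1) E v = ∅ := by
  rw [Finset.eq_empty_iff_forall_notMem]
  intro w hw
  rw [CorA.VAR_.mem_Sx] at hw
  obtain ⟨h1, h2, h3⟩ := hw
  have h4 : w = v := h3 w h2 (List.prefix_refl _) (hE w (by omega))
  rw [h4] at h1
  omega

end STA_

theorem p_STA (h : T_ADD) : T_STA := by
  intro N H A E hS hE
  refine ⟨fun v hv => ?_, fun w hw => ?_⟩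
  · have h1 := CorA.VAR_.split (N := N) (fun v => cm v H) E (x := v)
      (fun p hp => STA_.add h hS p hp) (by omega)
    rw [STA_.Sx_empty hE hv, Finset.sum_empty, zero_add] at h1
    exact h1
  · exact CorA.MAS_.cm_le (fun z hz => hS.up w hw z (CorA.MAS_.circ_X hz)) (hS.nn w)

end Pool.Agent.ALQ
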