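import Pool.Agent.ALQ.TargetsC

/-!
# ALQ, SZF: sizes are attained suprema over the compact nodes
-/

set_option autoImplicit false

namespace Pool.Agent.ALQ

open Complex Metric Set Filter Topology MeasureTheory
open Pool.Corona91698f Pool.Agent.CorE Pool.Agent.CorA
open scoped Real BoundedContinuousFunction

namespace SZF_

theorem sp_max (H : ℂ → ℂ) (v : List D) (hH : ContinuousOn H {z | Psi v z ∈ nodeX}) :
    ∃ z, Psi v z ∈ nodeX ∧ ‖H z‖ = sp H v ∧ ∀ y, Psi v y ∈ nodeX → ‖H y‖ ≤ ‖H z‖ := by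
  obtain ⟨z, hz, hmax⟩ := (DUA_.K_compact v).exists_isMaxOn (DUA_.K_ne v) hH.norm
  refine ⟨z, hz, ?_, fun y hy => hmax hy⟩
  have hg : IsGreatest ((fun z => ‖H z‖) '' {z | Psi v z ∈ nodeX}) ‖H z‖ := by
    refine ⟨⟨z, hz, rfl⟩, ?_⟩
    rintro _ ⟨y, hy, rfl⟩
    exact hmax hy
  exact hg.csSup_eq.symm

theorem one (H : ℂ → ℂ) (v : List D) (hH : ContinuousOn H {z | Psi v z ∈ nodeX}) :
    0 ≤ sp H v ∧ (∀ z, Psi v z ∈ nodeX → ‖H z‖ ≤ sp H v) ∧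
    (∃ z, Psi v z ∈ nodeX ∧ ‖H z‖ = sp H v) ∧
    (∀ b : ℝ, (∀ z, Psi v z ∈ nodeX → ‖H z‖ ≤ b) → sp H v ≤ b) := by
  obtain ⟨z, hz, he, hm⟩ := sp_max H v hH
  refine ⟨he ▸ norm_nonneg _, fun y hy => he ▸ hm y hy, ⟨z, hz, he⟩, fun b hb => ?_⟩
  rw [← he]
  exact hb z hz

theorem nodeC (v : List D) : {z | Psi v z ∈ nodeX} ⊆ squareCantorᶜ :=
  fun _ hz => MAS_.X_notMem hz

theorem pw (k : ℕ) : (3 : ℝ) ^ k * (1 / 3) ^ k = 1 := by
  rw [← mul_pow]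
  norm_num

theorem four (n N M : ℕ) (C₀ : ℝ) (φ : ℂ → ℂ) (h : Fin n → Fin n → ℂ → ℂ) (a : List D → ℝ)
    (v : List D) (hh : HD n N h a C₀) (hφ : DifferentiableOn ℂ φ squareCantorᶜ)
    (hv : v.length < N) :
    0 ≤ AM φ M h v ∧
    (∀ i j z, Psi v z ∈ nodeX → ‖φ z ^ M * h i j z‖ ≤ 3 ^ v.length * AM φ M h v) ∧
    (∀ b : ℝ, 0 ≤ b → (∀ i j z, Psi v z ∈ nodeX → ‖φ z ^ M * h i j z‖ ≤ 3 ^ v.length * b) →
      AM φ M h v ≤ b) ∧
    (1 ≤ n → ∃ i j z, Psi v z ∈ nodeX ∧ 3 ^ v.length * AM φ M h v = ‖φ z ^ M * h i j z‖) := by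
  have hc : ∀ i j, ContinuousOn (fun z => φ z ^ M * h i j z) {z | Psi v z ∈ nodeX} := by
    intro i j
    refine ContinuousOn.mul ((hφ.continuousOn.mono (nodeC v)).pow M) ?_
    exact (hh.diff i j).continuousOn.mono fun z hz => DUA_.node_sub hv hz
  have h3 : (0 : ℝ) < 3 ^ v.length := by positivity
  have h13 : (0 : ℝ) < (1 / 3) ^ v.length := by positivity
  have hpw := pw v.length
  have hnn : ∀ x : Fin n × Fin n, 0 ≤ sz (fun z => φ z ^ M * h x.1 x.2 z) v := fun x =>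
    mul_nonneg h13.le (one _ v (hc x.1 x.2)).1
  have hle : ∀ x : Fin n × Fin n, sz (fun z => φ z ^ M * h x.1 x.2 z) v ≤ AM φ M h v := fun x =>
    le_ciSup (f := fun x : Fin n × Fin n => sz (fun z => φ z ^ M * h x.1 x.2 z) v)
      (Set.finite_range _).bddAbove x
  have hsz : ∀ x : Fin n × Fin n, 3 ^ v.length * sz (fun z => φ z ^ M * h x.1 x.2 z) v =
      sp (fun z => φ z ^ M * h x.1 x.2 z) v := by
    intro x
    unfold sz
    rw [← mul_assoc, hpw, one_mul]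
  refine ⟨Real.iSup_nonneg hnn, ?_, ?_, ?_⟩
  · intro i j z hz
    have e1 := (one _ v (hc i j)).2.1 z hz
    have e2 := hsz (i, j)
    have e3 := mul_le_mul_of_nonneg_left (hle (i, j)) h3.le
    rw [e2] at e3
    exact e1.trans e3
  · intro b hb hB
    refine Real.iSup_le (fun x => ?_) hb
    have e1 := (one _ v (hc x.1 x.2)).2.2.2 _ (hB x.1 x.2)
    have e2 := mul_le_mul_of_nonneg_left e1 h13.le
    have e3 : (1 / 3 : ℝ) ^ v.length * (3 ^ v.length * b) = b := by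
      rw [← mul_assoc, mul_comm ((1 / 3 : ℝ) ^ v.length), hpw, one_mul]
    rw [e3] at e2
    exact e2
  · intro hn
    have : Nonempty (Fin n × Fin n) := ⟨(⟨0, hn⟩, ⟨0, hn⟩)⟩
    obtain ⟨x, hx⟩ := exists_eq_ciSup_of_finite
      (f := fun x : Fin n × Fin n => sz (fun z => φ z ^ M * h x.1 x.2 z) v)
    obtain ⟨z, hz, he⟩ := (one _ v (hc x.1 x.2)).2.2.1
    refine ⟨x.1, x.2, z, hz, ?_⟩
    rw [he, ← hsz x]
    exact congrArg (fun t => 3 ^ v.length * t) hx.symm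

theorem five (n : ℕ) (δ : ℝ) (f : Fin n → ℂ → ℂ) (v : List D) (hf : Dat n δ f) :
    0 ≤ ta f v ∧ ta f v ≤ 2 ∧ (∀ k z, Psi v z ∈ nodeX → ‖f k z - f k (cc v)‖ ≤ ta f v) ∧
    ∃ k z, Psi v z ∈ nodeX ∧ ‖f k z - f k (cc v)‖ = ta f v := by
  have hcc : cc v ∈ squareCantorᶜ := nodeC v (MAI_.cc_X v)
  have hc : ∀ k, ContinuousOn (fun z => f k z - f k (cc v)) {z | Psi v z ∈ nodeX} := fun k =>
    ((hf.diff k).continuousOn.mono (nodeC v)).sub continuousOn_const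
  obtain ⟨k0, _⟩ := hf.ge (cc v) hcc
  have : Nonempty (Fin n) := ⟨k0⟩
  have hnn : ∀ k : Fin n, 0 ≤ sp (fun z => f k z - f k (cc v)) v := fun k => (one _ v (hc k)).1
  have hle : ∀ k : Fin n, sp (fun z => f k z - f k (cc v)) v ≤ ta f v := fun k =>
    le_ciSup (f := fun k : Fin n => sp (fun z => f k z - f k (cc v)) v)
      (Set.finite_range _).bddAbove k
  refine ⟨Real.iSup_nonneg hnn, ?_, ?_, ?_⟩
  · refine ciSup_le fun k => (one _ v (hc k)).2.2.2 2 fun z hz => ?_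
    have e1 := hf.le k z (nodeC v hz)
    have e2 := hf.le k (cc v) hcc
    have e3 := norm_sub_le (f k z) (f k (cc v))
    linarith
  · intro k z hz
    exact ((one _ v (hc k)).2.1 z hz).trans (hle k)
  · obtain ⟨k, hk⟩ := exists_eq_ciSup_of_finite
      (f := fun k : Fin n => sp (fun z => f k z - f k (cc v)) v)
    obtain ⟨z, hz, he⟩ := (one _ v (hc k)).2.2.1
    exact ⟨k, z, hz, he.trans hk⟩

end SZF_

theorem p_SZF : T_SZF :=
  ⟨SZF_.one, fun _ _ hv _ hz => DUA_.node_sub hv hz,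
    fun v => ⟨SZF_.nodeC v, MAI_.cc_X v⟩, SZF_.four, SZF_.five⟩

end Pool.Agent.ALQ
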