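import Pool.Agent.ALQ.TargetsG

/-!
# ALQ, UNI: the lower bound of LAV near every point of the node, by compactness
-/

set_option autoImplicit false

namespace Pool.Agent.ALQ

open Complex Metric Set Filter Topology MeasureTheory
open Pool.Corona91698f Pool.Agent.CorE Pool.Agent.CorA
open scoped Real

namespace UNI_

theorem ball_VV {x z : ℂ} (hx : x ∈ nodeX) (hz : dist z x ≤ 32 / 10000) : z ∈ VV := by
  refine ⟨?_, fun d => ?_⟩
  · have h1 := dist_triangle z x ctr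
    have h2 := hx.1
    linarith
  · have h1 := dist_triangle (psi d x) (psi d z) ctr
    have h2 := hx.2 d
    have h3 : dist (psi d x) (psi d z) = 3 * dist z x := by
      rw [dist_psi, dist_comm]
    linarith

end UNI_

open UNI_ in
theorem p_UNI (h : T_LAV) : T_UNI := by
  classical
  have h0 : ∀ b : ℂ, ∃ C : ℝ, 1 ≤ C ∧ (b ∈ nodeX → ∀ (F : ℂ → ℂ) (M μ : ℝ) (y : ℂ),
      DifferentiableOn ℂ F VV → (∀ z ∈ VV, ‖F z‖ ≤ M) → 0 < μ →
      y ∈ nodeX → μ ≤ ‖F y‖ → ∃ (m : ℕ) (a : Fin m → ℂ), (m : ℝ) ≤ C * Real.log (M / μ) ∧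
        ∀ z ∈ closedBall b (8 / 10000), M * (μ / M) ^ C * ∏ i, (dist z (a i) / C) ≤ ‖F z‖) := by
    intro b
    by_cases hb : b ∈ nodeX
    · obtain ⟨C, hC, hC'⟩ := h b (8 / 10000) (by norm_num) (by
        intro z hz
        rw [mem_closedBall] at hz
        exact ball_VV hb (by linarith))
      exact ⟨C, hC, fun _ => hC'⟩
    · exact ⟨1, le_rfl, fun hb' => absurd hb' hb⟩
  choose Cf hC1 hC2 using h0
  obtain ⟨t, ht1, ht2⟩ := isCompact_nodeX.elim_nhds_subcover (fun b => ball b (4 / 10000))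
    (fun b _ => ball_mem_nhds b (by norm_num))
  have hle : ∀ b ∈ t, Cf b ≤ 1 + ∑ b ∈ t, Cf b := by
    intro b hb
    have := Finset.single_le_sum (f := Cf) (fun i _ => zero_le_one.trans (hC1 i)) hb
    linarith
  refine ⟨1 + ∑ b ∈ t, Cf b, ?_, ?_⟩
  · have : 0 ≤ ∑ b ∈ t, Cf b := Finset.sum_nonneg fun i _ => zero_le_one.trans (hC1 i)
    linarith
  intro F M μ y x hF hM hμ hy hμy hx
  obtain ⟨b, hb⟩ := mem_iUnion.1 (ht2 hx)
  obtain ⟨hbt, hxb⟩ := mem_iUnion.1 hb
  rw [mem_ball] at hxb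
  obtain ⟨m, a, hm, ha⟩ := hC2 b (ht1 b hbt) F M μ y hF hM hμ hy hμy
  have hCb := hle b hbt
  have hCb1 := hC1 b
  set C : ℝ := 1 + ∑ b ∈ t, Cf b with hCdef
  have hμM : μ ≤ M := hμy.trans (hM y (ball_VV hy (by rw [dist_self]; norm_num)))
  have hM0 : 0 < M := hμ.trans_le hμM
  have hlog : 0 ≤ Real.log (M / μ) := Real.log_nonneg (by rwa [one_le_div hμ])
  refine ⟨m, a, hm.trans (mul_le_mul_of_nonneg_right hCb hlog), ?_⟩
  intro z hz
  rw [mem_closedBall] at hz
  refine le_trans ?_ (ha z ?_)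
  · have hr0 : 0 < μ / M := div_pos hμ hM0
    have hr1 : μ / M ≤ 1 := (div_le_one hM0).2 hμM
    have e1 : (μ / M) ^ C ≤ (μ / M) ^ (Cf b) :=
      Real.rpow_le_rpow_of_exponent_ge hr0 hr1 hCb
    have e2 : ∏ i, (dist z (a i) / C) ≤ ∏ i, (dist z (a i) / Cf b) := by
      refine Finset.prod_le_prod (fun i _ => div_nonneg dist_nonneg (by linarith)) ?_
      intro i _
      exact div_le_div_of_nonneg_left dist_nonneg (by linarith) hCb
    refine mul_le_mul (mul_le_mul_of_nonneg_left e1 hM0.le) e2 ?_ ?_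
    · exact Finset.prod_nonneg fun i _ => div_nonneg dist_nonneg (by linarith)
    · exact mul_nonneg hM0.le (Real.rpow_nonneg hr0.le _)
  · rw [mem_closedBall]
    have := dist_triangle z x b
    linarith

end Pool.Agent.ALQ
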