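import Pool.Agent.ALQ.TargetsN

/-!
# YBD: the sizes at a given depth
-/

set_option autoImplicit false

namespace Pool.Agent.ALQ

open Complex Metric Set Filter Topology MeasureTheory
open Pool.Corona91698f Pool.Agent.CorE Pool.Agent.CorA
open scoped Real BoundedContinuousFunction

theorem p_YBD : T_YBD := by
  classical
  intro N c0 a μ P hc ha hμ hsub hcase u k
  induction k with
  | zero =>
    intro _
    have h1 : 0 ≤ 2 / c0 * μ u := mul_nonneg (by positivity) (hμ u)
    simp only [lv, Finset.sum_singleton, List.append_nil, Finset.range_zero, Finset.sum_empty,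
      pow_zero, one_mul]
    linarith
  | succ k ih =>
    intro hk
    have ih' := ih (by omega)
    have e1 : ∀ F : List D → ℝ, ∑ x ∈ lv (k + 1), F x = ∑ x ∈ lv k, ∑ d : D, F (x ++ [d]) :=
      fun F => CorA.NC4_.sum_lv_snoc k F
    have hpt : ∀ x ∈ lv k, ∀ d : D, a (u ++ (x ++ [d])) ≤ a (u ++ x) / 8 +
        1 / c0 * μ (u ++ (x ++ [d])) +
        (if P (u ++ (x ++ [d])) then a (u ++ (x ++ [d])) else 0) := by
      intro x hx d
      have hxl : x.length = k := mem_lv.1 hx
      have h1 := hcase (u ++ x) d (by rw [List.length_append]; omega)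
      rw [List.append_assoc] at h1
      have n1 : 0 ≤ a (u ++ x) / 8 := div_nonneg (ha _) (by norm_num)
      have n2 : 0 ≤ 1 / c0 * μ (u ++ (x ++ [d])) := mul_nonneg (by positivity) (hμ _)
      have n3 : 0 ≤ (if P (u ++ (x ++ [d])) then a (u ++ (x ++ [d])) else 0) := by
        split_ifs
        · exact ha _
        · exact le_refl _
      rcases h1 with h1 | h1 | h1
      · linarith
      · have h2 : a (u ++ (x ++ [d])) ≤ 1 / c0 * μ (u ++ (x ++ [d])) := by
          rw [one_div, ← div_eq_inv_mul, le_div_iff₀ hc]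
          linarith
        linarith
      · rw [if_pos h1] at n3 ⊢
        linarith
    have hcard : (Finset.univ : Finset D).card = 4 := by decide
    have c1 : ∑ x ∈ lv (k + 1), a (u ++ x) ≤ 1 / 2 * ∑ x ∈ lv k, a (u ++ x) +
        1 / c0 * ∑ x ∈ lv (k + 1), μ (u ++ x) +
        ∑ x ∈ (lv (k + 1)).filter (fun x => P (u ++ x)), a (u ++ x) := by
      rw [Finset.sum_filter, e1, e1, e1]
      calc ∑ x ∈ lv k, ∑ d : D, a (u ++ (x ++ [d]))
          ≤ ∑ x ∈ lv k, ∑ d : D, (a (u ++ x) / 8 + 1 / c0 * μ (u ++ (x ++ [d])) +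
            (if P (u ++ (x ++ [d])) then a (u ++ (x ++ [d])) else 0)) :=
            Finset.sum_le_sum fun x hx => Finset.sum_le_sum fun d _ => hpt x hx d
        _ = _ := by
            simp only [Finset.sum_add_distrib, Finset.mul_sum, Finset.sum_const, hcard,
              nsmul_eq_mul]
            congr 2
            refine Finset.sum_congr rfl fun x _ => ?_
            push_cast
            ring
    have c2 : ∑ x ∈ lv k, μ (u ++ x) ≤ ∑ x ∈ lv (k + 1), μ (u ++ x) := by
      rw [e1]
      refine Finset.sum_le_sum fun x hx => ?_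
      have hxl : x.length = k := mem_lv.1 hx
      have h1 := hsub (u ++ x) (by rw [List.length_append]; omega)
      simpa only [List.append_assoc] using h1
    have c3 : ∑ i ∈ Finset.range (k + 1), (1 / 2 : ℝ) ^ i *
        ∑ x ∈ (lv (k + 1 - i)).filter (fun x => P (u ++ x)), a (u ++ x) =
        1 / 2 * ∑ i ∈ Finset.range k, (1 / 2 : ℝ) ^ i *
          ∑ x ∈ (lv (k - i)).filter (fun x => P (u ++ x)), a (u ++ x) +
        ∑ x ∈ (lv (k + 1)).filter (fun x => P (u ++ x)), a (u ++ x) := by
      rw [Finset.sum_range_succ', Finset.mul_sum (Finset.range k) _ (1 / 2 : ℝ), pow_zero,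
        one_mul, Nat.sub_zero]
      congr 1
      refine Finset.sum_congr rfl fun i _ => ?_
      rw [show k + 1 - (i + 1) = k - i by omega, pow_succ]
      ring
    rw [c3, pow_succ]
    have c4 : 1 / c0 * ∑ x ∈ lv k, μ (u ++ x) ≤ 1 / c0 * ∑ x ∈ lv (k + 1), μ (u ++ x) :=
      mul_le_mul_of_nonneg_left c2 (by positivity)
    have c5 : 2 / c0 * ∑ x ∈ lv k, μ (u ++ x) = 2 * (1 / c0 * ∑ x ∈ lv k, μ (u ++ x)) := by ring
    have c6 : 2 / c0 * ∑ x ∈ lv (k + 1), μ (u ++ x) =
      2 * (1 / c0 * ∑ x ∈ lv (k + 1), μ (u ++ x)) := by ring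
    rw [c6]
    rw [c5] at ih'
    linarith

end Pool.Agent.ALQ
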