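import Pool.Agent.CorA.Defs

/-!
# From the uniform corona theorem on the complement of `K × K` to the frozen statement

The Cantor set given by the digits `0` and `2` is the Cantor set of Mathlib; the bounded functions
are divided by a common bound.
-/

set_option autoImplicit false

namespace Pool.Agent.ALQ

open Complex Metric Set Filter Topology
open Pool.Corona91698f Pool.Agent.CorE

theorem digits_eq (d : ℕ → ℕ) (a : ℕ → Fin 3) (h : ∀ k, (a k : ℕ) = d k) :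
    Real.ofDigits a = ∑' k, (d k : ℝ) / (3 : ℝ) ^ (k + 1) := by
  unfold Real.ofDigits
  refine tsum_congr fun k => ?_
  unfold Real.ofDigitsTerm
  rw [h k, div_eq_mul_inv]
  norm_num

theorem cantor_digits : cantorSet = {x : ℝ | ∃ d : ℕ → ℕ, (∀ k, d k = 0 ∨ d k = 2) ∧
    x = ∑' k, (d k : ℝ) / (3 : ℝ) ^ (k + 1)} := by
  rw [cantorSet_eq_zero_two_ofDigits]
  ext x
  constructor
  · rintro ⟨a, h1, rfl⟩
    refine ⟨fun k => (a k : ℕ), fun k => ?_, digits_eq _ a fun k => rfl⟩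
    have h2 := h1 k
    have h3 := (a k).isLt
    have h4 : (a k : ℕ) ≠ 1 := fun h => h2 (Fin.ext h)
    show (a k : ℕ) = 0 ∨ (a k : ℕ) = 2
    omega
  · rintro ⟨d, h1, rfl⟩
    have h2 : ∀ k, d k < 3 := fun k => by rcases h1 k with h | h <;> omega
    refine ⟨fun k => ⟨d k, h2 k⟩, fun k h => ?_, digits_eq d _ fun k => rfl⟩
    have h3 := congrArg Fin.val h
    have h4 : d k = 1 := h3
    rcases h1 k with h | h <;> omega

/-- The uniform corona theorem gives the frozen statement. -/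
theorem wrap (h : ∀ (n : ℕ) (δ : ℝ), 0 < δ → ∃ C : ℝ, ∀ f : Fin n → ℂ → ℂ, Dat n δ f →
      ∃ g : Fin n → ℂ → ℂ, (∀ j, DifferentiableOn ℂ (g j) squareCantorᶜ) ∧
        (∀ z ∈ squareCantorᶜ, ∑ j, f j z * g j z = 1) ∧
        ∀ j, ∀ z ∈ squareCantorᶜ, ‖g j z‖ ≤ C) :
    ∀ (K : Set ℝ), K = {x : ℝ | ∃ d : ℕ → ℕ, (∀ k, d k = 0 ∨ d k = 2) ∧
        x = ∑' k, (d k : ℝ) / (3 : ℝ) ^ (k + 1)} →
    ∀ (Ω : Set ℂ), Ω = {z : ℂ | ¬ (z.re ∈ K ∧ z.im ∈ K)} →
    ∀ (n : ℕ) (f : Fin n → ℂ → ℂ) (δ : ℝ), 0 < δ →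
      (∀ j, DifferentiableOn ℂ (f j) Ω) →
      (∀ j, ∃ M : ℝ, ∀ z ∈ Ω, ‖f j z‖ ≤ M) →
      (∀ z ∈ Ω, ∃ j, δ ≤ ‖f j z‖) →
      ∃ g : Fin n → ℂ → ℂ,
        (∀ j, DifferentiableOn ℂ (g j) Ω) ∧
        (∀ j, ∃ M : ℝ, ∀ z ∈ Ω, ‖g j z‖ ≤ M) ∧
        (∀ z ∈ Ω, ∑ j, f j z * g j z = 1) := by
  intro K hK Ω hΩ n f δ hδ h1 h2 h3
  have hK' : K = cantorSet := by rw [hK, cantor_digits]
  have hΩ' : Ω = squareCantorᶜ := by
    rw [hΩ, hK']
    rfl
  subst hΩ'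
  choose M hM using h2
  set R : ℝ := 1 + ∑ j, |M j| with hR
  have hR0 : 0 < R := by
    have : 0 ≤ ∑ j, |M j| := Finset.sum_nonneg fun j _ => abs_nonneg _
    linarith
  have hMR : ∀ j, M j ≤ R := fun j => by
    have := Finset.single_le_sum (f := fun j => |M j|) (fun j _ => abs_nonneg _)
      (Finset.mem_univ j)
    have h4 := le_abs_self (M j)
    linarith
  have hRc : (R : ℂ) ≠ 0 := by exact_mod_cast hR0.ne'
  have hnR : ‖(R : ℂ)‖ = R := by
    rw [Complex.norm_real, Real.norm_eq_abs, abs_of_pos hR0]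
  obtain ⟨C, hC⟩ := h n (δ / R) (by positivity)
  obtain ⟨g, g1, g2, g3⟩ := hC (fun j z => f j z / R) ⟨fun j => (h1 j).div_const _,
    fun j z hz => by
      rw [norm_div, hnR, div_le_one hR0]
      exact (hM j z hz).trans (hMR j),
    fun z hz => by
      obtain ⟨j, hj⟩ := h3 z hz
      refine ⟨j, ?_⟩
      rw [norm_div, hnR]
      gcongr⟩
  refine ⟨fun j z => g j z / R, fun j => (g1 j).div_const _, fun j => ⟨C / R, fun z hz => ?_⟩,
    fun z hz => ?_⟩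
  · rw [norm_div, hnR]
    have := g3 j z hz
    gcongr
  · rw [← g2 z hz]
    refine Finset.sum_congr rfl fun j _ => ?_
    ring

end Pool.Agent.ALQ
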