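import Pool.Agent.ALQ.P_BND
import Pool.Agent.ALQ.P_LA1
import Pool.Agent.ALQ.P_LAP
import Pool.Agent.ALQ.P_STA
import Pool.Agent.ALQ.P_LOC
import Pool.Agent.ALQ.P_GIT
import Pool.Agent.ALQ.P_PRH
import Pool.Agent.ALQ.P_UNI
import Pool.Agent.ALQ.P_CIR
import Pool.Agent.ALQ.P_HNK
import Pool.Agent.ALQ.P_TRE
import Pool.Agent.ALQ.P_SRG2
import Pool.Agent.ALQ.P_YBD
import Pool.Agent.ALQ.P_SME
import Pool.Agent.ALQ.P_INC
import Pool.Agent.ALQ.P_JMP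
import Pool.Agent.ALQ.P_BAD
import Pool.Agent.ALQ.P_NMT
import Pool.Agent.ALQ.P_NMB
import Pool.Agent.ALQ.P_EXI
import Pool.Agent.ALQ.P_ENE
import Pool.Agent.ALQ.P_SZF
import Pool.Agent.ALQ.P_LST
import Pool.Agent.ALQ.P_FAR
import Pool.Agent.ALQ.P_NCR
import Pool.Agent.ALQ.P_CSF
import Pool.Agent.ALQ.P_RST
import Pool.Agent.ALQ.P_SOF
import Pool.Agent.ALQ.P_EDG
import Pool.Agent.ALQ.P_COS
import Pool.Agent.ALQ.Wrap

/-!
# Bounded corona solutions on the complement of the square Cantor set: assembly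
-/

set_option autoImplicit false

namespace Pool.Agent.ALQ

open Pool.Agent.CorE Pool.Agent.CorA

theorem a_LA1 : T_LA1 := p_LA1 a_LAV a_PRD
theorem a_LAP : T_LAP := p_LAP a_LA1
theorem a_STA : T_STA := p_STA a_ADD
theorem a_LOC : T_LOC := p_LOC a_GLL a_LAP a_STA
theorem a_GIT : T_GIT := p_GIT a_LOC
theorem a_PRH : T_PRH := p_PRH
theorem a_UNI : T_UNI := p_UNI a_LAV
theorem a_CIR : T_CIR := p_CIR a_UNI a_PRH
theorem a_HNK : T_HNK := p_HNK a_LAV a_PRD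
theorem a_TRE : T_TRE := p_TRE
theorem a_YBD : T_YBD := p_YBD
theorem a_SME : T_SME := p_SME
theorem a_INC : T_INC := p_INC a_MAS
theorem a_BAD : T_BAD := p_BAD a_GLL a_MAS
theorem a_JMP : T_JMP := p_JMP a_BAD a_INC a_MAS
theorem a_NMT : T_NMT := p_NMT a_NC1 a_YBD a_SME a_INC a_BAD a_JMP a_MAS
theorem a_NMB : T_NMB := p_NMB a_NMT
theorem a_EXI : T_EXI := p_EXI a_BAD a_MAS
theorem a_ENE : T_ENE := p_ENE a_BAD a_NMB a_EXI a_MAS p_VAR
theorem a_SZF : T_SZF := p_SZF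
theorem a_SRG : T_SRG := p_SRG2 a_HNK a_CIR a_GIT a_TRE a_SZF
theorem a_LST : T_LST := p_LST
theorem a_FAR : T_FAR := p_FAR a_SRG a_NMB a_ENE a_SZF a_LST
theorem a_NCR : T_NCR := p_NCR a_BAD a_NMB a_EXI a_SZF a_LST
theorem a_CSF : T_CSF := p_CSF a_LST
theorem a_RST : T_RST := p_RST a_LST a_SZF a_CSF
theorem a_SOF : T_SOF := p_SOF
theorem a_EDG : T_EDG := p_EDG a_LST a_SZF a_CSF a_SOF
theorem a_COS : T_COS := p_COS a_FAR a_NCR a_RST a_EDG a_LST a_SZF a_CSF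
theorem a_BND : T_BND := p_BND a_COS

end Pool.Agent.ALQ
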