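import Pool.Agent.CorA.All

/-!
# Bounded corona solutions on the complement of the square Cantor set: definitions

Project ALQ (MP_91698f, full answer of Q1). Library: `CorA` (growth below every power of the
logarithm), `CorE`, `Corona91698f`. Interface statements `T_SRG`, `T_BAD`, `T_NMB`,
`T_ENE`, `T_EXI`, `T_COS`, `T_BND` between the groups; the sub-targets of the groups are in
`Pool/Agent/ALQ/TargetsX.lean`.
-/

set_option autoImplicit false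

namespace Pool.Agent.ALQ

open Complex Metric Set Filter Topology MeasureTheory
open Pool.Corona91698f Pool.Agent.CorE Pool.Agent.CorA
open scoped Real BoundedContinuousFunction

/-- The supremum of `|H|` on the node of `v`. -/
noncomputable def sp (H : ℂ → ℂ) (v : List D) : ℝ :=
  sSup ((fun z => ‖H z‖) '' {z | Psi v z ∈ nodeX})

/-- The size of `H` at the node of `v`. -/
noncomputable def sz (H : ℂ → ℂ) (v : List D) : ℝ := (1 / 3) ^ v.length * sp H v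

/-- The size of `φ ^ M * h`, maximum over the entries of `h`. -/
noncomputable def AM {n : ℕ} (φ : ℂ → ℂ) (M : ℕ) (h : Fin n → Fin n → ℂ → ℂ) (v : List D) : ℝ :=
  ⨆ x : Fin n × Fin n, sz (fun z => φ z ^ M * h x.1 x.2 z) v

/-- The weight of a node (for `|φ| ≤ 1` the logarithm is at most `0`). -/
noncomputable def wt (φ : ℂ → ℂ) (v : List D) : ℝ := ((2 - Real.log (sp φ v)) ^ 2)⁻¹

/-- `u` is a top: the size does not drop by more than the factor `K` from the parent to `u`. -/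
def Top (K : ℝ) (a : List D → ℝ) (u : List D) : Prop := u = [] ∨ a u.dropLast ≤ K * a u

open Classical in
/-- The steep region below `s`: the words `u` of length less than `N` strictly below `s` with no
top strictly below `s` and above or equal to `u`. -/
noncomputable def Rg (N : ℕ) (K : ℝ) (a : List D → ℝ) (s : List D) : Finset (List D) :=
  (wd (N - 1)).filter fun u => s <+: u ∧ u ≠ s ∧ ∀ t, s <+: t → t <+: u → Top K a t → t = s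

/-- The tops of length less than `N`. -/
noncomputable def Tp (N : ℕ) (K : ℝ) (a : List D → ℝ) : Finset (List D) :=
  open Classical in (wd (N - 1)).filter fun u => Top K a u

/-- The oscillation of `f` around its value at the centre of the square, on the node of `u`. -/
noncomputable def ta {n : ℕ} (f : Fin n → ℂ → ℂ) (u : List D) : ℝ :=
  ⨆ k : Fin n, sp (fun z => f k z - f k (cc u)) u

/-- The bracket of `T_VAR` at `x`. -/
noncomputable def Vx {n : ℕ} (N : ℕ) (f : Fin n → ℂ → ℂ) (h : Fin n → Fin n → ℂ → ℂ)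
    (R : List D → Prop) (x : List D) : ℝ :=
  ∑ u ∈ nxt N R x, ‖mm f h u‖ + ‖mm f h x - ∑ u ∈ nxt N R x, mm f h u‖ - ‖mm f h x‖

/-! ### interface statements -/

/-- SRG (group Z, from group G): the steep region. `K ≥ Kt` arbitrary, `M ≥ 1` arbitrary. -/
def T_SRG : Prop := ∃ Kt : ℝ, 1 ≤ Kt ∧ ∀ (n : ℕ) (K : ℝ) (M : ℕ), Kt ≤ K → 1 ≤ M →
  ∃ (C : ℝ) (J : ℕ), 1 ≤ C ∧ ∀ (N : ℕ) (C₀ : ℝ) (h : Fin n → Fin n → ℂ → ℂ) (a : List D → ℝ)
    (φ : ℂ → ℂ) (s : List D), 1 ≤ N → HD n N h a C₀ → DifferentiableOn ℂ φ squareCantorᶜ →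
  (∀ z ∈ squareCantorᶜ, ‖φ z‖ ≤ 1) → s.length < N → 
  ∑ y ∈ Rg N K a s, wt φ y * AM φ M h y ≤
    C * (AM φ M h s + ∑ e ∈ nxt N (Top K a) s, AM φ M h e +
      ∑ y ∈ (Rg N K a s).filter (fun y => N ≤ y.length + J), a y)

open Classical in
/-- BAD (group N): tops with small charge. -/
def T_BAD : Prop := ∀ (n : ℕ) (C₀ K : ℝ), 0 < C₀ → 1 ≤ K → ∃ A C : ℝ, 1 ≤ A ∧ 1 ≤ C ∧
  ∀ (N : ℕ) (δ : ℝ) (f : Fin n → ℂ → ℂ) (h : Fin n → Fin n → ℂ → ℂ) (a : List D → ℝ), 1 ≤ N →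
  Dat n δ f → HD n N h a C₀ →
  ∑ u ∈ (Tp N K a).filter (fun u => A * ‖mm f h u‖ < a u), a u ≤ C

/-- NMB (group N): the tops with their oscillation. -/
def T_NMB : Prop := ∀ (n : ℕ) (C₀ K : ℝ), 0 < C₀ → 1 ≤ K → ∃ M₀ : ℕ, ∀ M : ℕ, M₀ ≤ M →
  ∃ C : ℝ, 1 ≤ C ∧
  ∀ (N : ℕ) (δ : ℝ) (f : Fin n → ℂ → ℂ) (h : Fin n → Fin n → ℂ → ℂ) (a : List D → ℝ), 1 ≤ N →
  Dat n δ f → HD n N h a C₀ → ∑ u ∈ Tp N K a, ta f u ^ M * a u ≤ C

/-- ENE (group E): the values at the exits. -/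
def T_ENE : Prop := ∀ (n : ℕ) (C₀ K : ℝ), 0 < C₀ → 1 ≤ K → ∃ M₀ : ℕ, ∀ M : ℕ, M₀ ≤ M →
  ∃ C : ℝ, 1 ≤ C ∧
  ∀ (N : ℕ) (δ : ℝ) (f : Fin n → ℂ → ℂ) (h : Fin n → Fin n → ℂ → ℂ) (a : List D → ℝ), 1 ≤ N →
  Dat n δ f → HD n N h a C₀ →
  ∑ x ∈ Tp N K a, ∑ u ∈ nxt N (Top K a) x, dist (FF f u) (FF f x) ^ M * a u ≤ C

/-- EXI (group E): the sizes at the exits below a set of tops. -/
def T_EXI : Prop := ∀ (n : ℕ) (C₀ K : ℝ), 0 < C₀ → 1 ≤ K → ∃ C : ℝ, 1 ≤ C ∧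
  ∀ (N : ℕ) (δ : ℝ) (f : Fin n → ℂ → ℂ) (h : Fin n → Fin n → ℂ → ℂ) (a : List D → ℝ)
    (t : Finset (List D)), 1 ≤ N → Dat n δ f → HD n N h a C₀ → t ⊆ Tp N K a →
  ∑ x ∈ t, ∑ u ∈ nxt N (Top K a) x, a u ≤ C * (1 + ∑ x ∈ t, a x)

/-- COS (group C): local solutions with bounded pairing. -/
def T_COS : Prop := ∀ (n : ℕ) (δ C₀ : ℝ), 0 < δ → 0 < C₀ → ∃ B X : ℝ, 1 ≤ B ∧ 0 < X ∧
  ∀ (N : ℕ) (f : Fin n → ℂ → ℂ) (h : Fin n → Fin n → ℂ → ℂ) (a : List D → ℝ), 1 ≤ N →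
  Dat n δ f → HD n N h a C₀ → ∃ g, LS n f g B ∧ ‖TB N g h‖ ≤ X

/-- BND: the theorem. -/
def T_BND : Prop := ∀ (n : ℕ) (δ : ℝ), 0 < δ → ∃ C : ℝ, 0 < C ∧
  ∀ f : Fin n → ℂ → ℂ, Dat n δ f → ∃ g : Fin n → ℂ → ℂ,
    (∀ j, DifferentiableOn ℂ (g j) squareCantorᶜ) ∧
    (∀ z ∈ squareCantorᶜ, ∑ j, f j z * g j z = 1) ∧
    ∀ j, ∀ z ∈ squareCantorᶜ, ‖g j z‖ ≤ C

end Pool.Agent.ALQ
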