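import Pool.Agent.CorA.Defs
import Pool.Agent.CorE.P_LIM

/-!
# MP_91698f Q1: the limit `N → ∞` (helper17)

Solutions of every level with one bound give a bounded solution on the complement of the square
Cantor set (limit along an ultrafilter).
-/

set_option autoImplicit false

namespace Pool.Agent.ALQ

open Complex Metric Set Filter Topology MeasureTheory
open Pool.Corona91698f Pool.Agent.CorE Pool.Agent.CorA Pool.Agent.CorE.LIM_
open scoped Real BoundedContinuousFunction

/-- The points at some distance of the square Cantor set are in the outer regions. -/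
theorem limN_mem {m N : ℕ} {z : ℂ} (hmN : m ≤ N)
    (hz : 151 / 100 < 3 ^ m * infDist z squareCantor) : z ∈ OmR (73 / 100) N := by
  intro q hq
  have hl : q.length = N := mem_lv.1 hq
  have h1 := infDist_Psi q z
  have h2 : (3 : ℝ) ^ m * infDist z squareCantor ≤ 3 ^ q.length * infDist z squareCantor := by
    have : (3 : ℝ) ^ m ≤ 3 ^ q.length := pow_le_pow_right₀ (by norm_num) (by omega)
    exact mul_le_mul_of_nonneg_right this infDist_nonneg
  linarith

/-- The limit `N → ∞`. -/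
theorem lim_bdd (n : ℕ) (δ : ℝ)
    (h : ∃ C : ℝ, 0 < C ∧ ∀ f : Fin n → ℂ → ℂ, Dat n δ f → ∀ N : ℕ, 1 ≤ N →
      ∃ G : Fin n → ℂ → ℂ, (∀ i, DifferentiableOn ℂ (G i) (OmR (73 / 100) N)) ∧
      (∀ z ∈ OmR (73 / 100) N, ∑ j, f j z * G j z = 1) ∧
      ∀ i, ∀ z ∈ OmR (73 / 100) N, ‖G i z‖ ≤ C) :
    ∃ C : ℝ, 0 < C ∧ ∀ f : Fin n → ℂ → ℂ, Dat n δ f → ∃ g : Fin n → ℂ → ℂ,
      (∀ j, DifferentiableOn ℂ (g j) squareCantorᶜ) ∧
      (∀ z ∈ squareCantorᶜ, ∑ j, f j z * g j z = 1) ∧
      ∀ j, ∀ z ∈ squareCantorᶜ, ‖g j z‖ ≤ C := by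
  obtain ⟨C, hC, hf⟩ := h
  refine ⟨C, hC, fun f hD => ?_⟩
  have h1 : ∀ N : ℕ, ∃ G : Fin n → ℂ → ℂ, 1 ≤ N →
      ((∀ i, DifferentiableOn ℂ (G i) (OmR (73 / 100) N)) ∧
      (∀ z ∈ OmR (73 / 100) N, ∑ j, f j z * G j z = 1) ∧
      ∀ i, ∀ z ∈ OmR (73 / 100) N, ‖G i z‖ ≤ C) := by
    intro N
    by_cases hN : 1 ≤ N
    · obtain ⟨G, hG⟩ := hf f hD N hN
      exact ⟨G, fun _ => hG⟩
    · exact ⟨fun _ _ => 0, fun h => absurd h hN⟩
  choose G hG using h1
  let U : Ultrafilter ℕ := Ultrafilter.of atTop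
  have hU : (U : Filter ℕ) ≤ atTop := Ultrafilter.of_le atTop
  -- every point is in the outer regions eventually
  have hm : ∀ z ∈ squareCantorᶜ, ∃ m : ℕ, 1 ≤ m ∧
      151 / 100 < 3 ^ m * infDist z squareCantor := by
    intro z hz
    have hpos : 0 < infDist z squareCantor := infDist_pos' hz
    obtain ⟨m, hm⟩ := pow_unbounded_of_one_lt (151 / 100 / infDist z squareCantor)
      (by norm_num : (1 : ℝ) < 3)
    refine ⟨m + 1, by omega, ?_⟩
    have h2 : 151 / 100 < 3 ^ m * infDist z squareCantor := by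
      rwa [div_lt_iff₀ hpos] at hm
    have h3 : (3 : ℝ) ^ m * infDist z squareCantor ≤ 3 ^ (m + 1) * infDist z squareCantor := by
      have : (3 : ℝ) ^ m ≤ 3 ^ (m + 1) := pow_le_pow_right₀ (by norm_num) (by omega)
      exact mul_le_mul_of_nonneg_right this infDist_nonneg
    linarith
  have hev : ∀ m : ℕ, ∀ᶠ N in (U : Filter ℕ), m ≤ N ∧ 1 ≤ N := fun m =>
    hU ((eventually_ge_atTop m).and (eventually_ge_atTop 1))
  have hbd : ∀ j, ∀ z ∈ squareCantorᶜ, ∀ᶠ N in (U : Filter ℕ), ‖G N j z‖ ≤ C := by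
    intro j z hz
    obtain ⟨m, _, hmz⟩ := hm z hz
    filter_upwards [hev m] with N hN
    exact (hG N hN.2).2.2 j z (limN_mem hN.1 hmz)
  have hlim : ∀ j z, ∃ l : ℂ, z ∈ squareCantorᶜ →
      Tendsto (fun N => G N j z) (U : Filter ℕ) (𝓝 l) := by
    intro j z
    by_cases hz : z ∈ squareCantorᶜ
    · obtain ⟨l, hl⟩ := lim_exists U (hbd j z hz)
      exact ⟨l, fun _ => hl⟩
    · exact ⟨0, fun h => absurd h hz⟩
  choose g hg using hlim
  refine ⟨g, ?_, ?_, ?_⟩
  · intro j z hz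
    obtain ⟨m, _, hmz⟩ := hm z hz
    have hVo : IsOpen {w : ℂ | 151 / 100 < 3 ^ m * infDist w squareCantor} :=
      isOpen_lt continuous_const (continuous_const.mul (continuous_infDist_pt _))
    have hVs : {w : ℂ | 151 / 100 < 3 ^ m * infDist w squareCantor} ⊆ squareCantorᶜ := by
      intro w hw hwK
      have : infDist w squareCantor = 0 := infDist_zero_of_mem hwK
      simp only [mem_ofPred_eq, this, mul_zero] at hw
      norm_num at hw
    have hd : DifferentiableOn ℂ (g j) {w : ℂ | 151 / 100 < 3 ^ m * infDist w squareCantor} := by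
      refine lim_hol (Φ := (U : Filter ℕ)) (F := fun N => G N j) (M := C) hVo ?_ ?_ ?_
      · filter_upwards [hev m] with N hN
        exact ((hG N hN.2).1 j).mono fun w hw => limN_mem hN.1 hw
      · filter_upwards [hev m] with N hN
        exact fun w hw => (hG N hN.2).2.2 j w (limN_mem hN.1 hw)
      · exact fun w hw => hg j w (hVs hw)
    exact (hd.differentiableAt (hVo.mem_nhds hmz)).differentiableWithinAt
  · intro z hz
    obtain ⟨m, _, hmz⟩ := hm z hz
    have h2 : Tendsto (fun N => ∑ j, f j z * G N j z) (U : Filter ℕ)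
        (𝓝 (∑ j, f j z * g j z)) :=
      tendsto_finsetSum _ fun j _ => (hg j z hz).const_mul (f j z)
    have h3 : Tendsto (fun N => ∑ j, f j z * G N j z) (U : Filter ℕ) (𝓝 1) := by
      refine tendsto_const_nhds.congr' ?_
      filter_upwards [hev m] with N hN
      exact ((hG N hN.2).2.1 z (limN_mem hN.1 hmz)).symm
    exact tendsto_nhds_unique h2 h3
  · intro j z hz
    exact le_of_tendsto (hg j z hz).norm (hbd j z hz)

end Pool.Agent.ALQ
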