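import Pool.Agent.ALQ.Defs
import Pool.Agent.ALQ.LimN

/-!
# Bounded corona solutions: block BND (helper17)

Project ALQ (helper24), problem MP_91698f, Q1.
-/

set_option autoImplicit false

namespace Pool.Agent.ALQ

open Complex Metric Set Filter Topology MeasureTheory
open Pool.Corona91698f Pool.Agent.CorE Pool.Agent.CorA
open scoped Real BoundedContinuousFunction

/-- Bounded solutions of every level, with one bound. -/
theorem lvl_of_COS (hCOS : T_COS) (hDUA : T_DUA) (n : ℕ) (δ : ℝ) (hδ : 0 < δ) :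
    ∃ C : ℝ, 0 < C ∧ ∀ f : Fin n → ℂ → ℂ, Dat n δ f → ∀ N : ℕ, 1 ≤ N →
      ∃ G : Fin n → ℂ → ℂ, (∀ i, DifferentiableOn ℂ (G i) (OmR (73 / 100) N)) ∧
      (∀ z ∈ OmR (73 / 100) N, ∑ j, f j z * G j z = 1) ∧
      ∀ i, ∀ z ∈ OmR (73 / 100) N, ‖G i z‖ ≤ C := by
  obtain ⟨C₁, hC₁, h1⟩ := hDUA n δ hδ
  obtain ⟨B, X, hB, hX, h2⟩ := hCOS n δ C₁ hδ hC₁
  obtain ⟨C, hC, h3⟩ := h1 B hB
  refine ⟨C * (1 + X), by positivity, fun f hD N hN => ?_⟩
  exact h3 N f X hD hX.le fun h a hHD => h2 N f h a hN hD hHD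

/-- The theorem, from the local solutions with bounded pairing. -/
theorem p_BND (hCOS : T_COS) : T_BND := fun n δ hδ =>
  lim_bdd n δ (lvl_of_COS hCOS a_DUA n δ hδ)

end Pool.Agent.ALQ
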