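import Pool.Agent.ALQ.Wrap
import Pool.Agent.ALQ.P_BND

/-!
# MP_91698f Q1: from the cost estimate to the statement S05397

Project ALQ (helper24), assembly file by helper52: `wrap` (helper32) and `p_BND` (helper17). The
level form is `last_lvl`; the form from `T_COS` is `last`.
-/

set_option autoImplicit false

namespace Pool.Agent.ALQ

open Complex Metric Set Filter Topology
open Pool.Corona91698f Pool.Agent.CorE Pool.Agent.CorA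

/-- Uniformly bounded corona solutions of every level. -/
def T_LVL : Prop := ∀ (n : ℕ) (δ : ℝ), 0 < δ → ∃ C : ℝ, 0 < C ∧
  ∀ f : Fin n → ℂ → ℂ, Dat n δ f → ∀ N : ℕ, 1 ≤ N →
    ∃ G : Fin n → ℂ → ℂ, (∀ i, DifferentiableOn ℂ (G i) (OmR (73 / 100) N)) ∧
      (∀ z ∈ OmR (73 / 100) N, ∑ j, f j z * G j z = 1) ∧
      ∀ i, ∀ z ∈ OmR (73 / 100) N, ‖G i z‖ ≤ C

/-- The statement S05397 from `T_BND`. -/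
theorem last_bnd (h : T_BND) :
    ∀ (K : Set ℝ), K = {x : ℝ | ∃ d : ℕ → ℕ, (∀ k, d k = 0 ∨ d k = 2) ∧
        x = ∑' k, (d k : ℝ) / (3 : ℝ) ^ (k + 1)} →
    ∀ (Ω : Set ℂ), Ω = {z : ℂ | ¬ (z.re ∈ K ∧ z.im ∈ K)} →
    ∀ (n : ℕ) (f : Fin n → ℂ → ℂ) (δ : ℝ), 0 < δ →
      (∀ j, DifferentiableOn ℂ (f j) Ω) →
      (∀ j, ∃ M : ℝ, ∀ z ∈ Ω, ‖f j z‖ ≤ M) →
      (∀ z ∈ Ω, ∃ j, δ ≤ ‖f j z‖) →
      ∃ g : Fin n → ℂ → ℂ,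
        (∀ j, DifferentiableOn ℂ (g j) Ω) ∧
        (∀ j, ∃ M : ℝ, ∀ z ∈ Ω, ‖g j z‖ ≤ M) ∧
        (∀ z ∈ Ω, ∑ j, f j z * g j z = 1) :=
  wrap fun n δ hδ => by
    obtain ⟨C, -, hC⟩ := h n δ hδ
    exact ⟨C, hC⟩

/-- The statement S05397 from uniformly bounded solutions of every level. -/
theorem last_lvl (h : T_LVL) :
    ∀ (K : Set ℝ), K = {x : ℝ | ∃ d : ℕ → ℕ, (∀ k, d k = 0 ∨ d k = 2) ∧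
        x = ∑' k, (d k : ℝ) / (3 : ℝ) ^ (k + 1)} →
    ∀ (Ω : Set ℂ), Ω = {z : ℂ | ¬ (z.re ∈ K ∧ z.im ∈ K)} →
    ∀ (n : ℕ) (f : Fin n → ℂ → ℂ) (δ : ℝ), 0 < δ →
      (∀ j, DifferentiableOn ℂ (f j) Ω) →
      (∀ j, ∃ M : ℝ, ∀ z ∈ Ω, ‖f j z‖ ≤ M) →
      (∀ z ∈ Ω, ∃ j, δ ≤ ‖f j z‖) →
      ∃ g : Fin n → ℂ → ℂ,
        (∀ j, DifferentiableOn ℂ (g j) Ω) ∧
        (∀ j, ∃ M : ℝ, ∀ z ∈ Ω, ‖g j z‖ ≤ M) ∧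
        (∀ z ∈ Ω, ∑ j, f j z * g j z = 1) :=
  last_bnd fun n δ hδ => lim_bdd n δ (h n δ hδ)

/-- The statement S05397 from local solutions with bounded pairing. -/
theorem last (h : T_COS) :
    ∀ (K : Set ℝ), K = {x : ℝ | ∃ d : ℕ → ℕ, (∀ k, d k = 0 ∨ d k = 2) ∧
        x = ∑' k, (d k : ℝ) / (3 : ℝ) ^ (k + 1)} →
    ∀ (Ω : Set ℂ), Ω = {z : ℂ | ¬ (z.re ∈ K ∧ z.im ∈ K)} →
    ∀ (n : ℕ) (f : Fin n → ℂ → ℂ) (δ : ℝ), 0 < δ →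
      (∀ j, DifferentiableOn ℂ (f j) Ω) →
      (∀ j, ∃ M : ℝ, ∀ z ∈ Ω, ‖f j z‖ ≤ M) →
      (∀ z ∈ Ω, ∃ j, δ ≤ ‖f j z‖) →
      ∃ g : Fin n → ℂ → ℂ,
        (∀ j, DifferentiableOn ℂ (g j) Ω) ∧
        (∀ j, ∃ M : ℝ, ∀ z ∈ Ω, ‖g j z‖ ≤ M) ∧
        (∀ z ∈ Ω, ∑ j, f j z * g j z = 1) :=
  last_bnd (p_BND h)

end Pool.Agent.ALQ
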