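import Pool.Agent.ALQ.Defs

/-!
# Bounded corona solutions: the soft solutions (helper17)

Project ALQ (helper24), problem MP_91698f, Q1. The local solutions
`e_k (1 - b ^ (M + 1)) / f_k + b ^ (M + 1) * l`, `b = (c - f_k) / c`, `l` a bounded solution.
-/

set_option autoImplicit false

namespace Pool.Agent.ALQ

open Complex Metric Set Filter Topology MeasureTheory
open Pool.Corona91698f Pool.Agent.CorE Pool.Agent.CorA
open scoped Real BoundedContinuousFunction

namespace Soft_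

/-- The ratio `b`. -/
noncomputable def bb {n : ℕ} (f : Fin n → ℂ → ℂ) (k : Fin n) (c : ℂ) (z : ℂ) : ℂ :=
  (c - f k z) / c

/-- The coefficient of `e_k`. -/
noncomputable def al {n : ℕ} (M : ℕ) (f : Fin n → ℂ → ℂ) (k : Fin n) (c : ℂ) (z : ℂ) : ℂ :=
  (∑ m ∈ Finset.range (M + 1), bb f k c z ^ m) / c

/-- The coefficient of the bounded solution. -/
noncomputable def be {n : ℕ} (M : ℕ) (f : Fin n → ℂ → ℂ) (k : Fin n) (c : ℂ) (z : ℂ) : ℂ :=
  bb f k c z ^ (M + 1)

theorem one {n : ℕ} (M : ℕ) (f : Fin n → ℂ → ℂ) (k : Fin n) {c : ℂ} (hc : c ≠ 0) (z : ℂ) :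
    f k z * al M f k c z + be M f k c z = 1 := by
  have h1 : f k z / c = 1 - bb f k c z := by
    unfold bb
    field_simp
    ring
  have h2 : f k z * al M f k c z = 1 - bb f k c z ^ (M + 1) := by
    have h3 := mul_neg_geom_sum (bb f k c z) (M + 1)
    rw [← h3, ← h1]
    unfold al
    ring
  rw [h2]
  unfold be
  ring

theorem bb_le {n : ℕ} {δ ρ : ℝ} (hρ : 0 < ρ) {f : Fin n → ℂ → ℂ} (hf : Dat n δ f) {k : Fin n}
    {c : ℂ} (hc : ρ ≤ ‖c‖) {z : ℂ} (hz : z ∈ squareCantorᶜ) : ‖bb f k c z‖ ≤ 1 + 1 / ρ := by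
  have hc0 : 0 < ‖c‖ := lt_of_lt_of_le hρ hc
  unfold bb
  rw [norm_div, div_le_iff₀ hc0]
  have h1 := norm_sub_le c (f k z)
  have h2 := hf.le k z hz
  have h3 : 1 ≤ 1 / ρ * ‖c‖ := by
    rw [one_div, ← div_eq_inv_mul, le_div_iff₀ hρ]
    linarith
  nlinarith

theorem be_le {n : ℕ} {ρ : ℝ} (hρ : 0 < ρ) (M : ℕ) {f : Fin n → ℂ → ℂ} {k : Fin n}
    {c : ℂ} (hc : ρ ≤ ‖c‖) (z : ℂ) :
    ‖be M f k c z‖ ≤ (1 / ρ) ^ (M + 1) * ‖f k z - c‖ ^ (M + 1) := by
  have hc0 : 0 < ‖c‖ := lt_of_lt_of_le hρ hc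
  unfold be bb
  rw [norm_pow, norm_div, ← mul_pow, norm_sub_rev]
  refine pow_le_pow_left₀ (by positivity) ?_ _
  rw [div_eq_inv_mul, one_div]
  exact mul_le_mul_of_nonneg_right (inv_anti₀ hρ hc) (norm_nonneg _)

theorem al_le {n : ℕ} {δ ρ : ℝ} (hρ : 0 < ρ) (M : ℕ) {f : Fin n → ℂ → ℂ} (hf : Dat n δ f)
    {k : Fin n} {c : ℂ} (hc : ρ ≤ ‖c‖) {z : ℂ} (hz : z ∈ squareCantorᶜ) :
    ‖al M f k c z‖ ≤ (M + 1) * (1 + 1 / ρ) ^ (M + 1) / ρ := by
  have hc0 : 0 < ‖c‖ := lt_of_lt_of_le hρ hc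
  unfold al
  rw [norm_div]
  refine div_le_div₀ (by positivity) ?_ hρ hc
  refine (norm_sum_le _ _).trans ?_
  have h1 : ∀ m ∈ Finset.range (M + 1), ‖bb f k c z ^ m‖ ≤ (1 + 1 / ρ) ^ (M + 1) := by
    intro m hm
    rw [norm_pow]
    refine (pow_le_pow_left₀ (norm_nonneg _) (bb_le hρ hf hc hz) m).trans ?_
    have h2 : (1 : ℝ) ≤ 1 + 1 / ρ := by
      have : 0 ≤ 1 / ρ := by positivity
      linarith
    exact pow_le_pow_right₀ h2 (by
      have := Finset.mem_range.1 hm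
      omega)
  refine (Finset.sum_le_sum h1).trans ?_
  rw [Finset.sum_const, Finset.card_range, nsmul_eq_mul]
  push_cast
  exact le_refl _

theorem bb_diff {n : ℕ} {δ : ℝ} {f : Fin n → ℂ → ℂ} (hf : Dat n δ f) (k : Fin n) (c : ℂ) :
    DifferentiableOn ℂ (bb f k c) squareCantorᶜ := by
  unfold bb
  exact ((differentiableOn_const c).sub (hf.diff k)).div_const c

theorem al_diff {n : ℕ} {δ : ℝ} (M : ℕ) {f : Fin n → ℂ → ℂ} (hf : Dat n δ f) (k : Fin n)
    (c : ℂ) : DifferentiableOn ℂ (al M f k c) squareCantorᶜ := by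
  unfold al
  refine DifferentiableOn.div_const ?_ c
  exact DifferentiableOn.fun_sum fun m _ => (bb_diff hf k c).pow m

theorem be_diff {n : ℕ} {δ : ℝ} (M : ℕ) {f : Fin n → ℂ → ℂ} (hf : Dat n δ f) (k : Fin n)
    (c : ℂ) : DifferentiableOn ℂ (be M f k c) squareCantorᶜ := (bb_diff hf k c).pow (M + 1)

/-- The label of an index of a node. -/
def lb {n : ℕ} (lab : List D → Option (Fin n × ℂ)) (R : Option (List D)) :
    Option (Fin n × ℂ) := R.bind lab

/-- The soft solutions. -/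
noncomputable def gg {n : ℕ} (M : ℕ) (f : Fin n → ℂ → ℂ) (lab : List D → Option (Fin n × ℂ))
    (l : Option (List D) → Fin n → ℂ → ℂ) (R : Option (List D)) (i : Fin n) (z : ℂ) : ℂ :=
  match lb lab R with
  | none => l R i z
  | some x => (if i = x.1 then al M f x.1 x.2 z else 0) + be M f x.1 x.2 z * l R i z

theorem gg_none {n : ℕ} {M : ℕ} {f : Fin n → ℂ → ℂ} {lab : List D → Option (Fin n × ℂ)}
    {l : Option (List D) → Fin n → ℂ → ℂ} {R : Option (List D)} (h : lb lab R = none)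
    (i : Fin n) (z : ℂ) : gg M f lab l R i z = l R i z := by
  unfold gg
  rw [h]

theorem gg_some {n : ℕ} {M : ℕ} {f : Fin n → ℂ → ℂ} {lab : List D → Option (Fin n × ℂ)}
    {l : Option (List D) → Fin n → ℂ → ℂ} {R : Option (List D)} {k : Fin n} {c : ℂ}
    (h : lb lab R = some (k, c)) (i : Fin n) (z : ℂ) : gg M f lab l R i z =
      (if i = k then al M f k c z else 0) + be M f k c z * l R i z := by
  unfold gg
  rw [h]

/-- The bound of the soft solutions. -/
noncomputable def B1 (M : ℕ) (ρ B₀ : ℝ) : ℝ :=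
  (M + 1) * (1 + 1 / ρ) ^ (M + 1) / ρ + (1 + 1 / ρ) ^ (M + 1) * B₀

theorem q_one {M : ℕ} {ρ : ℝ} (hρ : 0 < ρ) : 1 ≤ (1 + 1 / ρ) ^ (M + 1) := by
  have : 0 ≤ 1 / ρ := by positivity
  exact one_le_pow₀ (by linarith)

theorem B1_ge {M : ℕ} {ρ B₀ : ℝ} (hρ : 0 < ρ) (hB : 1 ≤ B₀) : B₀ ≤ B1 M ρ B₀ := by
  have h1 := q_one (M := M) hρ
  have h2 : 0 ≤ (M + 1 : ℝ) * (1 + 1 / ρ) ^ (M + 1) / ρ := by positivity
  unfold B1
  nlinarith

theorem be_le' {n : ℕ} {δ ρ : ℝ} (hρ : 0 < ρ) (M : ℕ) {f : Fin n → ℂ → ℂ} (hf : Dat n δ f)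
    {k : Fin n} {c : ℂ} (hc : ρ ≤ ‖c‖) {z : ℂ} (hz : z ∈ squareCantorᶜ) :
    ‖be M f k c z‖ ≤ (1 + 1 / ρ) ^ (M + 1) := by
  unfold be
  rw [norm_pow]
  exact pow_le_pow_left₀ (norm_nonneg _) (bb_le hρ hf hc hz) _

theorem gg_LS {n : ℕ} {δ ρ B₀ : ℝ} (hρ : 0 < ρ) (hB : 1 ≤ B₀) (M : ℕ) {f : Fin n → ℂ → ℂ}
    (hf : Dat n δ f) {lab : List D → Option (Fin n × ℂ)}
    (hlab : ∀ u k c, lab u = some (k, c) → ρ ≤ ‖c‖) {l : Option (List D) → Fin n → ℂ → ℂ}
    (hl : LS n f l B₀) : LS n f (gg M f lab l) (B1 M ρ B₀) := by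
  have hlb : ∀ R k c, lb lab R = some (k, c) → ρ ≤ ‖c‖ := by
    intro R k c h
    cases R with
    | none => simp [lb] at h
    | some u => exact hlab u k c h
  have hsub : ∀ R : Option (List D), NR R ⊆ squareCantorᶜ := fun R z hz => NR_notMem hz
  refine ⟨?_, ?_, ?_⟩
  · intro R i
    rcases hR : lb lab R with _ | ⟨k, c⟩
    · exact (hl.diff R i).congr fun z _ => gg_none hR i z
    · have h1 : DifferentiableOn ℂ (fun z => (if i = k then al M f k c z else 0) +
          be M f k c z * l R i z) (NR R) := by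
        refine DifferentiableOn.add ?_ (((be_diff M hf k c).mono (hsub R)).mul (hl.diff R i))
        by_cases hik : i = k
        · simp only [if_pos hik]
          exact (al_diff M hf k c).mono (hsub R)
        · simp only [if_neg hik]
          exact differentiableOn_const _
      exact h1.congr fun z _ => gg_some hR i z
  · intro R i z hz
    rcases hR : lb lab R with _ | ⟨k, c⟩
    · rw [gg_none hR]
      exact (hl.bd R i z hz).trans (B1_ge hρ hB)
    · rw [gg_some hR]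
      have hc := hlb R k c hR
      have h1 := al_le hρ M hf (k := k) hc (hsub R hz)
      have h2 := be_le' hρ M hf (k := k) hc (hsub R hz)
      have h3 := hl.bd R i z hz
      have h4 : ‖(if i = k then al M f k c z else 0)‖ ≤
          (M + 1) * (1 + 1 / ρ) ^ (M + 1) / ρ := by
        by_cases hik : i = k
        · rwa [if_pos hik]
        · rw [if_neg hik, norm_zero]
          positivity
      have h5 : ‖be M f k c z * l R i z‖ ≤ (1 + 1 / ρ) ^ (M + 1) * B₀ := by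
        rw [norm_mul]
        exact mul_le_mul h2 h3 (norm_nonneg _) (by positivity)
      exact (norm_add_le _ _).trans (add_le_add h4 h5)
  · intro R z hz
    rcases hR : lb lab R with _ | ⟨k, c⟩
    · simp only [gg_none hR]
      exact hl.one R z hz
    · have hc := hlb R k c hR
      have hc0 : c ≠ 0 := by
        intro h
        rw [h, norm_zero] at hc
        linarith
      simp only [gg_some hR]
      have h1 : ∑ j, f j z * ((if j = k then al M f k c z else 0) + be M f k c z * l R j z) =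
          f k z * al M f k c z + be M f k c z * ∑ j, f j z * l R j z := by
        rw [Finset.mul_sum]
        have h2 : f k z * al M f k c z = ∑ j, f j z * (if j = k then al M f k c z else 0) := by
          simp [Finset.sum_ite_eq']
        rw [h2, ← Finset.sum_add_distrib]
        exact Finset.sum_congr rfl fun j _ => by ring
      rw [h1, hl.one R z hz, mul_one]
      exact one M f k hc0 z

/-- The sum of at most `n ^ 2` terms. -/
theorem dsum_le {n : ℕ} {F : Fin n → Fin n → ℂ} {Y : ℝ} (h : ∀ i j, ‖F i j‖ ≤ Y) :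
    ‖∑ i, ∑ j, F i j‖ ≤ (n : ℝ) ^ 2 * Y := by
  refine (norm_sum_le _ _).trans ?_
  have h1 : ∀ i ∈ (Finset.univ : Finset (Fin n)), ‖∑ j, F i j‖ ≤ n * Y := by
    intro i _
    refine (norm_sum_le _ _).trans ?_
    refine (Finset.sum_le_sum fun j _ => h i j).trans ?_
    simp
  refine (Finset.sum_le_sum h1).trans ?_
  simp only [Finset.sum_const, Finset.card_univ, Fintype.card_fin, nsmul_eq_mul]
  exact le_of_eq (by ring)

theorem BB_le {n : ℕ} {f : Fin n → ℂ → ℂ} {g : Option (List D) → Fin n → ℂ → ℂ} {B : ℝ}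
    (hB : 0 ≤ B) (hg : LS n f g B) {h : Fin n → Fin n → ℂ → ℂ} {u : List D} {z : ℂ} {X : ℝ}
    (h1 : z ∈ NR (some u)) (h2 : z ∈ NR (par u)) (hX : ∀ i j, ‖h i j z‖ ≤ X) :
    ‖BB g h u z‖ ≤ (n : ℝ) ^ 2 * (B * B * X) := by
  unfold BB
  refine dsum_le fun i j => ?_
  rw [norm_mul, norm_mul]
  have a1 := hg.bd _ i z h1
  have a2 := hg.bd _ j z h2
  have a3 : ‖g (some u) i z‖ * ‖g (par u) j z‖ ≤ B * B :=
    mul_le_mul a1 a2 (norm_nonneg _) hB
  exact mul_le_mul a3 (hX i j) (norm_nonneg _) (by positivity)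

theorem BB_lab {n : ℕ} {δ ρ B₀ : ℝ} (hρ : 0 < ρ) (hB : 1 ≤ B₀) (M : ℕ) {f : Fin n → ℂ → ℂ}
    (hf : Dat n δ f) {lab : List D → Option (Fin n × ℂ)}
    (hlab : ∀ u k c, lab u = some (k, c) → ρ ≤ ‖c‖) {l : Option (List D) → Fin n → ℂ → ℂ}
    (hl : LS n f l B₀) {h : Fin n → Fin n → ℂ → ℂ} {u : List D} {z : ℂ} {X : ℝ} (hu : u ≠ [])
    (h1 : z ∈ NR (some u)) (h2 : z ∈ NR (some u.dropLast)) (ha : ∀ i j, h j i z = - h i j z)
    (hX : ∀ i j, ‖h i j z‖ ≤ X) {k : Fin n} {c c' : ℂ} (hk : lab u = some (k, c))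
    (hk' : lab u.dropLast = some (k, c')) :
    ‖BB (gg M f lab l) h u z‖ ≤ (n : ℝ) ^ 2 * (B1 M ρ B₀ * B1 M ρ B₀ * X) *
      (‖be M f k c z‖ * (1 + B1 M ρ B₀) + ‖be M f k c' z‖) := by
  have hp : par u = some u.dropLast := by
    unfold par
    rw [if_neg hu]
  have hz : z ∈ squareCantorᶜ := NR_notMem h1
  have hc := hlab u k c hk
  have hc' := hlab u.dropLast k c' hk'
  set B := B1 M ρ B₀ with hBdef
  have hB1 : B₀ ≤ B := B1_ge hρ hB
  have hB0 : 0 ≤ B := by linarith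
  have hlB : ∀ R, z ∈ NR R → ∀ i, ‖l R i z‖ ≤ B := fun R hR i => (hl.bd R i z hR).trans hB1
  have hX0 : 0 ≤ X := (norm_nonneg _).trans (hX k k)
  set α := al M f k c z
  set α' := al M f k c' z
  set β := be M f k c z
  set β' := be M f k c' z
  have hα : ‖α‖ ≤ B := by
    refine (al_le hρ M hf hc hz).trans ?_
    have : 0 ≤ (1 + 1 / ρ) ^ (M + 1) * B₀ := by positivity
    rw [hBdef]
    unfold B1
    linarith
  have hα' : ‖α'‖ ≤ B := by
    refine (al_le hρ M hf hc' hz).trans ?_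
    have : 0 ≤ (1 + 1 / ρ) ^ (M + 1) * B₀ := by positivity
    rw [hBdef]
    unfold B1
    linarith
  have hβ' : ‖β'‖ ≤ B := by
    refine (be_le' hρ M hf hc' hz).trans ?_
    have h3 : (1 + 1 / ρ) ^ (M + 1) ≤ (1 + 1 / ρ) ^ (M + 1) * B₀ :=
      le_mul_of_one_le_right (by positivity) hB
    have h4 : 0 ≤ (M + 1 : ℝ) * (1 + 1 / ρ) ^ (M + 1) / ρ := by positivity
    rw [hBdef]
    unfold B1
    linarith
  set E : Fin n → ℂ := fun i => if i = k then (1 : ℂ) else 0 with hE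
  have hE1 : ∀ i, ‖E i‖ ≤ 1 := by
    intro i
    simp only [hE]
    split_ifs <;> simp
  have hkk : h k k z = 0 := by
    have := ha k k
    have h3 : (2 : ℂ) * h k k z = 0 := by linear_combination this
    exact (mul_eq_zero.1 h3).resolve_left two_ne_zero
  have hexp : BB (gg M f lab l) h u z =
      (∑ i, ∑ j, E i * l (some u.dropLast) j z * h i j z) * (α * β') +
      (∑ i, ∑ j, l (some u) i z * E j * h i j z) * (β * α') +
      (∑ i, ∑ j, l (some u) i z * l (some u.dropLast) j z * h i j z) * (β * β') := by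
    have e0 : (∑ i, ∑ j, E i * E j * h i j z) = 0 := by
      have : ∀ i, ∑ j, E i * E j * h i j z = E i * h i k z := by
        intro i
        simp [hE, Finset.sum_ite_eq']
      simp only [this]
      simp [hE, Finset.sum_ite_eq', hkk]
    have e1 : BB (gg M f lab l) h u z = (∑ i, ∑ j, E i * E j * h i j z) * (α * α') +
        (∑ i, ∑ j, E i * l (some u.dropLast) j z * h i j z) * (α * β') +
        (∑ i, ∑ j, l (some u) i z * E j * h i j z) * (β * α') +
        (∑ i, ∑ j, l (some u) i z * l (some u.dropLast) j z * h i j z) * (β * β') := by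
      unfold BB
      rw [hp]
      simp only [Finset.sum_mul, ← Finset.sum_add_distrib]
      refine Finset.sum_congr rfl fun i _ => Finset.sum_congr rfl fun j _ => ?_
      rw [gg_some (R := some u) (k := k) (c := c) hk i z,
        gg_some (R := some u.dropLast) (k := k) (c := c') hk' j z]
      have e2 : (if i = k then al M f k c z else 0) = E i * α := by
        simp only [hE]
        split_ifs <;> simp [α]
      have e3 : (if j = k then al M f k c' z else 0) = E j * α' := by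
        simp only [hE]
        split_ifs <;> simp [α']
      rw [e2, e3]
      ring
    rw [e1, e0]
    ring
  have s1 : ‖∑ i, ∑ j, E i * l (some u.dropLast) j z * h i j z‖ ≤ (n : ℝ) ^ 2 * (B * X) := by
    refine dsum_le fun i j => ?_
    rw [norm_mul, norm_mul]
    have a1 : ‖E i‖ * ‖l (some u.dropLast) j z‖ ≤ 1 * B :=
      mul_le_mul (hE1 i) (hlB _ h2 j) (norm_nonneg _) (by norm_num)
    rw [one_mul] at a1
    exact mul_le_mul a1 (hX i j) (norm_nonneg _) hB0
  have s2 : ‖∑ i, ∑ j, l (some u) i z * E j * h i j z‖ ≤ (n : ℝ) ^ 2 * (B * X) := by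
    refine dsum_le fun i j => ?_
    rw [norm_mul, norm_mul]
    have a1 : ‖l (some u) i z‖ * ‖E j‖ ≤ B * 1 :=
      mul_le_mul (hlB _ h1 i) (hE1 j) (norm_nonneg _) hB0
    rw [mul_one] at a1
    exact mul_le_mul a1 (hX i j) (norm_nonneg _) hB0
  have s3 : ‖∑ i, ∑ j, l (some u) i z * l (some u.dropLast) j z * h i j z‖ ≤
      (n : ℝ) ^ 2 * (B * B * X) := by
    refine dsum_le fun i j => ?_
    rw [norm_mul, norm_mul]
    have a1 : ‖l (some u) i z‖ * ‖l (some u.dropLast) j z‖ ≤ B * B :=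
      mul_le_mul (hlB _ h1 i) (hlB _ h2 j) (norm_nonneg _) hB0
    exact mul_le_mul a1 (hX i j) (norm_nonneg _) (by positivity)
  rw [hexp]
  have t1 : ‖(∑ i, ∑ j, E i * l (some u.dropLast) j z * h i j z) * (α * β')‖ ≤
      (n : ℝ) ^ 2 * (B * X) * (B * ‖β'‖) := by
    rw [norm_mul, norm_mul]
    exact mul_le_mul s1 (mul_le_mul_of_nonneg_right hα (norm_nonneg _)) (by positivity)
      (by positivity)
  have t2 : ‖(∑ i, ∑ j, l (some u) i z * E j * h i j z) * (β * α')‖ ≤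
      (n : ℝ) ^ 2 * (B * X) * (‖β‖ * B) := by
    rw [norm_mul, norm_mul]
    exact mul_le_mul s2 (mul_le_mul_of_nonneg_left hα' (norm_nonneg _)) (by positivity)
      (by positivity)
  have t3 : ‖(∑ i, ∑ j, l (some u) i z * l (some u.dropLast) j z * h i j z) * (β * β')‖ ≤
      (n : ℝ) ^ 2 * (B * B * X) * (‖β‖ * B) := by
    rw [norm_mul, norm_mul]
    exact mul_le_mul s3 (mul_le_mul_of_nonneg_left hβ' (norm_nonneg _)) (by positivity)
      (by positivity)
  refine (norm_add₃_le).trans ?_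
  refine (add_le_add (add_le_add t1 t2) t3).trans (le_of_eq ?_)
  ring

end Soft_

open Soft_ in
/-- SOFT: the soft solutions and their pairing. `lab u = some (k, c)`: the node `u` uses the
function `k` and the constant `c`; `none`: the bounded local solutions of the library. -/
theorem soft (n : ℕ) (δ ρ : ℝ) (M : ℕ) (hδ : 0 < δ) (hρ : 0 < ρ) : ∃ B C : ℝ, 1 ≤ B ∧ 0 < C ∧
    ∀ (f : Fin n → ℂ → ℂ) (lab : List D → Option (Fin n × ℂ)), Dat n δ f →
    (∀ u k c, lab u = some (k, c) → ρ ≤ ‖c‖) → ∃ g, LS n f g B ∧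
    ∀ (h : Fin n → Fin n → ℂ → ℂ) (u : List D) (z : ℂ) (X : ℝ), z ∈ NR (some u) →
      z ∈ NR (par u) → (∀ i j, h j i z = - h i j z) → (∀ i j, ‖h i j z‖ ≤ X) →
      (‖BB g h u z‖ ≤ C * X) ∧
      ∀ k c c', u ≠ [] → lab u = some (k, c) → lab u.dropLast = some (k, c') →
        ‖BB g h u z‖ ≤ C * (‖f k z - c‖ ^ (M + 1) + ‖f k z - c'‖ ^ (M + 1)) * X := by
  obtain ⟨B₀, hB₀, hL⟩ := a_LCL n δ hδ
  set B := B1 M ρ B₀ with hBdef
  have hB1 : B₀ ≤ B := B1_ge hρ hB₀
  have hB : 1 ≤ B := hB₀.trans hB1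
  refine ⟨B, (n : ℝ) ^ 2 * (B * B) * (1 + (1 + B) * (1 / ρ) ^ (M + 1)) + 1, hB, by positivity,
    fun f lab hf hlab => ?_⟩
  obtain ⟨l, hl⟩ := hL f hf
  refine ⟨gg M f lab l, gg_LS hρ hB₀ M hf hlab hl, ?_⟩
  intro h u z X h1 h2 ha hX
  have hq : 0 ≤ (1 / ρ) ^ (M + 1) := by positivity
  constructor
  · have h3 := BB_le (by linarith) (gg_LS hρ hB₀ M hf hlab hl) h1 h2 hX
    have hn : 0 ≤ X ∨ n = 0 := by
      rcases Nat.eq_zero_or_pos n with h0 | h0
      · exact Or.inr h0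
      · exact Or.inl ((norm_nonneg _).trans (hX ⟨0, h0⟩ ⟨0, h0⟩))
    rcases hn with hX0 | hn
    · refine h3.trans ?_
      have h4 : 0 ≤ (n : ℝ) ^ 2 * (B * B) * ((1 + B) * (1 / ρ) ^ (M + 1)) * X := by positivity
      nlinarith
    · exfalso
      obtain ⟨j, _⟩ := hf.ge z (NR_notMem h1)
      subst hn
      exact j.elim0
  · intro k c c' hu hk hk'
    have hX0 : 0 ≤ X := (norm_nonneg _).trans (hX k k)
    have hp : par u = some u.dropLast := by
      unfold par
      rw [if_neg hu]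
    have h3 := BB_lab hρ hB₀ M hf hlab hl hu h1 (hp ▸ h2) ha hX hk hk'
    have b1 := be_le hρ M (hlab u k c hk) (f := f) (k := k) z
    have b2 := be_le hρ M (hlab u.dropLast k c' hk') (f := f) (k := k) z
    refine h3.trans ?_
    have hY : 0 ≤ (n : ℝ) ^ 2 * (B * B * X) := by positivity
    have h5 : ‖be M f k c z‖ * (1 + B) + ‖be M f k c' z‖ ≤
        (1 + B) * (1 / ρ) ^ (M + 1) * (‖f k z - c‖ ^ (M + 1) + ‖f k z - c'‖ ^ (M + 1)) := by
      have h6 : ‖be M f k c z‖ * (1 + B) ≤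
          (1 / ρ) ^ (M + 1) * ‖f k z - c‖ ^ (M + 1) * (1 + B) :=
        mul_le_mul_of_nonneg_right b1 (by linarith)
      have h7 : ‖be M f k c' z‖ ≤ (1 / ρ) ^ (M + 1) * ‖f k z - c'‖ ^ (M + 1) * (1 + B) :=
        b2.trans (le_mul_of_one_le_right (by positivity) (by linarith))
      calc _ ≤ _ := add_le_add h6 h7
        _ = _ := by ring
    refine (mul_le_mul_of_nonneg_left h5 hY).trans ?_
    have h8 : 0 ≤ ((n : ℝ) ^ 2 * (B * B) + 1) *
        (‖f k z - c‖ ^ (M + 1) + ‖f k z - c'‖ ^ (M + 1)) * X := by positivity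
    nlinarith

end Pool.Agent.ALQ
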