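import Pool.Agent.ALQ.TargetsC
import Pool.Agent.ALQ.Soft

/-!
# Bounded corona solutions: the pairing of the soft solutions (helper17)

Project ALQ (helper24), problem MP_91698f, Q1: `T_COS` from `T_FAR`, `T_BAD`, `T_NMB`, `T_ENE`
with scalar labels.
-/

set_option autoImplicit false

namespace Pool.Agent.ALQ

open Complex Metric Set Filter Topology MeasureTheory
open Pool.Corona91698f Pool.Agent.CorE Pool.Agent.CorA
open scoped Real BoundedContinuousFunction

namespace COSb_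

open Pool.Agent.CorE.SLF_ (rad rad_pos rad_mul circ circ_NR circ_par cm_eq)
open Pool.Agent.CorA.MAI_ (circ_Om circ_par' circ_X cc_X cm_le cm_in cm_last sum_wd split_last
  a_nil)

/-! ### the cost of a node -/

theorem cost (hSZF : T_SZF) (n : ℕ) (δ ρ C₀ : ℝ) (M : ℕ) (hδ : 0 < δ) (hρ : 0 < ρ)
    (hC₀ : 0 < C₀) : ∃ B C : ℝ, 1 ≤ B ∧ 0 < C ∧
    ∀ (f : Fin n → ℂ → ℂ) (lab : List D → Option (Fin n × ℂ)), Dat n δ f →
    (∀ u k c, lab u = some (k, c) → ρ ≤ ‖c‖) → ∃ g, LS n f g B ∧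
    ∀ (N : ℕ) (h : Fin n → Fin n → ℂ → ℂ) (a : List D → ℝ), HD n N h a C₀ →
      (∑ q ∈ lv N, ‖cm q (BB g h q)‖ ≤ C) ∧ ∀ u : List D, u.length < N →
        ‖cm u (BB g h u)‖ ≤ C * a u ∧
        ∀ k c c', u ≠ [] → lab u = some (k, c) → lab u.dropLast = some (k, c') →
          ‖cm u (BB g h u)‖ ≤ C * (AM (fun z => (f k z - c) / 2) (M + 1) h u +
            AM (fun z => (f k z - c') / 2) (M + 1) h u) := by
  obtain ⟨B, C, hB, hC, hS⟩ := soft n δ ρ M hδ hρ
  have hB0 : 0 ≤ B := by linarith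
  refine ⟨B, C * 2 ^ (M + 1) + (n : ℝ) ^ 2 * B ^ 2 * (C₀ + 1), hB, by positivity, ?_⟩
  intro f lab hf hlab
  obtain ⟨g, hg, hBB⟩ := hS f lab hf hlab
  refine ⟨g, hg, fun N h a hh => ⟨?_, fun u hu => ⟨?_, ?_⟩⟩⟩
  · refine (cm_last hg hB0 hh).trans ?_
    have h1 : 0 ≤ C * 2 ^ (M + 1) := by positivity
    have h2 : 0 ≤ (n : ℝ) ^ 2 * B ^ 2 := by positivity
    nlinarith
  · refine (cm_in hg hB0 hh hu).trans (mul_le_mul_of_nonneg_right ?_ (hh.nn u))
    have h1 : 0 ≤ C * 2 ^ (M + 1) := by positivity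
    have h2 : 0 ≤ (n : ℝ) ^ 2 * B ^ 2 := by positivity
    nlinarith
  · intro k c c' hu0 hk hk'
    have hAM := fun c : ℂ => hSZF.2.2.2.1 n N (M + 1) C₀ (fun z => (f k z - c) / 2) h a u hh
      (((hf.diff k).sub (differentiableOn_const c)).div_const 2) hu
    obtain ⟨p1, p2, -, -⟩ := hAM c
    obtain ⟨q1, q2, -, -⟩ := hAM c'
    set Y := AM (fun z => (f k z - c) / 2) (M + 1) h u with hY
    set Y' := AM (fun z => (f k z - c') / 2) (M + 1) h u with hY'
    have h1 : ‖cm u (BB g h u)‖ ≤ rad u * (C * 2 ^ (M + 1) * (3 ^ u.length * (Y + Y'))) := by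
      refine cm_le u _ fun z hz => ?_
      have hzX : Psi u z ∈ nodeX := circ_X hz
      have : Nonempty (Fin n × Fin n) := ⟨(k, k)⟩
      obtain ⟨x₀, hx₀⟩ := Finite.exists_max (fun x : Fin n × Fin n => ‖h x.1 x.2 z‖)
      have h2 := (hBB h u z ‖h x₀.1 x₀.2 z‖ (circ_NR hz) (circ_par' hz)
        (fun i j => hh.anti i j z (circ_Om hu.le hz)) (fun i j => hx₀ (i, j))).2 k c c' hu0 hk hk'
      refine h2.trans ?_
      have h3 := p2 x₀.1 x₀.2 z hzX
      have h4 := q2 x₀.1 x₀.2 z hzX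
      have e : ∀ w : ℂ, ‖(w / 2) ^ (M + 1) * h x₀.1 x₀.2 z‖ * 2 ^ (M + 1) =
          ‖w‖ ^ (M + 1) * ‖h x₀.1 x₀.2 z‖ := by
        intro w
        rw [norm_mul, norm_pow, norm_div]
        have : ‖(2 : ℂ)‖ = 2 := by simp
        rw [this, div_pow]
        field_simp
      have h5 : ‖f k z - c‖ ^ (M + 1) * ‖h x₀.1 x₀.2 z‖ ≤ 3 ^ u.length * Y * 2 ^ (M + 1) := by
        rw [← e]
        exact mul_le_mul_of_nonneg_right h3 (by positivity)
      have h6 : ‖f k z - c'‖ ^ (M + 1) * ‖h x₀.1 x₀.2 z‖ ≤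
          3 ^ u.length * Y' * 2 ^ (M + 1) := by
        rw [← e]
        exact mul_le_mul_of_nonneg_right h4 (by positivity)
      have h7 := mul_le_mul_of_nonneg_left (add_le_add h5 h6) hC.le
      calc C * (‖f k z - c‖ ^ (M + 1) + ‖f k z - c'‖ ^ (M + 1)) * ‖h x₀.1 x₀.2 z‖
          = C * (‖f k z - c‖ ^ (M + 1) * ‖h x₀.1 x₀.2 z‖ +
            ‖f k z - c'‖ ^ (M + 1) * ‖h x₀.1 x₀.2 z‖) := by ring
        _ ≤ _ := h7
        _ = _ := by ring
    have h2 := rad_mul u
    have h3 : rad u * (C * 2 ^ (M + 1) * (3 ^ u.length * (Y + Y'))) =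
        77 / 100 * (C * 2 ^ (M + 1) * (Y + Y')) := by
      rw [← h2]
      ring
    have h4 : 0 ≤ C * 2 ^ (M + 1) * (Y + Y') := by positivity
    have h5 : 0 ≤ (n : ℝ) ^ 2 * B ^ 2 * (C₀ + 1) * (Y + Y') := by positivity
    nlinarith

/-! ### the weight -/

theorem x_le {x : ℝ} (h0 : 0 ≤ x) (h1 : x ≤ 1) : x ≤ 4 * ((2 - Real.log x) ^ 2)⁻¹ := by
  rcases h0.eq_or_lt with h | h
  · rw [← h, Real.log_zero]
    norm_num
  · have hl : Real.log x ≤ 0 := Real.log_nonpos h0 h1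
    have hp : 0 < (2 - Real.log x) ^ 2 := by
      have : 0 < 2 - Real.log x := by linarith
      positivity
    rw [← div_eq_mul_inv, le_div_iff₀ hp]
    have h2 : 1 + (- Real.log x) / 2 ≤ Real.exp ((- Real.log x) / 2) := by
      have := Real.add_one_le_exp ((- Real.log x) / 2)
      linarith
    have h3 : (1 + (- Real.log x) / 2) ^ 2 ≤ Real.exp ((- Real.log x) / 2) ^ 2 :=
      pow_le_pow_left₀ (by linarith) h2 2
    have h4 : Real.exp ((- Real.log x) / 2) ^ 2 = x⁻¹ := by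
      rw [← Real.exp_nat_mul]
      have : ((2 : ℕ) : ℝ) * ((- Real.log x) / 2) = - Real.log x := by push_cast; ring
      rw [this, Real.exp_neg, Real.exp_log h]
    rw [h4] at h3
    have h5 : x * (1 + (- Real.log x) / 2) ^ 2 ≤ 1 := by
      have := mul_le_mul_of_nonneg_left h3 h0
      rwa [mul_inv_cancel₀ h.ne'] at this
    nlinarith

theorem AM_succ (hSZF : T_SZF) {n N M : ℕ} {C₀ : ℝ} {φ : ℂ → ℂ} {h : Fin n → Fin n → ℂ → ℂ}
    {a : List D → ℝ} {v : List D} (hh : HD n N h a C₀) (hφ : DifferentiableOn ℂ φ squareCantorᶜ)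
    (hφ1 : ∀ z ∈ squareCantorᶜ, ‖φ z‖ ≤ 1) (hv : v.length < N) :
    AM φ (M + 1) h v ≤ 4 * (wt φ v * AM φ M h v) := by
  have hsub := (hSZF.2.2.1 v).1
  obtain ⟨s0, s1, -, s3⟩ := hSZF.1 φ v (hφ.continuousOn.mono hsub)
  have s4 : sp φ v ≤ 1 := s3 1 fun z hz => hφ1 z (hsub hz)
  obtain ⟨p1, p2, -, -⟩ := hSZF.2.2.2.1 n N M C₀ φ h a v hh hφ hv
  obtain ⟨-, -, p3, -⟩ := hSZF.2.2.2.1 n N (M + 1) C₀ φ h a v hh hφ hv
  have h1 : sp φ v ≤ 4 * wt φ v := x_le s0 s4
  refine p3 _ ?_ fun i j z hz => ?_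
  · have : 0 ≤ wt φ v := by unfold wt; positivity
    positivity
  · have e : ‖φ z ^ (M + 1) * h i j z‖ = ‖φ z‖ * ‖φ z ^ M * h i j z‖ := by
      rw [pow_succ, ← norm_mul]
      congr 1
      ring
    rw [e]
    have h2 := p2 i j z hz
    have h3 := s1 z hz
    have h4 : ‖φ z‖ * ‖φ z ^ M * h i j z‖ ≤ (4 * wt φ v) * (3 ^ v.length * AM φ M h v) :=
      mul_le_mul (h3.trans h1) h2 (norm_nonneg _) (by unfold wt; positivity)
    refine h4.trans (le_of_eq ?_)
    ring

/-! ### the sizes at a node, with the constant of another node -/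

theorem AM_top (hSZF : T_SZF) {n N : ℕ} (M : ℕ) {C₀ δ : ℝ} {f : Fin n → ℂ → ℂ}
    {h : Fin n → Fin n → ℂ → ℂ} {a : List D → ℝ} {v : List D} (hf : Dat n δ f)
    (hh : HD n N h a C₀) (hv : v.length < N) (s : List D) (k : Fin n) :
    AM (fun z => (f k z - FF f s k) / 2) M h v ≤
      (ta f v ^ M + dist (FF f v) (FF f s) ^ M) * a v := by
  obtain ⟨-, -, p3, -⟩ := hSZF.2.2.2.1 n N M C₀ (fun z => (f k z - FF f s k) / 2) h a v hh
    (((hf.diff k).sub (differentiableOn_const _)).div_const 2) hv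
  obtain ⟨t0, -, t2, -⟩ := hSZF.2.2.2.2 n δ f v hf
  have hd0 : 0 ≤ dist (FF f v) (FF f s) := dist_nonneg
  have ha := hh.nn v
  refine p3 _ (by positivity) fun i j z hz => ?_
  have h1 := t2 k z hz
  have h2 : dist (FF f v k) (FF f s k) ≤ dist (FF f v) (FF f s) := dist_le_pi_dist _ _ k
  have h3 : ‖f k z - FF f s k‖ ≤ ta f v + dist (FF f v) (FF f s) := by
    have e : f k z - FF f s k = (f k z - f k (cc v)) + (FF f v k - FF f s k) := by
      unfold CorA.FF
      ring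
    rw [e]
    refine (norm_add_le _ _).trans ?_
    rw [← dist_eq_norm (FF f v k)]
    linarith
  have h4 : ‖(f k z - FF f s k) / 2‖ ≤ max (ta f v) (dist (FF f v) (FF f s)) := by
    rw [norm_div]
    have : ‖(2 : ℂ)‖ = 2 := by simp
    rw [this]
    have := le_max_left (ta f v) (dist (FF f v) (FF f s))
    have := le_max_right (ta f v) (dist (FF f v) (FF f s))
    linarith
  have h5 : ‖(f k z - FF f s k) / 2‖ ^ M ≤ ta f v ^ M + dist (FF f v) (FF f s) ^ M := by
    refine (pow_le_pow_left₀ (norm_nonneg _) h4 M).trans ?_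
    have a1 : 0 ≤ ta f v ^ M := by positivity
    have a2 : 0 ≤ dist (FF f v) (FF f s) ^ M := by positivity
    rcases max_choice (ta f v) (dist (FF f v) (FF f s)) with h | h <;> rw [h] <;> linarith
  rw [norm_mul, norm_pow]
  have h6 := hh.up v hv i j z hz
  calc ‖(f k z - FF f s k) / 2‖ ^ M * ‖h i j z‖
      ≤ (ta f v ^ M + dist (FF f v) (FF f s) ^ M) * (3 ^ v.length * a v) :=
        mul_le_mul h5 h6 (norm_nonneg _) (by positivity)
    _ = _ := by ring

/-! ### the resets -/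

open Classical in
/-- The tolerance: resets happen only at tops. -/
noncomputable def tb (K : ℝ) (a : List D → ℝ) (e : ℝ) (u : List D) : ℝ :=
  if Top K a u then e else 3

/-- No fresh words. -/
def nf : List D → Prop := fun _ => False

theorem FF_dist (hSZF : T_SZF) {n : ℕ} {δ : ℝ} {f : Fin n → ℂ → ℂ} (hf : Dat n δ f)
    (u v : List D) : dist (FF f u) (FF f v) ≤ 2 := by
  refine (dist_pi_le_iff (by norm_num)).2 fun k => ?_
  have h1 : ∀ u : List D, ‖FF f u k‖ ≤ 1 := fun u =>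
    hf.le k (cc u) ((hSZF.2.2.1 u).1 (hSZF.2.2.1 u).2)
  rw [dist_eq_norm]
  refine (norm_sub_le _ _).trans ?_
  have := h1 u
  have := h1 v
  linarith

/-- The frozen value is the value at some word. -/
theorem Cs_eq {n : ℕ} {F : List D → Fin n → ℂ} {nc : List D → Prop} {tol : List D → ℝ}
    {Cs : List D → Fin n → ℂ} (hCs : Rule F nc tol Cs) (p : List D) : ∃ x, Cs p = F x := by
  obtain ⟨x, -, -, h, -⟩ := (p_CST n F nc tol).2 Cs hCs p
  exact ⟨x, h⟩

section rules

variable {n : ℕ} {δ K e : ℝ} {f : Fin n → ℂ → ℂ} {a : List D → ℝ} {Cs : List D → Fin n → ℂ}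

theorem reset_top (hSZF : T_SZF) (hf : Dat n δ f) (hCs : Rule (FF f) nf (tb K a e) Cs)
    {u : List D} (hu : Reset (FF f) nf (tb K a e) Cs u) : Top K a u := by
  by_contra hT
  obtain ⟨-, -, h3⟩ := hu
  obtain ⟨x, hx⟩ := Cs_eq hCs u.dropLast
  rw [hx] at h3
  have h4 := FF_dist hSZF hf u x
  unfold tb at h3
  rw [if_neg hT] at h3
  linarith

/-- Without a reset the value is kept. -/
theorem keep (hCs : Rule (FF f) nf (tb K a e) Cs) {u : List D} (hu : u ≠ [])
    (hr : ¬ Reset (FF f) nf (tb K a e) Cs u) : Cs u = Cs u.dropLast := by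
  have e1 : u = u.dropLast ++ [u.getLast hu] := (List.dropLast_append_getLast hu).symm
  have h1 := (hCs.2 u.dropLast (u.getLast hu)).2.1 (fun h => h)
  rw [← e1] at h1
  refine h1 ?_
  by_contra h
  push Not at h
  exact hr ⟨hu, fun h => h, h⟩

theorem at_reset (hCs : Rule (FF f) nf (tb K a e) Cs) {u : List D}
    (hr : Reset (FF f) nf (tb K a e) Cs u) : Cs u = FF f u := by
  obtain ⟨hu, -, h3⟩ := hr
  have e1 : u = u.dropLast ++ [u.getLast hu] := (List.dropLast_append_getLast hu).symm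
  have h1 := (hCs.2 u.dropLast (u.getLast hu)).2.2 (fun h => h)
  rw [← e1] at h1
  exact h1 h3

theorem keep_nt (hSZF : T_SZF) (hf : Dat n δ f) (hCs : Rule (FF f) nf (tb K a e) Cs)
    {u : List D} (hu : ¬ Top K a u) : Cs u = Cs u.dropLast :=
  keep hCs (fun h => hu (Or.inl h)) fun hr => hu (reset_top hSZF hf hCs hr)

/-- At a top the frozen value is near. -/
theorem near_top (he : 0 ≤ e) (hCs : Rule (FF f) nf (tb K a e) Cs) {u : List D}
    (hu : Top K a u) : dist (FF f u) (Cs u) ≤ e := by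
  by_cases h0 : u = []
  · rw [h0, hCs.1, dist_self]
    exact he
  · by_cases hr : Reset (FF f) nf (tb K a e) Cs u
    · rw [at_reset hCs hr, dist_self]
      exact he
    · rw [keep hCs h0 hr]
      by_contra h
      push Not at h
      refine hr ⟨h0, fun h => h, ?_⟩
      unfold tb
      rw [if_pos hu]
      exact h

/-- The frozen value is that of the last top. -/
theorem Cs_lst (hSZF : T_SZF) (hLST : T_LST) (hf : Dat n δ f)
    (hCs : Rule (FF f) nf (tb K a e) Cs) (u : List D) : Cs u = Cs (lst K a u) := by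
  obtain ⟨-, l2, l3, -⟩ := hLST K a
  induction u using List.reverseRecOn with
  | nil => rw [l2 [] (Or.inl rfl)]
  | append_singleton p d ih =>
    by_cases hT : Top K a (p ++ [d])
    · rw [l2 _ hT]
    · rw [l3 p d hT, keep_nt hSZF hf hCs hT, List.dropLast_concat, ih]

end rules

theorem mm_V {n N : ℕ} (f : Fin n → ℂ → ℂ) (h : Fin n → Fin n → ℂ → ℂ) (R : List D → Prop)
    (x : List D) : 0 ≤ Vx N f h R x := by
  unfold Vx
  have e1 : ‖mm f h x‖ ≤ ‖mm f h x - ∑ u ∈ nxt N R x, mm f h u‖ +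
      ‖∑ u ∈ nxt N R x, mm f h u‖ := by
    have := norm_add_le (mm f h x - ∑ u ∈ nxt N R x, mm f h u) (∑ u ∈ nxt N R x, mm f h u)
    rwa [sub_add_cancel] at this
  have e2 : ‖∑ u ∈ nxt N R x, mm f h u‖ ≤ ∑ u ∈ nxt N R x, ‖mm f h u‖ := norm_sum_le _ _
  linarith

open Classical in
/-- The total size of the resets. -/
theorem rst (hSZF : T_SZF) (n : ℕ) (C₀ A e : ℝ) (hC₀ : 0 < C₀) (hA : 1 ≤ A) (he : 0 < e) :
    ∃ C ε : ℝ, 1 ≤ C ∧ 0 < ε ∧ ∀ (N : ℕ) (δ K P : ℝ) (f : Fin n → ℂ → ℂ)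
      (h : Fin n → Fin n → ℂ → ℂ) (a : List D → ℝ) (Cs : List D → Fin n → ℂ), 1 ≤ N →
    Dat n δ f → HD n N h a C₀ → Rule (FF f) nf (tb K a e) Cs →
    ∑ u ∈ (Tp N K a).filter (fun u => ¬ GC f h a A ε u), a u ≤ P →
    ∑ u ∈ (wd (N - 1)).filter (fun u => Reset (FF f) nf (tb K a e) Cs u), a u ≤
      C * (1 + P) := by
  obtain ⟨C2, hC2, h2⟩ := a_SRB n e he
  obtain ⟨C3, hC3, h3⟩ := a_MAS n
  have hC2' : 0 < C2 := by linarith
  have hC3' : 0 < C3 := by linarith
  have hA' : 0 < A := by linarith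
  refine ⟨2 * (1 + A * ((1 + C2) * (C3 * C₀)) + A * C3 + C₀), 1 / (12 * (A * C2)), by
    have : 0 < A * ((1 + C2) * (C3 * C₀)) := by positivity
    have : 0 < A * C3 := by positivity
    linarith, by positivity, ?_⟩
  intro N δ K P f h a Cs hN hf hh hCs hP
  obtain ⟨m1, m2, m3⟩ := h3 N δ C₀ f h a hf hh
  have hnn := hh.nn
  set ε : ℝ := 1 / (12 * (A * C2)) with hεd
  have hε : 0 < ε := by positivity
  set R : List D → Prop := RR (FF f) nf (tb K a e) Cs with hR
  set T : Finset (List D) := (wd (N - 1)).filter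
    (fun u => Reset (FF f) nf (tb K a e) Cs u) with hT
  set T' : Finset (List D) := T.filter (fun u => GC f h a A ε u) with hT'
  set E : Finset (List D) := (Tp N K a).filter (fun u => ¬ GC f h a A ε u) with hE
  set X : Finset (List D) := (wd (N - 1)).filter R with hX
  have hmT : ∀ u ∈ T, u.length ≤ N - 1 ∧ Reset (FF f) nf (tb K a e) Cs u := by
    intro u hu
    rw [hT, Finset.mem_filter, mem_wd] at hu
    exact hu
  have hmX : ∀ x ∈ X, x.length ≤ N - 1 ∧ R x := by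
    intro x hx
    rw [hX, Finset.mem_filter, mem_wd] at hx
    exact hx
  have hXtop : ∀ x ∈ X, Top K a x := by
    intro x hx
    rcases (hmX x hx).2 with h | h | h
    · exact Or.inl h
    · exact h.elim
    · exact reset_top hSZF hf hCs h
  -- the tree decomposition of `T'`
  have hTU : T' = X.biUnion fun x => T'.filter fun u => u ∈ nxt N R x := by
    ext u
    rw [Finset.mem_biUnion]
    constructor
    · intro hu
      have huT := (Finset.mem_filter.1 hu).1
      obtain ⟨x, x1, x2, x3, x4, -⟩ := SRT_.anc hCs (hmT u huT).2 (hmT u huT).1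
      refine ⟨x, ?_, Finset.mem_filter.2 ⟨hu, x4⟩⟩
      rw [hX, Finset.mem_filter, mem_wd]
      exact ⟨x1, x2⟩
    · rintro ⟨x, -, hu⟩
      exact (Finset.mem_filter.1 hu).1
  have hdis : Set.PairwiseDisjoint (↑X : Set (List D))
      (fun x => T'.filter fun u => u ∈ nxt N R x) := by
    intro x hx x' hx' hxx
    rw [Function.onFun, Finset.disjoint_left]
    intro u hu hu'
    exact hxx (VAR_.disj_nxt N R (hmX x hx).2 (hmX x' hx').2 (Finset.mem_filter.1 hu).2
      (Finset.mem_filter.1 hu').2)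
  have hsumT : ∀ g : List D → ℝ, ∑ u ∈ T', g u =
      ∑ x ∈ X, ∑ u ∈ T'.filter (fun u => u ∈ nxt N R x), g u := by
    intro g
    conv_lhs => rw [hTU]
    exact Finset.sum_biUnion hdis
  -- the estimate for one `x`
  have hone : ∀ x ∈ X, ∑ u ∈ T'.filter (fun u => u ∈ nxt N R x), ‖mm f h u‖ ≤
      (1 + C2) * Vx N f h R x + C3 * (if GC f h a A ε x then 0 else a x) +
      C2 * (3 * ε) * (a x + ∑ u ∈ T'.filter (fun u => u ∈ nxt N R x), a u) := by
    intro x hx
    obtain ⟨x1, x2⟩ := hmX x hx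
    have hV := mm_V (N := N) f h R x
    have hs0 : 0 ≤ ∑ u ∈ T'.filter (fun u => u ∈ nxt N R x), a u :=
      Finset.sum_nonneg fun u _ => hnn u
    have hax := hnn x
    by_cases hG : GC f h a A ε x
    · rw [if_pos hG]
      have hNC : ∀ u, GC f h a A ε u → ¬ NC f (3 * ε) u := by
        rintro u ⟨-, hu⟩ ⟨k, x, y, hx, hy, hxy⟩
        obtain ⟨-, -, t2, -⟩ := hSZF.2.2.2.2 n δ f u hf
        have b1 := t2 k x hx
        have b2 := t2 k y hy
        have b3 : ‖f k x - f k y‖ ≤ ‖f k x - f k (cc u)‖ + ‖f k y - f k (cc u)‖ := by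
          have e1 : f k x - f k y = (f k x - f k (cc u)) - (f k y - f k (cc u)) := by ring
          rw [e1]
          exact norm_sub_le _ _
        linarith
      have h4 := h2 N δ C₀ (3 * ε) f h a x (nxt N R x) (T'.filter fun u => u ∈ nxt N R x) hf hh
        (by positivity) (fun u hu => (Finset.mem_filter.1 hu).2) (by omega) (fun u hu => by
          have := (VAR_.mem_nxt.1 hu).1
          omega) (hNC x hG) (fun u hu => by
          obtain ⟨u1, u2⟩ := Finset.mem_filter.1 hu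
          obtain ⟨u3, u4⟩ := Finset.mem_filter.1 u1
          obtain ⟨v1, v2⟩ := hmT u u3
          refine ⟨hNC u u4, ?_⟩
          obtain ⟨y, y1, y2, y3, y4, y5⟩ := SRT_.anc hCs v2 v1
          have hxy : x = y := VAR_.disj_nxt N R x2 y2 u2 y4
          rw [hxy]
          have htop := reset_top hSZF hf hCs v2
          unfold tb at y5
          rw [if_pos htop] at y5
          exact y5.le)
      have h5 : ∑ u ∈ nxt N R x, ‖mm f h u‖ + ‖mm f h x - ∑ u ∈ nxt N R x, mm f h u‖ -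
        ‖mm f h x‖ = Vx N f h R x := rfl
      rw [h5] at h4
      linarith
    · rw [if_neg hG]
      have h4 : ∑ u ∈ T'.filter (fun u => u ∈ nxt N R x), ‖mm f h u‖ ≤
          ∑ u ∈ nxt N R x, ‖mm f h u‖ :=
        Finset.sum_le_sum_of_subset_of_nonneg (fun u hu => (Finset.mem_filter.1 hu).2)
          fun u _ _ => norm_nonneg _
      have h5 : ∑ u ∈ nxt N R x, ‖mm f h u‖ ≤ Vx N f h R x + ‖mm f h x‖ := by
        unfold Vx
        have := norm_nonneg (mm f h x - ∑ u ∈ nxt N R x, mm f h u)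
        linarith
      have h6 := m1 x (by omega)
      have h7 : 0 ≤ C2 * Vx N f h R x := by positivity
      have h8 : 0 ≤ C2 * (3 * ε) * (a x + ∑ u ∈ T'.filter (fun u => u ∈ nxt N R x), a u) := by
        positivity
      linarith
  -- the variation
  have hvar : ∑ x ∈ X, Vx N f h R x ≤ C3 * C₀ := by
    have v1 := p_VAR _ N (mm f h) R hN (Or.inl rfl) m2
    have v3 : ∑ v ∈ lv (N - 1), ‖mm f h v‖ ≤ C3 * C₀ := by
      calc ∑ v ∈ lv (N - 1), ‖mm f h v‖ ≤ ∑ v ∈ lv (N - 1), C3 * a v :=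
            Finset.sum_le_sum fun v hv => m1 v (by
              rw [mem_lv] at hv
              omega)
        _ = C3 * ∑ v ∈ lv (N - 1), a v := by rw [Finset.mul_sum]
        _ ≤ C3 * C₀ := mul_le_mul_of_nonneg_left (hh.lev (N - 1) (by omega)) hC3'.le
    exact v1.trans v3
  have hAX : ∑ x ∈ X, a x ≤ C₀ + ∑ u ∈ T, a u := by
    have hsub : X ⊆ {([] : List D)} ∪ T := by
      intro x hx
      rw [Finset.mem_union, Finset.mem_singleton]
      rcases (hmX x hx).2 with h | h | h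
      · exact Or.inl h
      · exact h.elim
      · right
        rw [hT, Finset.mem_filter, mem_wd]
        exact ⟨(hmX x hx).1, h⟩
    have a0 : a [] ≤ C₀ := a_nil hN hh
    have a1 := Finset.sum_le_sum_of_subset_of_nonneg hsub fun x _ _ => hnn x
    have a4 := SRT_.sum_union_le {([] : List D)} T a hnn
    rw [Finset.sum_singleton] at a4
    linarith
  have hEX : ∑ x ∈ X, (if GC f h a A ε x then 0 else a x) ≤ P := by
    have e1 : ∑ x ∈ X, (if GC f h a A ε x then 0 else a x) =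
        ∑ x ∈ X.filter (fun u => ¬ GC f h a A ε u), a x := by
      rw [Finset.sum_filter (fun u => ¬ GC f h a A ε u) a]
      exact Finset.sum_congr rfl fun x _ => (ite_not _ _ _).symm
    rw [e1]
    refine le_trans (Finset.sum_le_sum_of_subset_of_nonneg ?_ fun x _ _ => hnn x) hP
    intro x hx
    obtain ⟨x1, x2⟩ := Finset.mem_filter.1 hx
    rw [Finset.mem_filter]
    refine ⟨?_, x2⟩
    unfold Tp
    rw [Finset.mem_filter, mem_wd]
    exact ⟨(hmX x x1).1, hXtop x x1⟩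
  have hM : ∑ u ∈ T', ‖mm f h u‖ ≤ (1 + C2) * (C3 * C₀) + C3 * P +
      C2 * (3 * ε) * (∑ x ∈ X, a x + ∑ u ∈ T', a u) := by
    rw [hsumT (fun u => ‖mm f h u‖)]
    refine (Finset.sum_le_sum hone).trans ?_
    rw [Finset.sum_add_distrib, Finset.sum_add_distrib, ← Finset.mul_sum, ← Finset.mul_sum,
      ← Finset.mul_sum, Finset.sum_add_distrib, ← hsumT a]
    have k1 := mul_le_mul_of_nonneg_left hvar (by linarith : 0 ≤ 1 + C2)
    have k2 := mul_le_mul_of_nonneg_left hEX hC3'.le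
    linarith
  have hTT : ∑ u ∈ T, a u ≤ P + ∑ u ∈ T', a u := by
    rw [← Finset.sum_filter_add_sum_filter_not T (fun u => GC f h a A ε u)]
    have : ∑ u ∈ T.filter (fun u => ¬ GC f h a A ε u), a u ≤ P := by
      refine le_trans (Finset.sum_le_sum_of_subset_of_nonneg ?_ fun x _ _ => hnn x) hP
      intro x hx
      obtain ⟨x1, x2⟩ := Finset.mem_filter.1 hx
      rw [Finset.mem_filter]
      refine ⟨?_, x2⟩
      unfold Tp
      rw [Finset.mem_filter, mem_wd]
      exact ⟨(hmT x x1).1, reset_top hSZF hf hCs (hmT x x1).2⟩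
    linarith
  have hTA : ∑ u ∈ T', a u ≤ A * ∑ u ∈ T', ‖mm f h u‖ := by
    rw [Finset.mul_sum]
    exact Finset.sum_le_sum fun u hu => (Finset.mem_filter.1 hu).2.1
  have hT'T : ∑ u ∈ T', a u ≤ ∑ u ∈ T, a u :=
    Finset.sum_le_sum_of_subset_of_nonneg (Finset.filter_subset _ _) fun x _ _ => hnn x
  have hP0 : 0 ≤ P := (Finset.sum_nonneg fun u _ => hnn u).trans hP
  have hq : A * C2 * (3 * ε) = 1 / 4 := by
    rw [hεd]
    field_simp
    norm_num
  generalize ∑ u ∈ T, a u = SR at *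
  generalize ∑ u ∈ T', a u = S' at *
  generalize ∑ x ∈ X, a x = AX at *
  generalize ∑ u ∈ T', ‖mm f h u‖ = Mm at *
  have k1 : A * Mm ≤ A * ((1 + C2) * (C3 * C₀) + C3 * P + C2 * (3 * ε) * (AX + S')) :=
    mul_le_mul_of_nonneg_left hM hA'.le
  have k2 : A * (C2 * (3 * ε) * (AX + S')) ≤ 1 / 4 * (C₀ + 2 * SR) := by
    have e1 : A * (C2 * (3 * ε) * (AX + S')) = (A * C2 * (3 * ε)) * (AX + S') := by ring
    rw [e1, hq]
    linarith
  have k3 : SR ≤ 2 * (P + A * ((1 + C2) * (C3 * C₀)) + A * (C3 * P) + C₀ / 4) := by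
    linarith
  have k4 : 0 ≤ A * ((1 + C2) * (C3 * C₀)) := by positivity
  have k5 : 0 ≤ A * C3 := by positivity
  nlinarith

/-! ### sums over the tree of the tops -/

theorem sum_fib {U S : Finset (List D)} (L : List D → List D) (Rs : List D → Finset (List D))
    (G : List D → List D → ℝ) (hG : ∀ s ∈ S, ∀ u ∈ Rs s, 0 ≤ G s u)
    (hU : ∀ u ∈ U, L u ∈ S ∧ u ∈ Rs (L u)) :
    ∑ u ∈ U, G (L u) u ≤ ∑ s ∈ S, ∑ u ∈ Rs s, G s u := by
  rw [← Finset.sum_fiberwise_of_maps_to (s := U) (t := S) (g := L) (fun u hu => (hU u hu).1)]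
  refine Finset.sum_le_sum fun s hs => ?_
  calc ∑ u ∈ U.filter (fun u => L u = s), G (L u) u
      = ∑ u ∈ U.filter (fun u => L u = s), G s u :=
        Finset.sum_congr rfl fun u hu => by rw [(Finset.mem_filter.1 hu).2]
    _ ≤ ∑ u ∈ Rs s, G s u := by
        refine Finset.sum_le_sum_of_subset_of_nonneg ?_ fun u hu _ => hG s hs u hu
        intro u hu
        obtain ⟨u1, u2⟩ := Finset.mem_filter.1 hu
        rw [← u2]
        exact (hU u u1).2

open Classical in
/-- The exotic tops. -/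
theorem exo {n : ℕ} {C₀ K A Cb Cn ε : ℝ} {M : ℕ} (hε : 0 < ε)
    (hB : ∀ (N : ℕ) (δ : ℝ) (f : Fin n → ℂ → ℂ) (h : Fin n → Fin n → ℂ → ℂ) (a : List D → ℝ),
      1 ≤ N → Dat n δ f → HD n N h a C₀ →
      ∑ u ∈ (Tp N K a).filter (fun u => A * ‖mm f h u‖ < a u), a u ≤ Cb)
    (hn : ∀ (N : ℕ) (δ : ℝ) (f : Fin n → ℂ → ℂ) (h : Fin n → Fin n → ℂ → ℂ) (a : List D → ℝ),
      1 ≤ N → Dat n δ f → HD n N h a C₀ → ∑ u ∈ Tp N K a, ta f u ^ M * a u ≤ Cn)
    {N : ℕ} {δ : ℝ} {f : Fin n → ℂ → ℂ} {h : Fin n → Fin n → ℂ → ℂ} {a : List D → ℝ}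
    (hSZF : T_SZF) (hN : 1 ≤ N) (hf : Dat n δ f) (hh : HD n N h a C₀) :
    ∑ u ∈ (Tp N K a).filter (fun u => ¬ GC f h a A ε u), a u ≤ Cb + (ε⁻¹) ^ M * Cn := by
  have h1 := hB N δ f h a hN hf hh
  have h2 := hn N δ f h a hN hf hh
  have hnn := hh.nn
  have ht : ∀ u, 0 ≤ ta f u := fun u => (hSZF.2.2.2.2 n δ f u hf).1
  have h3 : ∀ u ∈ Tp N K a, (if ¬ GC f h a A ε u then a u else 0) ≤
      (if A * ‖mm f h u‖ < a u then a u else 0) + (ε⁻¹) ^ M * (ta f u ^ M * a u) := by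
    intro u _
    have hu := hnn u
    have htu := ht u
    have h4 : 0 ≤ (ε⁻¹) ^ M * (ta f u ^ M * a u) := by positivity
    have h5 : 0 ≤ (if A * ‖mm f h u‖ < a u then a u else 0) := by split_ifs <;> linarith
    by_cases hG : GC f h a A ε u
    · rw [if_neg (not_not.2 hG)]
      linarith
    · rw [if_pos hG]
      by_cases hb : A * ‖mm f h u‖ < a u
      · rw [if_pos hb]
        linarith
      · have hta : ε < ta f u := by
          by_contra hle
          exact hG ⟨not_lt.1 hb, not_lt.1 hle⟩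
        have h6 : 1 ≤ (ε⁻¹) ^ M * ta f u ^ M := by
          rw [← mul_pow]
          refine one_le_pow₀ ?_
          rw [← div_eq_inv_mul, le_div_iff₀ hε]
          linarith
        have h7 : a u ≤ (ε⁻¹) ^ M * ta f u ^ M * a u := le_mul_of_one_le_left hu h6
        rw [mul_assoc] at h7
        linarith
  have h4 := Finset.sum_le_sum h3
  rw [Finset.sum_add_distrib, ← Finset.sum_filter, ← Finset.sum_filter, ← Finset.mul_sum] at h4
  refine h4.trans ?_
  have h5 : (ε⁻¹) ^ M * ∑ u ∈ Tp N K a, ta f u ^ M * a u ≤ (ε⁻¹) ^ M * Cn :=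
    mul_le_mul_of_nonneg_left h2 (by positivity)
  linarith

end COSb_

open COSb_ in
open Pool.Agent.CorA.MAI_ (split_last a_nil) in
open Classical in
/-- COS, with scalar labels. -/
theorem p_COSb (hFAR : T_FAR) (hBAD : T_BAD) (hNMB : T_NMB) (hENE : T_ENE) (hSZF : T_SZF)
    (hLST : T_LST) : T_COS := by
  intro n δ C₀ hδ hC₀
  obtain ⟨Kt, hKt, hF⟩ := hFAR
  obtain ⟨M1, hM1⟩ := hF n C₀ Kt hC₀ le_rfl
  obtain ⟨A, Cb, hA, hCb, hB⟩ := hBAD n C₀ Kt hC₀ (by linarith)
  obtain ⟨M2, hM2⟩ := hNMB n C₀ Kt hC₀ (by linarith)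
  obtain ⟨M3, hM3⟩ := hENE n C₀ Kt hC₀ (by linarith)
  set M : ℕ := max M1 (max M2 M3) with hM
  obtain ⟨Cf, hCf, hf1⟩ := hM1 M (le_max_left _ _)
  obtain ⟨Cn, hCn, hn1⟩ := hM2 (M + 1)
    (((le_max_left M2 M3).trans (le_max_right M1 _)).trans (Nat.le_succ _))
  obtain ⟨Ce, hCe, he1⟩ := hM3 (M + 1)
    (((le_max_right M2 M3).trans (le_max_right M1 _)).trans (Nat.le_succ _))
  obtain ⟨Cr, ε, hCr, hε, hr⟩ := rst hSZF n C₀ A (δ / 2) hC₀ hA (by positivity)
  obtain ⟨B, Cc, hB1, hCc, hcost⟩ := cost hSZF n δ (δ / 2) C₀ M hδ (by positivity) hC₀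
  set P : ℝ := Cb + (ε⁻¹) ^ (M + 1) * Cn with hPd
  have hP0 : 0 ≤ P := by positivity
  refine ⟨B, Cc + Cc * (C₀ + Cr * (1 + P) + 8 * Cf + (2 * Cn + Ce)), hB1, by positivity, ?_⟩
  intro N f h a hN hf hh
  have hnn := hh.nn
  have hccz : ∀ x : List D, cc x ∈ squareCantorᶜ := fun x =>
    (hSZF.2.2.1 x).1 (hSZF.2.2.1 x).2
  obtain ⟨Cs, hCs⟩ := (p_CST n (CorA.FF f) nf (tb Kt a (δ / 2))).1
  have hge : ∀ u, ∃ k, δ ≤ ‖Cs u k‖ := by
    intro u
    obtain ⟨x, hx⟩ := Cs_eq hCs u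
    rw [hx]
    exact hf.ge (cc x) (hccz x)
  have hk : ∀ c : Fin n → ℂ, ∃ k : Fin n, (∃ j, δ ≤ ‖c j‖) → δ ≤ ‖c k‖ := by
    intro c
    by_cases hc : ∃ j, δ ≤ ‖c j‖
    · obtain ⟨j, hj⟩ := hc
      exact ⟨j, fun _ => hj⟩
    · obtain ⟨k₀, _⟩ := hge []
      exact ⟨k₀, fun hc' => absurd hc' hc⟩
  choose kk hkk using hk
  obtain ⟨l1, l2, l3, -, l5, l6, l7, -⟩ := hLST Kt a
  set L : List D → List D := lst Kt a with hL
  have hCL : ∀ u, Cs u = Cs (L u) := Cs_lst hSZF hLST hf hCs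
  set lab : List D → Option (Fin n × ℂ) := fun u =>
    some (kk (Cs u), CorA.FF f (L u) (kk (Cs u))) with hlabd
  have hlab : ∀ u k c, lab u = some (k, c) → δ / 2 ≤ ‖c‖ := by
    intro u k c hu
    simp only [hlabd, Option.some.injEq, Prod.mk.injEq] at hu
    obtain ⟨rfl, rfl⟩ := hu
    have h1 := near_top (by positivity) hCs (l1 u).2.1
    rw [← hCL] at h1
    have h2 := (dist_le_pi_dist (CorA.FF f (L u)) (Cs u) (kk (Cs u))).trans h1
    have h3 := hkk (Cs u) (hge u)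
    rw [dist_eq_norm] at h2
    have h4 := norm_sub_norm_le (Cs u (kk (Cs u))) (CorA.FF f (L u) (kk (Cs u)))
    rw [norm_sub_rev] at h4
    linarith
  obtain ⟨g, hg, hcg⟩ := hcost f lab hf hlab
  obtain ⟨c1, c2⟩ := hcg N h a hh
  refine ⟨g, hg, ?_⟩
  set φ : List D → ℂ → ℂ := fun s z =>
    (f (kk (Cs s)) z - CorA.FF f s (kk (Cs s))) / 2 with hφd
  have hφdiff : ∀ s, DifferentiableOn ℂ (φ s) squareCantorᶜ := fun s =>
    ((hf.diff _).sub (differentiableOn_const _)).div_const 2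
  have hφb : ∀ s, ∀ z ∈ squareCantorᶜ, ‖φ s z‖ ≤ 1 ∧
      ‖φ s z‖ ≤ ∑ k, ‖f k z - f k (cc s)‖ := by
    intro s z hz
    have e0 : ‖φ s z‖ = ‖f (kk (Cs s)) z - f (kk (Cs s)) (cc s)‖ / 2 := by
      simp only [hφd]
      rw [norm_div]
      have : ‖(2 : ℂ)‖ = 2 := by simp
      rw [this]
      rfl
    have e1 := norm_sub_le (f (kk (Cs s)) z) (f (kk (Cs s)) (cc s))
    have e2 := hf.le (kk (Cs s)) z hz
    have e3 := hf.le (kk (Cs s)) (cc s) (hccz s)
    have e4 : ‖f (kk (Cs s)) z - f (kk (Cs s)) (cc s)‖ ≤ ∑ k, ‖f k z - f k (cc s)‖ :=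
      Finset.single_le_sum (f := fun k => ‖f k z - f k (cc s)‖) (fun k _ => norm_nonneg _)
        (Finset.mem_univ _)
    have e5 := norm_nonneg (f (kk (Cs s)) z - f (kk (Cs s)) (cc s))
    rw [e0]
    constructor <;> linarith
  have hlt : ∀ u ∈ wd (N - 1), u.length < N := by
    intro u hu
    have := mem_wd.1 hu
    omega
  have hAM0 : ∀ s u (m : ℕ), u.length < N → 0 ≤ AM (φ s) m h u := fun s u m hu =>
    (hSZF.2.2.2.1 n N m C₀ (φ s) h a u hh (hφdiff s) hu).1
  -- the four kinds of words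
  have hpt : ∀ u ∈ wd (N - 1), ‖cm u (BB g h u)‖ ≤ Cc *
      ((if u = [] then a u else 0) +
      (if Reset (CorA.FF f) nf (tb Kt a (δ / 2)) Cs u then a u else 0) +
      (if ¬ Top Kt a u then 2 * AM (φ (L u)) (M + 1) h u else 0) +
      (if (Top Kt a u ∧ u ≠ []) then AM (φ u) (M + 1) h u +
        AM (φ (L u.dropLast)) (M + 1) h u else 0)) := by
    intro u hu
    have hl := hlt u hu
    obtain ⟨d1, d2⟩ := c2 u hl
    have hau := hnn u
    have n1 := hAM0 (L u) u (M + 1) hl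
    have n2 := hAM0 u u (M + 1) hl
    have n3 := hAM0 (L u.dropLast) u (M + 1) hl
    have e1 : 0 ≤ (if u = [] then a u else 0) := by split_ifs <;> linarith
    have e2 : 0 ≤ (if Reset (CorA.FF f) nf (tb Kt a (δ / 2)) Cs u then a u else 0) := by
      split_ifs <;> linarith
    have e3 : 0 ≤ (if ¬ Top Kt a u then 2 * AM (φ (L u)) (M + 1) h u else 0) := by
      split_ifs <;> linarith
    have e4 : 0 ≤ (if (Top Kt a u ∧ u ≠ []) then AM (φ u) (M + 1) h u +
        AM (φ (L u.dropLast)) (M + 1) h u else 0) := by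
      split_ifs <;> linarith
    by_cases b1 : u = []
    · refine d1.trans (mul_le_mul_of_nonneg_left ?_ hCc.le)
      rw [if_pos b1] at e1 ⊢
      linarith
    by_cases b2 : Reset (CorA.FF f) nf (tb Kt a (δ / 2)) Cs u
    · refine d1.trans (mul_le_mul_of_nonneg_left ?_ hCc.le)
      rw [if_pos b2] at e2 ⊢
      linarith
    have hkeep := keep hCs b1 b2
    have ep : u = u.dropLast ++ [u.getLast b1] := (List.dropLast_append_getLast b1).symm
    have hd := d2 (kk (Cs u)) (CorA.FF f (L u) (kk (Cs u)))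
      (CorA.FF f (L u.dropLast) (kk (Cs u))) b1 rfl (by
        simp only [hlabd]
        rw [← hkeep])
    have f2 : (fun z => (f (kk (Cs u)) z - CorA.FF f (L u.dropLast) (kk (Cs u))) / 2) =
        φ (L u.dropLast) := by
      simp only [hφd]
      rw [← hCL, ← hkeep]
    rw [f2] at hd
    refine hd.trans (mul_le_mul_of_nonneg_left ?_ hCc.le)
    by_cases b3 : Top Kt a u
    · have hLu : L u = u := l2 u b3
      have f1 : (fun z => (f (kk (Cs u)) z - CorA.FF f (L u) (kk (Cs u))) / 2) = φ u := by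
        simp only [hφd]
        rw [hLu]
      rw [f1]
      rw [if_pos (⟨b3, b1⟩ : Top Kt a u ∧ u ≠ [])] at e4 ⊢
      linarith
    · have hLu : L u = L u.dropLast := by
        have := l3 u.dropLast (u.getLast b1)
        rw [← ep] at this
        exact this b3
      have f1 : (fun z => (f (kk (Cs u)) z - CorA.FF f (L u) (kk (Cs u))) / 2) = φ (L u) := by
        simp only [hφd]
        rw [← hCL]
      rw [f1, ← hLu]
      rw [if_pos b3] at e3 ⊢
      rw [← hLu] at e4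
      linarith
  have hs := Finset.sum_le_sum hpt
  rw [← Finset.mul_sum, Finset.sum_add_distrib, Finset.sum_add_distrib,
    Finset.sum_add_distrib] at hs
  -- first sum
  have s1 : ∑ u ∈ wd (N - 1), (if u = [] then a u else 0) ≤ C₀ := by
    rw [Finset.sum_ite_eq', if_pos (mem_wd.2 (by simp))]
    exact a_nil hN hh
  -- second sum
  have s2 : ∑ u ∈ wd (N - 1), (if Reset (CorA.FF f) nf (tb Kt a (δ / 2)) Cs u then a u else 0) ≤
      Cr * (1 + P) := by
    rw [← Finset.sum_filter]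
    exact hr N δ Kt P f h a Cs hN hf hh hCs
      (exo hε hB hn1 hSZF hN hf hh)
  -- third sum
  have s3 : ∑ u ∈ wd (N - 1), (if ¬ Top Kt a u then 2 * AM (φ (L u)) (M + 1) h u else 0) ≤
      8 * Cf := by
    rw [← Finset.sum_filter]
    have t1 : ∀ u ∈ (wd (N - 1)).filter (fun u => ¬ Top Kt a u),
        2 * AM (φ (L u)) (M + 1) h u ≤ 8 * (wt (φ (L u)) u * AM (φ (L u)) M h u) := by
      intro u hu
      have := AM_succ hSZF (M := M) hh (hφdiff (L u)) (fun z hz => (hφb (L u) z hz).1)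
        (hlt u (Finset.mem_filter.1 hu).1)
      linarith
    refine (Finset.sum_le_sum t1).trans ?_
    rw [← Finset.mul_sum]
    refine mul_le_mul_of_nonneg_left ?_ (by norm_num)
    refine le_trans (sum_fib L (fun s => Rg N Kt a s) (fun s u => wt (φ s) u * AM (φ s) M h u)
      (S := Tp N Kt a) ?_ ?_) (hf1 N δ f h a φ hN hf hh hφdiff hφb)
    · intro s _ u hu
      unfold Rg at hu
      have := hAM0 s u M (hlt u (Finset.mem_filter.1 hu).1)
      have : 0 ≤ wt (φ s) u := by unfold wt; positivity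
      positivity
    · intro u hu
      obtain ⟨u1, u2⟩ := Finset.mem_filter.1 hu
      refine ⟨?_, l5 N u (hlt u u1) u2⟩
      unfold Tp
      rw [Finset.mem_filter, mem_wd]
      exact ⟨(l1 u).1.length_le.trans (mem_wd.1 u1), (l1 u).2.1⟩
  -- fourth sum
  have s4 : ∑ u ∈ wd (N - 1), (if (Top Kt a u ∧ u ≠ []) then AM (φ u) (M + 1) h u +
        AM (φ (L u.dropLast)) (M + 1) h u else 0) ≤ 2 * Cn + Ce := by
    rw [← Finset.sum_filter]
    have t1 : ∀ u ∈ (wd (N - 1)).filter (fun u => Top Kt a u ∧ u ≠ []),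
        AM (φ u) (M + 1) h u + AM (φ (L u.dropLast)) (M + 1) h u ≤
        2 * (ta f u ^ (M + 1) * a u) +
          dist (CorA.FF f u) (CorA.FF f (L u.dropLast)) ^ (M + 1) * a u := by
      intro u hu
      have hl := hlt u (Finset.mem_filter.1 hu).1
      have a1 := AM_top hSZF (M + 1) hf hh hl u (kk (Cs u))
      have a2 := AM_top hSZF (M + 1) hf hh hl (L u.dropLast) (kk (Cs (L u.dropLast)))
      rw [dist_self, zero_pow (Nat.succ_ne_zero M), add_zero] at a1
      have a3 : AM (φ u) (M + 1) h u ≤ ta f u ^ (M + 1) * a u := a1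
      have a4 : AM (φ (L u.dropLast)) (M + 1) h u ≤ (ta f u ^ (M + 1) +
        dist (CorA.FF f u) (CorA.FF f (L u.dropLast)) ^ (M + 1)) * a u := a2
      linarith
    refine (Finset.sum_le_sum t1).trans ?_
    rw [Finset.sum_add_distrib, ← Finset.mul_sum]
    have t2 : ∑ u ∈ (wd (N - 1)).filter (fun u => Top Kt a u ∧ u ≠ []),
        ta f u ^ (M + 1) * a u ≤ Cn := by
      refine le_trans (Finset.sum_le_sum_of_subset_of_nonneg ?_ ?_) (hn1 N δ f h a hN hf hh)
      · intro u hu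
        obtain ⟨u1, u2⟩ := Finset.mem_filter.1 hu
        unfold Tp
        rw [Finset.mem_filter]
        exact ⟨u1, u2.1⟩
      · intro u _ _
        have := (hSZF.2.2.2.2 n δ f u hf).1
        have := hnn u
        positivity
    have t3 : ∑ u ∈ (wd (N - 1)).filter (fun u => Top Kt a u ∧ u ≠ []),
        dist (CorA.FF f u) (CorA.FF f (L u.dropLast)) ^ (M + 1) * a u ≤ Ce := by
      refine le_trans (sum_fib (fun u => L u.dropLast) (fun s => nxt N (Top Kt a) s)
        (fun s u => dist (CorA.FF f u) (CorA.FF f s) ^ (M + 1) * a u)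
        (S := Tp N Kt a) ?_ ?_) (he1 N δ f h a hN hf hh)
      · intro s _ u _
        have := hnn u
        positivity
      · intro u hu
        obtain ⟨u1, u2, u3⟩ := Finset.mem_filter.1 hu
        have ep : u = u.dropLast ++ [u.getLast u3] := (List.dropLast_append_getLast u3).symm
        have hl := hlt u u1
        have hlen : u.dropLast.length + 1 = u.length := by
          rw [List.length_dropLast]
          have := List.length_pos_iff.2 u3
          omega
        constructor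
        · unfold Tp
          rw [Finset.mem_filter, mem_wd]
          refine ⟨?_, (l1 u.dropLast).2.1⟩
          have := (l1 u.dropLast).1.length_le
          omega
        · have := l6 N u.dropLast (u.getLast u3) (by omega)
          rw [← ep] at this
          exact this u2
    linarith
  have hfin : ∑ u ∈ wd (N - 1), ‖cm u (BB g h u)‖ ≤
      Cc * (C₀ + Cr * (1 + P) + 8 * Cf + (2 * Cn + Ce)) :=
    hs.trans (mul_le_mul_of_nonneg_left (by linarith) hCc.le)
  unfold TB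
  calc ‖∑ u ∈ wd N, cm u (BB g h u)‖ ≤ ∑ u ∈ wd N, ‖cm u (BB g h u)‖ := norm_sum_le _ _
    _ = ∑ u ∈ wd (N - 1), ‖cm u (BB g h u)‖ + ∑ u ∈ lv N, ‖cm u (BB g h u)‖ :=
        split_last hN _
    _ ≤ _ := by
        rw [add_comm]
        exact add_le_add c1 hfin

end Pool.Agent.ALQ
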