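import Pool.Agent.ALQ.P_STA
import Pool.Agent.CorG.All

/-!
# ALQ, target GIT from the stopping-time growth lemma
-/

set_option autoImplicit false

namespace Pool.Agent.ALQ

open Complex Metric Set Filter Topology MeasureTheory
open Pool.Corona91698f Pool.Agent.CorE Pool.Agent.CorA Pool.Agent.CorG
open scoped Real

namespace GIT2_

/-- membership in a filter, any decidability instance -/
theorem memf {P : List D → Prop} {i : DecidablePred P} {s : Finset (List D)} {k : List D} :
    k ∈ @Finset.filter (List D) P i s ↔ k ∈ s ∧ P k := Finset.mem_filter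

theorem stp_spec (n : ℕ) (P : List D → Prop) : ∀ x ∈ stp n P,
    (x.length = n ∨ P x) ∧ ∀ t, t <+: x → t ≠ x → ¬ P t := by
  refine stp_induction (motive := fun n P => ∀ x ∈ stp n P,
    (x.length = n ∨ P x) ∧ ∀ t, t <+: x → t ≠ x → ¬ P t) ?_ ?_ n P
  · intro n P h x hx
    rw [stp_stop h, Finset.mem_singleton] at hx
    subst hx
    refine ⟨?_, fun t ht hne => ?_⟩
    · rcases h with h | h
      · exact Or.inl (by simp [h])
      · exact Or.inr h
    · exact absurd (List.prefix_nil.1 ht) hne
  · intro n P h ih x hx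
    obtain ⟨d, y, hy, rfl⟩ := (mem_stp_succ h).1 hx
    obtain ⟨h1, h2⟩ := ih d y hy
    refine ⟨?_, fun t ht hne => ?_⟩
    · rcases h1 with h1 | h1
      · exact Or.inl (by simp [h1])
      · exact Or.inr h1
    · cases t with
      | nil => exact h
      | cons e t =>
        obtain ⟨rfl, h3⟩ := List.cons_prefix_cons.1 ht
        exact h2 t h3 fun e => hne (by rw [e])

theorem image_sub {N : ℕ} {E : List D → Prop} {u : List D} (hu : u.length + 1 < N)
    (hE : ∀ v : List D, N ≤ v.length + 1 → E v) (hEu : ¬ E u) :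
    (stp (N - 1 - u.length) fun x => E (u ++ x)).image (fun x => u ++ x) ⊆ nxt N E u := by
  intro w hw
  obtain ⟨x, hx, rfl⟩ := Finset.mem_image.1 hw
  have h1 := stp_len _ _ x hx
  obtain ⟨h2, h3⟩ := stp_spec _ _ x hx
  have hne : x ≠ [] := stp_ne (by omega) (by simpa using hEu) x hx
  have hl : (u ++ x).length = u.length + x.length := List.length_append
  unfold nxt
  rw [memf]
  refine ⟨mem_wd.2 (by rw [hl]; omega), List.prefix_append _ _, ?_, ?_, ?_⟩
  · intro e
    exact hne (by simpa using e)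
  · rcases h2 with h2 | h2
    · exact hE _ (by rw [hl]; omega)
    · exact h2
  · intro t ht1 ht2 ht3
    obtain ⟨y, rfl⟩ := ht1
    have h4 : y <+: x := (List.prefix_append_right_inj u).1 ht2
    by_cases hyx : y = x
    · exact Or.inr (by rw [hyx])
    · exact absurd ht3 (h3 y h4 hyx)

end GIT2_

theorem p_GIT2 (hGLS : T_GLS) (hSTA : T_STA) : T_GIT := by
  obtain ⟨C, hC, hG⟩ := hGLS
  intro K hK
  have hK0 : 0 < K := by linarith
  have hKC : 1 ≤ K ^ C := Real.one_le_rpow hK (by linarith)
  refine ⟨2 * (C * K ^ C), 1, by nlinarith, ?_⟩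
  intro N H A E p d hS hE hEu hpar
  obtain ⟨u, hu⟩ : ∃ u : List D, u = p ++ [d] := ⟨_, rfl⟩
  rw [← hu] at hEu hpar ⊢
  have hul : u.length = p.length + 1 := by
    rw [hu]
    simp
  have huN : u.length + 1 < N := by
    by_contra hc
    exact hEu (hE u (by omega))
  have hnn : 0 ≤ C * K ^ C := by positivity
  have hsum0 : 0 ≤ ∑ w ∈ nxt N E u, A w := Finset.sum_nonneg fun w _ => hS.nn w
  rcases (hS.nn u).eq_or_lt with h0 | h0
  · rw [← h0]
    positivity
  obtain ⟨n, hn⟩ : ∃ n : ℕ, n = N - 1 - u.length := ⟨_, rfl⟩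
  obtain ⟨P, hP⟩ : ∃ P : List D → Prop, P = fun x => E (u ++ x) := ⟨_, rfl⟩
  obtain ⟨y₀, hy₀, hy₁⟩ := hS.att u (by omega)
  have hP0 : ¬ P [] := by
    rw [hP]
    simpa using hEu
  have hlen : ∀ x ∈ stp n P, (u ++ x).length < N := by
    intro x hx
    have := stp_len _ _ x hx
    rw [List.length_append]
    omega
  have key := hG N n P u H (fun x => A (u ++ x)) (A u) K y₀ (by omega) hP0 (by omega) hS.diff
    (by
      intro z hz
      have hw : Psi p z ∈ nodeX := by
        have e1 : psi d (Psi p z) = Psi u z := by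
          rw [hu, Psi_snoc]
        refine ⟨?_, fun e => ?_⟩
        · have := dist_le_of_psi d (Psi p z)
          rw [e1, hz] at this
          linarith
        · by_cases he : e = d
          · rw [he, e1, hz]
            norm_num
          · by_contra hcon
            push Not at hcon
            exact he (psi_disj (z := Psi p z) (by linarith) (by rw [e1, hz]; norm_num))
      have h7 := hS.up p (by omega) z hw
      calc ‖H z‖ ≤ 3 ^ p.length * A p := h7
        _ ≤ 3 ^ p.length * (K * A u) := by gcongr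
        _ ≤ 3 ^ u.length * (K * A u) := by
            rw [hul]
            have h8 : (3 : ℝ) ^ p.length ≤ 3 ^ (p.length + 1) :=
              pow_le_pow_right₀ (by norm_num) (by omega)
            gcongr)
    h0 hK hy₀ hy₁
    (by
      intro x hx z hz
      refine hS.up (u ++ x) (hlen x hx) z ⟨by have := hz.1; linarith, fun e => ?_⟩
      have := hz.2 e
      linarith)
  have h1 : ∑ x ∈ stp n P, ((3 / 4) ^ x.length * A (u ++ x) + ‖cm (u ++ x) H‖) ≤
      2 * ∑ x ∈ stp n P, A (u ++ x) := by
    rw [Finset.mul_sum]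
    refine Finset.sum_le_sum fun x hx => ?_
    have e1 := (hSTA N H A E hS hE).2 (u ++ x) (hlen x hx)
    have e2 : (3 / 4 : ℝ) ^ x.length ≤ 1 := pow_le_one₀ (by norm_num) (by norm_num)
    have e3 := hS.nn (u ++ x)
    nlinarith
  have h2 : ∑ x ∈ stp n P, A (u ++ x) ≤ ∑ w ∈ nxt N E u, A w := by
    have e1 : ∑ w ∈ (stp n P).image (fun x => u ++ x), A w = ∑ x ∈ stp n P, A (u ++ x) :=
      Finset.sum_image fun x _ y _ hxy => by simpa using hxy
    rw [← e1]
    refine Finset.sum_le_sum_of_subset_of_nonneg ?_ fun w _ _ => hS.nn w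
    rw [hn, hP]
    exact GIT2_.image_sub huN hE hEu
  calc A u ≤ C * K ^ C * ∑ x ∈ stp n P, ((3 / 4) ^ x.length * A (u ++ x) + ‖cm (u ++ x) H‖) :=
        key
    _ ≤ C * K ^ C * (2 * ∑ x ∈ stp n P, A (u ++ x)) := by gcongr
    _ ≤ C * K ^ C * (2 * ∑ w ∈ nxt N E u, A w) := by gcongr
    _ = _ := by ring

/-- growth down to the first stops, no hypothesis -/
theorem a_GIT2 : T_GIT := p_GIT2 a_GLS (p_STA a_ADD)

end Pool.Agent.ALQ
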