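import Pool.Agent.ALQ.TargetsN

/-!
# JMP: the words with a much larger child
-/

set_option autoImplicit false

namespace Pool.Agent.ALQ

open Complex Metric Set Filter Topology MeasureTheory
open Pool.Corona91698f Pool.Agent.CorE Pool.Agent.CorA
open scoped Real BoundedContinuousFunction

namespace JMP_

open Classical in
/-- the sum over the children, each child is counted once -/
theorem sum_child (S B : Finset (List D)) (a : List D → ℝ) (ha : ∀ u, 0 ≤ a u) :
    ∑ u ∈ S, ∑ d : D, (if u ++ [d] ∈ B then a (u ++ [d]) else 0) ≤ ∑ v ∈ B, a v := by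
  have h1 : ∑ u ∈ S, ∑ d : D, (if u ++ [d] ∈ B then a (u ++ [d]) else 0) =
      ∑ x ∈ S ×ˢ (Finset.univ : Finset D),
        (if x.1 ++ [x.2] ∈ B then a (x.1 ++ [x.2]) else 0) := by
    rw [Finset.sum_product]
  have hinj : Set.InjOn (fun x : List D × D => x.1 ++ [x.2])
      (S ×ˢ (Finset.univ : Finset D) : Finset (List D × D)) := by
    intro x _ y _ hxy
    have h2 : x.1 ++ [x.2] = y.1 ++ [y.2] := hxy
    obtain ⟨h3, h4⟩ := List.append_inj' h2 rfl
    exact Prod.ext h3 (by simpa using h4)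
  have h2 : ∑ x ∈ S ×ˢ (Finset.univ : Finset D),
        (if x.1 ++ [x.2] ∈ B then a (x.1 ++ [x.2]) else 0) =
      ∑ v ∈ (S ×ˢ (Finset.univ : Finset D)).image (fun x : List D × D => x.1 ++ [x.2]),
        (if v ∈ B then a v else 0) := by
    rw [Finset.sum_image hinj]
  rw [h1, h2, ← Finset.sum_filter]
  refine Finset.sum_le_sum_of_subset_of_nonneg ?_ fun v _ _ => ha v
  intro v hv
  exact (Finset.mem_filter.1 hv).2

end JMP_

open Classical in
theorem p_JMP (hBAD : T_BAD) (hINC : T_INC) (hMAS : T_MAS) : T_JMP := by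
  intro n C₀ hC₀
  obtain ⟨A, CB, hA, hCB, hB⟩ := hBAD n C₀ 8 hC₀ (by norm_num)
  obtain ⟨CI, hCI, hI⟩ := hINC n C₀ hC₀
  obtain ⟨CM, hCM, hM⟩ := hMAS n
  refine ⟨A * (CM + 1) + 1, CB + 2 * CI, by nlinarith, by linarith, ?_⟩
  intro N δ f h a hN hD hH
  obtain ⟨m1, -, m3⟩ := hM N δ C₀ f h a hD hH
  have ha : ∀ u, 0 ≤ a u := hH.nn
  set BS : Finset (List D) := (Tp N 8 a).filter (fun u => A * ‖mm f h u‖ < a u) with hBS
  set I : List D → ℝ := fun u => ∑ x ∈ lv 1, ‖mm f h (u ++ x)‖ - ‖mm f h u‖ with hIdef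
  have hI0 : ∀ u : List D, u.length + 1 < N → 0 ≤ I u := by
    intro u hu
    have h1 := m3 u 1 hu
    have h2 : ‖mm f h u‖ ≤ ∑ x ∈ lv 1, ‖mm f h (u ++ x)‖ := by
      rw [h1]
      exact norm_sum_le _ _
    simp only [hIdef]
    linarith
  have key : ∀ u ∈ (wd (N - 1)).filter (fun u => u.length + 1 < N ∧
      ∃ d : D, (A * (CM + 1) + 1) * a u < a (u ++ [d])), a u ≤
      (∑ d : D, if u ++ [d] ∈ BS then a (u ++ [d]) else 0) + I u := by
    intro u hu
    obtain ⟨-, hl, d, hd⟩ := Finset.mem_filter.1 hu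
    have hau := ha u
    have h0 : 0 ≤ A * (CM + 1) * a u := mul_nonneg (by nlinarith) hau
    have h1 : a u ≤ a (u ++ [d]) := by linarith
    have hg : ∀ e : D, 0 ≤ (if u ++ [e] ∈ BS then a (u ++ [e]) else 0) := by
      intro e
      split_ifs
      · exact ha _
      · exact le_rfl
    by_cases hc : A * ‖mm f h (u ++ [d])‖ < a (u ++ [d])
    · have hmem : u ++ [d] ∈ BS := by
        rw [hBS, Finset.mem_filter]
        refine ⟨?_, hc⟩
        unfold Tp
        rw [Finset.mem_filter, mem_wd]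
        refine ⟨by rw [List.length_append, List.length_singleton]; omega, Or.inr ?_⟩
        rw [List.dropLast_concat]
        linarith
      have h2 := Finset.single_le_sum (f := fun e : D =>
        (if u ++ [e] ∈ BS then a (u ++ [e]) else 0)) (fun e _ => hg e) (Finset.mem_univ d)
      simp only [if_pos hmem] at h2
      have h3 := hI0 u hl
      linarith
    · have h2 := not_lt.1 hc
      have h3 : (CM + 1) * a u ≤ ‖mm f h (u ++ [d])‖ := by
        have h4 : A * ((CM + 1) * a u) ≤ A * ‖mm f h (u ++ [d])‖ := by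
          have h5 : A * ((CM + 1) * a u) = A * (CM + 1) * a u := by ring
          rw [h5]
          linarith
        exact le_of_mul_le_mul_left h4 (by linarith)
      have h4 : ‖mm f h (u ++ [d])‖ ≤ ∑ x ∈ lv 1, ‖mm f h (u ++ x)‖ :=
        Finset.single_le_sum (f := fun x => ‖mm f h (u ++ x)‖) (fun _ _ => norm_nonneg _)
          (mem_lv.2 rfl)
      have h5 := m1 u (by omega)
      have h6 : a u ≤ I u := by
        simp only [hIdef]
        linarith
      have h7 : 0 ≤ ∑ d : D, (if u ++ [d] ∈ BS then a (u ++ [d]) else 0) :=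
        Finset.sum_nonneg fun e _ => hg e
      linarith
  have s1 := Finset.sum_le_sum key
  rw [Finset.sum_add_distrib] at s1
  have s2 := JMP_.sum_child ((wd (N - 1)).filter (fun u => u.length + 1 < N ∧
      ∃ d : D, (A * (CM + 1) + 1) * a u < a (u ++ [d]))) BS a ha
  have s3 : ∑ v ∈ BS, a v ≤ CB := hB N δ f h a hN hD hH
  have s4 : ∑ u ∈ (wd (N - 1)).filter (fun u => u.length + 1 < N ∧
      ∃ d : D, (A * (CM + 1) + 1) * a u < a (u ++ [d])), I u ≤
      ∑ u ∈ (wd (N - 1)).filter (fun u => u.length + 1 < N), I u := by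
    refine Finset.sum_le_sum_of_subset_of_nonneg ?_ ?_
    · intro u hu
      obtain ⟨h1, h2, -⟩ := Finset.mem_filter.1 hu
      exact Finset.mem_filter.2 ⟨h1, h2⟩
    · intro u hu _
      exact hI0 u (Finset.mem_filter.1 hu).2
  have s5 : ∑ u ∈ (wd (N - 1)).filter (fun u => u.length + 1 < N), I u ≤ CI * ((1 : ℕ) + 1) := by
    have := hI N 1 δ f h a hN hD hH
    exact this
  have s6 : CI * (((1 : ℕ) : ℝ) + 1) = 2 * CI := by
    push_cast
    ring
  rw [s6] at s5
  linarith

end Pool.Agent.ALQ
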