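import Pool.Agent.ALQ.TargetsT

/-!
# The abstract tree block of project ALQ (problem MP_91698f)
-/

set_option autoImplicit false

namespace Pool.Agent.ALQ.TRW_

open Finset Pool.Corona91698f

/-- The weight of a number. -/
noncomputable def w (x : ℝ) : ℝ := ((1 + x) ^ 2)⁻¹

theorem w_pos {x : ℝ} (hx : 0 ≤ x) : 0 < w x := by
  unfold w; positivity

theorem w_le_one {x : ℝ} (hx : 0 ≤ x) : w x ≤ 1 := by
  unfold w
  apply inv_le_one_of_one_le₀
  nlinarith

theorem exp_le_w {x : ℝ} (hx : 0 ≤ x) : Real.exp (-x) ≤ 2 * w x := by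
  unfold w
  have h := Real.quadratic_le_exp_of_nonneg hx
  rw [Real.exp_neg, ← div_eq_mul_inv, le_div_iff₀ (by positivity), inv_mul_le_iff₀ (Real.exp_pos x)]
  nlinarith

theorem w_step {C x y : ℝ} (hC : 1 ≤ C) (hx : 0 ≤ x) (hy : 0 ≤ y) (h : y ≤ C * (x + 1)) :
    w x ≤ 4 * C ^ 2 * w y := by
  unfold w
  have h1 : 1 + y ≤ 2 * C * (1 + x) := by nlinarith
  have h2 : (1 + y) ^ 2 ≤ (2 * C * (1 + x)) ^ 2 := by
    apply pow_le_pow_left₀ (by positivity) h1
  rw [← div_eq_mul_inv, le_div_iff₀ (by positivity), inv_mul_le_iff₀ (by positivity)]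
  nlinarith

theorem shift {C : ℝ} (hC : 1 ≤ C) {S : Finset (List D)} {s : List D} {Φ : List D → ℝ}
    (hΦ : ∀ u, 0 ≤ Φ u) (hS : ∀ u ∈ S, s <+: u) (hd : ∀ u ∈ S, u ≠ s → u.dropLast ∈ S)
    (h1 : ∀ u ∈ S, u ≠ s → Φ u.dropLast ≤ C * (Φ u + 1)) (y : List D) (hy : y ∈ S)
    (t : List D) (ht : y ++ t ∈ S) : w (Φ (y ++ t)) ≤ (4 * C ^ 2) ^ t.length * w (Φ y) := by
  induction t using List.reverseRecOn with
  | nil => simp
  | append_singleton t d ih =>
    have hne : y ++ (t ++ [d]) ≠ s := by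
      intro h
      have h2 := (hS y hy).length_le
      have h3 := congrArg List.length h
      simp only [List.length_append, List.length_cons, List.length_nil] at h3
      omega
    have hdl : (y ++ (t ++ [d])).dropLast = y ++ t := by
      rw [← List.append_assoc, List.dropLast_concat]
    have hin := hd _ ht hne
    rw [hdl] at hin
    have hb := h1 _ ht hne
    rw [hdl] at hb
    have hw := w_step hC (hΦ _) (hΦ _) hb
    have := ih hin
    calc w (Φ (y ++ (t ++ [d]))) ≤ 4 * C ^ 2 * w (Φ (y ++ t)) := hw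
      _ ≤ 4 * C ^ 2 * ((4 * C ^ 2) ^ t.length * w (Φ y)) := by
          apply mul_le_mul_of_nonneg_left this (by positivity)
      _ = _ := by
          rw [List.length_append, List.length_singleton, pow_succ]; ring

theorem sum_lv_const (k : ℕ) (c : ℝ) : ∑ _u ∈ lv k, c = 4 ^ k * c := by
  induction k with
  | zero => simp [lv]
  | succ k ih =>
    rw [sum_lv_succ, ih, Finset.sum_const, Finset.card_univ]
    simp only [Fintype.card_prod, Fintype.card_bool, nsmul_eq_mul, pow_succ]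
    push_cast
    ring

theorem sum_inj {α β : Type} [DecidableEq β] {P : Finset α} {Q : Finset β} (g : α → β)
    {f : α → ℝ} {F : β → ℝ} (hg : ∀ x ∈ P, g x ∈ Q)
    (hi : ∀ x ∈ P, ∀ y ∈ P, g x = g y → x = y)
    (hF : ∀ y ∈ Q, 0 ≤ F y) (h : ∀ x ∈ P, f x ≤ F (g x)) : ∑ x ∈ P, f x ≤ ∑ y ∈ Q, F y := by
  calc ∑ x ∈ P, f x ≤ ∑ x ∈ P, F (g x) := Finset.sum_le_sum h
    _ = ∑ y ∈ P.image g, F y := by
        rw [Finset.sum_image]
        intro x hx y hy hxy
        exact hi x hx y hy hxy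
    _ ≤ ∑ y ∈ Q, F y := by
        apply Finset.sum_le_sum_of_subset_of_nonneg
        · intro y hy
          obtain ⟨x, hx, rfl⟩ := Finset.mem_image.1 hy
          exact hg x hx
        · intro y hy _
          exact hF y hy

theorem geo (n : ℕ) : ∑ k ∈ range n, (1 / 4 : ℝ) ^ (k + 1) = (1 - (1 / 4) ^ n) / 3 := by
  induction n with
  | zero => simp
  | succ n ih =>
    rw [Finset.sum_range_succ, ih, pow_succ]; ring

theorem up_sum {S : Finset (List D)} {a : List D → ℝ} (ha : ∀ u, 0 ≤ a u) {r : ℝ}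
    (hr0 : 0 ≤ r) (hr : r ≤ 1 / 16) {P : Finset (List D)}
    (hP : ∀ u ∈ P, ∃ y t, y ∈ S ∧ t ≠ [] ∧ u = y ++ t ∧ a u ≤ r ^ t.length * a y) :
    ∑ u ∈ P, a u ≤ (1 / 3) * ∑ y ∈ S, a y := by
  classical
  choose! y t hy ht hu hb using hP
  set n := P.sup List.length with hn
  set B : Finset (List D) := (range n).biUnion fun k => lv (k + 1) with hB
  have h1 : ∑ u ∈ P, a u ≤ ∑ x ∈ S ×ˢ B, r ^ x.2.length * a x.1 := by
    apply sum_inj (fun u => (y u, t u))
    · intro u hu'
      refine Finset.mem_product.2 ⟨hy u hu', ?_⟩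
      simp only [hB, Finset.mem_biUnion, Finset.mem_range, mem_lv]
      have h2 : 1 ≤ (t u).length := by
        have := ht u hu'
        have := List.length_pos_of_ne_nil this
        omega
      have h3 : u.length ≤ n := Finset.le_sup (f := List.length) hu'
      have h4 : u.length = (y u).length + (t u).length := by
        conv_lhs => rw [hu u hu']
        rw [List.length_append]
      exact ⟨(t u).length - 1, by omega, by omega⟩
    · intro u hu' v hv' h
      have h2 := (Prod.mk.injEq _ _ _ _).mp h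
      rw [hu u hu', hu v hv', h2.1, h2.2]
    · intro x _
      have := ha x.1
      positivity
    · intro u hu'
      exact hb u hu'
  have h2 : ∑ t ∈ B, r ^ t.length ≤ 1 / 3 := by
    rw [hB, Finset.sum_biUnion]
    · calc ∑ k ∈ range n, ∑ t ∈ lv (k + 1), r ^ t.length
          = ∑ k ∈ range n, 4 ^ (k + 1) * r ^ (k + 1) := by
            refine Finset.sum_congr rfl fun k _ => ?_
            rw [← sum_lv_const]
            refine Finset.sum_congr rfl fun t ht => ?_
            rw [mem_lv.1 ht]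
        _ ≤ ∑ k ∈ range n, (1 / 4 : ℝ) ^ (k + 1) := by
            refine Finset.sum_le_sum fun k _ => ?_
            rw [← mul_pow]
            apply pow_le_pow_left₀ (by positivity)
            linarith
        _ ≤ 1 / 3 := by
            rw [geo]
            have : (0 : ℝ) ≤ (1 / 4) ^ n := by positivity
            linarith
    · intro k _ l _ hkl
      rw [Function.onFun, Finset.disjoint_left]
      intro t ht ht'
      rw [mem_lv] at ht ht'
      omega
  calc ∑ u ∈ P, a u ≤ ∑ x ∈ S ×ˢ B, r ^ x.2.length * a x.1 := h1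
    _ = (∑ t ∈ B, r ^ t.length) * ∑ y ∈ S, a y := by
        rw [Finset.sum_product, Finset.mul_sum]
        refine Finset.sum_congr rfl fun y _ => ?_
        rw [Finset.sum_mul]
    _ ≤ (1 / 3) * ∑ y ∈ S, a y := by
        apply mul_le_mul_of_nonneg_right h2
        exact Finset.sum_nonneg fun y _ => ha y

theorem ch_sum {S : Finset (List D)} {a b : List D → ℝ} (hb : ∀ u ∈ S, 0 ≤ b u)
    {P : Finset (List D)}
    (hP : ∀ u ∈ P, ∃ d : D, u ++ [d] ∈ S ∧ a u ≤ b (u ++ [d])) :
    ∑ u ∈ P, a u ≤ ∑ y ∈ S, b y := by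
  classical
  choose! d hd hb' using hP
  apply sum_inj (fun u => u ++ [d u]) hd
  · intro u _ v _ h
    exact (List.append_inj' h rfl).1
  · exact hb
  · exact hb'

theorem sq_sum (n : ℕ) : ∑ k ∈ range n, (((k : ℝ) + 1) ^ 2)⁻¹ ≤ 2 - 2 / ((n : ℝ) + 1) := by
  induction n with
  | zero => simp
  | succ n ih =>
    rw [Finset.sum_range_succ]
    have h : (((n : ℝ) + 1) ^ 2)⁻¹ ≤ 2 / ((n : ℝ) + 1) - 2 / (((n + 1 : ℕ) : ℝ) + 1) := by
      have h0 : (0 : ℝ) ≤ n := Nat.cast_nonneg n
      push_cast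
      rw [div_sub_div _ _ (by positivity) (by positivity), ← one_div,
        div_le_div_iff₀ (by positivity) (by positivity)]
      nlinarith
    linarith

theorem mult {P : Finset (List D)} {e : List D} {Φ : List D → ℝ} (hΦ : ∀ u, 0 ≤ Φ u)
    (hp : ∀ u ∈ P, u <+: e) {c : ℝ} (hc : 0 < c)
    (h : ∀ y ∈ P, ∀ z ∈ P, y.length < z.length →
      ((z.length - y.length : ℕ) : ℝ) * c ≤ Φ y + 1) :
    ∑ u ∈ P, w (Φ u) ≤ 1 + 2 / c ^ 2 := by
  classical
  rcases P.eq_empty_or_nonempty with rfl | hne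
  · simp only [Finset.sum_empty]; positivity
  obtain ⟨z, hz, hmax⟩ := Finset.exists_max_image P List.length hne
  rw [← Finset.add_sum_erase _ _ hz]
  have hlt : ∀ y ∈ P.erase z, y.length < z.length := by
    intro y hy
    have h1 := hmax y (Finset.mem_of_mem_erase hy)
    rcases lt_or_eq_of_le h1 with h2 | h2
    · exact h2
    · exfalso
      have h3 := List.prefix_of_prefix_length_le (hp y (Finset.mem_of_mem_erase hy))
        (hp z hz) h1
      exact (Finset.ne_of_mem_erase hy) (h3.eq_of_length h2)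
  have h1 : ∑ y ∈ P.erase z, w (Φ y) ≤ ∑ k ∈ range z.length, (c ^ 2)⁻¹ * (((k : ℝ) + 1) ^ 2)⁻¹ := by
    apply sum_inj (fun y => z.length - y.length - 1)
    · intro y hy
      have := hlt y hy
      rw [Finset.mem_range]
      omega
    · intro y hy y' hy' h2
      have h3 := hlt y hy
      have h4 := hlt y' hy'
      have h2' : z.length - y.length - 1 = z.length - y'.length - 1 := h2
      have h5 : y.length = y'.length := by omega
      have h6 := List.prefix_of_prefix_length_le (hp y (Finset.mem_of_mem_erase hy))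
        (hp y' (Finset.mem_of_mem_erase hy')) h5.le
      exact h6.eq_of_length h5
    · intro k _
      positivity
    · intro y hy
      have h3 := hlt y hy
      have h4 := h y (Finset.mem_of_mem_erase hy) z hz h3
      have h5 : ((z.length - y.length : ℕ) : ℝ) = ((z.length - y.length - 1 : ℕ) : ℝ) + 1 := by
        have : z.length - y.length = (z.length - y.length - 1) + 1 := by omega
        rw [this]; push_cast; simp
      rw [h5] at h4
      set k : ℝ := ((z.length - y.length - 1 : ℕ) : ℝ) with hk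
      have hk0 : 0 ≤ k := Nat.cast_nonneg _
      unfold w
      rw [← mul_inv, ← mul_pow]
      apply inv_anti₀ (by positivity)
      apply pow_le_pow_left₀ (by positivity)
      linarith
  have h2 : ∑ k ∈ range z.length, (c ^ 2)⁻¹ * (((k : ℝ) + 1) ^ 2)⁻¹ ≤ 2 / c ^ 2 := by
    rw [← Finset.mul_sum]
    have h3 := sq_sum z.length
    have h4 : ∑ k ∈ range z.length, (((k : ℝ) + 1) ^ 2)⁻¹ ≤ 2 := by
      have : 0 ≤ 2 / ((z.length : ℝ) + 1) := by positivity
      linarith
    rw [div_eq_mul_inv, mul_comm]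
    exact mul_le_mul_of_nonneg_right h4 (by positivity)
  have h3 := w_le_one (hΦ z)
  linarith

open Classical in
/-- The abstract tree block with the quadratic weight. -/
theorem TRWa (C1 C2 L K CL : ℝ) (hC1 : 1 ≤ C1) (hC2 : 0 ≤ C2) (hL : 64 * C1 ^ 2 ≤ L)
    (hK : 2 * L ≤ K) (hCL : 0 ≤ CL) :
    ∃ C : ℝ, 0 ≤ C ∧ ∀ (S X : Finset (List D)) (s : List D) (A Φ : List D → ℝ),
    (∀ u, 0 ≤ A u) → (∀ u, 0 ≤ Φ u) → s ∈ S → (∀ u ∈ S, s <+: u) →
    (∀ u ∈ S, u ≠ s → u.dropLast ∈ S) →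
    (∀ u ∈ S, ∀ d : D, u ++ [d] ∈ S ∨ u ++ [d] ∈ X) →
    (∀ u ∈ S, u ≠ s → Φ u.dropLast ≤ C1 * (Φ u + 1) ∧ Φ u ≤ C1 * (Φ u.dropLast + 1)) →
    (∀ y ∈ S, ∀ z ∈ S, y ≠ s → y <+: z → y ≠ z → A y.dropLast ≤ L * A y →
      (∀ d : D, A (y ++ [d]) ≤ L * A y) →
      K ^ (z.length - y.length) * A z ≤ Real.exp (C2 * (Φ y + 1)) * A y) →
    (∀ u ∈ S, u ≠ s → A u.dropLast ≤ L * A u →
      A u ≤ CL * ∑ e ∈ X.filter (fun e => u <+: e), A e) →
    ∑ u ∈ S, ((1 + Φ u) ^ 2)⁻¹ * A u ≤ C * (A s + ∑ e ∈ X, A e) := by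
  have hL0 : 0 < L := by nlinarith
  have hL1 : 1 ≤ L := by nlinarith
  set c : ℝ := Real.log 2 / (C2 + 1) with hc
  have hc0 : 0 < c := div_pos (Real.log_pos (by norm_num)) (by linarith)
  set Cm : ℝ := 1 + 2 / c ^ 2 with hCm
  have hCm0 : 0 ≤ Cm := by positivity
  refine ⟨4 * (1 + CL * Cm), by positivity, ?_⟩
  intro S X s A Φ hA hΦ hs hS hd hch h1 h2 h3
  set a : List D → ℝ := fun u => w (Φ u) * A u with ha
  have ha0 : ∀ u, 0 ≤ a u := fun u => mul_nonneg (w_pos (hΦ u)).le (hA u)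
  set r : ℝ := 4 * C1 ^ 2 / L with hr
  have hr0 : 0 ≤ r := by positivity
  have hr1 : r ≤ 1 / 16 := by
    rw [hr, div_le_div_iff₀ hL0 (by norm_num)]
    linarith
  set NZ : List D → Prop := fun u =>
    ∃ y t, y ∈ S ∧ t ≠ [] ∧ u = y ++ t ∧ L ^ t.length * A u ≤ A y with hNZ
  set BS : List D → Prop := fun u => ∃ d : D, u ++ [d] ∈ S ∧ L * A u ≤ A (u ++ [d]) with hBS
  set BX : List D → Prop := fun u => ∃ d : D, u ++ [d] ∈ X ∧ L * A u ≤ A (u ++ [d]) with hBX
  set Zp : Finset (List D) := S.filter fun u => u ≠ s ∧ ¬ NZ u ∧ ¬ BS u ∧ ¬ BX u with hZp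
  -- the four classes
  have b1 : ∑ u ∈ S.filter NZ, a u ≤ (1 / 3) * ∑ y ∈ S, a y := by
    apply up_sum ha0 hr0 hr1
    intro u hu
    rw [Finset.mem_filter] at hu
    obtain ⟨huS, y, t, hy, ht, hut, hb⟩ := hu
    refine ⟨y, t, hy, ht, hut, ?_⟩
    have e1 : w (Φ u) ≤ (4 * C1 ^ 2) ^ t.length * w (Φ y) := by
      rw [hut]
      apply shift hC1 hΦ hS hd (fun u hu hn => (h1 u hu hn).1) y hy
      rw [← hut]; exact huS
    have e2 : A u ≤ A y / L ^ t.length := by
      rw [le_div_iff₀ (by positivity), mul_comm]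
      exact hb
    calc a u = w (Φ u) * A u := rfl
      _ ≤ ((4 * C1 ^ 2) ^ t.length * w (Φ y)) * (A y / L ^ t.length) := by
          apply mul_le_mul e1 e2 (hA u)
          have := (w_pos (hΦ y)).le
          positivity
      _ = r ^ t.length * a y := by
          simp only [ha, hr, div_pow]
          ring
  have b2 : ∑ u ∈ S.filter BS, a u ≤ (1 / 16) * ∑ y ∈ S, a y := by
    have e : ∑ u ∈ S.filter BS, a u ≤ ∑ y ∈ S, r * a y := by
      apply ch_sum (fun u _ => mul_nonneg hr0 (ha0 u))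
      intro u hu
      rw [Finset.mem_filter] at hu
      obtain ⟨huS, d, hdS, hb⟩ := hu
      refine ⟨d, hdS, ?_⟩
      have hne : u ++ [d] ≠ s := by
        intro h
        have e2 := (hS u huS).length_le
        have e3 := congrArg List.length h
        simp only [List.length_append, List.length_cons, List.length_nil] at e3
        omega
      have e4 := (h1 _ hdS hne).2
      rw [List.dropLast_concat] at e4
      have e5 := w_step hC1 (hΦ _) (hΦ _) e4
      have e6 : A u ≤ A (u ++ [d]) / L := by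
        rw [le_div_iff₀ hL0, mul_comm]; exact hb
      calc a u = w (Φ u) * A u := rfl
        _ ≤ (4 * C1 ^ 2 * w (Φ (u ++ [d]))) * (A (u ++ [d]) / L) := by
            apply mul_le_mul e5 e6 (hA u)
            have := (w_pos (hΦ (u ++ [d]))).le
            positivity
        _ = r * a (u ++ [d]) := by
            simp only [ha, hr]
            ring
    rw [← Finset.mul_sum] at e
    have : 0 ≤ ∑ y ∈ S, a y := Finset.sum_nonneg fun y _ => ha0 y
    nlinarith
  have b3 : ∑ u ∈ S.filter BX, a u ≤ ∑ e ∈ X, A e := by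
    apply ch_sum (fun u _ => hA u)
    intro u hu
    rw [Finset.mem_filter] at hu
    obtain ⟨huS, d, hdX, hb⟩ := hu
    refine ⟨d, hdX, ?_⟩
    have e1 := w_le_one (hΦ u)
    have e2 := (w_pos (hΦ u)).le
    have e3 := hA u
    have e4 : a u ≤ 1 * A u := mul_le_mul_of_nonneg_right e1 e3
    nlinarith
  have b4 : ∑ u ∈ Zp, a u ≤ CL * Cm * ∑ e ∈ X, A e := by
    have hz : ∀ u ∈ Zp, u ∈ S ∧ u ≠ s ∧ 0 < A u ∧ A u.dropLast ≤ L * A u ∧
        (∀ d : D, A (u ++ [d]) ≤ L * A u) ∧
        (∀ y t, y ∈ S → t ≠ [] → u = y ++ t → A y < L ^ t.length * A u) := by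
      intro u hu
      rw [hZp, Finset.mem_filter] at hu
      obtain ⟨huS, hus, hn1, hn2, hn3⟩ := hu
      have e1 : ∀ y t, y ∈ S → t ≠ [] → u = y ++ t → A y < L ^ t.length * A u := by
        intro y t hy ht hut
        by_contra hcon
        exact hn1 ⟨y, t, hy, ht, hut, not_lt.1 hcon⟩
      have hu0 : u ≠ [] := by
        rintro rfl
        exact hus (List.prefix_nil.1 (hS _ huS)).symm
      have e2 := e1 u.dropLast [u.getLast hu0] (hd u huS hus) (by simp)
        (List.dropLast_append_getLast hu0).symm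
      rw [List.length_singleton, pow_one] at e2
      refine ⟨huS, hus, ?_, e2.le, ?_, e1⟩
      · have := hA u.dropLast
        by_contra hcon
        have e3 : A u ≤ 0 := not_lt.1 hcon
        nlinarith
      · intro d
        by_contra hcon
        have e4 := (not_le.1 hcon).le
        rcases hch u huS d with h | h
        · exact hn2 ⟨d, h, e4⟩
        · exact hn3 ⟨d, h, e4⟩
    have hm : ∀ e : List D, ∑ u ∈ Zp.filter (fun u => u <+: e), w (Φ u) ≤ Cm := by
      intro e
      apply mult hΦ (e := e) (fun u hu => (Finset.mem_filter.1 hu).2) hc0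
      intro y hy z hz' hlt
      rw [Finset.mem_filter] at hy hz'
      have hpre := List.prefix_of_prefix_length_le hy.2 hz'.2 hlt.le
      obtain ⟨hyS, hys, hy0, hy1, hy2, _⟩ := hz y hy.1
      obtain ⟨hzS, hzs, hz0, hz1, hz2, hz3⟩ := hz z hz'.1
      have hne : y ≠ z := by
        rintro rfl
        exact lt_irrefl _ hlt
      have e1 := h2 y hyS z hzS hys hpre hne hy1 hy2
      obtain ⟨t, ht⟩ := hpre
      have htl : t.length = z.length - y.length := by
        rw [← ht, List.length_append]; omega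
      have ht0 : t ≠ [] := by
        rintro rfl
        simp only [List.length_nil] at htl
        omega
      have e2 := hz3 y t hyS ht0 ht.symm
      rw [htl] at e2
      set k := z.length - y.length with hk
      have e3 : (2 : ℝ) ^ k * L ^ k ≤ K ^ k := by
        rw [← mul_pow]
        exact pow_le_pow_left₀ (by positivity) hK k
      have e4 : (2 : ℝ) ^ k * L ^ k * A z ≤ Real.exp (C2 * (Φ y + 1)) * (L ^ k * A z) := by
        calc (2 : ℝ) ^ k * L ^ k * A z ≤ K ^ k * A z :=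
              mul_le_mul_of_nonneg_right e3 hz0.le
          _ ≤ Real.exp (C2 * (Φ y + 1)) * A y := e1
          _ ≤ _ := mul_le_mul_of_nonneg_left e2.le (Real.exp_pos _).le
      have e5 : (2 : ℝ) ^ k ≤ Real.exp (C2 * (Φ y + 1)) := by
        have hpos : 0 < L ^ k * A z := by positivity
        have e6 : (2 : ℝ) ^ k * (L ^ k * A z) ≤ Real.exp (C2 * (Φ y + 1)) * (L ^ k * A z) := by
          rw [← mul_assoc]; exact e4
        exact le_of_mul_le_mul_right e6 hpos
      have e7 : (k : ℝ) * Real.log 2 ≤ C2 * (Φ y + 1) := by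
        rw [← Real.log_pow]
        have := Real.log_le_log (by positivity) e5
        rwa [Real.log_exp] at this
      rw [hc, mul_div_assoc', div_le_iff₀ (by linarith)]
      have := hΦ y
      nlinarith
    calc ∑ u ∈ Zp, a u ≤ ∑ u ∈ Zp, ∑ e ∈ X.filter (fun e => u <+: e), CL * (A e * w (Φ u)) := by
          refine Finset.sum_le_sum fun u hu => ?_
          obtain ⟨huS, hus, _, hu1, _, _⟩ := hz u hu
          have e1 := h3 u huS hus hu1
          have e2 := (w_pos (hΦ u)).le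
          calc a u = w (Φ u) * A u := rfl
            _ ≤ w (Φ u) * (CL * ∑ e ∈ X.filter (fun e => u <+: e), A e) :=
                mul_le_mul_of_nonneg_left e1 e2
            _ = _ := by
                rw [Finset.mul_sum, Finset.mul_sum]
                refine Finset.sum_congr rfl fun e _ => ?_
                ring
      _ = ∑ e ∈ X, ∑ u ∈ Zp.filter (fun u => u <+: e), CL * (A e * w (Φ u)) := by
          apply Finset.sum_comm'
          intro u e
          simp only [Finset.mem_filter]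
          tauto
      _ ≤ ∑ e ∈ X, CL * Cm * A e := by
          refine Finset.sum_le_sum fun e _ => ?_
          rw [← Finset.mul_sum, ← Finset.mul_sum]
          have e1 := hm e
          have e2 := hA e
          have e3 : A e * ∑ u ∈ Zp.filter (fun u => u <+: e), w (Φ u) ≤ A e * Cm :=
            mul_le_mul_of_nonneg_left e1 e2
          calc _ ≤ CL * (A e * Cm) := mul_le_mul_of_nonneg_left e3 hCL
            _ = _ := by ring
      _ = _ := by rw [← Finset.mul_sum]
  have b5 : ∑ u ∈ S.filter (fun u => u = s), a u ≤ A s := by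
    have e1 : S.filter (fun u => u = s) = {s} := by
      ext u
      simp only [Finset.mem_filter, Finset.mem_singleton]
      constructor
      · exact fun h => h.2
      · rintro rfl
        exact ⟨hs, rfl⟩
    rw [e1, Finset.sum_singleton]
    have e2 := w_le_one (hΦ s)
    have e3 : a s ≤ 1 * A s := mul_le_mul_of_nonneg_right e2 (hA s)
    linarith
  have b6 : ∑ u ∈ S, a u ≤ ∑ u ∈ S.filter (fun u => u = s), a u + ∑ u ∈ S.filter NZ, a u +
      ∑ u ∈ S.filter BS, a u + ∑ u ∈ S.filter BX, a u + ∑ u ∈ Zp, a u := by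
    rw [hZp, Finset.sum_filter, Finset.sum_filter, Finset.sum_filter, Finset.sum_filter,
      Finset.sum_filter, ← Finset.sum_add_distrib, ← Finset.sum_add_distrib,
      ← Finset.sum_add_distrib, ← Finset.sum_add_distrib]
    refine Finset.sum_le_sum fun u _ => ?_
    have e0 := ha0 u
    by_cases q1 : u = s
    · rw [if_pos q1]
      split_ifs <;> linarith
    by_cases q2 : NZ u
    · rw [if_pos q2]
      split_ifs <;> linarith
    by_cases q3 : BS u
    · rw [if_pos q3]
      split_ifs <;> linarith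
    by_cases q4 : BX u
    · rw [if_pos q4]
      split_ifs <;> linarith
    rw [if_neg q1, if_neg q2, if_neg q3, if_neg q4, if_pos ⟨q1, q2, q3, q4⟩]
    linarith
  have hX0 : 0 ≤ ∑ e ∈ X, A e := Finset.sum_nonneg fun e _ => hA e
  have hT0 : 0 ≤ ∑ u ∈ S, a u := Finset.sum_nonneg fun e _ => ha0 e
  have hCX : 0 ≤ CL * Cm * ∑ e ∈ X, A e := by positivity
  have hCs : 0 ≤ CL * Cm * A s := mul_nonneg (by positivity) (hA s)
  have b7 : ∑ u ∈ S, a u ≤ 2 * (A s + ∑ e ∈ X, A e + CL * Cm * ∑ e ∈ X, A e) := by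
    have := hA s
    linarith
  calc ∑ u ∈ S, ((1 + Φ u) ^ 2)⁻¹ * A u = ∑ u ∈ S, a u := rfl
    _ ≤ 4 * (1 + CL * Cm) * (A s + ∑ e ∈ X, A e) := by
        nlinarith [hA s]

open Classical in
/-- TRE with the quadratic weight. -/
theorem p_TRW : ∀ (C₁ C₂ L K CL : ℝ), 1 ≤ C₁ → 0 ≤ C₂ → 64 * C₁ ^ 2 ≤ L → 2 * L ≤ K → 0 ≤ CL →
  ∃ C : ℝ, 1 ≤ C ∧ ∀ (S X : Finset (List D)) (s : List D) (A Ph : List D → ℝ),
  s ∈ S → (∀ u ∈ S, s <+: u) → (∀ u ∈ S, u ≠ s → u.dropLast ∈ S) →
  (∀ u, 0 ≤ A u) → (∀ u, 0 ≤ Ph u) →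
  (∀ u ∈ S, ∀ d : D, u ++ [d] ∈ S ∨ u ++ [d] ∈ X) →
  (∀ u ∈ S, u ≠ s → Ph u.dropLast ≤ C₁ * (Ph u + 1) ∧ Ph u ≤ C₁ * (Ph u.dropLast + 1)) →
  (∀ y ∈ S, ∀ z ∈ S, y ≠ s → y <+: z → y ≠ z → A y.dropLast ≤ L * A y →
    (∀ d : D, A (y ++ [d]) ≤ L * A y) →
    K ^ (z.length - y.length) * A z ≤ Real.exp (C₂ * (Ph y + 1)) * A y) →
  (∀ u ∈ S, u ≠ s → A u.dropLast ≤ L * A u →
    ∀ Y : Finset (List D), (∀ w, w ∈ Y ↔ w ∈ X ∧ u <+: w) → A u ≤ CL * ∑ w ∈ Y, A w) →
  ∑ u ∈ S, ((1 + Ph u) ^ 2)⁻¹ * A u ≤ C * (A s + ∑ w ∈ X, A w) := by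
  intro C1 C2 L K CL hC1 hC2 hL hK hCL
  obtain ⟨C, hC0, hC⟩ := TRWa C1 C2 L K CL hC1 hC2 hL hK hCL
  refine ⟨1 + C, by linarith, ?_⟩
  intro S X s A Ph hs hS hd hA hP hch h1 h2 h3
  have h4 := hC S X s A Ph hA hP hs hS hd hch h1 h2 (fun u hu hus hb =>
    h3 u hu hus hb (X.filter fun e => u <+: e) (fun e => Finset.mem_filter))
  have h5 : 0 ≤ A s + ∑ e ∈ X, A e := add_nonneg (hA s) (Finset.sum_nonneg fun e _ => hA e)
  calc ∑ u ∈ S, ((1 + Ph u) ^ 2)⁻¹ * A u ≤ C * (A s + ∑ e ∈ X, A e) := h4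
    _ ≤ (1 + C) * (A s + ∑ e ∈ X, A e) := by nlinarith

end Pool.Agent.ALQ.TRW_
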