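import Pool.Agent.ALQ.TargetsT

/-!
# The abstract estimate in a steep region
-/

set_option autoImplicit false

namespace Pool.Agent.ALQ

open Pool.Corona91698f

namespace TREW_

theorem wsum (n : ℕ) : ∑ x ∈ wd n, (1 / 16 : ℝ) ^ x.length ≤ 4 / 3 := by
  induction n with
  | zero => simp [wd]; norm_num
  | succ n ih =>
    simp only [wd]
    rw [Finset.sum_insert (by simp), Finset.sum_image (by
      rintro ⟨d, v⟩ _ ⟨d', v'⟩ _ h
      have h3 := (List.cons.inj h)
      rw [Prod.mk.injEq]
      exact h3), Finset.sum_product]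
    have h1 : ∀ d ∈ (Finset.univ : Finset D), ∑ y ∈ wd n, (1 / 16 : ℝ) ^ (List.length (d :: y)) ≤
        1 / 16 * (4 / 3) := by
      intro d _
      have : ∑ y ∈ wd n, (1 / 16 : ℝ) ^ (List.length (d :: y)) =
          1 / 16 * ∑ y ∈ wd n, (1 / 16 : ℝ) ^ y.length := by
        rw [Finset.mul_sum]
        refine Finset.sum_congr rfl fun y _ => ?_
        rw [List.length_cons, pow_succ]
        ring
      rw [this]
      linarith
    have h2 := Finset.sum_le_sum h1
    have h3 : ∑ _d ∈ (Finset.univ : Finset D), (1 / 16 * (4 / 3) : ℝ) = 4 * (1 / 16 * (4 / 3)) := by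
      rw [Finset.sum_const, nsmul_eq_mul]
      norm_num [Fintype.card_prod]
    rw [h3] at h2
    simp only [List.length_nil, pow_zero]
    linarith

open Classical in
theorem below (S : Finset (List D)) (z : List D) :
    ∑ u ∈ S.filter (fun u => z <+: u), (1 / 16 : ℝ) ^ (u.length - z.length) ≤ 4 / 3 := by
  set F := S.filter (fun u => z <+: u) with hF
  have hinj : ∀ u ∈ F, ∀ v ∈ F, u.drop z.length = v.drop z.length → u = v := by
    intro u hu v hv h
    obtain ⟨a, ha⟩ := (Finset.mem_filter.1 hu).2
    obtain ⟨b, hb⟩ := (Finset.mem_filter.1 hv).2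
    rw [← ha, ← hb] at h ⊢
    rw [List.drop_left, List.drop_left] at h
    rw [h]
  have h1 : ∑ u ∈ F, (1 / 16 : ℝ) ^ (u.length - z.length) =
      ∑ x ∈ F.image (fun u => u.drop z.length), (1 / 16 : ℝ) ^ x.length := by
    rw [Finset.sum_image (fun u hu v hv h => hinj u hu v hv h)]
    refine Finset.sum_congr rfl fun u _ => ?_
    rw [List.length_drop]
  rw [h1]
  refine le_trans ?_ (wsum ((F.image (fun u => u.drop z.length)).sup List.length))
  refine Finset.sum_le_sum_of_subset_of_nonneg ?_ fun v _ _ => by positivity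
  intro v hv
  exact mem_wd.2 (Finset.le_sup (f := List.length) hv)

theorem prefix_dropLast {z u : List D} (h : z <+: u) (hne : z ≠ u) : z <+: u.dropLast := by
  obtain ⟨t, ht⟩ := h
  rcases List.eq_nil_or_concat t with rfl | ⟨t', d, h₀⟩
  · simp at ht
    exact absurd ht hne
  · rw [List.concat_eq_append] at h₀
    subst h₀
    rw [← ht, ← List.append_assoc, List.dropLast_concat]
    exact List.prefix_append _ _

theorem prefix_len {z u : List D} (h : z <+: u) : z.length ≤ u.length := h.length_le

theorem exp_bd {x : ℝ} (hx : 0 ≤ x) : Real.exp (-x) ≤ 2 * ((1 + x) ^ 2)⁻¹ := by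
  have h1 := Real.quadratic_le_exp_of_nonneg hx
  have h2 : 0 < Real.exp x := Real.exp_pos x
  have h3 : (0 : ℝ) < (1 + x) ^ 2 := by positivity
  rw [Real.exp_neg, ← div_eq_mul_inv, inv_le_comm₀ h2 (by positivity)]
  rw [inv_div]
  rw [div_le_iff₀ (by norm_num)]
  nlinarith

theorem sq_sum (n : ℕ) : ∑ d ∈ Finset.range n, (1 : ℝ) / ((d : ℝ) + 1) ^ 2 ≤ 2 := by
  have h : ∀ n : ℕ, ∑ d ∈ Finset.range (n + 1), (1 : ℝ) / ((d : ℝ) + 1) ^ 2 ≤
      2 - 1 / ((n : ℝ) + 1) := by
    intro n
    induction n with
    | zero => simp; norm_num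
    | succ n ih =>
      rw [Finset.sum_range_succ]
      have h1 : (0 : ℝ) < (n : ℝ) + 1 := by positivity
      have h2 : (1 : ℝ) / (((n + 1 : ℕ) : ℝ) + 1) ^ 2 ≤ 1 / ((n : ℝ) + 1) - 1 / (((n + 1 : ℕ) : ℝ) + 1) := by
        push_cast
        rw [div_sub_div _ _ (by positivity) (by positivity), div_le_div_iff₀ (by positivity) (by positivity)]
        nlinarith
      linarith
  rcases n with _ | n
  · simp
  · have := h n
    have h1 : (0 : ℝ) ≤ 1 / ((n : ℝ) + 1) := by positivity
    linarith

end TREW_

open Classical in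
/-- TRE with the weight `(1 + Ph)^(-2)` on the left. -/
def T_TREW : Prop := ∀ (C₁ C₂ L K CL : ℝ), 1 ≤ C₁ → 0 ≤ C₂ → 64 * C₁ ^ 2 ≤ L → 2 * L ≤ K → 0 ≤ CL →
  ∃ C : ℝ, 1 ≤ C ∧ ∀ (S X : Finset (List D)) (s : List D) (A Ph : List D → ℝ),
  s ∈ S → (∀ u ∈ S, s <+: u) → (∀ u ∈ S, u ≠ s → u.dropLast ∈ S) →
  (∀ u, 0 ≤ A u) → (∀ u, 0 ≤ Ph u) →
  (∀ u ∈ S, ∀ d : D, u ++ [d] ∈ S ∨ u ++ [d] ∈ X) →
  (∀ u ∈ S, u ≠ s → Ph u.dropLast ≤ C₁ * (Ph u + 1) ∧ Ph u ≤ C₁ * (Ph u.dropLast + 1)) →
  (∀ y ∈ S, ∀ z ∈ S, y ≠ s → y <+: z → y ≠ z → A y.dropLast ≤ L * A y →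
    (∀ d : D, A (y ++ [d]) ≤ L * A y) →
    K ^ (z.length - y.length) * A z ≤ Real.exp (C₂ * (Ph y + 1)) * A y) →
  (∀ u ∈ S, u ≠ s → A u.dropLast ≤ L * A u →
    ∀ Y : Finset (List D), (∀ w, w ∈ Y ↔ w ∈ X ∧ u <+: w) → A u ≤ CL * ∑ w ∈ Y, A w) →
  ∑ u ∈ S, ((1 + Ph u) ^ 2)⁻¹ * A u ≤ C * (A s + ∑ w ∈ X, A w)

open TREW_ in
theorem trew : T_TREW := by
  intro C₁ C₂ L K CL hC₁ hC₂ hL hK hCL
  set C₅ : ℝ := 2 * (1 + 16 * C₂ ^ 2) with hC₅
  have hC₅0 : 0 ≤ C₅ := by rw [hC₅]; positivity
  refine ⟨3 * (CL * C₅ + 1), by nlinarith [mul_nonneg hCL hC₅0], ?_⟩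
  intro S X s A Ph hs hpre hdrop hA hPh hch hHar hlow hGL
  have hL0 : 0 < L := by nlinarith
  have hL1 : 64 ≤ L := by nlinarith
  set W : List D → ℝ := fun u => ((1 + Ph u) ^ 2)⁻¹ with hW
  have hW0 : ∀ u, 0 ≤ W u := fun u => by rw [hW]; positivity
  have hW1 : ∀ u, W u ≤ 1 := by
    intro u
    rw [hW]
    refine inv_le_one_of_one_le₀ ?_
    nlinarith [hPh u]
  -- the non-dominated words
  set Zp : List D → Prop := fun z => ∀ y ∈ S, y <+: z → A y ≤ L ^ (z.length - y.length) * A z with hZp
  have hsZ : Zp s := by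
    intro y hy hys
    have : y = s := List.IsPrefix.eq_of_length_le hys (hpre y hy).length_le
    rw [this]
    simp
  have hex : ∀ m : ℕ, ∀ u ∈ S, u.length ≤ m → ∃ z ∈ S, Zp z ∧ z <+: u ∧
      L ^ (u.length - z.length) * A u ≤ A z := by
    intro m
    induction m with
    | zero =>
      intro u hu hm
      refine ⟨u, hu, ?_, List.prefix_rfl, by simp⟩
      intro y hy hyu
      have : y = u := List.IsPrefix.eq_of_length_le hyu (by omega)
      rw [this]; simp
    | succ m ih =>
      intro u hu hm
      by_cases hz : Zp u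
      · exact ⟨u, hu, hz, List.prefix_rfl, by simp⟩
      · simp only [hZp] at hz
        push Not at hz
        obtain ⟨y, hy, hyu, hlt⟩ := hz
        have hyl : y.length < u.length := by
          rcases lt_or_eq_of_le hyu.length_le with h | h
          · exact h
          · exfalso
            have : y = u := hyu.eq_of_length h
            rw [this] at hlt
            simp at hlt
        obtain ⟨z, hz, hZz, hzy, hzA⟩ := ih y hy (by omega)
        refine ⟨z, hz, hZz, hzy.trans hyu, ?_⟩
        have e : u.length - z.length = (y.length - z.length) + (u.length - y.length) := by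
          have := hzy.length_le
          omega
        rw [e, pow_add, mul_assoc]
        have h0 : (0 : ℝ) ≤ L ^ (y.length - z.length) := by positivity
        calc L ^ (y.length - z.length) * (L ^ (u.length - y.length) * A u)
            ≤ L ^ (y.length - z.length) * A y := by gcongr
          _ ≤ A z := hzA
  -- Harnack along a path
  have hpath : ∀ k : ℕ, ∀ z ∈ S, ∀ u ∈ S, z <+: u → u.length - z.length = k →
      1 + Ph z ≤ (2 * C₁) ^ k * (1 + Ph u) := by
    intro k
    induction k with
    | zero =>
      intro z hz u hu hzu hk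
      have : z = u := hzu.eq_of_length_le (by omega)
      rw [this]; simp
    | succ k ih =>
      intro z hz u hu hzu hk
      have hne : z ≠ u := by
        intro h
        rw [h] at hk
        omega
      have hus : u ≠ s := by
        intro h
        apply hne
        rw [h] at hzu ⊢
        exact hzu.eq_of_length_le (hpre z hz).length_le
      have hdu := hdrop u hu hus
      have h1 := ih z hz u.dropLast hdu (prefix_dropLast hzu hne) (by
        rw [List.length_dropLast]
        omega)
      have h2 := (hHar u hu hus).1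
      have h3 : 1 + Ph u.dropLast ≤ 2 * C₁ * (1 + Ph u) := by nlinarith [hPh u]
      calc 1 + Ph z ≤ (2 * C₁) ^ k * (1 + Ph u.dropLast) := h1
        _ ≤ (2 * C₁) ^ k * (2 * C₁ * (1 + Ph u)) := by gcongr
        _ = (2 * C₁) ^ (k + 1) * (1 + Ph u) := by ring
  set Zs : Finset (List D) := S.filter Zp with hZs
  set T : ℝ := ∑ z ∈ Zs, W z * A z with hT
  have hT0 : 0 ≤ T := Finset.sum_nonneg fun z _ => mul_nonneg (hW0 z) (hA z)
  -- reduction to Z
  have hred : ∑ u ∈ S, ((1 + Ph u) ^ 2)⁻¹ * A u ≤ 8 / 3 * T := by
    have h1 : ∀ u ∈ S, ((1 + Ph u) ^ 2)⁻¹ * A u ≤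
        ∑ z ∈ Zs.filter (fun z => z <+: u), 2 * (1 / 16 : ℝ) ^ (u.length - z.length) * (W z * A z) := by
      intro u hu
      obtain ⟨z, hz, hZz, hzu, hzA⟩ := hex u.length u hu le_rfl
      have hmem : z ∈ Zs.filter (fun z => z <+: u) := by
        simp only [hZs, Finset.mem_filter]
        exact ⟨⟨hz, hZz⟩, hzu⟩
      refine le_trans ?_ (Finset.single_le_sum (f := fun z => 2 * (1 / 16 : ℝ) ^ (u.length - z.length) *
        (W z * A z)) (fun z _ => mul_nonneg (by positivity) (mul_nonneg (hW0 z) (hA z))) hmem)
      have h2 := hpath _ z hz u hu hzu rfl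
      set k := u.length - z.length with hk
      have hpz : 0 < 1 + Ph z := by linarith [hPh z]
      have hpu : 0 < 1 + Ph u := by linarith [hPh u]
      have h4 : ((1 + Ph u) ^ 2)⁻¹ ≤ ((2 * C₁) ^ k) ^ 2 * W z := by
        rw [hW]
        simp only
        rw [← div_eq_mul_inv, inv_eq_one_div, div_le_div_iff₀ (by positivity) (by positivity)]
        have : (1 + Ph z) ^ 2 ≤ ((2 * C₁) ^ k * (1 + Ph u)) ^ 2 := by
          gcongr
        nlinarith
      have h5 : L ^ k * A u ≤ A z := hzA
      have h6 : ((2 * C₁) ^ k) ^ 2 ≤ (1 / 16) ^ k * L ^ k := by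
        rw [← pow_mul, mul_comm k 2, pow_mul, ← mul_pow]
        refine pow_le_pow_left₀ (by positivity) ?_ k
        nlinarith
      calc ((1 + Ph u) ^ 2)⁻¹ * A u ≤ (2 * ((1 + Ph u) ^ 2)⁻¹) * A u := by
              have h9 : (0 : ℝ) ≤ ((1 + Ph u) ^ 2)⁻¹ := by positivity
              have h10 := mul_nonneg h9 (hA u)
              linarith
        _ ≤ (2 * (((2 * C₁) ^ k) ^ 2 * W z)) * A u := by
              gcongr
              exact hA u
        _ ≤ (2 * (((1 / 16) ^ k * L ^ k) * W z)) * A u := by
              have := hW0 z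
              gcongr
              exact hA u
        _ = 2 * (1 / 16) ^ k * W z * (L ^ k * A u) := by ring
        _ ≤ 2 * (1 / 16) ^ k * W z * A z := by
              have := hW0 z
              gcongr
        _ = 2 * (1 / 16 : ℝ) ^ k * (W z * A z) := by ring
    refine (Finset.sum_le_sum h1).trans ?_
    have hsw : ∑ u ∈ S, ∑ z ∈ Zs.filter (fun z => z <+: u),
        2 * (1 / 16 : ℝ) ^ (u.length - z.length) * (W z * A z) =
        ∑ z ∈ Zs, ∑ u ∈ S.filter (fun u => z <+: u),
          2 * (1 / 16 : ℝ) ^ (u.length - z.length) * (W z * A z) := by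
      simp only [Finset.sum_filter]
      exact Finset.sum_comm
    rw [hsw, hT, Finset.mul_sum]
    refine Finset.sum_le_sum fun z hz => ?_
    have h7 := below S z
    have e : ∑ u ∈ S.filter (fun u => z <+: u), 2 * (1 / 16 : ℝ) ^ (u.length - z.length) * (W z * A z) =
        (2 * (W z * A z)) * ∑ u ∈ S.filter (fun u => z <+: u), (1 / 16 : ℝ) ^ (u.length - z.length) := by
      rw [Finset.mul_sum]
      exact Finset.sum_congr rfl fun u _ => by ring
    rw [e]
    have h8 : 0 ≤ 2 * (W z * A z) := by
      have := mul_nonneg (hW0 z) (hA z)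
      linarith
    nlinarith [mul_le_mul_of_nonneg_left h7 h8]
  -- good words of Z
  set Zg : List D → Prop := fun z => Zp z ∧ z ≠ s ∧ 0 < A z ∧ ∀ d : D, A (z ++ [d]) ≤ L * A z with hZg
  have hpar : ∀ z ∈ S, Zp z → z ≠ s → A z.dropLast ≤ L * A z := by
    intro z hz hZ hne
    have h1 := hZ _ (hdrop z hz hne) (List.dropLast_prefix z)
    have hz0 : z ≠ [] := by
      intro h
      apply hne
      have h2 := hpre z hz
      rw [h] at h2 ⊢
      exact (List.prefix_nil.1 h2).symm
    have e : z.length - z.dropLast.length = 1 := by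
      rw [List.length_dropLast]
      have := List.length_pos_iff.2 hz0
      omega
    rw [e, pow_one] at h1
    exact h1
  -- multiplicity
  have hmult : ∀ w : List D, ∑ z ∈ (S.filter Zg).filter (fun z => z <+: w), W z ≤ C₅ := by
    intro w
    set F := (S.filter Zg).filter (fun z => z <+: w) with hF
    rcases F.eq_empty_or_nonempty with h0 | hne
    · rw [h0]; simpa using hC₅0
    · obtain ⟨z₀, hz₀, hmax⟩ := Finset.exists_max_image F List.length hne
      have hmem : ∀ y ∈ F, y ∈ S ∧ Zg y ∧ y <+: w := by
        intro y hy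
        rw [hF, Finset.mem_filter, Finset.mem_filter] at hy
        exact ⟨hy.1.1, hy.1.2, hy.2⟩
      obtain ⟨hz₀S, hz₀g, hz₀w⟩ := hmem z₀ hz₀
      have hbd : ∀ y ∈ F, W y ≤ (1 + 16 * C₂ ^ 2) * (1 / (((z₀.length - y.length : ℕ) : ℝ) + 1) ^ 2) := by
        intro y hy
        obtain ⟨hyS, hyg, hyw⟩ := hmem y hy
        have hyz : y <+: z₀ := List.prefix_of_prefix_length_le hyw hz₀w (hmax y hy)
        by_cases hEq : y = z₀
        · rw [hEq]
          simp only [Nat.sub_self, Nat.cast_zero, zero_add, one_pow, div_one, mul_one]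
          have := hW1 z₀
          nlinarith [sq_nonneg C₂]
        · have hd : 1 ≤ z₀.length - y.length := by
            rcases lt_or_eq_of_le hyz.length_le with h | h
            · omega
            · exact absurd (hyz.eq_of_length h) hEq
          set d := z₀.length - y.length with hdd
          have h1 := hlow y hyS z₀ hz₀S hyg.2.1 hyz hEq (hpar y hyS hyg.1 hyg.2.1) hyg.2.2.2
          have h2 := hz₀g.1 y hyS hyz
          rw [← hdd] at h1 h2
          have hA0 : 0 < A z₀ := hz₀g.2.2.1
          have hexp : 0 < Real.exp (C₂ * (Ph y + 1)) := Real.exp_pos _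
          have h3 : K ^ d * A z₀ ≤ Real.exp (C₂ * (Ph y + 1)) * (L ^ d * A z₀) :=
            h1.trans (mul_le_mul_of_nonneg_left h2 hexp.le)
          have h4 : K ^ d ≤ Real.exp (C₂ * (Ph y + 1)) * L ^ d := by
            have : K ^ d * A z₀ ≤ (Real.exp (C₂ * (Ph y + 1)) * L ^ d) * A z₀ := by linarith
            exact le_of_mul_le_mul_right this hA0
          have h5 : (2 : ℝ) ^ d * L ^ d ≤ K ^ d := by
            rw [← mul_pow]
            exact pow_le_pow_left₀ (by positivity) hK d
          have h6 : (2 : ℝ) ^ d ≤ Real.exp (C₂ * (Ph y + 1)) := by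
            have hLd : 0 < L ^ d := by positivity
            exact le_of_mul_le_mul_right (h5.trans h4) hLd
          have h7 : (d : ℝ) / 2 ≤ C₂ * (Ph y + 1) := by
            have h8 : (d : ℝ) * Real.log 2 ≤ C₂ * (Ph y + 1) := by
              rw [← Real.log_pow, ← Real.log_exp (C₂ * (Ph y + 1))]
              exact Real.log_le_log (by positivity) h6
            have h9 : (1 : ℝ) / 2 ≤ Real.log 2 := by
              have := Real.log_two_gt_d9
              linarith
            have h10 : (0 : ℝ) ≤ d := Nat.cast_nonneg d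
            nlinarith
          have hd1 : (1 : ℝ) ≤ d := by exact_mod_cast hd
          have hpy : 0 < 1 + Ph y := by linarith [hPh y]
          have h11 : (d : ℝ) + 1 ≤ 4 * C₂ * (1 + Ph y) := by nlinarith
          rw [hW]
          simp only
          rw [mul_one_div, inv_eq_one_div, div_le_div_iff₀ (by positivity) (by positivity)]
          have h12 : ((d : ℝ) + 1) ^ 2 ≤ (4 * C₂ * (1 + Ph y)) ^ 2 := by
            gcongr
          nlinarith [sq_nonneg (1 + Ph y)]
      refine (Finset.sum_le_sum hbd).trans ?_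
      rw [← Finset.mul_sum]
      have hinj : ∀ y ∈ F, ∀ y' ∈ F, z₀.length - y.length = z₀.length - y'.length → y = y' := by
        intro y hy y' hy' h
        have h1 := hmax y hy
        have h2 := hmax y' hy'
        have h3 : y.length = y'.length := by
          omega
        exact (List.prefix_of_prefix_length_le (hmem y hy).2.2 (hmem y' hy').2.2 h3.le).eq_of_length h3
      have h13 : ∑ y ∈ F, 1 / (((z₀.length - y.length : ℕ) : ℝ) + 1) ^ 2 ≤ 2 := by
        have e : ∑ y ∈ F, 1 / (((z₀.length - y.length : ℕ) : ℝ) + 1) ^ 2 =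
            ∑ d ∈ F.image (fun y => z₀.length - y.length), (1 : ℝ) / ((d : ℝ) + 1) ^ 2 := by
          rw [Finset.sum_image (fun y hy y' hy' h => hinj y hy y' hy' h)]
        rw [e]
        refine le_trans (Finset.sum_le_sum_of_subset_of_nonneg ?_ fun d _ _ => by positivity)
          (sq_sum (z₀.length + 1))
        intro d hd
        rw [Finset.mem_image] at hd
        obtain ⟨y, hy, rfl⟩ := hd
        rw [Finset.mem_range]
        omega
      rw [hC₅]
      nlinarith [sq_nonneg C₂]
  -- the main estimate
  have hX0 : 0 ≤ ∑ w ∈ X, A w := Finset.sum_nonneg fun w _ => hA w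
  have hsplit : ∀ z ∈ Zs, W z * A z ≤ (if z = s then A s else 0) +
      (if Zg z then W z * A z else 0) +
      (∑ c ∈ X.filter (fun c => c ≠ [] ∧ c.dropLast = z), A c) +
      (∑ c ∈ Zs.filter (fun c => c ≠ [] ∧ c.dropLast = z), 1 / 16 * (W c * A c)) := by
    intro z hz
    have hzS : z ∈ S := (Finset.mem_filter.1 hz).1
    have hzZ : Zp z := (Finset.mem_filter.1 hz).2
    have p1 : 0 ≤ (if z = s then A s else 0) := by
      split_ifs
      · exact hA s
      · exact le_rfl
    have p2 : 0 ≤ (if Zg z then W z * A z else 0) := by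
      split_ifs
      · exact mul_nonneg (hW0 z) (hA z)
      · exact le_rfl
    have p3 : 0 ≤ (∑ c ∈ X.filter (fun c => c ≠ [] ∧ c.dropLast = z), A c) :=
      Finset.sum_nonneg fun c _ => hA c
    have p4 : 0 ≤ (∑ c ∈ Zs.filter (fun c => c ≠ [] ∧ c.dropLast = z), 1 / 16 * (W c * A c)) :=
      Finset.sum_nonneg fun c _ => by
        have := mul_nonneg (hW0 c) (hA c)
        linarith
    by_cases h1 : z = s
    · have : W z * A z ≤ A s := by
        rw [h1]
        have := hW1 s
        have := hA s
        nlinarith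
      rw [if_pos h1] at p1 ⊢
      linarith
    · by_cases h2 : Zg z
      · rw [if_pos h2]
        linarith
      · by_cases h3 : 0 < A z
        · have h4 : ∃ d : D, L * A z < A (z ++ [d]) := by
            by_contra hcon
            push Not at hcon
            exact h2 ⟨hzZ, h1, h3, hcon⟩
          obtain ⟨d, hd⟩ := h4
          rcases hch z hzS d with hc | hc
          · -- the child is in S
            have hcZ : Zp (z ++ [d]) := by
              intro y hy hyc
              by_cases hyeq : y = z ++ [d]
              · rw [hyeq]; simp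
              · have hyz : y <+: z := by
                  have := prefix_dropLast hyc hyeq
                  rwa [List.dropLast_concat] at this
                have h5 := hzZ y hy hyz
                have e : (z ++ [d]).length - y.length = (z.length - y.length) + 1 := by
                  rw [List.length_append, List.length_singleton]
                  have := hyz.length_le
                  omega
                rw [e, pow_succ, mul_assoc]
                have h6 : A z ≤ L * A (z ++ [d]) := by
                  have := hA (z ++ [d])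
                  nlinarith
                calc A y ≤ L ^ (z.length - y.length) * A z := h5
                  _ ≤ L ^ (z.length - y.length) * (L * A (z ++ [d])) := by gcongr
            have hcs : z ++ [d] ≠ s := by
              intro h
              have := (hpre z hzS).length_le
              rw [← h, List.length_append, List.length_singleton] at this
              omega
            have h7 := (hHar _ hc hcs).2
            rw [List.dropLast_concat] at h7
            have h8 : W z ≤ 4 * C₁ ^ 2 * W (z ++ [d]) := by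
              rw [hW]
              simp only
              have hpz : 0 < 1 + Ph z := by linarith [hPh z]
              have hpc : 0 < 1 + Ph (z ++ [d]) := by linarith [hPh (z ++ [d])]
              rw [← div_eq_mul_inv, inv_eq_one_div, div_le_div_iff₀ (by positivity) (by positivity)]
              have h9 : 1 + Ph (z ++ [d]) ≤ 2 * C₁ * (1 + Ph z) := by nlinarith [hPh z]
              have h10 : (1 + Ph (z ++ [d])) ^ 2 ≤ (2 * C₁ * (1 + Ph z)) ^ 2 := by gcongr
              nlinarith
            have h11 : W z * A z ≤ 1 / 16 * (W (z ++ [d]) * A (z ++ [d])) := by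
              have h12 : A z ≤ A (z ++ [d]) / L := by
                rw [le_div_iff₀ hL0]
                linarith
              have h13 := hW0 (z ++ [d])
              have h14 := hA (z ++ [d])
              calc W z * A z ≤ (4 * C₁ ^ 2 * W (z ++ [d])) * (A (z ++ [d]) / L) := by
                    apply mul_le_mul h8 h12 (hA z)
                    positivity
                _ = (4 * C₁ ^ 2 / L) * (W (z ++ [d]) * A (z ++ [d])) := by ring
                _ ≤ 1 / 16 * (W (z ++ [d]) * A (z ++ [d])) := by
                    apply mul_le_mul_of_nonneg_right _ (mul_nonneg h13 h14)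
                    rw [div_le_iff₀ hL0]
                    linarith
            have hmem : z ++ [d] ∈ Zs.filter (fun c => c ≠ [] ∧ c.dropLast = z) := by
              rw [Finset.mem_filter, hZs, Finset.mem_filter]
              exact ⟨⟨hc, hcZ⟩, by simp, by simp⟩
            have h15 := Finset.single_le_sum (f := fun c => 1 / 16 * (W c * A c)) (fun c _ => by
              have := mul_nonneg (hW0 c) (hA c)
              show 0 ≤ 1 / 16 * (W c * A c)
              linarith) hmem
            linarith
          · have hmem : z ++ [d] ∈ X.filter (fun c => c ≠ [] ∧ c.dropLast = z) := by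
              rw [Finset.mem_filter]
              exact ⟨hc, by simp, by simp⟩
            have h15 := Finset.single_le_sum (f := fun c => A c) (fun c _ => hA c) hmem
            have h16 : W z * A z ≤ A (z ++ [d]) := by
              have := hW1 z
              have := hA z
              nlinarith
            linarith
        · have h17 : A z = 0 := le_antisymm (not_lt.1 h3) (hA z)
          have h18 : W z * A z = 0 := by rw [h17, mul_zero]
          linarith
  have hsum := Finset.sum_le_sum hsplit
  rw [Finset.sum_add_distrib, Finset.sum_add_distrib, Finset.sum_add_distrib] at hsum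
  have q1 : ∑ z ∈ Zs, (if z = s then A s else 0) ≤ A s := by
    rw [Finset.sum_ite_eq']
    split_ifs
    · exact le_rfl
    · exact hA s
  have q3 : ∑ z ∈ Zs, (∑ c ∈ X.filter (fun c => c ≠ [] ∧ c.dropLast = z), A c) ≤ ∑ w ∈ X, A w := by
    have e : ∀ z ∈ Zs, ∑ c ∈ X.filter (fun c => c ≠ [] ∧ c.dropLast = z), A c =
        ∑ c ∈ X, if c ≠ [] ∧ c.dropLast = z then A c else 0 := fun z _ => Finset.sum_filter _ _
    rw [Finset.sum_congr rfl e, Finset.sum_comm]
    refine Finset.sum_le_sum fun c _ => ?_
    by_cases hc0 : c ≠ []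
    · simp only [hc0, ne_eq, not_false_eq_true, true_and]
      rw [Finset.sum_ite_eq]
      split_ifs
      · exact le_rfl
      · exact hA c
    · simp only [hc0, ne_eq, false_and, if_false, Finset.sum_const_zero]
      exact hA c
  have q4 : ∑ z ∈ Zs, (∑ c ∈ Zs.filter (fun c => c ≠ [] ∧ c.dropLast = z), 1 / 16 * (W c * A c)) ≤
      1 / 16 * T := by
    have e : ∀ z ∈ Zs, ∑ c ∈ Zs.filter (fun c => c ≠ [] ∧ c.dropLast = z), 1 / 16 * (W c * A c) =
        ∑ c ∈ Zs, if c ≠ [] ∧ c.dropLast = z then 1 / 16 * (W c * A c) else 0 :=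
      fun z _ => Finset.sum_filter _ _
    rw [Finset.sum_congr rfl e, Finset.sum_comm, hT, Finset.mul_sum]
    refine Finset.sum_le_sum fun c _ => ?_
    have hpos : 0 ≤ 1 / 16 * (W c * A c) := by
      have := mul_nonneg (hW0 c) (hA c)
      linarith
    by_cases hc0 : c ≠ []
    · simp only [hc0, ne_eq, not_false_eq_true, true_and]
      rw [Finset.sum_ite_eq]
      split_ifs
      · exact le_rfl
      · exact hpos
    · simp only [hc0, ne_eq, false_and, if_false, Finset.sum_const_zero]
      exact hpos
  have q2 : ∑ z ∈ Zs, (if Zg z then W z * A z else 0) ≤ CL * C₅ * ∑ w ∈ X, A w := by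
    have e1 : ∑ z ∈ Zs, (if Zg z then W z * A z else 0) = ∑ z ∈ S.filter Zg, W z * A z := by
      rw [← Finset.sum_filter]
      congr 1
      rw [hZs, Finset.filter_filter]
      refine Finset.filter_congr fun z _ => ?_
      constructor
      · exact fun h => h.2
      · exact fun h => ⟨h.1, h⟩
    rw [e1]
    have h1 : ∀ z ∈ S.filter Zg, W z * A z ≤ ∑ w ∈ X.filter (fun w => z <+: w), CL * (W z * A w) := by
      intro z hz
      rw [Finset.mem_filter] at hz
      have h2 := hGL z hz.1 hz.2.2.1 (hpar z hz.1 hz.2.1 hz.2.2.1) (X.filter (fun w => z <+: w))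
        (fun w => by rw [Finset.mem_filter])
      calc W z * A z ≤ W z * (CL * ∑ w ∈ X.filter (fun w => z <+: w), A w) :=
            mul_le_mul_of_nonneg_left h2 (hW0 z)
        _ = ∑ w ∈ X.filter (fun w => z <+: w), CL * (W z * A w) := by
            rw [Finset.mul_sum, Finset.mul_sum]
            exact Finset.sum_congr rfl fun w _ => by ring
    refine (Finset.sum_le_sum h1).trans ?_
    have hsw : ∑ z ∈ S.filter Zg, ∑ w ∈ X.filter (fun w => z <+: w), CL * (W z * A w) =
        ∑ w ∈ X, ∑ z ∈ (S.filter Zg).filter (fun z => z <+: w), CL * (W z * A w) := by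
      have e2 : ∀ z ∈ S.filter Zg, ∑ w ∈ X.filter (fun w => z <+: w), CL * (W z * A w) =
          ∑ w ∈ X, if z <+: w then CL * (W z * A w) else 0 := fun z _ => Finset.sum_filter _ _
      have e3 : ∀ w ∈ X, ∑ z ∈ (S.filter Zg).filter (fun z => z <+: w), CL * (W z * A w) =
          ∑ z ∈ S.filter Zg, if z <+: w then CL * (W z * A w) else 0 := fun w _ => Finset.sum_filter _ _
      rw [Finset.sum_congr rfl e2, Finset.sum_congr rfl e3]
      exact Finset.sum_comm
    rw [hsw, Finset.mul_sum]
    refine Finset.sum_le_sum fun w _ => ?_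
    have e4 : ∑ z ∈ (S.filter Zg).filter (fun z => z <+: w), CL * (W z * A w) =
        (CL * A w) * ∑ z ∈ (S.filter Zg).filter (fun z => z <+: w), W z := by
      rw [Finset.mul_sum]
      exact Finset.sum_congr rfl fun z _ => by ring
    rw [e4]
    have h5 := mul_le_mul_of_nonneg_left (hmult w) (mul_nonneg hCL (hA w))
    linarith
  have hTT : T ≤ A s + CL * C₅ * ∑ w ∈ X, A w + ∑ w ∈ X, A w + 1 / 16 * T := by
    linarith
  have hfin : 8 / 3 * T ≤ 3 * (CL * C₅ + 1) * (A s + ∑ w ∈ X, A w) := by
    have hAs := hA s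
    have hc := mul_nonneg hCL hC₅0
    nlinarith [mul_nonneg hc hAs, mul_nonneg hc hX0]
  exact hred.trans hfin

end Pool.Agent.ALQ
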