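import Pool.Agent.ALQ.Defs

/-!
# Bounded corona solutions on the complement of the square Cantor set: targets of group C

Every `T_X` has its complete proof in the docstring; block `X` delivers `theorem p_X : T_X` (with the
hypotheses `hY : T_Y` named in the docstring) in `Pool/Agent/ALQ/P_X.lean`, which imports
`Pool.Agent.ALQ.TargetsC`, helper lemmas in the namespace `Pool.Agent.ALQ.X_`. Landed facts of CorA:
`Pool.Agent.CorA.a_CST : T_CST`, `a_VAR`, `a_SRB`, `a_MAS`, `a_LCL`, `a_DUA` (All.lean).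
-/

set_option autoImplicit false

namespace Pool.Agent.ALQ

open Complex Metric Set Filter Topology MeasureTheory
open Pool.Corona91698f Pool.Agent.CorE Pool.Agent.CorA
open scoped Real BoundedContinuousFunction

open Classical in
/-- The last top above or equal to `u`. -/
noncomputable def lst (K : ℝ) (a : List D → ℝ) (u : List D) : List D :=
  u.take (Nat.findGreatest (fun i => Top K a (u.take i)) u.length)

/-- Good calm nodes. -/
def GC {n : ℕ} (f : Fin n → ℂ → ℂ) (h : Fin n → Fin n → ℂ → ℂ) (a : List D → ℝ) (A ε : ℝ)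
    (u : List D) : Prop := a u ≤ A * ‖mm f h u‖ ∧ ta f u ≤ ε

/-- The last top is not a good calm one. -/
def ncc {n : ℕ} (f : Fin n → ℂ → ℂ) (h : Fin n → Fin n → ℂ → ℂ) (a : List D → ℝ) (K A ε : ℝ)
    (u : List D) : Prop := ¬ GC f h a A ε (lst K a u)

open Classical in
/-- The tolerance: resets happen only at good calm tops. -/
noncomputable def tl {n : ℕ} (f : Fin n → ℂ → ℂ) (h : Fin n → Fin n → ℂ → ℂ) (a : List D → ℝ)
    (K A ε e : ℝ) (u : List D) : ℝ := if Top K a u ∧ GC f h a A ε u then e / 4 else 3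

/-- The linear combination of the `f k` in the direction `c`. -/
noncomputable def Fn {n : ℕ} (f : Fin n → ℂ → ℂ) (c : Fin n → ℂ) (z : ℂ) : ℂ :=
  ∑ k, f k z * (starRingEnd ℂ) (c k)

/-- The normalised deviation at `s` in the direction `c`. -/
noncomputable def phs {n : ℕ} (f : Fin n → ℂ → ℂ) (c : Fin n → ℂ) (s : List D) (z : ℂ) : ℂ :=
  (Fn f c z - Fn f c (cc s)) / (2 * n)

/-- `y` is near: the combination stays near its value `t`. -/
def Near {n : ℕ} (f : Fin n → ℂ → ℂ) (c : Fin n → ℂ) (t : ℂ) (y : List D) : Prop :=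
  ∀ z, Psi y z ∈ nodeX → ‖Fn f c z - t‖ ≤ ‖t‖ / 2

/-- SZF: sizes.

PROOF. The set {z | Psi v z ∈ nodeX} is compact (preimage under the affine bijection Psi v of the
compact set nodeX), nonempty (att of HD, or the point Phi v (ctr + 77/100)), contained in
OmR (73/100) N for |v| < N (proof of PAI / node_sub in CorA) and in squareCantorᶜ. H is continuous on
it, so the supremum is attained (IsCompact.exists_isMaxOn). Fourth claim: AM is the maximum over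
the pairs (ciSup over a Finite type; le_ciSup (Set.finite_range _).bddAbove, ciSup_le / exists_eq_ciSup_of_finite).
n ≥ 1 from x : Fin n × Fin n, or from Dat. -/
def T_SZF : Prop :=
  (∀ (H : ℂ → ℂ) (v : List D), ContinuousOn H {z | Psi v z ∈ nodeX} →
    0 ≤ sp H v ∧ (∀ z, Psi v z ∈ nodeX → ‖H z‖ ≤ sp H v) ∧ (∃ z, Psi v z ∈ nodeX ∧ ‖H z‖ = sp H v) ∧
    (∀ b : ℝ, (∀ z, Psi v z ∈ nodeX → ‖H z‖ ≤ b) → sp H v ≤ b)) ∧
  (∀ (N : ℕ) (v : List D), v.length < N → {z | Psi v z ∈ nodeX} ⊆ OmR (73 / 100) N) ∧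
  (∀ v : List D, {z | Psi v z ∈ nodeX} ⊆ squareCantorᶜ ∧ Psi v (cc v) ∈ nodeX) ∧
  (∀ (n N M : ℕ) (C₀ : ℝ) (φ : ℂ → ℂ) (h : Fin n → Fin n → ℂ → ℂ) (a : List D → ℝ) (v : List D),
    HD n N h a C₀ → DifferentiableOn ℂ φ squareCantorᶜ → v.length < N →
    0 ≤ AM φ M h v ∧
    (∀ i j z, Psi v z ∈ nodeX → ‖φ z ^ M * h i j z‖ ≤ 3 ^ v.length * AM φ M h v) ∧
    (∀ b : ℝ, 0 ≤ b → (∀ i j z, Psi v z ∈ nodeX → ‖φ z ^ M * h i j z‖ ≤ 3 ^ v.length * b) →
      AM φ M h v ≤ b) ∧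
    (1 ≤ n → ∃ i j z, Psi v z ∈ nodeX ∧ 3 ^ v.length * AM φ M h v = ‖φ z ^ M * h i j z‖)) ∧
  (∀ (n : ℕ) (δ : ℝ) (f : Fin n → ℂ → ℂ) (v : List D), Dat n δ f →
    0 ≤ ta f v ∧ ta f v ≤ 2 ∧ (∀ k z, Psi v z ∈ nodeX → ‖f k z - f k (cc v)‖ ≤ ta f v) ∧
    ∃ k z, Psi v z ∈ nodeX ∧ ‖f k z - f k (cc v)‖ = ta f v)

open Classical in
/-- LST: the last top.

PROOF. Nat.findGreatest_spec / le (the index 0 is admissible: u.take 0 = [] is Top),
Nat.findGreatest_is_greatest. Prefixes of u are the u.take i, i ≤ |u|. (p ++ [d]).take i = p.take i for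
i ≤ |p|. Fifth: u ∈ Rg ... (lst u) if u is not a top and |u| < N. Sixth: the words strictly between
lst p and p ++ [d] are initial words of p, not tops. -/
def T_LST : Prop := ∀ (K : ℝ) (a : List D → ℝ),
  (∀ u, lst K a u <+: u ∧ Top K a (lst K a u) ∧
    ∀ t, lst K a u <+: t → t <+: u → Top K a t → t = lst K a u) ∧
  (∀ u, Top K a u → lst K a u = u) ∧
  (∀ p (d : D), ¬ Top K a (p ++ [d]) → lst K a (p ++ [d]) = lst K a p) ∧
  (∀ s u, s <+: u → Top K a s → (∀ t, s <+: t → t <+: u → Top K a t → t = s) → lst K a u = s) ∧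
  (∀ (N : ℕ) u, u.length < N → ¬ Top K a u → u ∈ Rg N K a (lst K a u)) ∧
  (∀ (N : ℕ) p (d : D), p.length + 1 < N → Top K a (p ++ [d]) →
    p ++ [d] ∈ nxt N (Top K a) (lst K a p)) ∧
  (∀ (N : ℕ) s u, Top K a s → u ∈ Rg N K a s → ¬ Top K a u ∧ lst K a u = s ∧ u.length < N) ∧
  (∀ (N : ℕ) s u, Top K a s → u ∈ nxt N (Top K a) s → u ≠ [] ∧ lst K a u.dropLast = s)

open Classical in
/-- FAR: the steep regions of all tops. Hypotheses hSRG : T_SRG, hNMB : T_NMB, hENE : T_ENE,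
hSZF : T_SZF, hLST : T_LST.

PROOF. K ≥ Kt, M ≥ 1 and ≥ the M₀ of NMB and ENE. SRG for φ s at every s ∈ Tp. (1) AM (φ s) M h s ≤
(n ta f s)^M a s: for Psi s z ∈ nodeX ‖φ s z‖ ≤ sum_k ‖f k z - f k (cc s)‖ ≤ n ta f s, ‖h‖ ≤ 3^|s| a s (SZF).
Sum over s: n^M NMB. (2) e ∈ nxt: ‖φ s z‖ ≤ n (ta f e + dist (FF f e) (FF f s)), (x + y)^M ≤
2^M (x^M + y^M): AM (φ s) M h e ≤ (2n)^M (ta f e ^ M + dist ^ M) a e. Sum: ENE for the second part;
first part: every e is in nxt N Top s for at most one top s (s = lst e.dropLast, LST) and is a top: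
≤ NMB. (3) bottom terms: the sets Rg s are disjoint for different tops s (lst u = s), so the sum is
≤ the sum of a y over |y| < N, N ≤ |y| + J: ≤ J C₀ by lev (wd (N-1) is the union of the lv l). -/
def T_FAR : Prop := ∃ Kt : ℝ, 8 ≤ Kt ∧ ∀ (n : ℕ) (C₀ K : ℝ), 0 < C₀ → Kt ≤ K → ∃ M₀ : ℕ, ∀ M : ℕ,
  M₀ ≤ M → ∃ C : ℝ, 1 ≤ C ∧
  ∀ (N : ℕ) (δ : ℝ) (f : Fin n → ℂ → ℂ) (h : Fin n → Fin n → ℂ → ℂ) (a : List D → ℝ)
    (φ : List D → ℂ → ℂ), 1 ≤ N → Dat n δ f → HD n N h a C₀ →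
  (∀ s, DifferentiableOn ℂ (φ s) squareCantorᶜ) →
  (∀ s, ∀ z ∈ squareCantorᶜ, ‖φ s z‖ ≤ 1 ∧ ‖φ s z‖ ≤ ∑ k, ‖f k z - f k (cc s)‖) →
  ∑ s ∈ Tp N K a, ∑ y ∈ Rg N K a s, wt (φ s) y * AM (φ s) M h y ≤ C

open Classical in
/-- NCR: the tops which are not good and calm, and what is below them. Hypotheses hBAD : T_BAD,
hNMB : T_NMB, hEXI : T_EXI, hSZF : T_SZF, hLST : T_LST.

PROOF. A of BAD. First sum: if a u > A ‖mm u‖: BAD. If ta f u > ε: a u ≤ ε^(-M) ta^M a u, M = M₀ of NMB.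
Second sum: let u = p ++ [d], i = lst p: a top, not GC, |i| < N. If u is a top, u ∈ nxt N Top i
(LST): the sum is ≤ EXI for t = the filter set of the first sum. If u is not a top, lst u = i and
u ∈ Rg i: for the words of Rg i of length |i| + m: a u ≤ K^(-m) a i (¬ Top u: a u.dropLast > K a u, and
all words between i and u are no tops), there are at most 4^m of them, sum over m ≥ 1 of
(4/K)^m ≤ 1 for K ≥ 8: ≤ sum of a i over the non GC tops. -/
def T_NCR : Prop := ∀ (n : ℕ) (C₀ K : ℝ), 0 < C₀ → 8 ≤ K → ∃ A : ℝ, 1 ≤ A ∧ ∀ ε : ℝ, 0 < ε →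
  ∃ C : ℝ, 1 ≤ C ∧
  ∀ (N : ℕ) (δ : ℝ) (f : Fin n → ℂ → ℂ) (h : Fin n → Fin n → ℂ → ℂ) (a : List D → ℝ), 1 ≤ N →
  Dat n δ f → HD n N h a C₀ →
  ∑ u ∈ (Tp N K a).filter (fun u => ¬ GC f h a A ε u), a u ≤ C ∧
  ∑ u ∈ (wd (N - 1)).filter (fun u => u ≠ [] ∧ ncc f h a K A ε u.dropLast), a u ≤ C

/-- CSF: the directions. Hypotheses hLST : T_LST, hSZF : T_SZF (and Pool.Agent.CorA.a_CST).

PROOF. Cs u = FF f x for some word x (a_CST): ‖FF f x k‖ ≤ 1 (cc x ∉ squareCantor, SZF). (2) u a top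
with GC u: u = []: Cs = FF. u = p ++ [d]: in the first and third case of the rule Cs u = FF u, in the
second dist ≤ tl u = e / 4. (3) u not a top and ¬ ncc u: u ≠ [], u = p ++ [d], lst u = lst p, so ¬ ncc p;
tl u = 3 ≥ 2 ≥ dist (FF u) (Cs p), so Cs u = Cs p. (4) rule, second case. (5) from (3) by induction
on |u|: Cs u = Cs (lst u). -/
def T_CSF : Prop := ∀ (n : ℕ) (δ : ℝ) (f : Fin n → ℂ → ℂ) (h : Fin n → Fin n → ℂ → ℂ)
  (a : List D → ℝ) (K A ε e : ℝ) (Cs : List D → Fin n → ℂ), Dat n δ f → 0 < e → e ≤ 4 →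
  Rule (FF f) (ncc f h a K A ε) (tl f h a K A ε e) Cs →
  (∀ u k, ‖Cs u k‖ ≤ 1) ∧
  (∀ u, Top K a u → GC f h a A ε u → dist (FF f u) (Cs u) ≤ e / 4) ∧
  (∀ u, ¬ Top K a u → ¬ ncc f h a K A ε u → ¬ ncc f h a K A ε u.dropLast ∧ Cs u = Cs u.dropLast) ∧
  (∀ u, u ≠ [] → Top K a u → GC f h a A ε u → ¬ ncc f h a K A ε u.dropLast →
    ¬ Reset (FF f) (ncc f h a K A ε) (tl f h a K A ε e) Cs u → Cs u = Cs u.dropLast) ∧
  (∀ u, ¬ ncc f h a K A ε u → Cs u = Cs (lst K a u)) ∧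
  (∀ u, Reset (FF f) (ncc f h a K A ε) (tl f h a K A ε e) Cs u → Top K a u ∧ GC f h a A ε u)

open Classical in
/-- RST: the resets. Hypotheses hLST : T_LST, hSZF : T_SZF, hCSF : T_CSF (and a_CST, a_VAR, a_SRB,
a_MAS of CorA). Compare the proof p_SRT of CorA.

PROOF. nc = ncc, R = RR (FF f) nc tl Cs, T = the filter set on the left, SR = its total size. u ∈ T is a
GC top (CSF): a u ≤ A ‖mm u‖. Let x be the word of a_CST for p = u.dropLast: x ∈ R, Cs p = FF f x, no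
further elements of R between x and p, ¬ nc t for x <+: t <+: p (t = p: u is a reset). So u ∈ nxt N R x,
¬ nc x. x is a GC top: x = [] is a top, lst [] = []; if nc x.dropLast and x were no top then
lst x = lst x.dropLast and nc x: contradiction, so x is a top and GC as lst x = x; if x is a reset: CSF.
e / 4 = tl u < dist (FF f u) (Cs p) = dist (FF f u) (FF f x). ta f v ≤ ε gives ¬ NC f (3 ε) v (SZF:
‖f k z - f k z'‖ ≤ 2 ε). For x ∈ R, |x| < N, x a GC top, ¬ nc x, let t_x = T ∩ nxt N R x; a_SRB with e/4, 3 ε in place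
of ε, s = nxt N R x: sum over t_x of ‖mm u‖ ≤ C2 V_x + 3 C2 ε (a x + sum over t_x of a u), V_x ≥ 0 always. The sets
nxt N R x are disjoint for different x. Sum over these x: sum V_x ≤ sum over lv (N-1) of ‖mm v‖ ≤ C3 C₀
(a_VAR, a_MAS, lev). The x are [] (a ≤ C₀), or nc x.dropLast (x ≠ []: total ≤ P), or resets (total ≤ SR).
SR ≤ A C2 C3 C₀ + 3 A C2 ε (C₀ + P + 2 SR), and 6 A C2 ε₁ ≤ 1/2. -/
def T_RST : Prop := ∀ (n : ℕ) (C₀ K A e : ℝ), 0 < C₀ → 1 ≤ A → 0 < e → e ≤ 4 →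
  ∃ C ε₁ : ℝ, 1 ≤ C ∧ 0 < ε₁ ∧
  ∀ (N : ℕ) (δ ε P : ℝ) (f : Fin n → ℂ → ℂ) (h : Fin n → Fin n → ℂ → ℂ) (a : List D → ℝ)
    (Cs : List D → Fin n → ℂ), 1 ≤ N → Dat n δ f → HD n N h a C₀ → 0 < ε → ε ≤ ε₁ → 
  Rule (FF f) (ncc f h a K A ε) (tl f h a K A ε e) Cs →
  ∑ u ∈ (wd (N - 1)).filter (fun u => u ≠ [] ∧ ncc f h a K A ε u.dropLast), a u ≤ P →
  ∑ u ∈ (wd (N - 1)).filter
    (fun u => Reset (FF f) (ncc f h a K A ε) (tl f h a K A ε e) Cs u), a u ≤ C * (1 + P)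

open Classical in
/-- SOF: frozen and soft local solutions. (Uses Pool.Agent.CorA.a_LCL; compare p_FRZ of CorA.)

PROOF. g₀, B₀ from a_LCL. Let F = Fn f (c u), t = τ u, β = 1 - F/t. For gc u and Near: |F| ≥ |t|/2 ≥
δ^2/4 on the node of u, g (some u) i = conj (c u i)/F. For gc u, not Near: g (some u) i =
ψ conj (c u i) + β^M g₀ (some u) i with ψ = (sum over m < M of β^m)/t; F ψ = (1 - β) sum β^m = 1 - β^M
(geometric sum, mul_geom_sum), so sum f_i g_i = F ψ + β^M = 1; |β| ≤ 1 + 2n/δ^2. Otherwise g₀. NR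
(some u) = {Psi u z ∈ nodeV} ⊆ node of u ⊆ squareCantorᶜ. BB g h u z = sum_ij g (some u) i g (some p) j
h_ij (par u = some u.dropLast for u ≠ []). First claim: ≤ B^2 sum ‖h_ij‖. Second claim: both
solutions are of the form x conj (c i) + b g₀ i with the same c (c u = c p), b = 0 in the Near case and
b = β^M otherwise, |x|, |b|, |g₀|, |c| bounded: by antisymmetry sum_ij conj c_i conj c_j h_ij = 0, and the other
three products contain a factor b of u or of p. |β|^M = |F - t|^M/|t|^M. -/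
def T_SOF : Prop := ∀ (n M : ℕ) (δ : ℝ), 0 < δ → 1 ≤ M → ∃ B C : ℝ, 1 ≤ B ∧ 1 ≤ C ∧
  ∀ (f : Fin n → ℂ → ℂ) (gc : List D → Prop) (c : List D → Fin n → ℂ) (τ : List D → ℂ), Dat n δ f →
  (∀ u, gc u → (∀ k, ‖c u k‖ ≤ 1) ∧ δ ^ 2 / 2 ≤ ‖τ u‖ ∧ ‖τ u‖ ≤ n) →
  ∃ g, LS n f g B ∧
    (∀ (h : Fin n → Fin n → ℂ → ℂ) (u : List D) (z : ℂ), z ∈ NR (some u) →
      z ∈ NR (par u) → ‖BB g h u z‖ ≤ C * ∑ i, ∑ j, ‖h i j z‖) ∧
    ∀ (h : Fin n → Fin n → ℂ → ℂ) (u : List D) (z : ℂ), u ≠ [] → gc u → gc u.dropLast →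
      c u = c u.dropLast → z ∈ NR (some u) → z ∈ NR (some u.dropLast) →
      (∀ i j, h j i z = - h i j z) →
      ‖BB g h u z‖ ≤ C * (((if Near f (c u) (τ u) u then 0 else ‖Fn f (c u) z - τ u‖ ^ M) +
        (if Near f (c u) (τ u.dropLast) u.dropLast then 0 else
          ‖Fn f (c u) z - τ u.dropLast‖ ^ M)) * ∑ i, ∑ j, ‖h i j z‖)

open Classical in
/-- EDG: the cost of one word. Hypotheses hLST : T_LST, hSZF : T_SZF, hCSF : T_CSF, hSOF : T_SOF.

PROOF. e = δ^2/(4n+4), n ≥ 1. gc u := ¬ ncc u, c = Cs, τ u = Fn f (Cs u) (cc (lst u)). For gc u, s = lst u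
is a GC top, Cs u = Cs s (CSF), so |τ u - sum |f_k(cc s)|^2| ≤ n e/4 ≤ δ^2/4 and sum |f_k(cc s)|^2 ≥ δ^2:
|τ u| ≥ δ^2/2, ≤ n. SOF gives g, B. Let u ∈ wd (N-1), u ≠ [], p = u.dropLast, z on the circle of u
(dist (Psi u z) ctr = 77/100): z is in the nodes of u and of p and in NR of both (as in p_MAI of
CorA), |cm u (BB g h u)| ≤ 3^(-|u|) sup over the circle of |BB|, sum_ij |h_ij z| ≤ n^2 3^|u| a u, so |cm| ≤ C a u
always. If ncc p: first term. If ¬ ncc p and (Top u, ¬ GC u): second term. If Reset u: third term. In the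
remaining cases ¬ ncc p, and either u is no top, lst u = lst p, ¬ ncc u, Cs u = Cs p, τ u = τ p, or u is a GC
top, not reset: Cs u = Cs p, lst u = u, ¬ ncc u. The second claim of SOF applies. A GC top y (y = lst y) is
Near for τ y = Fn f (Cs y) (cc y): |Fn z - Fn (cc y)| ≤ n ε ≤ δ^2/4 (ε ≤ δ^2/(4n)). So if u or p is not
Near it is no top. Let y ∈ {u, p} be not Near, s = lst y, φ = phs f (Cs s) s; ‖Fn - τ y‖ = 2n ‖φ‖, on the circle of
u (contained in the node of y) ‖φ z‖^M ‖h_ij z‖ ≤ 3^|y| AM φ M h y (SZF), 3^(-|u|) 3^|y| ≤ 1. Not Near: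
sp φ y ≥ |τ|/(4n) ≥ δ^2/(8n), sp φ y ≤ 1, so wt φ y ≥ c > 0. So the cost is ≤ C (the fourth term if y = u,
the fifth if y = p). -/
def T_EDG : Prop := ∀ (n M : ℕ) (δ C₀ : ℝ), 0 < δ → 1 ≤ M → 0 < C₀ → ∃ B C ε₂ : ℝ, 1 ≤ B ∧ 1 ≤ C ∧
  0 < ε₂ ∧
  ∀ (N : ℕ) (K A ε : ℝ) (f : Fin n → ℂ → ℂ) (h : Fin n → Fin n → ℂ → ℂ) (a : List D → ℝ)
    (Cs : List D → Fin n → ℂ), 1 ≤ N → Dat n δ f → HD n N h a C₀ → 0 < ε → ε ≤ ε₂ →
  Rule (FF f) (ncc f h a K A ε) (tl f h a K A ε (δ ^ 2 / (4 * n + 4))) Cs →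
  ∃ g, LS n f g B ∧ ∀ u ∈ wd (N - 1), u ≠ [] →
    ‖cm u (BB g h u)‖ ≤ C * (
      (if ncc f h a K A ε u.dropLast then a u else 0) +
      (if Top K a u ∧ ¬ GC f h a A ε u then a u else 0) +
      (if Reset (FF f) (ncc f h a K A ε) (tl f h a K A ε (δ ^ 2 / (4 * n + 4))) Cs u
        then a u else 0) +
      (if Top K a u then 0 else
        wt (phs f (Cs (lst K a u)) (lst K a u)) u * AM (phs f (Cs (lst K a u)) (lst K a u)) M h u) +
      (if Top K a u.dropLast then 0 else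
        wt (phs f (Cs (lst K a u.dropLast)) (lst K a u.dropLast)) u.dropLast *
          AM (phs f (Cs (lst K a u.dropLast)) (lst K a u.dropLast)) M h u.dropLast))

/-- COS: local solutions with bounded pairing. Hypotheses hFAR : T_FAR, hNCR : T_NCR, hRST : T_RST,
hEDG : T_EDG, hLST : T_LST, hSZF : T_SZF, hCSF : T_CSF (and a_CST of CorA). Target: T_COS in Defs.lean.

PROOF. n ≥ 1 or there is nothing (Dat n is impossible for n = 0; take B = X = 1). K = Kt of FAR (≥ 8); A of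
NCR; e = min (δ^2/(4n+4)) .. (δ may be assumed ≤ 1: Dat n δ f gives δ ≤ 1, otherwise nothing to prove;
so e = δ^2/(4n+4) ≤ 4); C, ε₁ of RST, ε = min ε₁ ε₂ (ε₂ of EDG for M = max 1 M₀), P = C of NCR for this ε. Cs from a_CST. TB =
sum over wd N: |u| = N: |cm u BB| ≤ n^2 B^2 .. bot ≤ C C₀ and u = []: ≤ C a [] ≤ C C₀ (if N ≥ 1), as in p_MAI of CorA.
The others: EDG, sum of the five terms over u ∈ wd (N-1), u ≠ []: NCR (second), NCR (first), RST, FAR,
4 FAR: for the fourth: u no top, u ∈ Rg N K a (lst u), the pairs (s, y) with s ∈ Tp, y ∈ Rg s correspond to the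
y which are no tops, s = lst y (LST); FAR with φ s = phs f (Cs s) s: |phs| ≤ (sum_k ‖f k z - f k (cc s)‖)/(2n),
≤ 1. The fifth: every p is the dropLast of four u. All terms are ≥ 0. -/
def T_COS' : Prop := T_COS

open Classical in
/-- LIM: the limit of the solutions of level N.

PROOF. Let U = squareCantorᶜ (open). (1) For z₀ ∈ U there are r > 0, N₀ with ball z₀ r ⊆ OmR (73/100) N for
N ≥ N₀: for q ∈ lv N dist (Psi q z) ctr = 3^N dist z (cc q), cc q has distance ≤ 3^(-N) from squareCantor (infDist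
facts of the library: infDist_Psi, infDist_le_dist_ctr: infDist (Psi q z) ≤ dist (Psi q z) ctr + C and
infDist (Psi q z) ≥ 3^N infDist z; so dist (Psi q z) ctr ≥ 3^N infDist z - C > 73/100). (2) Let 𝒰 be a
nonprincipal ultrafilter on ℕ (Filter.hyperfilter ℕ), g j z = lim over 𝒰 of G N j z (values in the compact ball
of radius C; Ultrafilter le_nhds_lim, IsCompact.ultrafilter_le_nhds); take G N j z := 0 outside OmR. ‖g‖ ≤ C,
sum f g = 1 pass to the limit (tendsto_nhds_unique). (3) g j is differentiable at z₀: for z, ζ in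
ball z₀ (r/2) and N ≥ N₀ Cauchy's formula on the circle C(z₀, 3r/4) :
G N j z = (2πI)⁻¹ ∮ G N j ζ/(ζ - z): either pass to the limit in Cauchy's formula by dominated convergence
(not available for ultrafilters) or: the family G N j is equicontinuous on ball z₀ (r/2) (‖G z - G w‖ ≤
(4C/r)‖z - w‖, Complex.dist_le_div_mul_dist_of_mapsTo_ball or norm_deriv_le), so the ultrafilter limit is
uniform on closedBall z₀ (r/4) (TendstoUniformlyOn from equicontinuity and pointwise convergence on a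
compact set: finite net argument), and TendstoLocallyUniformlyOn.differentiableOn (it holds for any filter
NeBot) gives the claim. Alternative: a diagonal sequence on a countable dense set and the same argument. -/
def T_LIM : Prop := ∀ (n : ℕ) (δ C : ℝ) (f : Fin n → ℂ → ℂ), Dat n δ f →
  (∀ N : ℕ, 1 ≤ N → ∃ G : Fin n → ℂ → ℂ,
    (∀ i, DifferentiableOn ℂ (G i) (OmR (73 / 100) N)) ∧
    (∀ z ∈ OmR (73 / 100) N, ∑ j, f j z * G j z = 1) ∧
    ∀ i, ∀ z ∈ OmR (73 / 100) N, ‖G i z‖ ≤ C) →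
  ∃ g : Fin n → ℂ → ℂ, (∀ j, DifferentiableOn ℂ (g j) squareCantorᶜ) ∧
    (∀ z ∈ squareCantorᶜ, ∑ j, f j z * g j z = 1) ∧ ∀ j, ∀ z ∈ squareCantorᶜ, ‖g j z‖ ≤ C

/-- BND: from T_COS and T_LIM and a_DUA. Hypotheses hCOS : T_COS, hLIM : T_LIM. Target T_BND in Defs.lean.

PROOF. C₁ of a_DUA, B, X of COS with C₀ = C₁, C of a_DUA for B: for N ≥ 1 a solution G with |G| ≤ C (1 + X).
LIM. -/
def T_BND' : Prop := T_BND

end Pool.Agent.ALQ
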