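import Pool.Agent.ALQ.Defs

/-!
# Group N: bad tops, child jumps, oscillation at the tops

Every `T_X` has its complete proof in the docstring; block `X` delivers `theorem p_X` in
`Pool/Agent/ALQ/P_X.lean` (helper lemmas in the namespace `Pool.Agent.ALQ.X_`), with the
hypotheses named in the docstring.
-/

set_option autoImplicit false

namespace Pool.Agent.ALQ

open Complex Metric Set Filter Topology MeasureTheory
open Pool.Corona91698f Pool.Agent.CorE Pool.Agent.CorA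
open scoped Real BoundedContinuousFunction

open Classical in
/-- YBD: the sizes at depth `k` below `u` (abstract, pure combinatorics, no hypotheses).

PROOF. Induction on k (u fixed). k = 0: lv 0 = {[]}, the left side is a u and the right side is
≥ (1/2)^0 a u. Step k → k + 1 (u.length + k + 1 < N). The words of lv (k + 1) are x ++ [d], x ∈ lv k
(sum_lv_snoc in CorA/P_NC4.lean). Put v = u ++ x ++ [d] = (u ++ x) ++ [d]; by the hypothesis for
p = u ++ x: a v ≤ a (u ++ x)/8 + (1/c0) μ v + (if P v then a v else 0) (all three terms are ≥ 0). Sum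
over d (4 values, Fintype.card D = 4) and x: Y_(k+1) ≤ (1/2) Y_k + (1/c0) M_(k+1) + E_(k+1), where
Y_k = sum over lv k of a (u ++ x), M_k = the same sum of μ, E_k = the sum of a (u ++ x) over x ∈ lv k with
P (u ++ x). By induction (1/2) Y_k ≤ (1/c0) M_k + sum over i < k of (1/2)^(i+1) E_(k-i) + (1/2)^(k+1) a u,
M_k ≤ M_(k+1) (the hypothesis on μ for p = u ++ x), and E_(k+1) + sum over i < k of (1/2)^(i+1) E_(k-i) =
sum over i < k + 1 of (1/2)^i E_(k+1-i) (Finset.sum_range_succ'). -/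
def T_YBD : Prop := ∀ (N : ℕ) (c0 : ℝ) (a μ : List D → ℝ) (P : List D → Prop), 0 < c0 →
  (∀ u, 0 ≤ a u) → (∀ u, 0 ≤ μ u) →
  (∀ p : List D, p.length + 1 < N → μ p ≤ ∑ d : D, μ (p ++ [d])) →
  (∀ (p : List D) (d : D), p.length + 1 < N → a (p ++ [d]) ≤ a p / 8 ∨
    c0 * a (p ++ [d]) ≤ μ (p ++ [d]) ∨ P (p ++ [d])) →
  ∀ (u : List D) (k : ℕ), u.length + k < N →
    ∑ x ∈ lv k, a (u ++ x) ≤ 2 / c0 * ∑ x ∈ lv k, μ (u ++ x) +
      ∑ i ∈ Finset.range k, (1 / 2 : ℝ) ^ i *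
        ∑ x ∈ (lv (k - i)).filter (fun x => P (u ++ x)), a (u ++ x) + (1 / 2) ^ k * a u

open Classical in
/-- SME: the sum of the middle terms of YBD (no hypotheses).

PROOF. Exchange the sums over u and i. For fixed i < k the map (u, x) ↦ u ++ x on the pairs with
u.length + k < N, x ∈ lv (k - i), P (u ++ x) is injective (x is the last k - i digits, List.append_inj')
and its values are words of length ≤ N - 1 with P, so the inner double sum is ≤ the sum over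
(wd (N - 1)).filter P of a (Finset.sum_sigma', Finset.sum_image, sum_le_sum_of_subset_of_nonneg; or by
levels with sum_lv_add). The sum of (1/2)^i over i < k is ≤ 2. -/
def T_SME : Prop := ∀ (N k : ℕ) (a : List D → ℝ) (P : List D → Prop), 1 ≤ N → (∀ u, 0 ≤ a u) →
  ∑ u ∈ (wd (N - 1)).filter (fun u => u.length + k < N), ∑ i ∈ Finset.range k, (1 / 2 : ℝ) ^ i *
    ∑ x ∈ (lv (k - i)).filter (fun x => P (u ++ x)), a (u ++ x) ≤
  2 * ∑ v ∈ (wd (N - 1)).filter P, a v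

/-- INC: the sum of all increments of the variation. Hypothesis hMAS : T_MAS.

PROOF. Let N_l = sum over lv l of ‖mm f h u‖; 0 ≤ N_l ≤ C_MAS C₀ for l < N (MAS, first claim, and
HD.lev). If k ≥ N the filter is empty. Otherwise by levels (sum_wd_lv, sum_lv_add) the left side is the
sum over l < N - k of (N_(l+k) - N_l), which telescopes (NC4_.tele in CorA/P_NC4.lean, or
Finset.sum_range_... : it is the sum of N_l over N - k ≤ l < N minus the sum over l < k when k ≤ N - k,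
in general ≤ the sum of the last k values) so it is ≤ k C_MAS C₀. -/
def T_INC : Prop := ∀ (n : ℕ) (C₀ : ℝ), 0 < C₀ → ∃ C : ℝ, 1 ≤ C ∧
  ∀ (N k : ℕ) (δ : ℝ) (f : Fin n → ℂ → ℂ) (h : Fin n → Fin n → ℂ → ℂ) (a : List D → ℝ), 1 ≤ N →
  Dat n δ f → HD n N h a C₀ →
  ∑ u ∈ (wd (N - 1)).filter (fun u => u.length + k < N),
    (∑ x ∈ lv k, ‖mm f h (u ++ x)‖ - ‖mm f h u‖) ≤ C * (k + 1)

open Classical in
/-- JMP: the words with a much larger child. Hypotheses hBAD : T_BAD, hINC : T_INC, hMAS : T_MAS.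

PROOF. BAD with K = 8 gives A, C_B. C_M from MAS. K4 = A (C_M + 1) + 1. Let u be in the filter set and
v = u ++ [d] with K4 a u < a v (choose d = d(u)). Then a u < a v, so Top 8 a v (v.dropLast = u,
a u ≤ 8 a v) and v ∈ Tp N 8 a (|v| < N). (i) If A ‖mm v‖ < a v then a u ≤ a v and v is in the set of
BAD; different u have different v (u = v.dropLast): the sum of these a u is ≤ C_B. (ii) Otherwise
a v ≤ A ‖mm v‖, so ‖mm v‖ ≥ a v/A ≥ K4 a u/A ≥ (C_M + 1) a u, and I(u) = sum over x ∈ lv 1 of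
‖mm (u ++ x)‖ - ‖mm u‖ ≥ ‖mm v‖ - C_M a u ≥ a u (MAS, first claim: ‖mm u‖ ≤ C_M a u). I(u) ≥ 0 for all u
with |u| + 1 < N (MAS, third claim, norm_sum_le), so the sum of these a u is ≤ the sum of all I(u) ≤ 2 C
(INC with k = 1). -/
def T_JMP : Prop := ∀ (n : ℕ) (C₀ : ℝ), 0 < C₀ → ∃ K4 C : ℝ, 1 ≤ K4 ∧ 1 ≤ C ∧
  ∀ (N : ℕ) (δ : ℝ) (f : Fin n → ℂ → ℂ) (h : Fin n → Fin n → ℂ → ℂ) (a : List D → ℝ), 1 ≤ N →
  Dat n δ f → HD n N h a C₀ →
  ∑ u ∈ (wd (N - 1)).filter (fun u => u.length + 1 < N ∧ ∃ d : D, K4 * a u < a (u ++ [d])), a u ≤ C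

open Classical in
/-- NMT: the tops with oscillation at least `ε`. Hypotheses hNC1 : T_NC1, hYBD : T_YBD,
hSME : T_SME, hINC : T_INC, hBAD : T_BAD, hJMP : T_JMP, hMAS : T_MAS.

PROOF. K' = max K 8; Tp N K a ⊆ Tp N K' a. BAD for K': A, C_B; P v := (Top K' a v and A ‖mm v‖ < a v).
JMP: K4, C_J. K'' = max K' K4. C1 from NC1, C_M from MAS, C_I from INC.
YBD for c0 = 1/A, μ = ‖mm f h ·‖ (third hypothesis: MAS, norm_sum_le; fourth: if not Top K' a (p ++ [d])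
then K' a (p ++ [d]) < a p, a (p ++ [d]) ≤ a p/8; if Top and not P then a ≤ A ‖mm‖).
So with M_k(u) = sum over lv k of ‖mm (u ++ x)‖, I(u) = M_(2j)(u) - ‖mm u‖ ≥ 0 (j ≥ 1, |u| + 2j < N),
M_j(u) ≤ M_(2j)(u) ≤ C_M a u + I(u), S_k(u) = the middle sum of YBD:
Y_j + Y_(2j) ≤ 4 A (C_M a u + I(u)) + S_j(u) + S_(2j)(u) + 2 a u.
Let u = p ++ [d] ∈ Tp N K' a, NC f ε u, |u| + 2j < N, and no child e with K4 a u < a (u ++ [e]). NC1 with K'':
a u ≤ κ ((3/4)^j (Y_j + Y_(2j)) + I(u)), κ = C1 (K''/ε)^C1 ≥ 1. Choose j ≥ 1 minimal with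
κ (3/4)^j (4 A C_M + 2) ≤ 1/4 (then also κ (3/4)^j ≤ 1/4); j + 1 ≤ C (1/ε) (as log κ ≤ C (1 + log (1/ε)), and
4 log(4/3) ≥ 1). So a u ≤ a u/4 + κ (3/4)^j (4 A I(u) + S_j(u) + S_(2j)(u)) + κ I(u), hence
a u ≤ 2 κ (1 + 4 A) I(u) + S_j(u) + S_(2j)(u). Sum over these u: the sum of I(u) over all u with
|u| + 2j < N is ≤ C_I (2j + 1) (INC with k = 2j), the sums of S_j, S_(2j) are ≤ 2 C_B each (SME with
k = j, k = 2j; (wd (N-1)).filter P is the set of BAD for K'). The other u: u = [] (a [] ≤ C₀ by lev, l = 0;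
lv 0 = {[]}), |u| + 2j ≥ N (at most 2j levels, ≤ 2 j C₀ by lev), child jumps (≤ C_J by JMP, |u| + 1 < N).
Everything is ≤ C κ (j + 1) ≤ C' (1/ε)^C'. -/
def T_NMT : Prop := ∀ (n : ℕ) (C₀ K : ℝ), 0 < C₀ → 1 ≤ K → ∃ C : ℝ, 1 ≤ C ∧
  ∀ (N : ℕ) (δ ε : ℝ) (f : Fin n → ℂ → ℂ) (h : Fin n → Fin n → ℂ → ℂ) (a : List D → ℝ), 1 ≤ N →
  Dat n δ f → HD n N h a C₀ → 0 < ε → ε ≤ 1 →
  ∑ u ∈ (Tp N K a).filter (fun u => NC f ε u), a u ≤ C * (1 / ε) ^ C

/-- BDW: block for `T_BAD` (defined in Defs). Hypotheses hGLL : T_GLL, hYBD : T_YBD,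
hSME : T_SME, hINC : T_INC, hMAS : T_MAS. Deliver `theorem p_BAD (hGLL : T_GLL) (hYBD : T_YBD)
(hSME : T_SME) (hINC : T_INC) (hMAS : T_MAS) : T_BAD`.

PROOF. K' = max K 8 (Tp N K a ⊆ Tp N K' a; prove the claim for K' with the same A). C1 from GLL,
κ = C1 K'^C1 ≥ 1; j ≥ 1 with κ (3/4)^j ≤ 1/100; A = 8 κ. P v := (Top K' a v and A ‖mm v‖ < a v);
E = sum over (wd (N-1)).filter P of a. YBD with c0 = 1/A, μ = ‖mm f h ·‖ as in NMT. Let P u, u = p ++ [d],
|u| + 2j < N, a u > 0 (if a u = 0 the term is 0; P u implies a u > 0 anyway). att gives i, i', y₀ with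
Psi u y₀ ∈ nodeX, 3^|u| a u ≤ |h_ii' y₀|. GLL with H = h_ii', b = a, its A = a u, its K = K' (a p ≤ K' a u as
Top K' a u, u ≠ []; up for the hypothesis on |H|): a u ≤ κ ((3/4)^j (Y_j + Y_(2j)) + sum over x ∈ lv (2j) of
|cm (u ++ x) h_ii'|), and |cm (u ++ x) h_ii'| ≤ ‖mm (u ++ x)‖ (component (i,i',none) of mm,
PiLp.norm_apply_le or EuclideanSpace.norm_... ; see P_SRS.lean), so the last sum is ≤ M_(2j) = ‖mm u‖ + I(u) ≤
a u/A + I(u). By YBD Y_j + Y_(2j) ≤ 4 A M_(2j) + S_j + S_(2j) + 2 a u ≤ 6 a u + 4 A I(u) + S_j + S_(2j)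
(M_j ≤ M_(2j)). So a u ≤ (6/100) a u + a u/8 + κ (1 + 4 A) I(u) + (1/100) (S_j(u) + S_(2j)(u)), hence
a u ≤ 2 κ (1 + 4 A) I(u) + (1/50) (S_j(u) + S_(2j)(u)). Sum over these u: INC (k = 2j) and SME (k = j, 2j):
≤ 2 κ (1 + 4 A) C_I (2j + 1) + (1/50) 4 E. The other u with P u: u = [] (≤ C₀), |u| + 2j ≥ N (≤ 2 j C₀ by lev).
So E ≤ C' + (4/50) E, E ≤ 2 C'. -/
def T_BDW : Prop := T_BAD

/-- NMW: block for `T_NMB` (defined in Defs). Hypothesis hNMT : T_NMT. Deliver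
`theorem p_NMB (hNMT : T_NMT) : T_NMB`.

PROOF. C from NMT; M₀ = a natural number ≥ C + 1 (so M₀ ≥ 2). Let M ≥ M₀ and t u = ta f u. For |u| < N:
0 ≤ t u ≤ 2 (|f_k| ≤ 1 on squareCantorᶜ, which contains the node of u: nodeX lies in the complement of
the square Cantor set, see the lemmas used in CorA/P_NC1.lean or P_MAS.lean; n = 0: t u = 0 by
Real.iSup_of_isEmpty), and if t u > 0 there are k and z in the node of u with
|f_k z - f_k (cc u)| ≥ t u/2 (exists_lt_of_lt_csSup, exists_lt_of_lt_ciSup), cc u is in the node of u, so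
NC f (t u/2) u, hence NC f ε u for every ε ≤ t u/2 (NC4_.NC_mono). For t u > 0 let r = r(u) be the least
natural number with 2^(-r) ≤ t u/2: NC f (2^(-r)) u and t u ≤ 4 * 2^(-r) (r = 0: t u ≤ 2; r ≥ 1:
t u/2 < 2^(-(r-1))). So t u^M a u ≤ 4^M 2^(-rM) a u. Group by r (for a finite set of words r(u) < R for some
R; Finset.sum_fiberwise_of_maps_to or: t u^M a u ≤ sum over r < R of (if NC f (2^(-r)) u then
4^M 2^(-rM) a u else 0)): the sum is ≤ sum over r of 4^M 2^(-rM) C (2^r)^C ≤ 4^M C sum over r of 2^(-r)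
(2^(-rM) 2^(rC) ≤ 2^(-r) because M ≥ C + 1) ≤ 2 * 4^M C. Words with t u = 0 contribute 0 (M ≥ 1). -/
def T_NMW : Prop := T_NMB

end Pool.Agent.ALQ
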